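import Pool.Agent.Work.MP_0cd883_co.Cube.Defs

/-! Module A: properties of the Irwin-Hall functions `F`, of `E` and of `Inv`. -/

namespace Pool.Agent.Work.MP_0cd883_co.Cube

open MeasureTheory Set

theorem F_succ {n : ℕ} (hn : 1 ≤ n) (t : ℝ) : F (n + 1) t = ∫ u in (0 : ℝ)..1, F n (t - u) := by
  obtain ⟨m, rfl⟩ : ∃ m, n = m + 1 := ⟨n - 1, by omega⟩
  rfl

theorem modA_F_one (t : ℝ) : F 1 t = max 0 (min t 1) := rfl

theorem modA_abs_clamp_sub_le (s t : ℝ) : |max 0 (min s 1) - max 0 (min t 1)| ≤ |s - t| := by
  have h1 : |max (0 : ℝ) (min s 1) - max 0 (min t 1)| ≤ |min s 1 - min t 1| := by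
    have := abs_max_sub_max_le_max 0 (min s 1) 0 (min t 1)
    simpa using this
  have h2 : |min s 1 - min t 1| ≤ |s - t| := by
    have := abs_min_sub_min_le_max s 1 t 1
    simpa using this
  exact h1.trans h2

theorem modA_F_lip_cont (n : ℕ) :
    (∀ s t : ℝ, |F (n + 1) s - F (n + 1) t| ≤ |s - t|) ∧ Continuous (F (n + 1)) := by
  have aux : ∀ g : ℝ → ℝ, (∀ s t : ℝ, |g s - g t| ≤ |s - t|) → Continuous g := by
    intro g hg
    have : LipschitzWith 1 g := by
      refine LipschitzWith.of_dist_le_mul fun s t => ?_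
      simpa [Real.dist_eq] using hg s t
    exact this.continuous
  induction n with
  | zero =>
      have h : ∀ s t : ℝ, |F (0 + 1) s - F (0 + 1) t| ≤ |s - t| := fun s t => modA_abs_clamp_sub_le s t
      exact ⟨h, aux _ h⟩
  | succ n ih =>
      obtain ⟨ih1, ih2⟩ := ih
      have h : ∀ s t : ℝ, |F (n + 1 + 1) s - F (n + 1 + 1) t| ≤ |s - t| := by
        intro s t
        rw [F_succ (by omega) s, F_succ (by omega) t, ← intervalIntegral.integral_sub]
        · have h3 : ‖∫ u in (0 : ℝ)..1, (F (n + 1) (s - u) - F (n + 1) (t - u))‖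
              ≤ |s - t| * |1 - 0| := by
            refine intervalIntegral.norm_integral_le_of_norm_le_const fun u _ => ?_
            have := ih1 (s - u) (t - u)
            rw [show s - u - (t - u) = s - t by ring] at this
            simpa [Real.norm_eq_abs] using this
          simpa [Real.norm_eq_abs] using h3
        · exact (ih2.comp (continuous_const.sub continuous_id)).intervalIntegrable _ _
        · exact (ih2.comp (continuous_const.sub continuous_id)).intervalIntegrable _ _
      exact ⟨h, aux _ h⟩

theorem F_lip {n : ℕ} (hn : 1 ≤ n) (s t : ℝ) : |F n s - F n t| ≤ |s - t| := by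
  obtain ⟨m, rfl⟩ : ∃ m, n = m + 1 := ⟨n - 1, by omega⟩
  exact (modA_F_lip_cont m).1 s t

theorem F_continuous {n : ℕ} (hn : 1 ≤ n) : Continuous (F n) := by
  obtain ⟨m, rfl⟩ : ∃ m, n = m + 1 := ⟨n - 1, by omega⟩
  exact (modA_F_lip_cont m).2

theorem modA_F_cont_sub {n : ℕ} (hn : 1 ≤ n) (t : ℝ) : Continuous fun u : ℝ => F n (t - u) :=
  (F_continuous hn).comp (continuous_const.sub continuous_id)

theorem modA_F_int_sub {n : ℕ} (hn : 1 ≤ n) (t a b : ℝ) :
    IntervalIntegrable (fun u : ℝ => F n (t - u)) volume a b :=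
  (modA_F_cont_sub hn t).intervalIntegrable _ _

theorem F_mono (n : ℕ) : Monotone (F n) := by
  match n with
  | 0 =>
      intro s t hst
      simp only [F]
      by_cases hs : 0 ≤ s
      · rw [if_pos hs, if_pos (hs.trans hst)]
      · rw [if_neg hs]
        split_ifs <;> norm_num
  | 1 =>
      intro s t hst
      exact max_le_max le_rfl (min_le_min hst le_rfl)
  | (n + 2) =>
      intro s t hst
      have ih := F_mono (n + 1)
      rw [F_succ (by omega) s, F_succ (by omega) t]
      refine intervalIntegral.integral_mono_on zero_le_one (modA_F_int_sub (by omega) s 0 1)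
        (modA_F_int_sub (by omega) t 0 1) fun u _ => ih (by linarith)

theorem F_nonneg (n : ℕ) (t : ℝ) : 0 ≤ F n t := by
  match n with
  | 0 =>
      simp only [F]
      split_ifs <;> norm_num
  | 1 => exact le_max_left _ _
  | (n + 2) =>
      rw [F_succ (by omega) t]
      exact intervalIntegral.integral_nonneg zero_le_one fun u _ => F_nonneg (n + 1) _

theorem F_le_one (n : ℕ) (t : ℝ) : F n t ≤ 1 := by
  match n with
  | 0 =>
      simp only [F]
      split_ifs <;> norm_num
  | 1 => exact max_le zero_le_one (min_le_right _ _)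
  | (n + 2) =>
      rw [F_succ (by omega) t]
      have h := intervalIntegral.integral_mono_on (f := fun u => F (n + 1) (t - u))
        (g := fun _ => (1 : ℝ)) (a := 0) (b := 1) (μ := volume) zero_le_one
        (modA_F_int_sub (by omega) t 0 1)
        (continuous_const.intervalIntegrable _ _) (fun u _ => F_le_one (n + 1) _)
      simpa using h

theorem F_eq_zero {n : ℕ} (hn : 1 ≤ n) {t : ℝ} (ht : t ≤ 0) : F n t = 0 := by
  obtain ⟨m, rfl⟩ : ∃ m, n = m + 1 := ⟨n - 1, by omega⟩
  clear hn
  induction m generalizing t with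
  | zero =>
      show max 0 (min t 1) = 0
      exact max_eq_left ((min_le_left _ _).trans ht)
  | succ m ih =>
      rw [F_succ (by omega) t]
      have h : ∀ u ∈ Set.uIcc (0 : ℝ) 1, F (m + 1) (t - u) = 0 := by
        intro u hu
        rw [Set.uIcc_of_le zero_le_one] at hu
        exact ih (by linarith [hu.1])
      rw [intervalIntegral.integral_congr h]
      simp

theorem F_eq_one {n : ℕ} {t : ℝ} (ht : (n : ℝ) ≤ t) : F n t = 1 := by
  match n with
  | 0 =>
      have : (0 : ℝ) ≤ t := by simpa using ht
      simp [F, this]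
  | 1 =>
      have h : (1 : ℝ) ≤ t := by simpa using ht
      show max 0 (min t 1) = 1
      rw [min_eq_right h]
      exact max_eq_right zero_le_one
  | (n + 2) =>
      rw [F_succ (by omega) t]
      have h : ∀ u ∈ Set.uIcc (0 : ℝ) 1, F (n + 1) (t - u) = 1 := by
        intro u hu
        rw [Set.uIcc_of_le zero_le_one] at hu
        refine F_eq_one ?_
        push_cast at ht ⊢
        linarith [hu.2]
      rw [intervalIntegral.integral_congr h]
      simp

theorem F_pos {n : ℕ} (hn : 1 ≤ n) {t : ℝ} (ht : 0 < t) : 0 < F n t := by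
  obtain ⟨m, rfl⟩ : ∃ m, n = m + 1 := ⟨n - 1, by omega⟩
  clear hn
  induction m generalizing t with
  | zero =>
      show 0 < max 0 (min t 1)
      exact lt_max_of_lt_right (lt_min ht zero_lt_one)
  | succ m ih =>
      rw [F_succ (by omega) t]
      refine intervalIntegral.integral_pos zero_lt_one (modA_F_cont_sub (by omega) t).continuousOn
        (fun u _ => F_nonneg _ _) ⟨0, by simp, ?_⟩
      simpa using ih ht

theorem F_symm {n : ℕ} (hn : 1 ≤ n) (t : ℝ) : F n (n - t) = 1 - F n t := by
  obtain ⟨m, rfl⟩ : ∃ m, n = m + 1 := ⟨n - 1, by omega⟩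
  clear hn
  induction m generalizing t with
  | zero =>
      show max 0 (min (((0 + 1 : ℕ) : ℝ) - t) 1) = 1 - max 0 (min t 1)
      push_cast
      rcases le_total t 0 with h | h
      · rw [min_eq_right (by linarith), min_eq_left (by linarith), max_eq_left h,
          max_eq_right zero_le_one]
        norm_num
      · rcases le_total t 1 with h1 | h1
        · rw [min_eq_left (by linarith), min_eq_left h1, max_eq_right (by linarith),
            max_eq_right h]
        · rw [min_eq_left (by linarith), min_eq_right h1, max_eq_left (by linarith),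
            max_eq_right zero_le_one]
          ring
  | succ m ih =>
      rw [F_succ (by omega) _, F_succ (by omega) t]
      have h1 : ∀ u : ℝ, F (m + 1) (((m + 1 + 1 : ℕ) : ℝ) - t - u)
          = 1 - F (m + 1) (t - (1 - u)) := by
        intro u
        have := ih (t - (1 - u))
        rw [← this]
        congr 1
        push_cast
        ring
      simp_rw [h1]
      rw [intervalIntegral.integral_sub (continuous_const.intervalIntegrable _ _)]
      · have h2 : ∫ u in (0 : ℝ)..1, F (m + 1) (t - (1 - u))
            = ∫ u in (0 : ℝ)..1, F (m + 1) (t - u) := by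
          have := intervalIntegral.integral_comp_sub_left (a := 0) (b := 1)
            (fun x : ℝ => F (m + 1) (t - x)) 1
          simpa using this
        rw [h2]
        simp
      · exact ((modA_F_cont_sub (by omega) t).comp
          (continuous_const.sub continuous_id)).intervalIntegrable _ _

theorem F_lt_one {n : ℕ} (hn : 1 ≤ n) {t : ℝ} (ht : t < n) : F n t < 1 := by
  have h1 := F_symm hn t
  have h2 : 0 < F n ((n : ℝ) - t) := F_pos hn (by linarith)
  linarith

theorem F_strictMonoOn {n : ℕ} (hn : 1 ≤ n) : StrictMonoOn (F n) (Icc 0 (n : ℝ)) := by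
  obtain ⟨m, rfl⟩ : ∃ m, n = m + 1 := ⟨n - 1, by omega⟩
  clear hn
  induction m with
  | zero =>
      intro s hs t ht hst
      obtain ⟨hs0, hs1⟩ := hs
      obtain ⟨ht0, ht1⟩ := ht
      push_cast at hs1 ht1
      show max 0 (min s 1) < max 0 (min t 1)
      rw [min_eq_left (by linarith), min_eq_left (by linarith), max_eq_right hs0,
        max_eq_right ht0]
      exact hst
  | succ m ih =>
      intro s hs t ht hst
      obtain ⟨hs0, hs1⟩ := hs
      obtain ⟨ht0, ht1⟩ := ht
      push_cast at hs1 ht1
      rw [F_succ (by omega) s, F_succ (by omega) t]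
      have hpos : 0 < ∫ u in (0 : ℝ)..1, (F (m + 1) (t - u) - F (m + 1) (s - u)) := by
        refine intervalIntegral.integral_pos zero_lt_one
          ((modA_F_cont_sub (by omega) t).sub (modA_F_cont_sub (by omega) s)).continuousOn
          (fun u _ => sub_nonneg.2 (F_mono _ (by linarith))) ?_
        rcases lt_or_ge s ((m : ℝ) + 1) with h | h
        · refine ⟨0, by simp, ?_⟩
          have h1 : F (m + 1) s < F (m + 1) (min t ((m : ℝ) + 1)) := by
            refine ih ⟨hs0, by push_cast; linarith⟩ ⟨le_min (by linarith) (by positivity), ?_⟩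
              (lt_min hst h)
            push_cast
            exact min_le_right _ _
          have h2 : F (m + 1) (min t ((m : ℝ) + 1)) ≤ F (m + 1) t := F_mono _ (min_le_left _ _)
          simp only [sub_zero]
          linarith
        · refine ⟨1, by simp, ?_⟩
          have hm : (0 : ℝ) ≤ m := Nat.cast_nonneg m
          have h1 : F (m + 1) (s - 1) < F (m + 1) (t - 1) := by
            refine ih ⟨by linarith, by push_cast; linarith⟩ ⟨by linarith, ?_⟩ (by linarith)
            push_cast
            linarith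
          linarith
      rw [intervalIntegral.integral_sub (modA_F_int_sub (by omega) t 0 1)
        (modA_F_int_sub (by omega) s 0 1)] at hpos
      linarith

/-- two arguments with the same value of `F n`, one of them in the open interval `(0, n)`, agree -/
theorem F_inj {n : ℕ} (hn : 1 ≤ n) {s t : ℝ} (hs : 0 < s) (hs' : s < n) (h : F n s = F n t) :
    s = t := by
  rcases lt_trichotomy s t with hst | hst | hst
  · exfalso
    rcases le_or_gt t n with htn | htn
    · exact absurd h (ne_of_lt (F_strictMonoOn hn ⟨hs.le, hs'.le⟩ ⟨by linarith, htn⟩ hst))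
    · have h1 : F n t = 1 := F_eq_one htn.le
      have h2 := F_lt_one hn hs'
      linarith
  · exact hst
  · exfalso
    rcases le_or_gt 0 t with ht | ht
    · exact absurd h (ne_of_gt (F_strictMonoOn hn ⟨ht, by linarith⟩ ⟨hs.le, hs'.le⟩ hst))
    · have h1 : F n t = 0 := F_eq_zero hn ht.le
      have h2 := F_pos hn hs
      linarith

theorem F_two {t : ℝ} (h0 : 0 ≤ t) (h1 : t ≤ 1) : F 2 t = t ^ 2 / 2 := by
  rw [F_succ le_rfl t]
  rw [← intervalIntegral.integral_add_adjacent_intervals (a := 0) (b := t) (c := 1)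
    (modA_F_int_sub le_rfl t 0 t) (modA_F_int_sub le_rfl t t 1)]
  have e1 : ∫ u in (0 : ℝ)..t, F 1 (t - u) = ∫ u in (0 : ℝ)..t, (t - u) := by
    refine intervalIntegral.integral_congr fun u hu => ?_
    rw [Set.uIcc_of_le h0] at hu
    show max 0 (min (t - u) 1) = t - u
    rw [min_eq_left (by linarith [hu.1]), max_eq_right (by linarith [hu.2])]
  have e2 : ∫ u in t..1, F 1 (t - u) = ∫ u in t..1, (0 : ℝ) := by
    refine intervalIntegral.integral_congr fun u hu => ?_
    rw [Set.uIcc_of_le h1] at hu
    exact F_eq_zero le_rfl (by linarith [hu.1])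
  have e3 : ∫ u in (0 : ℝ)..t, (t - u) = (∫ u in (0 : ℝ)..t, t) - ∫ u in (0 : ℝ)..t, u :=
    intervalIntegral.integral_sub (continuous_const.intervalIntegrable _ _)
      (continuous_id.intervalIntegrable _ _)
  rw [e1, e2, e3]
  simp [integral_id]
  ring

theorem E_succ {n : ℕ} (hn : 1 ≤ n) (t : ℝ) :
    E (n + 1) t = ∫ v in (0 : ℝ)..1, (v * F n (t - v) + E n (t - v)) := by
  obtain ⟨m, rfl⟩ : ∃ m, n = m + 1 := ⟨n - 1, by omega⟩
  rfl

theorem E_continuous {n : ℕ} (hn : 1 ≤ n) : Continuous (E n) := by
  obtain ⟨m, rfl⟩ : ∃ m, n = m + 1 := ⟨n - 1, by omega⟩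
  clear hn
  induction m with
  | zero =>
      show Continuous fun t : ℝ => (max 0 (min t 1)) ^ 2 / 2
      fun_prop
  | succ m ih =>
      have hF := F_continuous (n := m + 1) (by omega)
      have h : E (m + 1 + 1)
          = fun t => ∫ v in (0 : ℝ)..1, (v * F (m + 1) (t - v) + E (m + 1) (t - v)) := by
        funext t
        exact E_succ (by omega) t
      rw [h]
      refine intervalIntegral.continuous_parametric_intervalIntegral_of_continuous' ?_ 0 1
      exact (continuous_snd.mul (hF.comp (continuous_fst.sub continuous_snd))).add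
        (ih.comp (continuous_fst.sub continuous_snd))

theorem E_bound {n : ℕ} (hn : 1 ≤ n) (t : ℝ) : |E n t| ≤ n := by
  obtain ⟨m, rfl⟩ : ∃ m, n = m + 1 := ⟨n - 1, by omega⟩
  clear hn
  induction m generalizing t with
  | zero =>
      show |(max 0 (min t 1)) ^ 2 / 2| ≤ ((0 + 1 : ℕ) : ℝ)
      have h0 : (0 : ℝ) ≤ max 0 (min t 1) := le_max_left _ _
      have h1 : max 0 (min t 1) ≤ (1 : ℝ) := max_le zero_le_one (min_le_right _ _)
      rw [abs_of_nonneg (by positivity)]
      push_cast
      nlinarith
  | succ m ih =>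
      rw [E_succ (by omega) t]
      have h3 : ‖∫ v in (0 : ℝ)..1, (v * F (m + 1) (t - v) + E (m + 1) (t - v))‖
          ≤ ((m + 1 + 1 : ℕ) : ℝ) * |1 - 0| := by
        refine intervalIntegral.norm_integral_le_of_norm_le_const fun v hv => ?_
        rw [Set.uIoc_of_le zero_le_one] at hv
        have h4 : |v * F (m + 1) (t - v)| ≤ 1 := by
          rw [abs_mul, abs_of_nonneg hv.1.le, abs_of_nonneg (F_nonneg _ _)]
          exact mul_le_one₀ hv.2 (F_nonneg _ _) (F_le_one _ _)
        have h5 := ih (t - v)
        rw [Real.norm_eq_abs]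
        refine (abs_add_le _ _).trans ?_
        push_cast at h5 ⊢
        linarith
      simpa [Real.norm_eq_abs] using h3

theorem modA_sq_integral_le {g : ℝ → ℝ} (hg : Continuous g) :
    (∫ v in (0 : ℝ)..1, g v) ^ 2 ≤ ∫ v in (0 : ℝ)..1, g v ^ 2 := by
  set c : ℝ := ∫ v in (0 : ℝ)..1, g v with hc
  have h1 : 0 ≤ ∫ v in (0 : ℝ)..1, (g v - c) ^ 2 :=
    intervalIntegral.integral_nonneg zero_le_one fun v _ => sq_nonneg _
  have h2 : ∫ v in (0 : ℝ)..1, (g v - c) ^ 2
      = (∫ v in (0 : ℝ)..1, g v ^ 2) - c ^ 2 := by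
    have h3 : ∀ v : ℝ, (g v - c) ^ 2 = g v ^ 2 - (2 * c * g v - c ^ 2) := fun v => by ring
    simp_rw [h3]
    have i1 : IntervalIntegrable (fun v : ℝ => g v ^ 2) volume 0 1 :=
      (hg.pow 2).intervalIntegrable _ _
    have i2 : IntervalIntegrable (fun v : ℝ => 2 * c * g v) volume 0 1 :=
      (continuous_const.mul hg).intervalIntegrable _ _
    have i3 : IntervalIntegrable (fun _ : ℝ => c ^ 2) volume 0 1 :=
      continuous_const.intervalIntegrable _ _
    rw [intervalIntegral.integral_sub i1 (i2.sub i3), intervalIntegral.integral_sub i2 i3,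
      intervalIntegral.integral_const_mul, ← hc]
    simp
    ring
  linarith

/-- the key inequality -/
theorem E_key {n : ℕ} (hn : 1 ≤ n) (t t' : ℝ) :
    (F n t - F n t') ^ 2 / 2 ≤ E n t - E n t' - t' * (F n t - F n t') := by
  obtain ⟨m, rfl⟩ : ∃ m, n = m + 1 := ⟨n - 1, by omega⟩
  clear hn
  induction m generalizing t t' with
  | zero =>
      show (max 0 (min t 1) - max 0 (min t' 1)) ^ 2 / 2
        ≤ (max 0 (min t 1)) ^ 2 / 2 - (max 0 (min t' 1)) ^ 2 / 2
          - t' * (max 0 (min t 1) - max 0 (min t' 1))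
      have key : 0 ≤ (max 0 (min t 1) - max 0 (min t' 1)) * (max 0 (min t' 1) - t') := by
        have hc0 : (0 : ℝ) ≤ max 0 (min t 1) := le_max_left _ _
        have hc1 : max 0 (min t 1) ≤ (1 : ℝ) := max_le zero_le_one (min_le_right _ _)
        rcases le_total t' 0 with h | h
        · rw [min_eq_left (show t' ≤ 1 by linarith), max_eq_left h]
          exact mul_nonneg (by linarith) (by linarith)
        · rcases le_total t' 1 with h1 | h1
          · rw [min_eq_left h1, max_eq_right h]
            simp
          · rw [min_eq_right h1, max_eq_right (zero_le_one' ℝ)]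
            exact mul_nonneg_of_nonpos_of_nonpos (by linarith) (by linarith)
      nlinarith [key]
  | succ m ih =>
      have hFt := modA_F_cont_sub (n := m + 1) (by omega) t
      have hFt' := modA_F_cont_sub (n := m + 1) (by omega) t'
      have hEt : Continuous fun v : ℝ => E (m + 1) (t - v) :=
        (E_continuous (by omega)).comp (continuous_const.sub continuous_id)
      have hEt' : Continuous fun v : ℝ => E (m + 1) (t' - v) :=
        (E_continuous (by omega)).comp (continuous_const.sub continuous_id)
      have hd : F (m + 1 + 1) t - F (m + 1 + 1) t'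
          = ∫ v in (0 : ℝ)..1, (F (m + 1) (t - v) - F (m + 1) (t' - v)) := by
        rw [intervalIntegral.integral_sub (hFt.intervalIntegrable _ _)
          (hFt'.intervalIntegrable _ _), F_succ (by omega) t, F_succ (by omega) t']
      have hE : E (m + 1 + 1) t - E (m + 1 + 1) t'
          - t' * (F (m + 1 + 1) t - F (m + 1 + 1) t')
          = ∫ v in (0 : ℝ)..1, (E (m + 1) (t - v) - E (m + 1) (t' - v)
            - (t' - v) * (F (m + 1) (t - v) - F (m + 1) (t' - v))) := by
        rw [hd, E_succ (by omega) t, E_succ (by omega) t',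
          ← intervalIntegral.integral_const_mul, ← intervalIntegral.integral_sub,
          ← intervalIntegral.integral_sub]
        · refine intervalIntegral.integral_congr fun v _ => ?_
          ring
        · exact (((continuous_id.mul hFt).add hEt).sub
            ((continuous_id.mul hFt').add hEt')).intervalIntegrable _ _
        · exact (continuous_const.mul (hFt.sub hFt')).intervalIntegrable _ _
        · exact ((continuous_id.mul hFt).add hEt).intervalIntegrable _ _
        · exact ((continuous_id.mul hFt').add hEt').intervalIntegrable _ _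
      rw [hE, hd]
      have h1 : (∫ v in (0 : ℝ)..1, (F (m + 1) (t - v) - F (m + 1) (t' - v))) ^ 2 / 2
          ≤ ∫ v in (0 : ℝ)..1, ((F (m + 1) (t - v) - F (m + 1) (t' - v)) ^ 2 / 2) := by
        rw [intervalIntegral.integral_div]
        exact div_le_div_of_nonneg_right (modA_sq_integral_le (hFt.sub hFt')) (by norm_num)
      refine h1.trans ?_
      refine intervalIntegral.integral_mono_on zero_le_one
        ((((hFt.sub hFt').pow 2).div_const 2).intervalIntegrable _ _) ?_
        fun v _ => ih (t - v) (t' - v)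
      exact ((hEt.sub hEt').sub ((continuous_const.sub continuous_id).mul
        (hFt.sub hFt'))).intervalIntegrable _ _

theorem modA_G_continuous {n : ℕ} (hn : 1 ≤ n) : Continuous (G n) := by
  have := F_continuous hn
  unfold G
  fun_prop

theorem modA_G_strictMono {n : ℕ} (hn : 1 ≤ n) : StrictMono (G n) := by
  intro s t hst
  unfold G
  have h1 : F n s ≤ F n t := F_mono n hst.le
  have h2 : min s 0 ≤ min t 0 := min_le_min hst.le le_rfl
  have h3 : max (s - n) 0 ≤ max (t - n) 0 := max_le_max (by linarith) le_rfl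
  rcases lt_or_ge s 0 with hs | hs
  · have h4 : min s 0 < min t 0 := by
      rw [min_eq_left hs.le]
      exact lt_min hst hs
    linarith
  · rcases le_or_gt t n with ht | ht
    · have h5 : F n s < F n t := F_strictMonoOn hn ⟨hs, by linarith⟩ ⟨by linarith, ht⟩ hst
      linarith
    · have h6 : max (s - n) 0 < max (t - n) 0 := by
        rw [max_eq_left (show (0 : ℝ) ≤ t - n by linarith)]
        exact max_lt (by linarith) (by linarith)
      linarith

theorem modA_G_surjective {n : ℕ} (hn : 1 ≤ n) : Function.Surjective (G n) := by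
  refine (modA_G_continuous hn).surjective ?_ ?_
  · refine Filter.tendsto_atTop_mono (f := fun t : ℝ => t + -(n : ℝ)) (fun t => ?_) ?_
    · unfold G
      have h1 := F_nonneg n t
      rcases le_total t 0 with h | h
      · rw [min_eq_left h]
        have h2 : (0 : ℝ) ≤ max (t - n) 0 := le_max_right _ _
        have hn' : (0 : ℝ) ≤ n := Nat.cast_nonneg n
        linarith
      · rw [min_eq_right h]
        have h2 : (t - n : ℝ) ≤ max (t - n) 0 := le_max_left _ _
        linarith
    · exact Filter.tendsto_atTop_add_const_right _ _ Filter.tendsto_id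
  · have hlim : Filter.Tendsto (fun t : ℝ => t + (1 + (n : ℝ))) Filter.atBot Filter.atBot :=
      Filter.tendsto_atBot_add_const_right _ _ Filter.tendsto_id
    refine Filter.tendsto_atBot_mono (fun t => ?_) hlim
    unfold G
    have h1 := F_le_one n t
    have hn' : (0 : ℝ) ≤ n := Nat.cast_nonneg n
    rcases le_total t n with h | h
    · rw [max_eq_right (by linarith)]
      have h2 : min t 0 ≤ t := min_le_left _ _
      linarith
    · rw [max_eq_left (by linarith)]
      have h2 : min t 0 ≤ 0 := min_le_right _ _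
      linarith

theorem modA_G_Inv {n : ℕ} (hn : 1 ≤ n) (y : ℝ) : G n (Inv n y) = y :=
  Function.invFun_eq (modA_G_surjective hn y)

theorem modA_Inv_G {n : ℕ} (hn : 1 ≤ n) (t : ℝ) : Inv n (G n t) = t :=
  (modA_G_strictMono hn).injective (modA_G_Inv hn _)

theorem Inv_strictMono {n : ℕ} (hn : 1 ≤ n) : StrictMono (Inv n) := by
  intro y z hyz
  rw [← (modA_G_strictMono hn).lt_iff_lt, modA_G_Inv hn, modA_G_Inv hn]
  exact hyz

theorem Inv_continuous {n : ℕ} (hn : 1 ≤ n) : Continuous (Inv n) := by
  refine (Inv_strictMono hn).monotone.continuous_of_surjective fun t => ⟨G n t, modA_Inv_G hn t⟩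

theorem modA_G_zero {n : ℕ} (hn : 1 ≤ n) : G n 0 = 0 := by
  unfold G
  rw [F_eq_zero hn le_rfl, min_self, max_eq_right (by simp)]
  simp

theorem modA_G_nat {n : ℕ} : G n n = 1 := by
  unfold G
  rw [F_eq_one le_rfl, min_eq_right (Nat.cast_nonneg n)]
  simp

theorem modA_G_eq {n : ℕ} {t : ℝ} (h0 : 0 ≤ t) (h1 : t ≤ n) : G n t = F n t := by
  unfold G
  rw [min_eq_right h0, max_eq_right (by linarith)]
  ring

theorem Inv_nonneg {n : ℕ} (hn : 1 ≤ n) {y : ℝ} (h0 : 0 ≤ y) : 0 ≤ Inv n y := by
  rw [← (modA_G_strictMono hn).le_iff_le, modA_G_Inv hn, modA_G_zero hn]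
  exact h0

theorem Inv_le {n : ℕ} (hn : 1 ≤ n) {y : ℝ} (h1 : y ≤ 1) : Inv n y ≤ n := by
  rw [← (modA_G_strictMono hn).le_iff_le, modA_G_Inv hn, modA_G_nat]
  exact h1

theorem F_Inv {n : ℕ} (hn : 1 ≤ n) {y : ℝ} (h0 : 0 ≤ y) (h1 : y ≤ 1) : F n (Inv n y) = y := by
  rw [← modA_G_eq (Inv_nonneg hn h0) (Inv_le hn h1), modA_G_Inv hn]

theorem Inv_F {n : ℕ} (hn : 1 ≤ n) {t : ℝ} (h0 : 0 ≤ t) (h1 : t ≤ n) : Inv n (F n t) = t := by
  rw [← modA_G_eq h0 h1, modA_Inv_G hn]

end Pool.Agent.Work.MP_0cd883_co.Cube
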