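import Pool.Agent.Work.MP_0cd883_co.Defs
import Pool.Agent.Work.MP_0cd883_co.Cube.ModA

/-! The case `d = 1`. -/

namespace Pool.Agent.Work.MP_0cd883_co.Cube

open Finset

/-- upper bound: the maximal element -/
theorem modD1x_upper {N : ℕ} {A : Finset (Fin 1 → ℕ)} (hA : A ⊆ grid 1 N) (hs : SumFree A) :
    2 * A.card ≤ N + 1 := by
  rcases A.eq_empty_or_nonempty with rfl | hne
  · simp
  obtain ⟨z, hz, hmax⟩ := A.exists_max_image (fun x => x 0) hne
  have hrange : ∀ x ∈ A, 1 ≤ x 0 ∧ x 0 ≤ N := by
    intro x hx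
    have h1 := hA hx
    rw [grid, Fintype.mem_piFinset] at h1
    exact mem_Icc.mp (h1 0)
  have hext : ∀ x y : Fin 1 → ℕ, x 0 = y 0 → x = y := by
    intro x y h
    funext i
    rw [Subsingleton.elim i 0, h]
  -- `A ∖ {z}` and its reflection are disjoint subsets of `[1, z - 1]`
  obtain ⟨B, hB⟩ : ∃ B, B = (A.erase z).image (fun x => x 0) := ⟨_, rfl⟩
  obtain ⟨B', hB'⟩ : ∃ B', B' = (A.erase z).image (fun x => z 0 - x 0) := ⟨_, rfl⟩
  have hlt : ∀ x ∈ A.erase z, x 0 < z 0 := by
    intro x hx
    rw [mem_erase] at hx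
    have h1 := hmax x hx.2
    rcases h1.lt_or_eq with h2 | h2
    · exact h2
    · exact absurd (hext x z h2) hx.1
  have hBc : B.card = A.card - 1 := by
    rw [hB, card_image_of_injOn, card_erase_of_mem hz]
    intro x _ y _ hxy
    exact hext x y hxy
  have hBc' : B'.card = A.card - 1 := by
    rw [hB', card_image_of_injOn, card_erase_of_mem hz]
    intro x hx y hy hxy
    have h1 := hlt x hx
    have h2 := hlt y hy
    refine hext x y ?_
    simp only at hxy
    omega
  have hdisj : Disjoint B B' := by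
    rw [disjoint_left]
    intro v hv hv'
    rw [hB, mem_image] at hv
    rw [hB', mem_image] at hv'
    obtain ⟨x, hx, hxv⟩ := hv
    obtain ⟨y, hy, hyv⟩ := hv'
    have h1 := hlt y hy
    refine hs x (mem_of_mem_erase hx) y (mem_of_mem_erase hy) z hz (hext _ _ ?_)
    rw [Pi.add_apply]
    omega
  have hsub : B ∪ B' ⊆ Icc 1 (z 0 - 1) := by
    intro v hv
    rw [mem_union] at hv
    rw [mem_Icc]
    rcases hv with hv | hv
    · rw [hB, mem_image] at hv
      obtain ⟨x, hx, hxv⟩ := hv
      have h1 := hlt x hx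
      have h2 := hrange x (mem_of_mem_erase hx)
      omega
    · rw [hB', mem_image] at hv
      obtain ⟨x, hx, hxv⟩ := hv
      have h1 := hlt x hx
      have h2 := hrange x (mem_of_mem_erase hx)
      omega
  have hcard := card_le_card hsub
  rw [card_union_of_disjoint hdisj, hBc, hBc', Nat.card_Icc] at hcard
  have h1 := hrange z hz
  have h2 : 0 < A.card := card_pos.mpr hne
  omega

/-- `s_1(N) = N/2 + O(1)` -/
theorem one_dim (N : ℕ) (hN : 1 ≤ N) : |(maxSumFree 1 N : ℝ) - N / 2| ≤ 1 := by
  classical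
  have hup : 2 * maxSumFree 1 N ≤ N + 1 := by
    have h1 : maxSumFree 1 N ≤ (N + 1) / 2 := by
      rw [maxSumFree]
      refine Finset.sup_le (fun A hA => ?_)
      rw [mem_filter, mem_powerset] at hA
      have := modD1x_upper hA.1 hA.2
      omega
    omega
  have hlow : N ≤ 2 * maxSumFree 1 N := by
    obtain ⟨A, hA⟩ : ∃ A, A = (Ioc (N / 2) N).image (fun v => fun _ : Fin 1 => v) := ⟨_, rfl⟩
    have hc : A.card = N - N / 2 := by
      rw [hA, card_image_of_injective, Nat.card_Ioc]
      intro v w h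
      exact congrFun h 0
    have hmem : A ∈ (grid 1 N).powerset.filter fun A => SumFree A := by
      rw [mem_filter, mem_powerset]
      constructor
      · intro x hx
        rw [hA, mem_image] at hx
        obtain ⟨v, hv, rfl⟩ := hx
        rw [mem_Ioc] at hv
        rw [grid, Fintype.mem_piFinset]
        intro i
        rw [mem_Icc]
        omega
      · intro x hx y hy z hz hxyz
        rw [hA, mem_image] at hx hy hz
        obtain ⟨u, hu, rfl⟩ := hx
        obtain ⟨v, hv, rfl⟩ := hy
        obtain ⟨w, hw, rfl⟩ := hz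
        rw [mem_Ioc] at hu hv hw
        have h1 := congrFun hxyz 0
        simp only [Pi.add_apply] at h1
        omega
    have h1 : A.card ≤ maxSumFree 1 N := by
      rw [maxSumFree]
      exact Finset.le_sup (f := Finset.card) hmem
    omega
  have hup' : 2 * (maxSumFree 1 N : ℝ) ≤ N + 1 := by exact_mod_cast hup
  have hlow' : (N : ℝ) ≤ 2 * maxSumFree 1 N := by exact_mod_cast hlow
  rw [abs_le]
  constructor <;> linarith

/-- `F 1 t + F 1 (1 - 2 t)` has the unique minimiser `1/2` -/
theorem one_min (t : ℝ) (ht : t ≠ 1 / 2) : 1 / 2 < F 1 t + F 1 (1 - 2 * t) := by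
  rw [modA_F_one, modA_F_one]
  rcases lt_or_gt_of_ne ht with h | h
  · rcases le_or_gt t 0 with h0 | h0
    · have h1 : min (1 - 2 * t) 1 = 1 := min_eq_right (by linarith)
      have h2 : (0 : ℝ) ≤ max 0 (min t 1) := le_max_left _ _
      rw [h1, max_eq_right (by norm_num : (0 : ℝ) ≤ 1)]
      linarith
    · rw [min_eq_left (by linarith : t ≤ 1), min_eq_left (by linarith : 1 - 2 * t ≤ 1),
        max_eq_right h0.le, max_eq_right (by linarith : (0 : ℝ) ≤ 1 - 2 * t)]
      linarith
  · have h2 : (0 : ℝ) ≤ max 0 (min (1 - 2 * t) 1) := le_max_left _ _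
    have h3 : 1 / 2 < max 0 (min t 1) := lt_max_of_lt_right (lt_min h (by norm_num))
    linarith

end Pool.Agent.Work.MP_0cd883_co.Cube
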