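import Pool.Agent.Work.MP_0cd883_co.Cube.ModI
import Pool.Agent.Work.MP_0cd883_co.PlaneMain

/-! Dimension 2: from the exact value `⌊3 N (N + 1) / 5⌋`. -/

namespace Pool.Agent.Work.MP_0cd883_co.Cube

theorem two_dim (N : ℕ) (hN : 1 ≤ N) :
    |(maxSumFree 2 N : ℝ) - (1 - F 2 (4 / 5) - F 2 (2 - 2 * (4 / 5))) * (N : ℝ) ^ 2| ≤ 2 * (N : ℝ) := by
  rw [F_two (by norm_num) (by norm_num), F_two (by norm_num) (by norm_num),
    Plane.maxSumFree_two]
  have h1 : 3 * N * (N + 1) / 5 * 5 ≤ 3 * N * (N + 1) := Nat.div_mul_le_self _ _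
  have h2 : 3 * N * (N + 1) < (3 * N * (N + 1) / 5 + 1) * 5 := by
    have := Nat.lt_div_mul_add (a := 3 * N * (N + 1)) (b := 5) (by norm_num)
    omega
  have h1' : ((3 * N * (N + 1) / 5 : ℕ) : ℝ) * 5 ≤ 3 * N * (N + 1) := by exact_mod_cast h1
  have h2' : (3 * N * (N + 1) : ℝ) < (((3 * N * (N + 1) / 5 : ℕ) : ℝ) + 1) * 5 := by exact_mod_cast h2
  have hN' : (1 : ℝ) ≤ N := by exact_mod_cast hN
  set M : ℝ := ((3 * N * (N + 1) / 5 : ℕ) : ℝ) with hM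
  rw [abs_le]
  constructor <;> nlinarith

theorem two_crit : f 2 (4 / 5) = 2 * f 2 (2 / 5) := by
  rw [ModI.f_two_left (by norm_num) (by norm_num), ModI.f_two_left (by norm_num) (by norm_num)]
  norm_num

end Pool.Agent.Work.MP_0cd883_co.Cube
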