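import Pool.Agent.Work.MP_0cd883_co.Cube.ModA

/-! Module F: the explicit formula for the Irwin-Hall distribution function. -/

namespace Pool.Agent.Work.MP_0cd883_co.Cube

open MeasureTheory Set Finset

/-- derivative of the truncated power -/
theorem hasDerivAt_truncPow {n : ℕ} (hn : 1 ≤ n) (x : ℝ) :
    HasDerivAt (fun x : ℝ => (max x 0) ^ (n + 1)) ((n + 1) * (max x 0) ^ n) x := by
  rcases lt_trichotomy x 0 with hx | hx | hx
  · have h0 : (fun x : ℝ => (max x 0) ^ (n + 1)) =ᶠ[nhds x] fun _ => 0 := by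
      filter_upwards [Iio_mem_nhds hx] with y hy
      rw [max_eq_right (le_of_lt hy), zero_pow (by omega)]
    rw [max_eq_right hx.le, zero_pow (by omega), mul_zero]
    exact (hasDerivAt_const x (0 : ℝ)).congr_of_eventuallyEq h0
  · subst hx
    rw [max_self, zero_pow (by omega), mul_zero, hasDerivAt_iff_isLittleO_nhds_zero]
    simp only [zero_add, max_self, smul_zero, sub_zero]
    rw [zero_pow (by omega)]
    simp only [sub_zero]
    have h1 : (fun h : ℝ => (max h 0) ^ (n + 1)) =O[nhds 0] fun h : ℝ => h ^ (n + 1) := by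
      refine Asymptotics.IsBigO.of_bound 1 (Filter.Eventually.of_forall fun h => ?_)
      rw [one_mul, norm_pow, norm_pow]
      refine pow_le_pow_left₀ (norm_nonneg _) ?_ _
      rw [Real.norm_eq_abs, Real.norm_eq_abs]
      rcases le_total h 0 with hh | hh
      · rw [max_eq_right hh, abs_zero]; exact abs_nonneg h
      · rw [max_eq_left hh]
    exact h1.trans_isLittleO (Asymptotics.isLittleO_pow_id (by omega))
  · have h0 : (fun x : ℝ => (max x 0) ^ (n + 1)) =ᶠ[nhds x] fun x => x ^ (n + 1) := by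
      filter_upwards [Ioi_mem_nhds hx] with y hy
      rw [max_eq_left (le_of_lt hy)]
    rw [max_eq_left hx.le]
    have h1 := hasDerivAt_pow (n + 1) x
    refine HasDerivAt.congr_of_eventuallyEq ?_ h0
    refine h1.congr_deriv ?_
    push_cast
    rfl

theorem integral_truncPow {n : ℕ} (hn : 1 ≤ n) (s : ℝ) :
    ∫ u in (0 : ℝ)..1, (max (s - u) 0) ^ n =
      ((max s 0) ^ (n + 1) - (max (s - 1) 0) ^ (n + 1)) / (n + 1) := by
  have hn' : (n : ℝ) + 1 ≠ 0 := by positivity
  have hd : ∀ u ∈ Set.uIcc (0 : ℝ) 1,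
      HasDerivAt (fun u : ℝ => -((max (s - u) 0) ^ (n + 1) / (n + 1))) ((max (s - u) 0) ^ n) u := by
    intro u _
    have h1 := (hasDerivAt_truncPow hn (s - u)).scomp u ((hasDerivAt_id u).const_sub s)
    have h2 := (h1.div_const ((n : ℝ) + 1)).neg
    refine HasDerivAt.congr_deriv (f := fun u : ℝ => -((max (s - u) 0) ^ (n + 1) / (n + 1))) h2 ?_
    rw [smul_eq_mul]
    field_simp
  rw [intervalIntegral.integral_eq_sub_of_hasDerivAt hd
    (Continuous.intervalIntegrable (by fun_prop) _ _)]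
  rw [sub_zero]
  ring

theorem F_formula {n : ℕ} (hn : 1 ≤ n) (t : ℝ) :
    F n t = (1 / (n.factorial : ℝ)) *
      ∑ k ∈ range (n + 1), (-1 : ℝ) ^ k * (n.choose k : ℝ) * (max (t - k) 0) ^ n := by
  obtain ⟨m, rfl⟩ : ∃ m, n = m + 1 := ⟨n - 1, by omega⟩
  clear hn
  induction m generalizing t with
  | zero =>
    simp only [F, zero_add, Nat.factorial_one, Nat.cast_one, div_one, one_mul]
    rw [sum_range_succ, sum_range_one]
    simp only [pow_zero, pow_one, Nat.choose_zero_right, Nat.choose_self, Nat.cast_one, one_mul,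
      mul_one, Nat.cast_zero, sub_zero]
    rcases le_total t 0 with h | h
    · rw [min_eq_left (by linarith), max_eq_left h, max_eq_right h, max_eq_right (by linarith)]
      ring
    · rcases le_total t 1 with h1 | h1
      · rw [min_eq_left h1, max_eq_right h, max_eq_left h, max_eq_right (by linarith)]
        ring
      · rw [min_eq_right h1, max_eq_right zero_le_one, max_eq_left h, max_eq_left (by linarith)]
        ring
  | succ m ih =>
    have h1 : F (m + 1 + 1) t = ∫ u in (0 : ℝ)..1, (1 / ((m + 1).factorial : ℝ)) *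
        ∑ k ∈ range (m + 1 + 1), (-1 : ℝ) ^ k * ((m + 1).choose k : ℝ) *
          (max (t - k - u) 0) ^ (m + 1) := by
      rw [F_succ (by omega)]
      refine intervalIntegral.integral_congr fun u _ => ?_
      rw [ih (t - u)]
      congr 1
      refine sum_congr rfl fun k _ => ?_
      rw [sub_right_comm]
    rw [h1, intervalIntegral.integral_const_mul, intervalIntegral.integral_finsetSum
      fun k _ => Continuous.intervalIntegrable (by fun_prop) _ _]
    have h2 : ∀ k ∈ range (m + 1 + 1), (∫ u in (0 : ℝ)..1, (-1 : ℝ) ^ k * ((m + 1).choose k : ℝ) *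
          (max (t - k - u) 0) ^ (m + 1)) =
        (1 / ((m + 1 : ℕ) + 1 : ℝ)) * ((-1 : ℝ) ^ k * ((m + 1).choose k : ℝ) *
          ((max (t - k) 0) ^ (m + 1 + 1)) - (-1 : ℝ) ^ k * ((m + 1).choose k : ℝ) *
          (max (t - (k + 1 : ℕ)) 0) ^ (m + 1 + 1)) := by
      intro k _
      rw [intervalIntegral.integral_const_mul, integral_truncPow (by omega)]
      push_cast
      rw [show t - (k : ℝ) - 1 = t - (k + 1) by ring]
      ring
    rw [sum_congr rfl h2, ← mul_sum, ← mul_assoc]
    have h3 : (1 / ((m + 1).factorial : ℝ)) * (1 / ((m + 1 : ℕ) + 1 : ℝ)) =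
        1 / ((m + 1 + 1).factorial : ℝ) := by
      rw [Nat.factorial_succ (m + 1)]
      push_cast
      rw [one_div_mul_one_div, mul_comm]
    rw [h3]
    congr 1
    -- the telescoping of binomials
    rw [sum_sub_distrib, sum_range_succ' _ (m + 1 + 1)]
    simp only [Nat.choose_zero_right, pow_zero, Nat.cast_one, Nat.cast_zero, sub_zero, one_mul]
    rw [sum_range_succ' (fun k : ℕ => (-1 : ℝ) ^ k * ((m + 1).choose k : ℝ) *
          ((max (t - k) 0) ^ (m + 1 + 1))) (m + 1)]
    simp only [Nat.choose_zero_right, pow_zero, Nat.cast_one, Nat.cast_zero, sub_zero, one_mul]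
    have h4 : ∑ k ∈ range (m + 1 + 1), (-1 : ℝ) ^ (k + 1) * ((m + 1 + 1).choose (k + 1) : ℝ) *
          (max (t - (k + 1 : ℕ)) 0) ^ (m + 1 + 1) =
        ∑ k ∈ range (m + 1 + 1), (-1 : ℝ) ^ (k + 1) * ((m + 1).choose (k + 1) : ℝ) *
          (max (t - (k + 1 : ℕ)) 0) ^ (m + 1 + 1) -
        ∑ k ∈ range (m + 1 + 1), (-1 : ℝ) ^ k * ((m + 1).choose k : ℝ) *
          (max (t - (k + 1 : ℕ)) 0) ^ (m + 1 + 1) := by
      rw [← sum_sub_distrib]
      refine sum_congr rfl fun k _ => ?_
      rw [Nat.choose_succ_succ (m + 1) k]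
      push_cast
      ring
    have h5 : ∑ k ∈ range (m + 1 + 1), (-1 : ℝ) ^ (k + 1) * ((m + 1).choose (k + 1) : ℝ) *
          (max (t - (k + 1 : ℕ)) 0) ^ (m + 1 + 1) =
        ∑ k ∈ range (m + 1), (-1 : ℝ) ^ (k + 1) * ((m + 1).choose (k + 1) : ℝ) *
          (max (t - (k + 1 : ℕ)) 0) ^ (m + 1 + 1) := by
      rw [sum_range_succ, Nat.choose_eq_zero_of_lt (by omega)]
      simp
    rw [h4, h5]
    ring

end Pool.Agent.Work.MP_0cd883_co.Cube
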