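import Pool.Agent.Work.MP_0cd883_co.Cube.ModM

/-! Module L2: integration of the level functions `Lv` over the level. -/

namespace Pool.Agent.Work.MP_0cd883_co.Cube

open MeasureTheory Set

theorem modL2_ind_nonneg (p : Prop) : 0 ≤ ind p := by
  unfold ind; split_ifs <;> norm_num

theorem modL2_ind_le_one (p : Prop) : ind p ≤ 1 := by
  unfold ind; split_ifs <;> norm_num

theorem modL2_ind_true {p : Prop} (h : p) : ind p = 1 := by
  unfold ind; rw [if_pos h]

theorem modL2_ind_false {p : Prop} (h : ¬p) : ind p = 0 := by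
  unfold ind; rw [if_neg h]

theorem modL2_ind_mono {p q : Prop} (h : p → q) : ind p ≤ ind q := by
  by_cases hp : p
  · rw [modL2_ind_true hp, modL2_ind_true (h hp)]
  · rw [modL2_ind_false hp]; exact modL2_ind_nonneg q

theorem modL2_mono (a s : ℝ) : Monotone fun r : ℝ => ind (a ≤ r + s) := by
  intro r r' h
  exact modL2_ind_mono fun h' => by linarith

theorem modL2_ii (a s α β : ℝ) : IntervalIntegrable (fun r : ℝ => ind (a ≤ r + s)) volume α β :=
  (modL2_mono a s).intervalIntegrable

/-- the length of `[α, β] ∩ [a - s, ∞)` -/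
theorem modL2_int (a s : ℝ) {α β : ℝ} (h : α ≤ β) :
    ∫ r in α..β, ind (a ≤ r + s) = max 0 (min (β - α) (β - a + s)) := by
  rcases le_total (a - s) α with h1 | h1
  · have e : ∫ r in α..β, ind (a ≤ r + s) = ∫ r in α..β, (1 : ℝ) := by
      refine intervalIntegral.integral_congr fun r hr => ?_
      rw [Set.uIcc_of_le h] at hr
      exact modL2_ind_true (by linarith [hr.1])
    rw [e, intervalIntegral.integral_const, min_eq_left (by linarith), max_eq_right (by linarith)]
    simp
  · rcases le_total β (a - s) with h2 | h2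
    · have e : ∫ r in α..β, ind (a ≤ r + s) = ∫ r in α..β, (0 : ℝ) := by
        refine intervalIntegral.integral_congr_ae ?_
        have hne : ∀ᵐ r : ℝ, r ≠ β := by
          simp [ae_iff]
        filter_upwards [hne] with r hr hmem
        rw [Set.uIoc_of_le h] at hmem
        have : r < β := lt_of_le_of_ne hmem.2 hr
        exact modL2_ind_false (by push Not; linarith)
      rw [e, intervalIntegral.integral_zero, min_eq_right (by linarith), max_eq_left (by linarith)]
    · rw [← intervalIntegral.integral_add_adjacent_intervals (a := α) (b := a - s) (c := β)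
        (modL2_ii a s _ _) (modL2_ii a s _ _)]
      have e1 : ∫ r in α..(a - s), ind (a ≤ r + s) = ∫ r in α..(a - s), (0 : ℝ) := by
        refine intervalIntegral.integral_congr_ae ?_
        have hne : ∀ᵐ r : ℝ, r ≠ a - s := by
          simp [ae_iff]
        filter_upwards [hne] with r hr hmem
        rw [Set.uIoc_of_le h1] at hmem
        have : r < a - s := lt_of_le_of_ne hmem.2 hr
        exact modL2_ind_false (by push Not; linarith)
      have e2 : ∫ r in (a - s)..β, ind (a ≤ r + s) = ∫ r in (a - s)..β, (1 : ℝ) := by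
        refine intervalIntegral.integral_congr fun r hr => ?_
        rw [Set.uIcc_of_le h2] at hr
        exact modL2_ind_true (by linarith [hr.1])
      rw [e1, e2, intervalIntegral.integral_zero, intervalIntegral.integral_const,
        min_eq_right (by linarith), max_eq_right (by linarith)]
      simp
      ring

theorem modL2_Lv_eq {m N : ℕ} (φ : (Fin m → Fin N) → ℝ) (η r : ℝ) :
    Lv φ η r = (∑ x, ind (lev x ≤ r + η * φ x)) / (N : ℝ) ^ m := rfl

theorem Lv_integrable {m N : ℕ} (φ : (Fin m → Fin N) → ℝ) (η α β : ℝ) :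
    IntervalIntegrable (fun r => Lv φ η r) volume α β := by
  have hmono : Monotone fun r => Lv φ η r := by
    intro r r' h
    refine Av_mono fun x => ?_
    exact modL2_mono (lev x) (η * φ x) h
  exact hmono.intervalIntegrable

theorem modL2_int_Lv {m N : ℕ} (φ : (Fin m → Fin N) → ℝ) (η : ℝ) {α β : ℝ} (h : α ≤ β) :
    ∫ r in α..β, Lv φ η r = Av (fun x => max 0 (min (β - α) (β - lev x + η * φ x))) := by
  simp_rw [modL2_Lv_eq]
  rw [intervalIntegral.integral_div, intervalIntegral.integral_finsetSum
    (fun x _ => modL2_ii (lev x) (η * φ x) α β)]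
  unfold Av
  congr 1
  exact Finset.sum_congr rfl fun x _ => modL2_int _ _ h

/-- integral over the level, upper estimate -/
theorem int_up {m N : ℕ} (hm : 1 ≤ m) (hN : 1 ≤ N) (φ : (Fin m → Fin N) → ℝ)
    (hφ : ∀ x, 0 ≤ φ x ∧ φ x ≤ 1) {η α β : ℝ} (hη : 0 < η) (hαβ : α ≤ β) :
    (∫ r in α..β, (Lv φ η r - Lv φ 0 r)) ≤
      η * Av (fun x => ind (α < lev x ∧ lev x < β) * φ x) + 2 * η * (η + m / N) := by
  rw [intervalIntegral.integral_sub (Lv_integrable φ η α β) (Lv_integrable φ 0 α β),
    modL2_int_Lv φ η hαβ, modL2_int_Lv φ 0 hαβ, ← Av_sub]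
  have key : ∀ x : Fin m → Fin N,
      max 0 (min (β - α) (β - lev x + η * φ x)) - max 0 (min (β - α) (β - lev x + 0 * φ x))
        ≤ η * (ind (α < lev x ∧ lev x < β) * φ x)
          + η * ind (β ≤ lev x ∧ lev x ≤ β + η) := by
    intro x
    obtain ⟨h0, h1⟩ := hφ x
    have hs0 : 0 ≤ η * φ x := mul_nonneg hη.le h0
    have hs1 : η * φ x ≤ η := by nlinarith
    have n1 := modL2_ind_nonneg (β ≤ lev x ∧ lev x ≤ β + η)
    have n2 := modL2_ind_nonneg (α < lev x ∧ lev x < β)
    rw [zero_mul, add_zero]
    rcases le_or_gt (lev x) α with ha | ha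
    · rw [min_eq_left (by linarith), min_eq_left (by linarith), sub_self]
      positivity
    · rcases lt_or_ge (lev x) β with hb | hb
      · rw [modL2_ind_true ⟨ha, hb⟩, one_mul, min_eq_right (show β - lev x ≤ β - α by linarith),
          max_eq_right (show 0 ≤ β - lev x by linarith)]
        have h3 : max 0 (min (β - α) (β - lev x + η * φ x)) ≤ β - lev x + η * φ x :=
          max_le (by linarith) (min_le_right _ _)
        have h4 := mul_nonneg hη.le n1
        linarith
      · rw [min_eq_right (show β - lev x ≤ β - α by linarith),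
          max_eq_left (show β - lev x ≤ 0 by linarith)]
        have h5 : 0 ≤ η * (ind (α < lev x ∧ lev x < β) * φ x) :=
          mul_nonneg hη.le (mul_nonneg n2 h0)
        rcases le_or_gt (lev x) (β + η) with hc | hc
        · rw [modL2_ind_true (p := β ≤ lev x ∧ lev x ≤ β + η) ⟨hb, hc⟩]
          have h3 : max 0 (min (β - α) (β - lev x + η * φ x)) ≤ η :=
            max_le hη.le ((min_le_right _ _).trans (by linarith))
          linarith
        · have h3 : max 0 (min (β - α) (β - lev x + η * φ x)) = 0 :=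
            max_eq_left ((min_le_right _ _).trans (by linarith))
          rw [h3]
          have h4 := mul_nonneg hη.le n1
          linarith
  refine (Av_mono key).trans ?_
  rw [Av_add, Av_mul, Av_mul]
  have h6 := count_layer (m := m) (N := N) hm hN (r := β) (t := η) hη.le
  have h7 : η * Av (fun x : Fin m → Fin N => ind (β ≤ lev x ∧ lev x ≤ β + η))
      ≤ η * (η + m / N) := mul_le_mul_of_nonneg_left h6 hη.le
  have h8 : 0 ≤ η * (η + m / N) := by positivity
  linarith

/-- integral over the level, lower estimate -/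
theorem int_down {m N : ℕ} (hm : 1 ≤ m) (hN : 1 ≤ N) (φ : (Fin m → Fin N) → ℝ)
    (hφ : ∀ x, 0 ≤ φ x ∧ φ x ≤ 1) {η α β : ℝ} (hη : 0 < η) (hαβ : α ≤ β) :
    η * Av (fun x => ind (α ≤ lev x ∧ lev x ≤ β) * φ x) - η * (η + m / N) ≤
      ∫ r in α..β, (Lv φ 0 r - Lv φ (-η) r) := by
  rw [intervalIntegral.integral_sub (Lv_integrable φ 0 α β) (Lv_integrable φ (-η) α β),
    modL2_int_Lv φ 0 hαβ, modL2_int_Lv φ (-η) hαβ, ← Av_sub]
  have key : ∀ x : Fin m → Fin N,
      η * (ind (α ≤ lev x ∧ lev x ≤ β) * φ x) - η * ind (β - η ≤ lev x ∧ lev x ≤ β - η + η) ≤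
        max 0 (min (β - α) (β - lev x + 0 * φ x))
          - max 0 (min (β - α) (β - lev x + -η * φ x)) := by
    intro x
    obtain ⟨h0, h1⟩ := hφ x
    have hs0 : 0 ≤ η * φ x := mul_nonneg hη.le h0
    have hs1 : η * φ x ≤ η := by nlinarith
    have n1 := modL2_ind_nonneg (β - η ≤ lev x ∧ lev x ≤ β - η + η)
    have n3 := mul_nonneg hη.le n1
    have hdec : max 0 (min (β - α) (β - lev x + -η * φ x))
        ≤ max 0 (min (β - α) (β - lev x + 0 * φ x)) :=
      max_le_max le_rfl (min_le_min le_rfl (by nlinarith))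
    by_cases hab : α ≤ lev x ∧ lev x ≤ β
    · rw [modL2_ind_true hab, one_mul, zero_mul, add_zero,
        min_eq_right (show β - lev x ≤ β - α by linarith [hab.1]),
        max_eq_right (show 0 ≤ β - lev x by linarith [hab.2]),
        min_eq_right (show β - lev x + -η * φ x ≤ β - α by nlinarith [hab.1])]
      rcases le_or_gt (lev x + η * φ x) β with hc | hc
      · rw [max_eq_right (show 0 ≤ β - lev x + -η * φ x by linarith)]
        linarith
      · rw [max_eq_left (show β - lev x + -η * φ x ≤ 0 by linarith),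
          modL2_ind_true (p := β - η ≤ lev x ∧ lev x ≤ β - η + η)
            ⟨by linarith, by linarith [hab.2]⟩]
        linarith [hab.2]
    · rw [modL2_ind_false hab]
      have h9 : η * (0 * φ x) = 0 := by ring
      linarith
  refine le_trans ?_ (Av_mono key)
  rw [Av_sub, Av_mul, Av_mul]
  have h6 := count_layer (m := m) (N := N) hm hN (r := β - η) (t := η) hη.le
  have h7 : η * Av (fun x : Fin m → Fin N => ind (β - η ≤ lev x ∧ lev x ≤ β - η + η))
      ≤ η * (η + m / N) := mul_le_mul_of_nonneg_left h6 hη.le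
  linarith

end Pool.Agent.Work.MP_0cd883_co.Cube
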