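import Pool.Agent.Work.MP_0cd883_co.Cube.DefsL

/-! Module M: averages over the grid `{0, …, N-1}^m` against the Irwin-Hall distribution. -/

namespace Pool.Agent.Work.MP_0cd883_co.Cube

open MeasureTheory Set Finset

theorem Av_add {m N : ℕ} (φ ψ : (Fin m → Fin N) → ℝ) :
    Av (fun x => φ x + ψ x) = Av φ + Av ψ := by
  unfold Av
  rw [Finset.sum_add_distrib, add_div]

theorem Av_sub {m N : ℕ} (φ ψ : (Fin m → Fin N) → ℝ) :
    Av (fun x => φ x - ψ x) = Av φ - Av ψ := by
  unfold Av
  rw [Finset.sum_sub_distrib, sub_div]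

theorem Av_mul {m N : ℕ} (a : ℝ) (φ : (Fin m → Fin N) → ℝ) :
    Av (fun x => a * φ x) = a * Av φ := by
  unfold Av
  rw [← Finset.mul_sum, mul_div_assoc]

theorem Av_const {m N : ℕ} (hN : 1 ≤ N) (a : ℝ) : Av (fun _ : Fin m → Fin N => a) = a := by
  have hN' : (0 : ℝ) < N := by exact_mod_cast hN
  unfold Av
  rw [Finset.sum_const, Finset.card_univ, Fintype.card_fun, Fintype.card_fin, Fintype.card_fin,
    nsmul_eq_mul]
  push_cast
  field_simp

theorem Av_mono {m N : ℕ} {φ ψ : (Fin m → Fin N) → ℝ} (h : ∀ x, φ x ≤ ψ x) : Av φ ≤ Av ψ := by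
  unfold Av
  exact div_le_div_of_nonneg_right (Finset.sum_le_sum fun x _ => h x) (by positivity)

theorem Av_nonneg {m N : ℕ} {φ : (Fin m → Fin N) → ℝ} (h : ∀ x, 0 ≤ φ x) : 0 ≤ Av φ := by
  unfold Av
  exact div_nonneg (Finset.sum_nonneg fun x _ => h x) (by positivity)

theorem lev_nonneg {m N : ℕ} (x : Fin m → Fin N) : 0 ≤ lev x := by
  unfold lev
  positivity

/-- the average over the grid, first coordinate first -/
theorem Av_succ {m N : ℕ} (φ : (Fin (m + 1) → Fin N) → ℝ) :
    Av φ = (∑ k : Fin N, Av (fun x : Fin m → Fin N => φ (Fin.cons k x))) / N := by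
  unfold Av
  rw [← Finset.sum_div, div_div, ← pow_succ]
  congr 1
  rw [← Equiv.sum_comp (Fin.consEquiv (fun _ : Fin (m + 1) => Fin N)) φ, Fintype.sum_prod_type]
  rfl

theorem Av_succ' {m N : ℕ} (φ : (Fin (m + 1) → Fin N) → ℝ) :
    Av φ = Av (fun x : Fin m → Fin N => (∑ k : Fin N, φ (Fin.cons k x)) / N) := by
  rw [Av_succ]
  unfold Av
  rw [← Finset.sum_div, ← Finset.sum_div, Finset.sum_comm, div_div, div_div, mul_comm]

theorem lev_cons {m N : ℕ} (k : Fin N) (x : Fin m → Fin N) :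
    lev (Fin.cons k x : Fin (m + 1) → Fin N) = ((k : ℕ) : ℝ) / N + lev x := by
  unfold lev
  rw [Fin.sum_univ_succ]
  simp only [Fin.cons_zero, Fin.cons_succ]
  rw [add_div]

/-- Riemann sums for `F (n + 1)` -/
theorem F_riemann_upper {n N : ℕ} (hn : 1 ≤ n) (hN : 1 ≤ N) (t : ℝ) :
    F (n + 1) t ≤ (∑ k : Fin N, F n (t - ((k : ℕ) : ℝ) / N)) / N := by
  have hN' : (0 : ℝ) < N := by exact_mod_cast hN
  have hcont : Continuous fun u : ℝ => F n (t - u) := modA_F_cont_sub hn t
  have h1 : ∑ k ∈ Finset.range N, (∫ u in ((k : ℕ) : ℝ) / N..((k + 1 : ℕ) : ℝ) / N, F n (t - u)) =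
      ∫ u in ((0 : ℕ) : ℝ) / N..((N : ℕ) : ℝ) / N, F n (t - u) :=
    intervalIntegral.sum_integral_adjacent_intervals
      (a := fun k : ℕ => ((k : ℕ) : ℝ) / N) fun k _ => hcont.intervalIntegrable _ _
  rw [F_succ hn, show (∫ u in (0 : ℝ)..1, F n (t - u)) =
      ∫ u in ((0 : ℕ) : ℝ) / N..((N : ℕ) : ℝ) / N, F n (t - u) by
        rw [Nat.cast_zero, zero_div, div_self hN'.ne'], ← h1,
    Fin.sum_univ_eq_sum_range (fun k => F n (t - ((k : ℕ) : ℝ) / N)) N, Finset.sum_div]
  refine Finset.sum_le_sum fun k _ => ?_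
  have hkk : ((k : ℕ) : ℝ) / N ≤ ((k + 1 : ℕ) : ℝ) / N :=
    div_le_div_of_nonneg_right (by push_cast; linarith) hN'.le
  have h2 : (∫ u in ((k : ℕ) : ℝ) / N..((k + 1 : ℕ) : ℝ) / N, F n (t - u)) ≤
      ∫ _u in ((k : ℕ) : ℝ) / N..((k + 1 : ℕ) : ℝ) / N, F n (t - ((k : ℕ) : ℝ) / N) := by
    refine intervalIntegral.integral_mono_on hkk (hcont.intervalIntegrable _ _)
      intervalIntegrable_const fun u hu => ?_
    exact F_mono n (by linarith [hu.1])
  refine h2.trans (le_of_eq ?_)
  rw [intervalIntegral.integral_const, smul_eq_mul]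
  push_cast
  field_simp
  ring

theorem F_riemann_lower {n N : ℕ} (hn : 1 ≤ n) (hN : 1 ≤ N) (t : ℝ) :
    (∑ k : Fin N, F n (t - ((k : ℕ) : ℝ) / N)) / N ≤ F (n + 1) (t + 1 / N) := by
  have hN' : (0 : ℝ) < N := by exact_mod_cast hN
  have hcont : Continuous fun u : ℝ => F n (t + 1 / N - u) := modA_F_cont_sub hn _
  have h1 : ∑ k ∈ Finset.range N,
      (∫ u in ((k : ℕ) : ℝ) / N..((k + 1 : ℕ) : ℝ) / N, F n (t + 1 / N - u)) =
      ∫ u in ((0 : ℕ) : ℝ) / N..((N : ℕ) : ℝ) / N, F n (t + 1 / N - u) :=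
    intervalIntegral.sum_integral_adjacent_intervals
      (a := fun k : ℕ => ((k : ℕ) : ℝ) / N) fun k _ => hcont.intervalIntegrable _ _
  rw [F_succ hn, show (∫ u in (0 : ℝ)..1, F n (t + 1 / N - u)) =
      ∫ u in ((0 : ℕ) : ℝ) / N..((N : ℕ) : ℝ) / N, F n (t + 1 / N - u) by
        rw [Nat.cast_zero, zero_div, div_self hN'.ne'], ← h1,
    Fin.sum_univ_eq_sum_range (fun k => F n (t - ((k : ℕ) : ℝ) / N)) N, Finset.sum_div]
  refine Finset.sum_le_sum fun k _ => ?_
  have hkk : ((k : ℕ) : ℝ) / N ≤ ((k + 1 : ℕ) : ℝ) / N :=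
    div_le_div_of_nonneg_right (by push_cast; linarith) hN'.le
  have h2 : (∫ _u in ((k : ℕ) : ℝ) / N..((k + 1 : ℕ) : ℝ) / N, F n (t - ((k : ℕ) : ℝ) / N)) ≤
      ∫ u in ((k : ℕ) : ℝ) / N..((k + 1 : ℕ) : ℝ) / N, F n (t + 1 / N - u) := by
    refine intervalIntegral.integral_mono_on hkk intervalIntegrable_const
      (hcont.intervalIntegrable _ _) fun u hu => ?_
    refine F_mono n ?_
    have := hu.2
    push_cast at this
    rw [add_div] at this
    linarith
  refine le_trans (le_of_eq ?_) h2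
  rw [intervalIntegral.integral_const, smul_eq_mul]
  push_cast
  field_simp
  ring

theorem F_one_eq (t : ℝ) : F 1 t = clamp t := rfl

theorem clamp_lower {m N : ℕ} (hN : 1 ≤ N) (c : ℝ) :
    F (m + 1) c ≤ Av (fun x : Fin m → Fin N => clamp (c - lev x)) := by
  induction m generalizing c with
  | zero =>
    have : (fun x : Fin 0 → Fin N => clamp (c - lev x)) = fun _ => clamp c := by
      funext x
      simp [lev]
    rw [this, Av_const hN]
    exact le_of_eq (F_one_eq c)
  | succ m ih =>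
    have hN' : (0 : ℝ) < N := by exact_mod_cast hN
    rw [Av_succ]
    refine (F_riemann_upper (n := m + 1) (by omega) hN c).trans ?_
    refine div_le_div_of_nonneg_right (Finset.sum_le_sum fun k _ => ?_) hN'.le
    refine (ih (c - ((k : ℕ) : ℝ) / N)).trans (le_of_eq ?_)
    congr 1
    funext x
    rw [lev_cons]
    congr 1
    ring

theorem clamp_upper {m N : ℕ} (hN : 1 ≤ N) (c : ℝ) :
    Av (fun x : Fin m → Fin N => clamp (c - lev x)) ≤ F (m + 1) (c + m / N) := by
  induction m generalizing c with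
  | zero =>
    have : (fun x : Fin 0 → Fin N => clamp (c - lev x)) = fun _ => clamp c := by
      funext x
      simp [lev]
    rw [this, Av_const hN]
    simp [F_one_eq]
  | succ m ih =>
    have hN' : (0 : ℝ) < N := by exact_mod_cast hN
    rw [Av_succ]
    have h1 := F_riemann_lower (n := m + 1) (by omega) hN (c + m / N)
    rw [show c + ((m + 1 : ℕ) : ℝ) / N = c + m / N + 1 / N by push_cast; ring]
    refine le_trans ?_ h1
    refine div_le_div_of_nonneg_right (Finset.sum_le_sum fun k _ => ?_) hN'.le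
    have h2 := ih (c - ((k : ℕ) : ℝ) / N)
    rw [show c + (m : ℝ) / N - ((k : ℕ) : ℝ) / N = c - ((k : ℕ) : ℝ) / N + m / N by ring]
    refine le_trans (le_of_eq ?_) h2
    congr 1
    funext x
    rw [lev_cons]
    congr 1
    ring

theorem ind_true {p : Prop} (h : p) : ind p = 1 := by
  unfold ind
  rw [if_pos h]

theorem ind_false {p : Prop} (h : ¬ p) : ind p = 0 := by
  unfold ind
  rw [if_neg h]

theorem ind_nonneg (p : Prop) : 0 ≤ ind p := by
  by_cases h : p
  · rw [ind_true h]; exact zero_le_one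
  · rw [ind_false h]

theorem ind_le_one (p : Prop) : ind p ≤ 1 := by
  by_cases h : p
  · rw [ind_true h]
  · rw [ind_false h]; exact zero_le_one

theorem ind_mono {p q : Prop} (h : p → q) : ind p ≤ ind q := by
  by_cases hp : p
  · rw [ind_true hp, ind_true (h hp)]
  · rw [ind_false hp]; exact ind_nonneg q

theorem sum_ind_card {ι : Type*} [Fintype ι] (p : ι → Prop) [DecidablePred p] :
    ∑ k, ind (p k) = ((Finset.univ.filter p).card : ℝ) := by
  rw [Finset.card_filter]
  push_cast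
  refine Finset.sum_congr rfl fun k _ => ?_
  by_cases h : p k
  · rw [ind_true h, if_pos h]
  · rw [ind_false h, if_neg h]

theorem count_one_lower {N : ℕ} (hN : 1 ≤ N) (s : ℝ) :
    clamp s ≤ (∑ k : Fin N, ind (((k : ℕ) : ℝ) / N < s)) / N := by
  classical
  have hN' : (0 : ℝ) < N := by exact_mod_cast hN
  rw [le_div_iff₀ hN']
  rcases le_total s 0 with hs | hs
  · have : clamp s = 0 := by
      unfold clamp
      exact max_eq_left ((min_le_left _ _).trans hs)
    rw [this, zero_mul]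
    exact Finset.sum_nonneg fun k _ => ind_nonneg _
  -- the first `min N ⌈sN⌉` values of `k`
  rw [sum_ind_card]
  have hsub : (Finset.univ.filter fun k : Fin N => (k : ℕ) < ⌈s * N⌉₊) ⊆
      Finset.univ.filter fun k : Fin N => ((k : ℕ) : ℝ) / N < s := by
    intro k hk
    have hk' := (Finset.mem_filter.mp hk).2
    refine Finset.mem_filter.mpr ⟨Finset.mem_univ _, ?_⟩
    rw [div_lt_iff₀ hN']
    exact Nat.lt_ceil.mp hk'
  have hc : (Finset.univ.filter fun k : Fin N => (k : ℕ) < ⌈s * N⌉₊).card = min N ⌈s * N⌉₊ := by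
    rw [Fin.card_filter_val_lt]
  have h1 := Finset.card_le_card hsub
  rw [hc] at h1
  have h2 : ((min N ⌈s * N⌉₊ : ℕ) : ℝ) ≤
      ((Finset.univ.filter fun k : Fin N => ((k : ℕ) : ℝ) / N < s).card : ℝ) := by
    exact_mod_cast h1
  refine le_trans ?_ h2
  push_cast
  have h3 : clamp s = min s 1 := by
    unfold clamp
    exact max_eq_right (le_min hs zero_le_one)
  rw [h3, min_mul_of_nonneg _ _ hN'.le, one_mul, min_comm]
  exact min_le_min_left _ (Nat.le_ceil _)

theorem count_one_upper {N : ℕ} (hN : 1 ≤ N) (s : ℝ) :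
    (∑ k : Fin N, ind (((k : ℕ) : ℝ) / N ≤ s)) / N ≤ clamp (s + 1 / N) := by
  classical
  have hN' : (0 : ℝ) < N := by exact_mod_cast hN
  rw [div_le_iff₀ hN', sum_ind_card]
  rcases lt_or_ge s 0 with hs | hs
  · have : (Finset.univ.filter fun k : Fin N => ((k : ℕ) : ℝ) / N ≤ s) = ∅ := by
      rw [Finset.filter_eq_empty_iff]
      intro k _ hk
      have : (0 : ℝ) ≤ ((k : ℕ) : ℝ) / N := by positivity
      linarith
    rw [this, Finset.card_empty, Nat.cast_zero]
    unfold clamp
    exact mul_nonneg (le_max_left _ _) hN'.le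
  have hsub : (Finset.univ.filter fun k : Fin N => ((k : ℕ) : ℝ) / N ≤ s) ⊆
      Finset.univ.filter fun k : Fin N => (k : ℕ) < ⌊s * N⌋₊ + 1 := by
    intro k hk
    have hk' := (Finset.mem_filter.mp hk).2
    refine Finset.mem_filter.mpr ⟨Finset.mem_univ _, ?_⟩
    rw [div_le_iff₀ hN'] at hk'
    have := Nat.le_floor hk'
    omega
  have hc : (Finset.univ.filter fun k : Fin N => (k : ℕ) < ⌊s * N⌋₊ + 1).card =
      min N (⌊s * N⌋₊ + 1) := by
    rw [Fin.card_filter_val_lt]
  have h1 := Finset.card_le_card hsub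
  rw [hc] at h1
  have h2 : ((Finset.univ.filter fun k : Fin N => ((k : ℕ) : ℝ) / N ≤ s).card : ℝ) ≤
      ((min N (⌊s * N⌋₊ + 1) : ℕ) : ℝ) := by
    exact_mod_cast h1
  refine h2.trans ?_
  push_cast
  have h3 : clamp (s + 1 / N) = min (s + 1 / N) 1 := by
    unfold clamp
    exact max_eq_right (le_min (by positivity) zero_le_one)
  rw [h3, min_mul_of_nonneg _ _ hN'.le, one_mul, min_comm]
  refine min_le_min_right _ ?_
  rw [add_mul, one_div, inv_mul_cancel₀ hN'.ne']
  have := Nat.floor_le (show 0 ≤ s * (N : ℝ) by positivity)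
  linarith

/-- fraction of the grid below a level: lower estimate (strict inequality) -/
theorem count_lower {m N : ℕ} (hm : 1 ≤ m) (hN : 1 ≤ N) (r : ℝ) :
    F m r ≤ Av (fun x : Fin m → Fin N => ind (lev x < r)) := by
  obtain ⟨m, rfl⟩ : ∃ m', m = m' + 1 := ⟨m - 1, by omega⟩
  rw [Av_succ']
  refine (clamp_lower hN r).trans (Av_mono fun x => ?_)
  refine (count_one_lower hN (r - lev x)).trans (le_of_eq ?_)
  congr 1
  refine Finset.sum_congr rfl fun k _ => ?_
  rw [lev_cons]
  congr 1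
  rw [eq_iff_iff]
  constructor <;> intro h <;> linarith

/-- fraction of the grid below a level: upper estimate (weak inequality) -/
theorem count_upper {m N : ℕ} (hm : 1 ≤ m) (hN : 1 ≤ N) (r : ℝ) :
    Av (fun x : Fin m → Fin N => ind (lev x ≤ r)) ≤ F m (r + m / N) := by
  obtain ⟨m, rfl⟩ : ∃ m', m = m' + 1 := ⟨m - 1, by omega⟩
  rw [Av_succ']
  have h1 := clamp_upper (m := m) hN (r + 1 / N)
  rw [show r + ((m + 1 : ℕ) : ℝ) / N = r + 1 / N + m / N by push_cast; ring]
  refine le_trans (Av_mono fun x => ?_) h1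
  rw [show r + 1 / N - lev x = r - lev x + 1 / (N : ℝ) by ring]
  refine le_trans (le_of_eq ?_) (count_one_upper hN (r - lev x))
  congr 1
  refine Finset.sum_congr rfl fun k _ => ?_
  rw [lev_cons]
  congr 1
  rw [eq_iff_iff]
  constructor <;> intro h <;> linarith

/-- thin layers have small measure -/
theorem count_layer {m N : ℕ} (hm : 1 ≤ m) (hN : 1 ≤ N) {r t : ℝ} (ht : 0 ≤ t) :
    Av (fun x : Fin m → Fin N => ind (r ≤ lev x ∧ lev x ≤ r + t)) ≤ t + m / N := by
  have h1 := count_lower hm hN r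
  have h2 := count_upper hm hN (r + t)
  have h3 : Av (fun x : Fin m → Fin N => ind (r ≤ lev x ∧ lev x ≤ r + t)) ≤
      Av (fun x : Fin m → Fin N => ind (lev x ≤ r + t)) -
        Av (fun x : Fin m → Fin N => ind (lev x < r)) := by
    rw [← Av_sub]
    refine Av_mono fun x => ?_
    by_cases hx : r ≤ lev x ∧ lev x ≤ r + t
    · rw [ind_true hx, ind_true hx.2, ind_false (by linarith [hx.1] : ¬ lev x < r)]
      norm_num
    · rw [ind_false hx]
      by_cases hx2 : lev x < r
      · rw [ind_true hx2, ind_true (by linarith : lev x ≤ r + t)]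
        norm_num
      · rw [ind_false hx2, sub_zero]
        exact ind_nonneg _
  have hN' : (0 : ℝ) < N := by exact_mod_cast hN
  have h4 := F_lip hm (r + t + m / N) r
  rw [show r + t + (m : ℝ) / N - r = t + m / N by ring, abs_of_nonneg (show 0 ≤ t + (m : ℝ) / N by
    positivity)] at h4
  have h5 := (abs_le.mp h4).2
  linarith

/-- the upper layer -/
theorem clamp_high {m N : ℕ} (hN : 1 ≤ N) (u : ℝ) :
    F (m + 1) u - m / N ≤ Av (fun x : Fin m → Fin N => clamp (lev x - (m - u))) := by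
  have hN' : (0 : ℝ) < N := by exact_mod_cast hN
  have hcl : ∀ s : ℝ, clamp s = 1 - clamp (1 - s) := by
    intro s
    unfold clamp
    rcases le_total s 0 with h | h
    · rw [min_eq_left (by linarith), max_eq_left h, min_eq_right (by linarith),
        max_eq_right (by linarith)]
      ring
    rcases le_total s 1 with h' | h'
    · rw [min_eq_left h', max_eq_right h, min_eq_left (by linarith), max_eq_right (by linarith)]
      ring
    · rw [min_eq_right h', max_eq_right (by linarith), min_eq_left (by linarith),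
        max_eq_left (by linarith)]
      ring
  have h1 : Av (fun x : Fin m → Fin N => clamp (lev x - (m - u))) =
      1 - Av (fun x : Fin m → Fin N => clamp ((m + 1 - u) - lev x)) := by
    have e : (fun x : Fin m → Fin N => clamp (lev x - (m - u))) =
        fun x => (fun _ => (1 : ℝ)) x - (fun x => clamp ((m + 1 - u) - lev x)) x := by
      funext x
      simp only
      rw [hcl]
      congr 2
      ring
    rw [e, Av_sub, Av_const hN]
  rw [h1]
  have h2 := clamp_upper (m := m) hN ((m : ℝ) + 1 - u)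
  have h3 := F_symm (n := m + 1) (by omega) u
  push_cast at h3
  have h4 := F_lip (n := m + 1) (by omega) ((m : ℝ) + 1 - u + m / N) ((m : ℝ) + 1 - u)
  rw [show (m : ℝ) + 1 - u + m / N - (m + 1 - u) = m / N by ring,
    abs_of_nonneg (show 0 ≤ (m : ℝ) / N by positivity)] at h4
  have h5 := (abs_le.mp h4).2
  linarith

theorem mir_mir {m N : ℕ} (x : Fin m → Fin N) : mir (mir x) = x := by
  funext j
  ext
  simp only [mir]
  have hx := (x j).isLt
  rcases Nat.eq_zero_or_pos (x j : ℕ) with h | h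
  · rw [h, Nat.sub_zero, Nat.mod_self, Nat.sub_zero, Nat.mod_self]
  · rw [Nat.mod_eq_of_lt (show N - (x j : ℕ) < N by omega),
      Nat.mod_eq_of_lt (show N - (N - (x j : ℕ)) < N by omega)]
    omega

theorem mir_val {m N : ℕ} {x : Fin m → Fin N} (hx : ∀ j, (x j : ℕ) ≠ 0) (j : Fin m) :
    (mir x j : ℕ) = N - x j := by
  simp only [mir]
  have h := (x j).isLt
  have h0 := hx j
  exact Nat.mod_eq_of_lt (by omega)

theorem lev_mir {m N : ℕ} {x : Fin m → Fin N} (hN : 1 ≤ N) (hx : ∀ j, (x j : ℕ) ≠ 0) :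
    lev (mir x) = m - lev x := by
  have hN' : (0 : ℝ) < N := by exact_mod_cast hN
  unfold lev
  have h1 : ∀ j, (((mir x j : Fin N) : ℕ) : ℝ) = N - ((x j : ℕ) : ℝ) := by
    intro j
    rw [mir_val hx j, Nat.cast_sub (x j).isLt.le]
  simp only [h1]
  rw [Finset.sum_sub_distrib, Finset.sum_const, Finset.card_univ, Fintype.card_fin, nsmul_eq_mul,
    sub_div]
  field_simp

/-- the grid points with a zero coordinate have fraction at most `m / N` -/
theorem Av_hyper {m N : ℕ} (hN : 1 ≤ N) :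
    Av (fun x : Fin m → Fin N => ind (¬ ∀ j, (x j : ℕ) ≠ 0)) ≤ m / N := by
  classical
  have hN' : (0 : ℝ) < N := by exact_mod_cast hN
  unfold Av
  rw [sum_ind_card]
  have hsub : (Finset.univ.filter fun x : Fin m → Fin N => ¬ ∀ j, (x j : ℕ) ≠ 0) ⊆
      Finset.univ.biUnion fun j : Fin m => Fintype.piFinset fun i : Fin m =>
        if i = j then ({⟨0, hN⟩} : Finset (Fin N)) else Finset.univ := by
    intro x hx
    have hx' := (Finset.mem_filter.mp hx).2
    push Not at hx'
    obtain ⟨j, hj⟩ := hx'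
    refine Finset.mem_biUnion.mpr ⟨j, Finset.mem_univ _, ?_⟩
    rw [Fintype.mem_piFinset]
    intro i
    by_cases hi : i = j
    · rw [if_pos hi, Finset.mem_singleton]
      ext
      rw [hi]
      exact hj
    · rw [if_neg hi]
      exact Finset.mem_univ _
  have hcard : ∀ j : Fin m, (Fintype.piFinset fun i : Fin m =>
      if i = j then ({⟨0, hN⟩} : Finset (Fin N)) else Finset.univ).card = N ^ (m - 1) := by
    intro j
    rw [Fintype.card_piFinset]
    have : ∀ i : Fin m, (if i = j then ({⟨0, hN⟩} : Finset (Fin N)) else Finset.univ).card =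
        if i = j then 1 else N := by
      intro i
      split_ifs
      · rw [Finset.card_singleton]
      · rw [Finset.card_univ, Fintype.card_fin]
    simp only [this]
    rw [Finset.prod_ite, Finset.prod_const_one, one_mul, Finset.prod_const]
    congr 1
    rw [Finset.filter_ne' Finset.univ j, Finset.card_erase_of_mem (Finset.mem_univ _),
      Finset.card_univ, Fintype.card_fin]
  have h1 := (Finset.card_le_card hsub).trans Finset.card_biUnion_le
  simp only [hcard, Finset.sum_const, Finset.card_univ, Fintype.card_fin, smul_eq_mul] at h1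
  have h2 : ((Finset.univ.filter fun x : Fin m → Fin N => ¬ ∀ j, (x j : ℕ) ≠ 0).card : ℝ) ≤
      m * (N : ℝ) ^ (m - 1) := by exact_mod_cast h1
  rcases Nat.eq_zero_or_pos m with hm | hm
  · subst hm
    simp only [Nat.cast_zero, zero_mul] at h2
    simp only [Nat.cast_zero, zero_div]
    exact div_nonpos_of_nonpos_of_nonneg h2 (by positivity)
  · rw [div_le_div_iff₀ (by positivity) hN']
    obtain ⟨k, rfl⟩ : ∃ k, m = k + 1 := ⟨m - 1, by omega⟩
    rw [Nat.add_sub_cancel] at h2
    calc _ ≤ (((k + 1 : ℕ) : ℝ) * (N : ℝ) ^ k) * N := mul_le_mul_of_nonneg_right h2 hN'.le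
      _ = _ := by rw [pow_succ]; ring

/-- two functions agreeing off the coordinate hyperplanes after a reflection -/
theorem Av_mir {m N : ℕ} (hN : 1 ≤ N) (φ ψ : (Fin m → Fin N) → ℝ) {B : ℝ} (hB : 0 ≤ B)
    (h : ∀ x, (∀ j, (x j : ℕ) ≠ 0) → φ (mir x) = ψ x)
    (hb : ∀ x, |φ (mir x) - ψ x| ≤ B) :
    |Av φ - Av ψ| ≤ B * (m / N) := by
  have e1 : Av φ = Av (fun x => φ (mir x)) := by
    unfold Av
    congr 1
    let e : (Fin m → Fin N) ≃ (Fin m → Fin N) :=
      ⟨mir, mir, fun x => mir_mir x, fun x => mir_mir x⟩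
    exact (Equiv.sum_comp e φ).symm
  rw [e1, ← Av_sub]
  have h1 : ∀ x : Fin m → Fin N, |φ (mir x) - ψ x| ≤ B * ind (¬ ∀ j, (x j : ℕ) ≠ 0) := by
    intro x
    by_cases hx : ∀ j, (x j : ℕ) ≠ 0
    · rw [h x hx, sub_self, abs_zero]
      exact mul_nonneg hB (ind_nonneg _)
    · rw [ind_true hx, mul_one]
      exact hb x
  have h2 := Av_mul B (fun x : Fin m → Fin N => ind (¬ ∀ j, (x j : ℕ) ≠ 0))
  have h3 := mul_le_mul_of_nonneg_left (Av_hyper (m := m) hN) hB
  rw [abs_le]
  constructor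
  · have h4 : Av (fun x : Fin m → Fin N => (-B) * ind (¬ ∀ j, (x j : ℕ) ≠ 0)) ≤
        Av (fun x => φ (mir x) - ψ x) := by
      refine Av_mono fun x => ?_
      have := (abs_le.mp (h1 x)).1
      linarith
    rw [Av_mul] at h4
    linarith
  · have h4 : Av (fun x => φ (mir x) - ψ x) ≤
        Av (fun x : Fin m → Fin N => B * ind (¬ ∀ j, (x j : ℕ) ≠ 0)) :=
      Av_mono fun x => (abs_le.mp (h1 x)).2
    linarith

theorem refl_mem {m N : ℕ} {b : (Fin m → Fin N) → ℝ} (hb : ∀ x, 0 ≤ b x ∧ b x ≤ 1)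
    (w : Fin m → Fin N) : 0 ≤ refl b w ∧ refl b w ≤ 1 := by
  unfold refl
  split_ifs
  · exact hb _
  · exact ⟨zero_le_one, le_rfl⟩

theorem refl_rel {m N : ℕ} {b : (Fin m → Fin N) → ℝ} (hb : ∀ x, 0 ≤ b x ∧ b x ≤ 1)
    (hr : Rel b) (x y w : Fin m → Fin N) (h : ∀ j, (x j : ℕ) + y j + w j + 1 = N) :
    1 - 1 / (N : ℝ) ≤ b x + b y + refl b w := by
  unfold refl
  split_ifs with hw
  · refine hr x y (mir w) fun j => ?_
    rw [mir_val hw j]
    have := h j
    omega
  · have h1 := (hb x).1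
    have h2 := (hb y).1
    have h3 : (0 : ℝ) ≤ 1 / (N : ℝ) := by positivity
    linarith

end Pool.Agent.Work.MP_0cd883_co.Cube
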