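import Pool.Agent.Work.MP_0cd883_co.Cube.ModI2
import Pool.Agent.Work.MP_0cd883_co.Cube.ModM
import Pool.Agent.Work.MP_0cd883_co.Cube.ModL2

/-!
Module L, last part: the regions below and above are controlled by the deep region. The slice
inequality at fixed levels enters as the hypothesis `SlicePt m`.
-/

namespace Pool.Agent.Work.MP_0cd883_co.Cube

open MeasureTheory Set

/-- the slice inequality at fixed levels, in dimension `m` -/
def SlicePt (m : ℕ) : Prop := ∀ g : ℝ, 0 < g →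
    ∃ K η₀ : ℝ, 0 < K ∧ 0 < η₀ ∧ ∀ N : ℕ, 1 ≤ N → ∀ φ₁ φ₂ φ₃ : (Fin m → Fin N) → ℝ,
      (∀ x, 0 ≤ φ₁ x ∧ φ₁ x ≤ 1) → (∀ x, 0 ≤ φ₂ x ∧ φ₂ x ≤ 1) → (∀ x, 0 ≤ φ₃ x ∧ φ₃ x ≤ 1) →
      (∀ x y w : Fin m → Fin N, (∀ j, (x j : ℕ) + y j + w j + 1 = N) →
        -(1 / (N : ℝ)) ≤ -φ₁ x + φ₂ y + φ₃ w) →
      ∀ η : ℝ, 0 < η → η ≤ η₀ → 1 / (N : ℝ) ≤ η ^ 2 →
      ∀ r₁ r₂ r₃ : ℝ, 0 < r₁ → r₁ ≤ m / 2 → g ≤ f m r₂ → g ≤ f m r₃ → r₁ + r₂ + r₃ = m →
      ∀ k₂ k₃ : ℝ, f m r₁ ≤ k₂ * f m r₂ → f m r₁ ≤ k₃ * f m r₃ →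
        Lv φ₁ 0 r₁ - Lv φ₁ (-η) r₁ ≤
          k₂ * (Lv φ₂ η r₂ - Lv φ₂ 0 r₂) + k₃ * (Lv φ₃ η r₃ - Lv φ₃ 0 r₃) + K * η ^ 2

namespace ModL3

lemma exists_g {m : ℕ} (hm : 2 ≤ m) {c u κ₁ κ₂ : ℝ} (hG : Good m c u κ₁ κ₂) :
    ∃ g : ℝ, 0 < g ∧ ∀ r, u ≤ r → r ≤ (3 * c - 1) / 2 → g ≤ f m r := by
  have h1 := hG.sum
  have h2 := hG.u_pos
  have h3 := hG.u_lt
  have h4 := hG.one_lt
  have hm2 : (2 : ℝ) ≤ m := by exact_mod_cast hm
  have hne : (Icc u ((3 * c - 1) / 2)).Nonempty := nonempty_Icc.2 (by linarith)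
  obtain ⟨r₀, hr₀, hmin⟩ := isCompact_Icc.exists_isMinOn hne (f_continuous hm).continuousOn
  exact ⟨f m r₀, f_pos hm (by linarith [hr₀.1]) (by linarith [hr₀.2]),
    fun r ha hb => hmin ⟨ha, hb⟩⟩

lemma Lv_mono {m N : ℕ} (φ : (Fin m → Fin N) → ℝ) (η : ℝ) : Monotone fun r => Lv φ η r := by
  intro r r' h
  refine Av_mono fun x => ?_
  exact modL2_mono (lev x) (η * φ x) h

lemma ii_sub {m N : ℕ} (φ : (Fin m → Fin N) → ℝ) (η s α β : ℝ) :
    IntervalIntegrable (fun τ => Lv φ η (s - τ)) volume α β := by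
  have h : Antitone fun τ => Lv φ η (s - τ) := fun a b hab => Lv_mono φ η (by linarith)
  exact h.intervalIntegrable

lemma ii_add {m N : ℕ} (φ : (Fin m → Fin N) → ℝ) (η s α β : ℝ) :
    IntervalIntegrable (fun τ => Lv φ η (s + τ / 2)) volume α β := by
  have h : Monotone fun τ => Lv φ η (s + τ / 2) := fun a b hab => Lv_mono φ η (by linarith)
  exact h.intervalIntegrable

/-- the integrated slice inequality -/
lemma integrated {m N : ℕ} (hm : 1 ≤ m) (hN : 1 ≤ N) {φ₁ φ₂ φ₃ : (Fin m → Fin N) → ℝ}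
    (h₁ : ∀ x, 0 ≤ φ₁ x ∧ φ₁ x ≤ 1) (h₂ : ∀ x, 0 ≤ φ₂ x ∧ φ₂ x ≤ 1)
    (h₃ : ∀ x, 0 ≤ φ₃ x ∧ φ₃ x ≤ 1) {η K s r₂ r₃ k₂ k₃ : ℝ} (hη : 0 < η) (hη1 : η ≤ 1)
    (hNη : 1 / (N : ℝ) ≤ η ^ 2) (hs : 0 ≤ s) (hk₂ : 0 ≤ k₂) (hk₃ : 0 ≤ k₃)
    (hpt : ∀ τ, 0 < τ → τ < s → Lv φ₁ 0 (s - τ) - Lv φ₁ (-η) (s - τ) ≤
      k₂ * (Lv φ₂ η (r₂ + τ / 2) - Lv φ₂ 0 (r₂ + τ / 2)) +
      k₃ * (Lv φ₃ η (r₃ + τ / 2) - Lv φ₃ 0 (r₃ + τ / 2)) + K * η ^ 2) :
    Av (fun x => ind (lev x < s) * φ₁ x) ≤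
      2 * k₂ * Av (fun x => ind (r₂ < lev x ∧ lev x < r₂ + s / 2) * φ₂ x) +
      2 * k₃ * Av (fun x => ind (r₃ < lev x ∧ lev x < r₃ + s / 2) * φ₃ x) +
      ((4 * k₂ + 4 * k₃ + 1) * (1 + m) + K * s) * η := by
  have hN' : (0 : ℝ) < N := by exact_mod_cast hN
  have hI : (∫ τ in (0 : ℝ)..s, (Lv φ₁ 0 (s - τ) - Lv φ₁ (-η) (s - τ))) ≤
      ∫ τ in (0 : ℝ)..s, (k₂ * (Lv φ₂ η (r₂ + τ / 2) - Lv φ₂ 0 (r₂ + τ / 2)) +
      k₃ * (Lv φ₃ η (r₃ + τ / 2) - Lv φ₃ 0 (r₃ + τ / 2)) + K * η ^ 2) := by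
    refine intervalIntegral.integral_mono_on_of_le_Ioo hs
      ((ii_sub φ₁ 0 s 0 s).sub (ii_sub φ₁ (-η) s 0 s))
      (((((ii_add φ₂ η r₂ 0 s).sub (ii_add φ₂ 0 r₂ 0 s)).const_mul k₂).add
        (((ii_add φ₃ η r₃ 0 s).sub (ii_add φ₃ 0 r₃ 0 s)).const_mul k₃)).add
        intervalIntegrable_const) fun τ hτ => hpt τ hτ.1 hτ.2
  have e1 : (∫ τ in (0 : ℝ)..s, (Lv φ₁ 0 (s - τ) - Lv φ₁ (-η) (s - τ))) =
      ∫ r in (0 : ℝ)..s, (Lv φ₁ 0 r - Lv φ₁ (-η) r) := by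
    have h := intervalIntegral.integral_comp_sub_left (a := 0) (b := s)
      (fun r => Lv φ₁ 0 r - Lv φ₁ (-η) r) s
    rw [sub_self, sub_zero] at h
    exact h
  have e2 : ∀ (φ : (Fin m → Fin N) → ℝ) (r : ℝ),
      (∫ τ in (0 : ℝ)..s, (Lv φ η (r + τ / 2) - Lv φ 0 (r + τ / 2))) =
        2 * ∫ r' in r..(r + s / 2), (Lv φ η r' - Lv φ 0 r') := by
    intro φ r
    have h := intervalIntegral.integral_comp_add_div (a := 0) (b := s)
      (fun r => Lv φ η r - Lv φ 0 r) (c := 2) (by norm_num) r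
    rw [zero_div, add_zero, smul_eq_mul] at h
    exact h
  rw [e1, intervalIntegral.integral_add
      ((((ii_add φ₂ η r₂ 0 s).sub (ii_add φ₂ 0 r₂ 0 s)).const_mul k₂).add
        (((ii_add φ₃ η r₃ 0 s).sub (ii_add φ₃ 0 r₃ 0 s)).const_mul k₃)) intervalIntegrable_const,
    intervalIntegral.integral_add (((ii_add φ₂ η r₂ 0 s).sub (ii_add φ₂ 0 r₂ 0 s)).const_mul k₂)
        (((ii_add φ₃ η r₃ 0 s).sub (ii_add φ₃ 0 r₃ 0 s)).const_mul k₃),
    intervalIntegral.integral_const_mul, intervalIntegral.integral_const_mul, e2, e2,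
    intervalIntegral.integral_const, smul_eq_mul, sub_zero] at hI
  have hd := int_down hm hN φ₁ h₁ hη hs
  have hu2 := int_up hm hN φ₂ h₂ hη (show r₂ ≤ r₂ + s / 2 by linarith)
  have hu3 := int_up hm hN φ₃ h₃ hη (show r₃ ≤ r₃ + s / 2 by linarith)
  have hmono : Av (fun x => ind (lev x < s) * φ₁ x) ≤
      Av (fun x => ind ((0 : ℝ) ≤ lev x ∧ lev x ≤ s) * φ₁ x) := by
    refine Av_mono fun x => mul_le_mul_of_nonneg_right ?_ (h₁ x).1
    exact modL2_ind_mono fun h => ⟨lev_nonneg x, h.le⟩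
  have hmN : (m : ℝ) / N ≤ m * η := by
    have h5 : (m : ℝ) / N = m * (1 / N) := by ring
    rw [h5]
    refine mul_le_mul_of_nonneg_left ?_ (Nat.cast_nonneg m)
    nlinarith
  set X := Av (fun x => ind (lev x < s) * φ₁ x) with hX
  set X' := Av (fun x => ind ((0 : ℝ) ≤ lev x ∧ lev x ≤ s) * φ₁ x) with hX'
  set Y := Av (fun x => ind (r₂ < lev x ∧ lev x < r₂ + s / 2) * φ₂ x) with hY
  set Z := Av (fun x => ind (r₃ < lev x ∧ lev x < r₃ + s / 2) * φ₃ x) with hZ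
  have hE : η + m / N ≤ (1 + m) * η := by linarith
  have h6 : η * X ≤ η * X' := mul_le_mul_of_nonneg_left hmono hη.le
  have h7 : k₂ * (2 * ∫ r' in r₂..(r₂ + s / 2), (Lv φ₂ η r' - Lv φ₂ 0 r')) ≤
      k₂ * (2 * (η * Y + 2 * η * (η + m / N))) :=
    mul_le_mul_of_nonneg_left (by linarith) hk₂
  have h8 : k₃ * (2 * ∫ r' in r₃..(r₃ + s / 2), (Lv φ₃ η r' - Lv φ₃ 0 r')) ≤
      k₃ * (2 * (η * Z + 2 * η * (η + m / N))) :=
    mul_le_mul_of_nonneg_left (by linarith) hk₃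
  have h9 : η * X ≤ η * (2 * k₂ * Y + 2 * k₃ * Z +
      ((4 * k₂ + 4 * k₃ + 1) * (η + m / N) + K * s * η)) := by
    nlinarith
  have h10 := le_of_mul_le_mul_left h9 hη
  have h11 : (4 * k₂ + 4 * k₃ + 1) * (η + m / N) ≤ (4 * k₂ + 4 * k₃ + 1) * ((1 + m) * η) :=
    mul_le_mul_of_nonneg_left hE (by positivity)
  linarith

lemma mir_ne {m N : ℕ} {x : Fin m → Fin N} (hx : ∀ j, (x j : ℕ) ≠ 0) (j : Fin m) :
    (mir x j : ℕ) ≠ 0 := by
  rw [mir_val hx j]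
  have := (x j).isLt
  omega

lemma refl_mir {m N : ℕ} {b : (Fin m → Fin N) → ℝ} {x : Fin m → Fin N}
    (hx : ∀ j, (x j : ℕ) ≠ 0) : refl b (mir x) = b x := by
  unfold refl
  rw [if_pos (mir_ne hx), mir_mir]

lemma ind_mul_mem {p : Prop} {t : ℝ} (h : 0 ≤ t ∧ t ≤ 1) : 0 ≤ ind p * t ∧ ind p * t ≤ 1 :=
  ⟨mul_nonneg (modL2_ind_nonneg p) h.1, mul_le_one₀ (modL2_ind_le_one p) h.1 h.2⟩

lemma abs_sub_le_one {s t : ℝ} (hs : 0 ≤ s ∧ s ≤ 1) (ht : 0 ≤ t ∧ t ≤ 1) : |s - t| ≤ 1 := by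
  rw [abs_le]
  constructor <;> linarith [hs.1, hs.2, ht.1, ht.2]

lemma ind_congr {p q : Prop} (h : p ↔ q) : ind p = ind q := by rw [propext h]

/-- the reflection of the middle region -/
lemma reflect_deep {m N : ℕ} (hN : 1 ≤ N) {b : (Fin m → Fin N) → ℝ}
    (hb : ∀ x, 0 ≤ b x ∧ b x ≤ 1) {α β α' β' : ℝ} (hα : α + β' = m) (hβ : β + α' = m) :
    Av (fun x => ind (α < lev x ∧ lev x < β) * refl b x) ≤
      Av (fun x => ind (α' < lev x ∧ lev x < β') * b x) + m / N := by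
  have h := Av_mir hN (fun x => ind (α < lev x ∧ lev x < β) * refl b x)
    (fun x => ind (α' < lev x ∧ lev x < β') * b x) zero_le_one ?_ ?_
  · rw [one_mul, abs_le] at h
    linarith [h.2]
  · intro x hx
    show ind (α < lev (mir x) ∧ lev (mir x) < β) * refl b (mir x) = _
    rw [refl_mir hx, lev_mir hN hx]
    congr 1
    refine ind_congr ⟨fun h => ⟨by linarith [h.2], by linarith [h.1]⟩,
      fun h => ⟨by linarith [h.2], by linarith [h.1]⟩⟩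
  · intro x
    exact abs_sub_le_one (ind_mul_mem (refl_mem hb _)) (ind_mul_mem (hb x))

/-- the reflection of the region above -/
lemma reflect_above {m N : ℕ} (hN : 1 ≤ N) {b : (Fin m → Fin N) → ℝ}
    (hb : ∀ x, 0 ≤ b x ∧ b x ≤ 1) {α β : ℝ} (hα : α + β = m) :
    Av (fun x => ind (β < lev x) * (1 - b x)) ≤
      Av (fun x => ind (lev x < α) * (1 - refl b x)) + m / N := by
  have h := Av_mir hN (fun x => ind (lev x < α) * (1 - refl b x))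
    (fun x => ind (β < lev x) * (1 - b x)) zero_le_one ?_ ?_
  · rw [one_mul, abs_le] at h
    linarith [h.1]
  · intro x hx
    show ind (lev (mir x) < α) * (1 - refl b (mir x)) = _
    rw [refl_mir hx, lev_mir hN hx]
    congr 1
    exact ind_congr ⟨fun h => by linarith, fun h => by linarith⟩
  · intro x
    have h1 := refl_mem hb (mir x)
    have h2 := hb x
    exact abs_sub_le_one (ind_mul_mem ⟨by linarith [h1.2], by linarith [h1.1]⟩)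
      (ind_mul_mem ⟨by linarith [h2.2], by linarith [h2.1]⟩)

lemma lev_lt {m N : ℕ} (hm : 1 ≤ m) (x : Fin m → Fin N) : lev x < m := by
  have hN : 0 < N := (Nat.zero_le _).trans_lt (x ⟨0, by omega⟩).isLt
  have hN' : (0 : ℝ) < N := by exact_mod_cast hN
  unfold lev
  rw [div_lt_iff₀ hN']
  have h1 : ∀ j : Fin m, ((x j : ℕ) : ℝ) < N := fun j => by exact_mod_cast (x j).isLt
  calc ∑ j, ((x j : ℕ) : ℝ) < ∑ _j : Fin m, (N : ℝ) :=
        Finset.sum_lt_sum_of_nonempty ⟨⟨0, by omega⟩, Finset.mem_univ _⟩ fun j _ => h1 j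
    _ = m * N := by rw [Finset.sum_const, Finset.card_univ, Fintype.card_fin, nsmul_eq_mul]

end ModL3

open ModL3

/-- the region below is controlled by the deep region -/
theorem below' {m : ℕ} (hm : 2 ≤ m) (hS : SlicePt m) {c u κ₁ κ₂ : ℝ} (hG : Good m c u κ₁ κ₂) :
    ∃ K η₀ : ℝ, 0 < K ∧ 0 < η₀ ∧ ∀ N : ℕ, 1 ≤ N → ∀ b : (Fin m → Fin N) → ℝ,
      (∀ x, 0 ≤ b x ∧ b x ≤ 1) → Rel b → ∀ η : ℝ, 0 < η → η ≤ η₀ → 1 / (N : ℝ) ≤ η ^ 2 →
      Av (fun x => ind (lev x < c - 1) * (1 - b x)) ≤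
        2 * κ₁ * Av (fun x => ind (c < lev x ∧ lev x < (3 * c - 1) / 2) * b x) +
        49 / 50 * Av (fun x => ind ((3 * c - 1) / 2 < lev x ∧ lev x < 2 * c - 1) * b x) +
        K * η := by
  obtain ⟨g, hg, hgf⟩ := exists_g hm hG
  obtain ⟨K, η₀, hK, hη₀, hS⟩ := hS g hg
  have h1 := hG.sum
  have h2 := hG.u_pos
  have h3 := hG.u_lt
  have h4 := hG.one_lt
  have hk1 := hG.k1_nonneg
  have hm2 : (2 : ℝ) ≤ m := by exact_mod_cast hm
  refine ⟨(4 * κ₁ + 4 * (49 / 100) + 1) * (1 + m) + K * (c - 1) + m, min η₀ 1, ?_,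
    lt_min hη₀ one_pos, fun N hN b hb hr η hη hηη hNη => ?_⟩
  · have : 0 ≤ K * (c - 1) := mul_nonneg hK.le (by linarith)
    positivity
  have hη1 : η ≤ 1 := hηη.trans (min_le_right _ _)
  have hφ₁ : ∀ x, 0 ≤ 1 - b x ∧ 1 - b x ≤ 1 := fun x => ⟨by linarith [(hb x).2], by linarith [(hb x).1]⟩
  have hI := integrated (m := m) (N := N) (by omega) hN (φ₁ := fun x => 1 - b x) (φ₂ := b)
    (φ₃ := refl b) hφ₁ hb (refl_mem hb) (K := K) (s := c - 1) (r₂ := c) (r₃ := u) (k₂ := κ₁)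
    (k₃ := 49 / 100) hη hη1 hNη (by linarith) hk1 (by norm_num) (by
      intro τ h0 hτ
      refine hS N hN _ _ _ hφ₁ hb (refl_mem hb) ?_ η hη (hηη.trans (min_le_left _ _)) hNη
        (c - 1 - τ) (c + τ / 2) (u + τ / 2) (by linarith) (by linarith)
        (hgf _ (by linarith) (by linarith)) (hgf _ (by linarith) (by linarith)) (by linarith)
        κ₁ (49 / 100) (hG.b1 τ h0 hτ) (hG.b2 τ h0 hτ)
      intro x y w hxyw
      have := refl_rel hb hr x y w hxyw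
      linarith)
  have hrf := reflect_deep hN hb (α := u) (β := u + (c - 1) / 2) (α' := (3 * c - 1) / 2)
    (β' := 2 * c - 1) (by linarith) (by linarith)
  rw [show c + (c - 1) / 2 = (3 * c - 1) / 2 by ring] at hI
  have hmN : (m : ℝ) / N ≤ m * η := by
    have h5 : (m : ℝ) / N = m * (1 / N) := by ring
    rw [h5]
    refine mul_le_mul_of_nonneg_left ?_ (Nat.cast_nonneg m)
    nlinarith
  nlinarith

/-- the region above is controlled by the deep region -/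
theorem above' {m : ℕ} (hm : 2 ≤ m) (hS : SlicePt m) {c u κ₁ κ₂ : ℝ} (hG : Good m c u κ₁ κ₂) :
    ∃ K η₀ : ℝ, 0 < K ∧ 0 < η₀ ∧ ∀ N : ℕ, 1 ≤ N → ∀ b : (Fin m → Fin N) → ℝ,
      (∀ x, 0 ≤ b x ∧ b x ≤ 1) → Rel b → ∀ η : ℝ, 0 < η → η ≤ η₀ → 1 / (N : ℝ) ≤ η ^ 2 →
      Av (fun x => ind (2 * c < lev x) * (1 - b x)) ≤
        4 * κ₂ * Av (fun x => ind (c < lev x ∧ lev x < (3 * c - 1) / 2) * b x) + K * η := by
  obtain ⟨g, hg, hgf⟩ := exists_g hm hG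
  obtain ⟨K, η₀, hK, hη₀, hS⟩ := hS g hg
  have h1 := hG.sum
  have h2 := hG.u_pos
  have h3 := hG.u_lt
  have h4 := hG.one_lt
  have hk2 := hG.k2_nonneg
  have hm2 : (2 : ℝ) ≤ m := by exact_mod_cast hm
  refine ⟨(4 * κ₂ + 4 * κ₂ + 1) * (1 + m) + K * c + m, min η₀ 1, by positivity,
    lt_min hη₀ one_pos, fun N hN b hb hr η hη hηη hNη => ?_⟩
  have hη1 : η ≤ 1 := hηη.trans (min_le_right _ _)
  have hD0 : 0 ≤ Av (fun x => ind (c < lev x ∧ lev x < (3 * c - 1) / 2) * b x) :=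
    Av_nonneg fun x => (ind_mul_mem (hb x)).1
  rcases le_or_gt u 1 with hu | hu
  · have hz : Av (fun x => ind (2 * c < lev x) * (1 - b x)) ≤ 0 := by
      have h5 : Av (fun x : Fin m → Fin N => ind (2 * c < lev x) * (1 - b x)) =
          Av (fun _ : Fin m → Fin N => (0 : ℝ)) := by
        congr 1
        funext x
        have h6 := lev_lt (by omega : 1 ≤ m) x
        rw [modL2_ind_false (by linarith), zero_mul]
      rw [h5, Av_const hN]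
    refine hz.trans ?_
    positivity
  have hφ₁ : ∀ x, 0 ≤ 1 - refl b x ∧ 1 - refl b x ≤ 1 := fun x =>
    ⟨by linarith [(refl_mem hb x).2], by linarith [(refl_mem hb x).1]⟩
  have hI := integrated (m := m) (N := N) (by omega) hN (φ₁ := fun x => 1 - refl b x) (φ₂ := b)
    (φ₃ := b) hφ₁ hb hb (K := K) (s := u - 1) (r₂ := c) (r₃ := c) (k₂ := κ₂)
    (k₃ := κ₂) hη hη1 hNη (by linarith) hk2 hk2 (by
      intro τ h0 hτ
      refine hS N hN _ _ _ hφ₁ hb hb ?_ η hη (hηη.trans (min_le_left _ _)) hNη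
        (u - 1 - τ) (c + τ / 2) (c + τ / 2) (by linarith) (by linarith)
        (hgf _ (by linarith) (by linarith)) (hgf _ (by linarith) (by linarith)) (by linarith)
        κ₂ κ₂ (hG.b3 τ h0 hτ) (hG.b3 τ h0 hτ)
      intro x y w hxyw
      have := refl_rel hb hr y w x fun j => by have := hxyw j; omega
      linarith)
  have hrf := reflect_above hN hb (α := u - 1) (β := 2 * c) (by linarith)
  have hmono : Av (fun x => ind (c < lev x ∧ lev x < c + (u - 1) / 2) * b x) ≤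
      Av (fun x => ind (c < lev x ∧ lev x < (3 * c - 1) / 2) * b x) := by
    refine Av_mono fun x => mul_le_mul_of_nonneg_right ?_ (hb x).1
    exact modL2_ind_mono fun h => ⟨h.1, by linarith [h.2]⟩
  have hmN : (m : ℝ) / N ≤ m * η := by
    have h5 : (m : ℝ) / N = m * (1 / N) := by ring
    rw [h5]
    refine mul_le_mul_of_nonneg_left ?_ (Nat.cast_nonneg m)
    nlinarith
  have h6 := mul_le_mul_of_nonneg_left hmono hk2
  have h7 : K * (u - 1) * η ≤ K * c * η := by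
    have : K * (u - 1) ≤ K * c := mul_le_mul_of_nonneg_left (by linarith) hK.le
    exact mul_le_mul_of_nonneg_right this hη.le
  nlinarith

/-- slices: total -/
theorem slices' {m : ℕ} (hm : 2 ≤ m) (hS : SlicePt m) {c u κ₁ κ₂ : ℝ} (hG : Good m c u κ₁ κ₂) :
    ∃ K η₀ : ℝ, 0 < K ∧ 0 < η₀ ∧ ∀ N : ℕ, 1 ≤ N → ∀ b : (Fin m → Fin N) → ℝ,
      (∀ x, 0 ≤ b x ∧ b x ≤ 1) → Rel b → ∀ η : ℝ, 0 < η → η ≤ η₀ → 1 / (N : ℝ) ≤ η ^ 2 →
      Av (fun x => ind (lev x < c - 1) * (1 - b x)) + Av (fun x => ind (2 * c < lev x) * (1 - b x)) ≤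
        49 / 50 * Av (fun x => ind (c < lev x ∧ lev x < 2 * c - 1) * b x) + K * η := by
  obtain ⟨K, η₀, hK, hη₀, hB⟩ := below' hm hS hG
  obtain ⟨K', η₀', hK', hη₀', hA⟩ := above' hm hS hG
  refine ⟨K + K', min η₀ η₀', by positivity, lt_min hη₀ hη₀', fun N hN b hb hr η hη hηη hNη => ?_⟩
  have h1 := hB N hN b hb hr η hη (hηη.trans (min_le_left _ _)) hNη
  have h2 := hA N hN b hb hr η hη (hηη.trans (min_le_right _ _)) hNη
  have h4 := hG.one_lt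
  have h5 : Av (fun x => ind (c < lev x ∧ lev x < (3 * c - 1) / 2) * b x) +
      Av (fun x => ind ((3 * c - 1) / 2 < lev x ∧ lev x < 2 * c - 1) * b x) ≤
      Av (fun x => ind (c < lev x ∧ lev x < 2 * c - 1) * b x) := by
    rw [← Av_add]
    refine Av_mono fun x => ?_
    have hb0 := (hb x).1
    by_cases ha : c < lev x ∧ lev x < (3 * c - 1) / 2
    · rw [modL2_ind_true ha, modL2_ind_false (by rintro ⟨h, -⟩; linarith [ha.2]),
        modL2_ind_true (show c < lev x ∧ lev x < 2 * c - 1 from ⟨ha.1, by linarith [ha.2]⟩)]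
      linarith
    · rw [modL2_ind_false ha, zero_mul, zero_add]
      refine mul_le_mul_of_nonneg_right ?_ hb0
      exact modL2_ind_mono fun h => ⟨by linarith [h.1], h.2⟩
  have h6 : 0 ≤ Av (fun x => ind (c < lev x ∧ lev x < (3 * c - 1) / 2) * b x) :=
    Av_nonneg fun x => (ind_mul_mem (hb x)).1
  have h7 := mul_le_mul_of_nonneg_right hG.load h6
  linarith

end Pool.Agent.Work.MP_0cd883_co.Cube
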