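import Pool.Agent.Work.MP_0cd883_co.Cube.ModL1
import Pool.Agent.Work.MP_0cd883_co.Cube.ModL3

/-! Module L: the slice coupling, final form. -/

namespace Pool.Agent.Work.MP_0cd883_co.Cube

/-- slices: total -/
theorem slices (hL : ∀ n, 1 ≤ n → LCore n) {m : ℕ} (hm : 2 ≤ m) {c u κ₁ κ₂ : ℝ}
    (hG : Good m c u κ₁ κ₂) :
    ∃ K η₀ : ℝ, 0 < K ∧ 0 < η₀ ∧ ∀ N : ℕ, 1 ≤ N → ∀ b : (Fin m → Fin N) → ℝ,
      (∀ x, 0 ≤ b x ∧ b x ≤ 1) → Rel b → ∀ η : ℝ, 0 < η → η ≤ η₀ → 1 / (N : ℝ) ≤ η ^ 2 →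
      Av (fun x => ind (lev x < c - 1) * (1 - b x)) + Av (fun x => ind (2 * c < lev x) * (1 - b x)) ≤
        49 / 50 * Av (fun x => ind (c < lev x ∧ lev x < 2 * c - 1) * b x) + K * η :=
  slices' hm (fun _ hg => slice_pt hL hm hg) hG

end Pool.Agent.Work.MP_0cd883_co.Cube
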