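import Pool.Agent.Work.MP_0cd883_co.Cube.ModK
import Pool.Agent.Work.MP_0cd883_co.Cube.ModL

/-! Module N: accounting. -/

namespace Pool.Agent.Work.MP_0cd883_co.Cube

theorem modN_split {c s b : ℝ} (hc : 1 < c) :
    b = clamp (c - s) + clamp (s - (2 * c - 1)) - ind (s < c - 1) * (1 - b) -
      ind (2 * c < s) * (1 - b) + ind (c - 1 ≤ s ∧ s ≤ c) * (b - (c - s)) +
      ind (2 * c - 1 ≤ s ∧ s ≤ 2 * c) * (b - (s - (2 * c - 1))) +
      ind (c < s ∧ s < 2 * c - 1) * b := by
  unfold clamp ind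
  rcases lt_or_ge s (c - 1) with h1 | h1
  · rw [if_pos h1, if_neg (by linarith), if_neg (by rintro ⟨h, _⟩; linarith),
      if_neg (by rintro ⟨h, _⟩; linarith), if_neg (by rintro ⟨h, _⟩; linarith),
      min_eq_right (by linarith), min_eq_left (by linarith), max_eq_right zero_le_one,
      max_eq_left (by linarith)]
    ring
  rcases le_or_gt s c with h2 | h2
  · rw [if_neg (by linarith), if_neg (by linarith), if_pos ⟨h1, h2⟩,
      if_neg (by rintro ⟨h, _⟩; linarith), if_neg (by rintro ⟨h, _⟩; linarith),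
      min_eq_left (by linarith), min_eq_left (by linarith), max_eq_right (by linarith),
      max_eq_left (by linarith)]
    ring
  rcases lt_or_ge s (2 * c - 1) with h3 | h3
  · rw [if_neg (by linarith), if_neg (by linarith), if_neg (by rintro ⟨_, h⟩; linarith),
      if_neg (by rintro ⟨h, _⟩; linarith), if_pos ⟨h2, h3⟩,
      min_eq_left (by linarith), min_eq_left (by linarith), max_eq_left (by linarith),
      max_eq_left (by linarith)]
    ring
  rcases le_or_gt s (2 * c) with h4 | h4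
  · rw [if_neg (by linarith), if_neg (by linarith), if_neg (by rintro ⟨_, h⟩; linarith),
      if_pos ⟨h3, h4⟩, if_neg (by rintro ⟨_, h⟩; linarith),
      min_eq_left (by linarith), min_eq_left (by linarith), max_eq_left (by linarith),
      max_eq_right (by linarith)]
    ring
  · rw [if_neg (by linarith), if_pos h4, if_neg (by rintro ⟨_, h⟩; linarith),
      if_neg (by rintro ⟨_, h⟩; linarith), if_neg (by rintro ⟨_, h⟩; linarith),
      min_eq_left (by linarith), min_eq_right (by linarith), max_eq_left (by linarith),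
      max_eq_right zero_le_one]
    ring

theorem modN_av {m N : ℕ} (b : (Fin m → Fin N) → ℝ) {c : ℝ} (hc : 1 < c) :
    Av b = Av (fun x : Fin m → Fin N => clamp (c - lev x)) +
      Av (fun x : Fin m → Fin N => clamp (lev x - (2 * c - 1))) -
      Av (fun x => ind (lev x < c - 1) * (1 - b x)) - Av (fun x => ind (2 * c < lev x) * (1 - b x)) +
      Av (fun x => ind (c - 1 ≤ lev x ∧ lev x ≤ c) * (b x - (c - lev x))) +
      Av (fun x => ind (2 * c - 1 ≤ lev x ∧ lev x ≤ 2 * c) * (b x - (lev x - (2 * c - 1)))) +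
      Av (fun x => ind (c < lev x ∧ lev x < 2 * c - 1) * b x) := by
  rw [← Av_add, ← Av_sub, ← Av_sub, ← Av_add, ← Av_add, ← Av_add]
  congr 1
  funext x
  exact modN_split hc

/-- the missing fraction, with a gain from the deep region -/
theorem lower_b (hL : ∀ n, 1 ≤ n → LCore n) {m : ℕ} (hm : 2 ≤ m) {c u κ₁ κ₂ : ℝ}
    (hG : Good m c u κ₁ κ₂) :
    ∃ K : ℝ, 0 < K ∧ ∀ N : ℕ, 1 ≤ N → ∀ b : (Fin m → Fin N) → ℝ,
      (∀ x, 0 ≤ b x ∧ b x ≤ 1) → Rel b →
      F (m + 1) c + F (m + 1) u + 1 / 50 * Av (fun x => ind (c < lev x ∧ lev x < 2 * c - 1) * b x) -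
        K / √(N : ℝ) ≤ Av b := by
  obtain ⟨K₁, ε₀, hK₁, hε₀, hvis⟩ := visible hL hm hG.sum (by linarith [hG.one_lt]) hG.u_pos hG.crit
  obtain ⟨K₂, η₀, hK₂, hη₀, hsl⟩ := slices hL hm hG
  have hδ : 0 < min ε₀ η₀ := lt_min hε₀ hη₀
  refine ⟨m + K₁ + K₂ + 3 / min ε₀ η₀, by positivity, ?_⟩
  intro N hN b hb hr
  have hN0 : (1 : ℝ) ≤ N := by exact_mod_cast hN
  have hs1 : 1 ≤ √(N : ℝ) := Real.one_le_sqrt.2 hN0
  have hs0 : 0 < √(N : ℝ) := by linarith
  have hAv0 : 0 ≤ Av b := Av_nonneg fun x => (hb x).1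
  set D : ℝ := Av (fun x => ind (c < lev x ∧ lev x < 2 * c - 1) * b x) with hD
  rcases le_or_gt (1 / √(N : ℝ)) (min ε₀ η₀) with h | h
  · have hε : 0 < 1 / √(N : ℝ) := by positivity
    have hsq : 1 / (N : ℝ) ≤ (1 / √(N : ℝ)) ^ 2 := by
      rw [div_pow, one_pow, Real.sq_sqrt (by linarith)]
    have v := hvis N hN b hb hr _ hε (h.trans (min_le_left _ _)) hsq
    have w := hsl N hN b hb hr _ hε (h.trans (min_le_right _ _)) hsq
    have e := modN_av b hG.one_lt
    have l1 := clamp_lower (m := m) (N := N) hN c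
    have l2 := clamp_high (m := m) (N := N) hN u
    have e2 : (m : ℝ) - u = 2 * c - 1 := by linarith [hG.sum]
    rw [e2] at l2
    have hmN : (m : ℝ) / N ≤ m * (1 / √(N : ℝ)) := by
      rw [mul_one_div]
      refine div_le_div_of_nonneg_left (by positivity) hs0 ?_
      have : √(N : ℝ) * √(N : ℝ) = N := Real.mul_self_sqrt (by linarith)
      nlinarith
    have h3 : 0 ≤ 3 / min ε₀ η₀ * (1 / √(N : ℝ)) := by positivity
    have e3 : (m + K₁ + K₂ + 3 / min ε₀ η₀) / √(N : ℝ) =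
        m * (1 / √(N : ℝ)) + K₁ * (1 / √(N : ℝ)) + K₂ * (1 / √(N : ℝ)) +
          3 / min ε₀ η₀ * (1 / √(N : ℝ)) := by ring
    rw [e3]
    linarith
  · have h1 : 3 ≤ (m + K₁ + K₂ + 3 / min ε₀ η₀) / √(N : ℝ) := by
      have h2 : 3 ≤ 3 / min ε₀ η₀ * (1 / √(N : ℝ)) := by
        have h4 : 1 ≤ 1 / min ε₀ η₀ * (1 / √(N : ℝ)) := by
          have h5 : 1 / min ε₀ η₀ * min ε₀ η₀ = 1 := by field_simp
          calc (1 : ℝ) = 1 / min ε₀ η₀ * min ε₀ η₀ := h5.symm
            _ ≤ 1 / min ε₀ η₀ * (1 / √(N : ℝ)) :=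
              mul_le_mul_of_nonneg_left h.le (by positivity)
        calc (3 : ℝ) = 3 * 1 := by ring
          _ ≤ 3 * (1 / min ε₀ η₀ * (1 / √(N : ℝ))) := by linarith
          _ = _ := by ring
      have e3 : (m + K₁ + K₂ + 3 / min ε₀ η₀) / √(N : ℝ) =
          (m + K₁ + K₂) * (1 / √(N : ℝ)) + 3 / min ε₀ η₀ * (1 / √(N : ℝ)) := by ring
      have h6 : 0 ≤ (m + K₁ + K₂) * (1 / √(N : ℝ)) := by positivity
      linarith
    have hD1 : D ≤ 1 := by
      have : Av (fun x => ind (c < lev x ∧ lev x < 2 * c - 1) * b x) ≤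
          Av (fun _ : Fin m → Fin N => (1 : ℝ)) := by
        refine Av_mono fun x => ?_
        unfold ind
        split_ifs
        · linarith [(hb x).2]
        · linarith
      rw [Av_const hN] at this
      exact this
    have f1 := F_le_one (m + 1) c
    have f2 := F_le_one (m + 1) u
    linarith

end Pool.Agent.Work.MP_0cd883_co.Cube
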