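import Pool.Agent.Work.MP_0cd883_co.Cube.DefsS
import Pool.Agent.Work.MP_0cd883_co.Cube.ModM

/-! Module O1: the missing fractions of a sum-free set; slabs. -/

namespace Pool.Agent.Work.MP_0cd883_co.Cube

open Finset

/-- Three subsets of `[N]` without solution of `x + y = z`. -/
theorem o1_three {N : ℕ} {X Y Z : Finset ℕ} (hX : X ⊆ Icc 1 N) (hY : Y ⊆ Icc 1 N)
    (hZ : Z ⊆ Icc 1 N) (h : ∀ x ∈ X, ∀ y ∈ Y, x + y ∉ Z) :
    X.card + Y.card + Z.card ≤ 2 * N + 1 := by
  classical
  rcases Z.eq_empty_or_nonempty with rfl | hne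
  · have h1 := card_le_card hX
    have h2 := card_le_card hY
    rw [Nat.card_Icc] at h1 h2
    rw [card_empty]
    omega
  · set z := Z.max' hne with hz
    have hzZ : z ∈ Z := Z.max'_mem hne
    have hzN := mem_Icc.1 (hZ hzZ)
    have hZc : Z.card ≤ z := by
      have : Z ⊆ Icc 1 z := fun w hw => mem_Icc.2 ⟨(mem_Icc.1 (hZ hw)).1, Z.le_max' w hw⟩
      have := card_le_card this
      rw [Nat.card_Icc] at this
      omega
    -- the small part of X and the mirrored small part of Y are disjoint
    have hXs : (X.filter (· < z)).card + (Y.filter (· < z)).card ≤ z - 1 := by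
      have hinj : ((Y.filter (· < z)).image fun y => z - y).card = (Y.filter (· < z)).card := by
        refine card_image_of_injOn fun a ha b hb hab => ?_
        have ha' := (mem_filter.1 ha).2
        have hb' := (mem_filter.1 hb).2
        have hab' : z - a = z - b := hab
        omega
      have hdisj : Disjoint (X.filter (· < z)) ((Y.filter (· < z)).image fun y => z - y) := by
        rw [disjoint_left]
        intro a ha hb
        obtain ⟨y, hy, hya⟩ := mem_image.1 hb
        have h1 := (mem_filter.1 ha).1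
        have h2 := (mem_filter.1 hy)
        refine h a h1 y h2.1 ?_
        have h3 := h2.2
        have : a + y = z := by omega
        rw [this]
        exact hzZ
      have hsub : (X.filter (· < z)) ∪ ((Y.filter (· < z)).image fun y => z - y) ⊆
          Icc 1 (z - 1) := by
        intro a ha
        rcases mem_union.1 ha with ha | ha
        · have h1 := mem_filter.1 ha
          have h2 := mem_Icc.1 (hX h1.1)
          exact mem_Icc.2 ⟨h2.1, by omega⟩
        · obtain ⟨y, hy, hya⟩ := mem_image.1 ha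
          have h1 := mem_filter.1 hy
          have h2 := mem_Icc.1 (hY h1.1)
          exact mem_Icc.2 ⟨by omega, by omega⟩
      have hc := card_le_card hsub
      rw [card_union_of_disjoint hdisj, hinj, Nat.card_Icc] at hc
      omega
    have hbig : ∀ W : Finset ℕ, W ⊆ Icc 1 N → (W.filter fun w => ¬ w < z).card ≤ N + 1 - z := by
      intro W hW
      have : (W.filter fun w => ¬ w < z) ⊆ Icc z N := by
        intro w hw
        have h1 := mem_filter.1 hw
        have h2 := mem_Icc.1 (hW h1.1)
        exact mem_Icc.2 ⟨by omega, h2.2⟩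
      have := card_le_card this
      rw [Nat.card_Icc] at this
      exact this
    have e1 := card_filter_add_card_filter_not (s := X) (· < z)
    have e2 := card_filter_add_card_filter_not (s := Y) (· < z)
    have b1 := hbig X hX
    have b2 := hbig Y hY
    omega

theorem miss_mem {m N : ℕ} (hN : 1 ≤ N) (A : Finset (Fin (m + 1) → ℕ)) (x : Fin m → Fin N) :
    0 ≤ miss N A x ∧ miss N A x ≤ 1 := by
  classical
  have hN' : (0 : ℝ) < N := by exact_mod_cast hN
  have h1 : (((Finset.Icc 1 N).filter fun v =>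
      Fin.snoc (α := fun _ => ℕ) (fun j => (x j : ℕ) + 1) v ∈ A).card : ℝ) ≤ N := by
    have := card_filter_le (Finset.Icc 1 N) fun v =>
      Fin.snoc (α := fun _ => ℕ) (fun j => (x j : ℕ) + 1) v ∈ A
    rw [Nat.card_Icc] at this
    have h2 : N + 1 - 1 = N := by omega
    rw [h2] at this
    exact_mod_cast this
  unfold miss
  constructor
  · rw [sub_nonneg, div_le_one hN']
    exact h1
  · rw [sub_le_self_iff]
    positivity

theorem miss_rel {m N : ℕ} (hN : 1 ≤ N) {A : Finset (Fin (m + 1) → ℕ)} (hA : SumFree A) :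
    Rel (miss N A) := by
  classical
  intro x y z hxyz
  have hN' : (0 : ℝ) < N := by exact_mod_cast hN
  have key := o1_three (N := N)
    (X := (Finset.Icc 1 N).filter fun v =>
      Fin.snoc (α := fun _ => ℕ) (fun j => (x j : ℕ) + 1) v ∈ A)
    (Y := (Finset.Icc 1 N).filter fun v =>
      Fin.snoc (α := fun _ => ℕ) (fun j => (y j : ℕ) + 1) v ∈ A)
    (Z := (Finset.Icc 1 N).filter fun v =>
      Fin.snoc (α := fun _ => ℕ) (fun j => (z j : ℕ) + 1) v ∈ A)
    (filter_subset _ _) (filter_subset _ _) (filter_subset _ _) (by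
      intro u hu v hv hw
      refine hA _ (mem_filter.1 hu).2 _ (mem_filter.1 hv).2 _ (mem_filter.1 hw).2 ?_
      funext k
      refine Fin.lastCases ?_ (fun j => ?_) k
      · simp only [Pi.add_apply, Fin.snoc_last]
      · simp only [Pi.add_apply, Fin.snoc_castSucc]
        have := hxyz j
        omega)
  have key' : ((((Finset.Icc 1 N).filter fun v =>
      Fin.snoc (α := fun _ => ℕ) (fun j => (x j : ℕ) + 1) v ∈ A).card : ℝ) +
      ((Finset.Icc 1 N).filter fun v =>
      Fin.snoc (α := fun _ => ℕ) (fun j => (y j : ℕ) + 1) v ∈ A).card +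
      ((Finset.Icc 1 N).filter fun v =>
      Fin.snoc (α := fun _ => ℕ) (fun j => (z j : ℕ) + 1) v ∈ A).card) ≤ 2 * N + 1 := by
    exact_mod_cast key
  unfold miss
  have h2 := div_le_div_of_nonneg_right key' hN'.le
  have h3 : (2 * (N : ℝ) + 1) / N = 2 + 1 / N := by
    field_simp
  rw [h3, add_div, add_div] at h2
  linarith

theorem miss_av {m N : ℕ} (hN : 1 ≤ N) {A : Finset (Fin (m + 1) → ℕ)} (hA : A ⊆ grid (m + 1) N) :
    Av (miss N A) = 1 - (A.card : ℝ) / (N : ℝ) ^ (m + 1) := by
  classical
  have hN' : (0 : ℝ) < N := by exact_mod_cast hN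
  have hmem : ∀ a ∈ A, ∀ i, 1 ≤ a i ∧ a i ≤ N := by
    intro a ha i
    have h1 := hA ha
    unfold grid at h1
    exact mem_Icc.1 (Fintype.mem_piFinset.1 h1 i)
  set g : (Fin (m + 1) → ℕ) → (Fin m → Fin N) := fun a j =>
    ⟨(a j.castSucc - 1) % N, Nat.mod_lt _ hN⟩ with hg
  have hcard : ∀ x : Fin m → Fin N, ((Finset.Icc 1 N).filter fun v =>
      Fin.snoc (α := fun _ => ℕ) (fun j => (x j : ℕ) + 1) v ∈ A).card =
      (A.filter fun a => g a = x).card := by
    intro x
    refine card_bij' (fun v _ => Fin.snoc (α := fun _ => ℕ) (fun j => (x j : ℕ) + 1) v)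
      (fun a _ => a (Fin.last m)) ?_ ?_ ?_ ?_
    · intro v hv
      refine mem_filter.2 ⟨(mem_filter.1 hv).2, ?_⟩
      funext j
      ext
      simp only [hg, Fin.snoc_castSucc, Nat.add_sub_cancel]
      exact Nat.mod_eq_of_lt (x j).isLt
    · intro a ha
      have h1 := mem_filter.1 ha
      refine mem_filter.2 ⟨mem_Icc.2 (hmem a h1.1 _), ?_⟩
      convert h1.1 using 1
      funext k
      refine Fin.lastCases ?_ (fun j => ?_) k
      · simp only [Fin.snoc_last]
      · simp only [Fin.snoc_castSucc]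
        rw [← h1.2]
        simp only [hg]
        have h2 := hmem a h1.1 j.castSucc
        rw [Nat.mod_eq_of_lt (by omega)]
        omega
    · intro v hv
      simp only [Fin.snoc_last]
    · intro a ha
      have h1 := mem_filter.1 ha
      funext k
      refine Fin.lastCases ?_ (fun j => ?_) k
      · simp only [Fin.snoc_last]
      · simp only [Fin.snoc_castSucc]
        rw [← h1.2]
        simp only [hg]
        have h2 := hmem a h1.1 j.castSucc
        rw [Nat.mod_eq_of_lt (by omega)]
        omega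
  have hsum : ∑ x : Fin m → Fin N, ((Finset.Icc 1 N).filter fun v =>
      Fin.snoc (α := fun _ => ℕ) (fun j => (x j : ℕ) + 1) v ∈ A).card = A.card := by
    rw [sum_congr rfl fun x _ => hcard x]
    exact (card_eq_sum_card_fiberwise (f := g) (t := univ) fun a _ => mem_univ _).symm
  have hsum' : ∑ x : Fin m → Fin N, (((Finset.Icc 1 N).filter fun v =>
      Fin.snoc (α := fun _ => ℕ) (fun j => (x j : ℕ) + 1) v ∈ A).card : ℝ) = A.card := by
    exact_mod_cast hsum
  unfold Av miss
  rw [sum_sub_distrib, ← sum_div, hsum', sum_const, card_univ, Fintype.card_fun, Fintype.card_fin,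
    Fintype.card_fin, nsmul_eq_mul, mul_one, sub_div]
  push_cast
  rw [div_self (by positivity), div_div, pow_succ, mul_comm (N : ℝ)]

theorem slab_sumFree (d N : ℕ) (c : ℝ) : SumFree (slab d N c) := by
  classical
  intro x hx y hy z hz hxyz
  unfold slab at hx hy hz
  have h1 := (mem_filter.1 hx).2.1
  have h2 := (mem_filter.1 hy).2.1
  have h3 := (mem_filter.1 hz).2.2
  rw [← hxyz] at h3
  have h4 : ∑ i, (((x + y) i : ℕ) : ℝ) = ∑ i, (x i : ℝ) + ∑ i, (y i : ℝ) := by
    rw [← sum_add_distrib]
    exact sum_congr rfl fun i _ => by rw [Pi.add_apply]; push_cast; rfl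
  rw [h4] at h3
  linarith

theorem slab_subset (d N : ℕ) (c : ℝ) : slab d N c ⊆ grid d N := by
  classical
  unfold slab
  exact filter_subset _ _

theorem card_le_maxSumFree {d N : ℕ} {A : Finset (Fin d → ℕ)} (h1 : A ⊆ grid d N)
    (h2 : SumFree A) : A.card ≤ maxSumFree d N := by
  classical
  unfold maxSumFree
  exact le_sup (f := Finset.card) (mem_filter.2 ⟨mem_powerset.2 h1, h2⟩)

/-- the indicators of the two parts outside a slab -/
theorem slab_card {d N : ℕ} (hN : 1 ≤ N) (c : ℝ) :
    1 - ((slab d N c).card : ℝ) / (N : ℝ) ^ d ≤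
      Av (fun x : Fin d → Fin N => ind (lev x ≤ c - d / N)) +
        (1 - Av (fun x : Fin d → Fin N => ind (lev x ≤ 2 * c - d / N))) := by
  classical
  have hN' : (0 : ℝ) < N := by exact_mod_cast hN
  -- the indicator of the slab
  have hcard : ((slab d N c).card : ℝ) = ∑ x : Fin d → Fin N,
      ind ((c * N < ∑ i, ((((x i : ℕ) + 1 : ℕ)) : ℝ)) ∧
        ∑ i, ((((x i : ℕ) + 1 : ℕ)) : ℝ) ≤ 2 * c * N) := by
    rw [sum_ind_card]
    congr 1
    symm
    refine card_bij' (fun x _ => fun i => (x i : ℕ) + 1)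
      (fun a _ => fun i => ⟨(a i - 1) % N, Nat.mod_lt _ hN⟩) ?_ ?_ ?_ ?_
    · intro x hx
      have h1 := (mem_filter.1 hx).2
      unfold slab
      refine mem_filter.2 ⟨?_, ?_⟩
      · unfold grid
        refine Fintype.mem_piFinset.2 fun i => mem_Icc.2 ⟨by omega, ?_⟩
        have := (x i).isLt
        omega
      · exact h1
    · intro a ha
      unfold slab at ha
      have h1 := mem_filter.1 ha
      have h2 : ∀ i, 1 ≤ a i ∧ a i ≤ N := by
        intro i
        have h3 := h1.1
        unfold grid at h3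
        exact mem_Icc.1 (Fintype.mem_piFinset.1 h3 i)
      have h4 : ∀ i, ((a i - 1) % N + 1 : ℕ) = a i := by
        intro i
        have := h2 i
        rw [Nat.mod_eq_of_lt (by omega)]
        omega
      refine mem_filter.2 ⟨mem_univ _, ?_⟩
      simp only [h4]
      exact h1.2
    · intro x hx
      funext i
      ext
      simp only [Nat.add_sub_cancel]
      exact Nat.mod_eq_of_lt (x i).isLt
    · intro a ha
      unfold slab at ha
      have h1 := mem_filter.1 ha
      funext i
      have h3 := h1.1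
      unfold grid at h3
      have h4 := mem_Icc.1 (Fintype.mem_piFinset.1 h3 i)
      simp only
      rw [Nat.mod_eq_of_lt (by omega)]
      omega
  have hdiv : ((slab d N c).card : ℝ) / (N : ℝ) ^ d = Av (fun x : Fin d → Fin N =>
      ind ((c * N < ∑ i, ((((x i : ℕ) + 1 : ℕ)) : ℝ)) ∧
        ∑ i, ((((x i : ℕ) + 1 : ℕ)) : ℝ) ≤ 2 * c * N)) := by
    unfold Av
    rw [hcard]
  have hlev : ∀ x : Fin d → Fin N, ∑ i, ((((x i : ℕ) + 1 : ℕ)) : ℝ) = N * lev x + d := by
    intro x
    unfold lev
    push_cast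
    rw [sum_add_distrib, mul_div_cancel₀ _ hN'.ne']
    simp
  have hpt : ∀ x : Fin d → Fin N, ind (lev x ≤ 2 * c - d / N) - ind (lev x ≤ c - d / N) ≤
      ind ((c * N < ∑ i, ((((x i : ℕ) + 1 : ℕ)) : ℝ)) ∧
        ∑ i, ((((x i : ℕ) + 1 : ℕ)) : ℝ) ≤ 2 * c * N) := by
    intro x
    by_cases h1 : lev x ≤ c - d / N
    · rw [ind_true h1]
      have h2 := ind_le_one (lev x ≤ 2 * c - d / N)
      have h3 := ind_nonneg ((c * N < ∑ i, ((((x i : ℕ) + 1 : ℕ)) : ℝ)) ∧
        ∑ i, ((((x i : ℕ) + 1 : ℕ)) : ℝ) ≤ 2 * c * N)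
      linarith
    · rw [ind_false h1, sub_zero]
      refine ind_mono fun h2 => ?_
      rw [hlev]
      rw [not_le] at h1
      constructor
      · have h3 : (c - d / N) * N < lev x * N := mul_lt_mul_of_pos_right h1 hN'
        have h4 : (c - d / N) * N = c * N - d := by field_simp
        rw [h4] at h3
        linarith [mul_comm (N : ℝ) (lev x)]
      · have h3 : lev x * N ≤ (2 * c - d / N) * N := mul_le_mul_of_nonneg_right h2 hN'.le
        have h4 : (2 * c - d / N) * N = 2 * c * N - d := by field_simp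
        rw [h4] at h3
        linarith [mul_comm (N : ℝ) (lev x)]
  have hAv := Av_mono hpt
  rw [Av_sub] at hAv
  rw [hdiv]
  linarith

/-- slabs give the upper bound for the missing density -/
theorem slab_bound {d N : ℕ} (hd : 1 ≤ d) (hN : 1 ≤ N) (c : ℝ) :
    1 - (maxSumFree d N : ℝ) / (N : ℝ) ^ d ≤ F d c + F d (d - 2 * c) + 2 * d / N := by
  have hN' : (0 : ℝ) < N := by exact_mod_cast hN
  have h1 := slab_card (d := d) hN c
  have h2 := count_upper hd hN (c - d / N)
  rw [sub_add_cancel] at h2
  have h3 := count_lower hd hN (2 * c - d / N)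
  have h4 : Av (fun x : Fin d → Fin N => ind (lev x < 2 * c - d / N)) ≤
      Av (fun x : Fin d → Fin N => ind (lev x ≤ 2 * c - d / N)) :=
    Av_mono fun x => ind_mono fun h => h.le
  have h5 := F_symm hd (2 * c)
  have h6 := abs_le.1 (F_lip hd (2 * c) (2 * c - d / N))
  have h7 : |2 * c - (2 * c - (d : ℝ) / N)| = d / N := by
    rw [sub_sub_cancel, abs_of_nonneg (by positivity)]
  rw [h7] at h6
  have h8 : ((slab d N c).card : ℝ) / (N : ℝ) ^ d ≤ (maxSumFree d N : ℝ) / (N : ℝ) ^ d := by
    refine div_le_div_of_nonneg_right ?_ (by positivity)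
    exact_mod_cast card_le_maxSumFree (slab_subset d N c) (slab_sumFree d N c)
  have h9 : (2 : ℝ) * d / N = d / N + d / N := by ring
  have h10 : (0 : ℝ) ≤ d / N := by positivity
  rw [h9, h5]
  linarith [h6.2]

end Pool.Agent.Work.MP_0cd883_co.Cube
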