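import Pool.Agent.Work.MP_0cd883_co.Cube.DefsS
import Pool.Agent.Work.MP_0cd883_co.Cube.ModN
import Pool.Agent.Work.MP_0cd883_co.Cube.ModO1

/-! Module S2: near-extremal sets miss few points of the deep regions. -/

namespace Pool.Agent.Work.MP_0cd883_co.Cube

open Finset

theorem modS2_levD_snoc {m N : ℕ} (x : Fin m → Fin N) (v : ℕ) :
    levD N (Fin.last m) (Fin.snoc (α := fun _ => ℕ) (fun j => (x j : ℕ) + 1) v) = lev x := by
  unfold levD lev
  rw [Fin.sum_univ_castSucc]
  simp only [Fin.snoc_castSucc, Fin.snoc_last]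
  congr 1
  rw [add_sub_cancel_right]
  refine Finset.sum_congr rfl fun j _ => ?_
  push_cast
  ring

open Classical in
/-- the number of missing deep points in the last direction -/
theorem modS2_last {m N : ℕ} (hN : 1 ≤ N) (c : ℝ) (A : Finset (Fin (m + 1) → ℕ)) :
    ((deepMiss N c (Fin.last m) A).card : ℝ) =
      (N : ℝ) ^ (m + 1) *
        Av (fun x : Fin m → Fin N => ind (c < lev x ∧ lev x < 2 * c - 1) * miss N A x) := by
  have hN' : (0 : ℝ) < N := by exact_mod_cast hN
  -- the pairs (x, v)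
  set T : Finset ((Fin m → Fin N) × ℕ) :=
    (Finset.univ ×ˢ Finset.Icc 1 N).filter fun p =>
      (c < lev p.1 ∧ lev p.1 < 2 * c - 1) ∧
        Fin.snoc (α := fun _ => ℕ) (fun j => (p.1 j : ℕ) + 1) p.2 ∉ A with hT
  have h1 : (deepMiss N c (Fin.last m) A).card = T.card := by
    symm
    refine Finset.card_bij
      (fun p _ => Fin.snoc (α := fun _ => ℕ) (fun j => (p.1 j : ℕ) + 1) p.2) ?_ ?_ ?_
    · intro p hp
      rw [hT, Finset.mem_filter, Finset.mem_product] at hp
      unfold deepMiss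
      rw [Finset.mem_filter, modS2_levD_snoc]
      refine ⟨?_, hp.2.2, hp.2.1⟩
      unfold grid
      rw [Fintype.mem_piFinset]
      intro i
      refine Fin.lastCases ?_ (fun j => ?_) i
      · rw [Fin.snoc_last]
        exact hp.1.2
      · rw [Fin.snoc_castSucc, Finset.mem_Icc]
        have := (p.1 j).isLt
        omega
    · intro p _ q _ h
      have h0 := congrFun h
      refine Prod.ext ?_ ?_
      · funext j
        have := h0 (Fin.castSucc j)
        simp only [Fin.snoc_castSucc] at this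
        ext
        omega
      · have := h0 (Fin.last m)
        simpa only [Fin.snoc_last] using this
    · intro y hy
      unfold deepMiss at hy
      rw [Finset.mem_filter] at hy
      obtain ⟨hy1, hy2, hy3⟩ := hy
      unfold grid at hy1
      rw [Fintype.mem_piFinset] at hy1
      have hlt : ∀ j : Fin m, y (Fin.castSucc j) - 1 < N := by
        intro j
        have := hy1 (Fin.castSucc j)
        rw [Finset.mem_Icc] at this
        omega
      have e : Fin.snoc (α := fun _ => ℕ)
          (fun j : Fin m => ((⟨y (Fin.castSucc j) - 1, hlt j⟩ : Fin N) : ℕ) + 1)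
          (y (Fin.last m)) = y := by
        funext i
        refine Fin.lastCases ?_ (fun j => ?_) i
        · rw [Fin.snoc_last]
        · rw [Fin.snoc_castSucc]
          have := hy1 (Fin.castSucc j)
          rw [Finset.mem_Icc] at this
          simp only
          omega
      refine ⟨(fun j => ⟨y (Fin.castSucc j) - 1, hlt j⟩, y (Fin.last m)), ?_, e⟩
      rw [hT, Finset.mem_filter, Finset.mem_product]
      have e2 := modS2_levD_snoc (N := N)
        (fun j : Fin m => (⟨y (Fin.castSucc j) - 1, hlt j⟩ : Fin N)) (y (Fin.last m))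
      rw [e] at e2
      refine ⟨⟨Finset.mem_univ _, hy1 _⟩, ?_, ?_⟩
      · rw [← e2]
        exact hy3
      · rw [e]
        exact hy2
  rw [h1, hT]
  -- count the pairs by fibres
  have h2 : (((Finset.univ ×ˢ Finset.Icc 1 N).filter fun p : (Fin m → Fin N) × ℕ =>
      (c < lev p.1 ∧ lev p.1 < 2 * c - 1) ∧
        Fin.snoc (α := fun _ => ℕ) (fun j => (p.1 j : ℕ) + 1) p.2 ∉ A).card : ℝ) =
      ∑ x : Fin m → Fin N, ind (c < lev x ∧ lev x < 2 * c - 1) * (N * miss N A x) := by
    rw [Finset.card_filter, Finset.sum_product]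
    push_cast
    refine Finset.sum_congr rfl fun x _ => ?_
    by_cases hx : c < lev x ∧ lev x < 2 * c - 1
    · rw [ind_true hx, one_mul]
      unfold miss
      rw [mul_sub, mul_one, mul_div_cancel₀ _ hN'.ne']
      have h3 := Finset.card_filter_add_card_filter_not (s := Finset.Icc 1 N)
        (fun v => Fin.snoc (α := fun _ => ℕ) (fun j => (x j : ℕ) + 1) v ∈ A)
      rw [Nat.card_Icc, Nat.add_sub_cancel] at h3
      have h4 : (((Finset.Icc 1 N).filter fun v =>
          Fin.snoc (α := fun _ => ℕ) (fun j => (x j : ℕ) + 1) v ∈ A).card : ℝ) +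
          (((Finset.Icc 1 N).filter fun v =>
          ¬ Fin.snoc (α := fun _ => ℕ) (fun j => (x j : ℕ) + 1) v ∈ A).card : ℝ) = N := by
        exact_mod_cast h3
      have h5 : (∑ v ∈ Finset.Icc 1 N, if (c < lev x ∧ lev x < 2 * c - 1) ∧
          Fin.snoc (α := fun _ => ℕ) (fun j => (x j : ℕ) + 1) v ∉ A then (1 : ℝ) else 0) =
          (((Finset.Icc 1 N).filter fun v =>
          ¬ Fin.snoc (α := fun _ => ℕ) (fun j => (x j : ℕ) + 1) v ∈ A).card : ℝ) := by
        rw [Finset.card_filter]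
        push_cast
        refine Finset.sum_congr rfl fun v _ => ?_
        by_cases hv : Fin.snoc (α := fun _ => ℕ) (fun j => (x j : ℕ) + 1) v ∈ A
        · rw [if_neg (fun h => h.2 hv), if_neg (fun h => h hv)]
        · rw [if_pos ⟨hx, hv⟩, if_pos hv]
      rw [h5]
      linarith
    · rw [ind_false hx, zero_mul]
      exact Finset.sum_eq_zero fun v _ => if_neg fun h => hx h.1
  rw [h2]
  unfold Av
  rw [pow_succ]
  have h6 : (N : ℝ) ^ m ≠ 0 := (pow_pos hN' m).ne'
  rw [show (N : ℝ) ^ m * N * ((∑ x : Fin m → Fin N,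
      ind (c < lev x ∧ lev x < 2 * c - 1) * miss N A x) / (N : ℝ) ^ m) =
      N * ∑ x : Fin m → Fin N, ind (c < lev x ∧ lev x < 2 * c - 1) * miss N A x by
    field_simp, Finset.mul_sum]
  refine Finset.sum_congr rfl fun x _ => ?_
  ring

open Classical in
/-- permuting the coordinates -/
noncomputable def modS2_perm {d : ℕ} (σ : Equiv.Perm (Fin d)) (A : Finset (Fin d → ℕ)) :
    Finset (Fin d → ℕ) := A.image fun x => x ∘ σ

theorem modS2_mem_perm {d : ℕ} (σ : Equiv.Perm (Fin d)) (A : Finset (Fin d → ℕ))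
    (x : Fin d → ℕ) : x ∈ modS2_perm σ A ↔ x ∘ σ.symm ∈ A := by
  classical
  unfold modS2_perm
  rw [Finset.mem_image]
  constructor
  · rintro ⟨y, hy, rfl⟩
    have : (y ∘ σ) ∘ σ.symm = y := by
      funext k
      simp
    rw [this]
    exact hy
  · intro h
    refine ⟨_, h, ?_⟩
    funext k
    simp

theorem modS2_perm_inj {d : ℕ} (σ : Equiv.Perm (Fin d)) :
    Function.Injective fun x : Fin d → ℕ => x ∘ σ := by
  intro x y h
  funext k
  have := congrFun h (σ.symm k)
  simpa using this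

theorem modS2_perm_card {d : ℕ} (σ : Equiv.Perm (Fin d)) (A : Finset (Fin d → ℕ)) :
    (modS2_perm σ A).card = A.card := by
  classical
  unfold modS2_perm
  exact Finset.card_image_of_injective _ (modS2_perm_inj σ)

theorem modS2_grid {d N : ℕ} (σ : Equiv.Perm (Fin d)) (x : Fin d → ℕ) :
    x ∘ σ ∈ grid d N ↔ x ∈ grid d N := by
  unfold grid
  rw [Fintype.mem_piFinset, Fintype.mem_piFinset]
  constructor
  · intro h k
    have := h (σ.symm k)
    simpa using this
  · intro h k
    exact h (σ k)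

theorem modS2_perm_grid {d N : ℕ} (σ : Equiv.Perm (Fin d)) {A : Finset (Fin d → ℕ)}
    (hA : A ⊆ grid d N) : modS2_perm σ A ⊆ grid d N := by
  intro x hx
  rw [modS2_mem_perm] at hx
  have := hA hx
  rwa [modS2_grid] at this

theorem modS2_perm_sumFree {d : ℕ} (σ : Equiv.Perm (Fin d)) {A : Finset (Fin d → ℕ)}
    (hA : SumFree A) : SumFree (modS2_perm σ A) := by
  intro x hx y hy z hz h
  rw [modS2_mem_perm] at hx hy hz
  refine hA _ hx _ hy _ hz ?_
  funext k
  exact congrFun h (σ.symm k)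

theorem modS2_levD {d : ℕ} (N : ℕ) (i : Fin d) (σ : Equiv.Perm (Fin d)) (x : Fin d → ℕ) :
    levD N i (x ∘ σ) = levD N (σ i) x := by
  unfold levD
  have : ∑ k, (((x ∘ σ) k : ℝ) - 1) = ∑ k, ((x k : ℝ) - 1) :=
    Equiv.sum_comp σ fun k => ((x k : ℝ) - 1)
  rw [this]
  rfl

theorem modS2_deep {d : ℕ} (N : ℕ) (c : ℝ) (i : Fin d) (σ : Equiv.Perm (Fin d))
    (A : Finset (Fin d → ℕ)) :
    (deepMiss N c i (modS2_perm σ A)).card = (deepMiss N c (σ i) A).card := by
  classical
  symm
  refine Finset.card_bij (fun x _ => x ∘ σ) ?_ ?_ ?_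
  · intro x hx
    unfold deepMiss at hx ⊢
    rw [Finset.mem_filter] at hx ⊢
    refine ⟨(modS2_grid σ x).2 hx.1, ?_, ?_⟩
    · intro h
      rw [modS2_mem_perm] at h
      have e : (x ∘ σ) ∘ σ.symm = x := by
        funext k
        simp
      rw [e] at h
      exact hx.2.1 h
    · rw [modS2_levD]
      exact hx.2.2
  · intro x _ y _ h
    exact modS2_perm_inj σ h
  · intro y hy
    unfold deepMiss at hy
    rw [Finset.mem_filter] at hy
    have e : (y ∘ σ.symm) ∘ σ = y := by
      funext k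
      simp
    refine ⟨y ∘ σ.symm, ?_, e⟩
    unfold deepMiss
    rw [Finset.mem_filter]
    refine ⟨?_, ?_, ?_⟩
    · rw [← modS2_grid σ, e]
      exact hy.1
    · intro h
      refine hy.2.1 ?_
      rw [modS2_mem_perm]
      exact h
    · have := modS2_levD N i σ (y ∘ σ.symm)
      rw [e] at this
      rw [← this]
      exact hy.2.2

theorem deep_dir (hL : ∀ n, 1 ≤ n → LCore n) {m : ℕ} (hm : 2 ≤ m) {c u κ₁ κ₂ : ℝ}
    (hG : Good m c u κ₁ κ₂) :
    ∃ K : ℝ, 0 < K ∧ ∀ N : ℕ, 1 ≤ N → ∀ A : Finset (Fin (m + 1) → ℕ), A ⊆ grid (m + 1) N →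
      SumFree A → ∀ η : ℝ,
      (1 - F (m + 1) c - F (m + 1) u - η) * (N : ℝ) ^ (m + 1) ≤ A.card → ∀ i : Fin (m + 1),
      ((deepMiss N c i A).card : ℝ) ≤ 50 * (η + K / √(N : ℝ)) * (N : ℝ) ^ (m + 1) := by
  obtain ⟨K, hK, hlow⟩ := lower_b hL hm hG
  refine ⟨K, hK, fun N hN A hA hS η hη i => ?_⟩
  have hN' : (0 : ℝ) < N := by exact_mod_cast hN
  have hP : (0 : ℝ) < (N : ℝ) ^ (m + 1) := pow_pos hN' _
  set σ : Equiv.Perm (Fin (m + 1)) := Equiv.swap (Fin.last m) i with hσ
  have h1 := modS2_deep N c (Fin.last m) σ A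
  rw [hσ, Equiv.swap_apply_left, ← hσ] at h1
  rw [← h1, modS2_last hN]
  set A' := modS2_perm σ A with hA'
  have hA1 : A' ⊆ grid (m + 1) N := modS2_perm_grid σ hA
  have hA2 : SumFree A' := modS2_perm_sumFree σ hS
  have hA3 : A'.card = A.card := modS2_perm_card σ A
  have h2 := hlow N hN (miss N A') (miss_mem hN A') (miss_rel hN hA2)
  rw [miss_av hN hA1, hA3] at h2
  have h3 : 1 - F (m + 1) c - F (m + 1) u - η ≤ (A.card : ℝ) / (N : ℝ) ^ (m + 1) := by
    rw [le_div_iff₀ hP]
    exact hη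
  rw [mul_comm]
  refine mul_le_mul_of_nonneg_right ?_ hP.le
  linarith

end Pool.Agent.Work.MP_0cd883_co.Cube
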