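import Pool.Agent.Work.MP_0cd883_co.Cube.ModI2

/-! Module S1: geometry of the deep regions. -/

namespace Pool.Agent.Work.MP_0cd883_co.Cube

open Finset

namespace ModS1

lemma uniform_of_local {d : ℕ} (K : Set (Fin d → ℝ)) (hK : IsCompact K)
    (C : ℝ → Fin d → Fin d → (Fin d → ℝ) → (Fin d → ℝ) → Prop)
    (hmono : ∀ ρ ρ' i j p q, ρ' ≤ ρ → C ρ i j p q → C ρ' i j p q)
    (hopen : ∀ i j, IsOpen {x : (Fin d → ℝ) × (Fin d → ℝ) × ℝ | C x.2.2 i j x.1 x.2.1})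
    (hcore : ∀ p ∈ K, ∃ i j q, C 0 i j p q) :
    ∃ ρ : ℝ, 0 < ρ ∧ ∀ p ∈ K, ∃ i j : Fin d, ∃ q : Fin d → ℝ, ∀ q' : Fin d → ℝ,
      (∀ k, |q' k - q k| ≤ ρ) → C ρ i j p q' := by
  refine hK.induction_on (p := fun s => ∃ ρ : ℝ, 0 < ρ ∧ ∀ p ∈ s, ∃ i j : Fin d,
    ∃ q : Fin d → ℝ, ∀ q' : Fin d → ℝ, (∀ k, |q' k - q k| ≤ ρ) → C ρ i j p q') ?_ ?_ ?_ ?_
  · exact ⟨1, one_pos, fun p hp => absurd hp (Set.notMem_empty p)⟩
  · rintro s t hst ⟨ρ, hρ, h⟩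
    exact ⟨ρ, hρ, fun p hp => h p (hst hp)⟩
  · rintro s t ⟨ρ, hρ, h⟩ ⟨ρ', hρ', h'⟩
    refine ⟨min ρ ρ', lt_min hρ hρ', fun p hp => ?_⟩
    rcases hp with hp | hp
    · obtain ⟨i, j, q, hq⟩ := h p hp
      exact ⟨i, j, q, fun q' hq' => hmono ρ _ i j p q' (min_le_left _ _)
        (hq q' fun k => (hq' k).trans (min_le_left _ _))⟩
    · obtain ⟨i, j, q, hq⟩ := h' p hp
      exact ⟨i, j, q, fun q' hq' => hmono ρ' _ i j p q' (min_le_right _ _)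
        (hq q' fun k => (hq' k).trans (min_le_right _ _))⟩
  · intro p₀ hp₀
    obtain ⟨i, j, q, hq⟩ := hcore p₀ hp₀
    obtain ⟨ε, hε, hball⟩ := Metric.isOpen_iff.1 (hopen i j) (p₀, q, 0) hq
    refine ⟨Metric.ball p₀ ε, mem_nhdsWithin_of_mem_nhds (Metric.ball_mem_nhds _ hε), ε / 2,
      by positivity, fun p hp => ⟨i, j, q, fun q' hq' => ?_⟩⟩
    have h1 : (p, q', ε / 2) ∈ Metric.ball (p₀, q, (0 : ℝ)) ε := by
      rw [Metric.mem_ball, Prod.dist_eq, Prod.dist_eq]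
      refine max_lt hp (max_lt ?_ ?_)
      · refine lt_of_le_of_lt ((dist_pi_le_iff (by positivity)).2 fun k => ?_) (half_lt_self hε)
        rw [Real.dist_eq]
        exact hq' k
      · rw [Real.dist_eq, sub_zero, abs_of_pos (by positivity)]
        exact half_lt_self hε
    exact hball h1

/-- the condition of `stab_low` -/
def CL {d : ℕ} (c : ℝ) (ρ : ℝ) (i j : Fin d) (p q' : Fin d → ℝ) : Prop :=
  (∀ k, ρ < q' k ∧ q' k + p k < 1 - ρ) ∧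
        c + ρ < ∑ k, q' k - q' i ∧ ∑ k, q' k - q' i < 2 * c - 1 - ρ ∧
        c + ρ < ∑ k, (q' k + p k) - (q' j + p j) ∧
        ∑ k, (q' k + p k) - (q' j + p j) < 2 * c - 1 - ρ

/-- the condition of `stab_high` -/
def CH {d : ℕ} (c : ℝ) (ρ : ℝ) (i j : Fin d) (z q' : Fin d → ℝ) : Prop :=
  (∀ k, ρ < q' k ∧ q' k + ρ < z k) ∧
        c + ρ < ∑ k, q' k - q' i ∧ ∑ k, q' k - q' i < 2 * c - 1 - ρ ∧
        c + ρ < ∑ k, (z k - q' k) - (z j - q' j) ∧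
        ∑ k, (z k - q' k) - (z j - q' j) < 2 * c - 1 - ρ

lemma CL_mono {d : ℕ} {c : ℝ} (ρ ρ' : ℝ) (i j : Fin d) (p q : Fin d → ℝ) (h : ρ' ≤ ρ)
    (hC : CL c ρ i j p q) : CL c ρ' i j p q := by
  obtain ⟨h1, h2, h3, h4, h5⟩ := hC
  exact ⟨fun k => ⟨by linarith [(h1 k).1], by linarith [(h1 k).2]⟩, by linarith, by linarith,
    by linarith, by linarith⟩

lemma CH_mono {d : ℕ} {c : ℝ} (ρ ρ' : ℝ) (i j : Fin d) (p q : Fin d → ℝ) (h : ρ' ≤ ρ)
    (hC : CH c ρ i j p q) : CH c ρ' i j p q := by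
  obtain ⟨h1, h2, h3, h4, h5⟩ := hC
  exact ⟨fun k => ⟨by linarith [(h1 k).1], by linarith [(h1 k).2]⟩, by linarith, by linarith,
    by linarith, by linarith⟩

lemma CL_open {d : ℕ} (c : ℝ) (i j : Fin d) :
    IsOpen {x : (Fin d → ℝ) × (Fin d → ℝ) × ℝ | CL c x.2.2 i j x.1 x.2.1} := by
  have e : {x : (Fin d → ℝ) × (Fin d → ℝ) × ℝ | CL c x.2.2 i j x.1 x.2.1} =
      (⋂ k : Fin d, ({x : (Fin d → ℝ) × (Fin d → ℝ) × ℝ | x.2.2 < x.2.1 k} ∩
        {x : (Fin d → ℝ) × (Fin d → ℝ) × ℝ | x.2.1 k + x.1 k < 1 - x.2.2})) ∩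
      ({x : (Fin d → ℝ) × (Fin d → ℝ) × ℝ | c + x.2.2 < ∑ k, x.2.1 k - x.2.1 i} ∩
      ({x : (Fin d → ℝ) × (Fin d → ℝ) × ℝ | ∑ k, x.2.1 k - x.2.1 i < 2 * c - 1 - x.2.2} ∩
      ({x : (Fin d → ℝ) × (Fin d → ℝ) × ℝ |
        c + x.2.2 < ∑ k, (x.2.1 k + x.1 k) - (x.2.1 j + x.1 j)} ∩
      {x : (Fin d → ℝ) × (Fin d → ℝ) × ℝ |
        ∑ k, (x.2.1 k + x.1 k) - (x.2.1 j + x.1 j) < 2 * c - 1 - x.2.2}))) := by
    ext x
    simp only [CL, Set.mem_inter_iff, Set.mem_iInter]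
    rfl
  rw [e]
  refine IsOpen.inter (isOpen_iInter_of_finite fun k => IsOpen.inter ?_ ?_)
    (IsOpen.inter ?_ (IsOpen.inter ?_ (IsOpen.inter ?_ ?_)))
  all_goals exact isOpen_lt (by fun_prop) (by fun_prop)

lemma CH_open {d : ℕ} (c : ℝ) (i j : Fin d) :
    IsOpen {x : (Fin d → ℝ) × (Fin d → ℝ) × ℝ | CH c x.2.2 i j x.1 x.2.1} := by
  have e : {x : (Fin d → ℝ) × (Fin d → ℝ) × ℝ | CH c x.2.2 i j x.1 x.2.1} =
      (⋂ k : Fin d, ({x : (Fin d → ℝ) × (Fin d → ℝ) × ℝ | x.2.2 < x.2.1 k} ∩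
        {x : (Fin d → ℝ) × (Fin d → ℝ) × ℝ | x.2.1 k + x.2.2 < x.1 k})) ∩
      ({x : (Fin d → ℝ) × (Fin d → ℝ) × ℝ | c + x.2.2 < ∑ k, x.2.1 k - x.2.1 i} ∩
      ({x : (Fin d → ℝ) × (Fin d → ℝ) × ℝ | ∑ k, x.2.1 k - x.2.1 i < 2 * c - 1 - x.2.2} ∩
      ({x : (Fin d → ℝ) × (Fin d → ℝ) × ℝ |
        c + x.2.2 < ∑ k, (x.1 k - x.2.1 k) - (x.1 j - x.2.1 j)} ∩
      {x : (Fin d → ℝ) × (Fin d → ℝ) × ℝ |
        ∑ k, (x.1 k - x.2.1 k) - (x.1 j - x.2.1 j) < 2 * c - 1 - x.2.2}))) := by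
    ext x
    simp only [CH, Set.mem_inter_iff, Set.mem_iInter]
    rfl
  rw [e]
  refine IsOpen.inter (isOpen_iInter_of_finite fun k => IsOpen.inter ?_ ?_)
    (IsOpen.inter ?_ (IsOpen.inter ?_ (IsOpen.inter ?_ ?_)))
  all_goals exact isOpen_lt (by fun_prop) (by fun_prop)

/-- prescribed sum in a box -/
lemma box_sum {d : ℕ} (hd : 3 ≤ d) {i j : Fin d} (hij : i ≠ j) (b : Fin d → ℝ) (hb : ∀ k, 0 < b k)
    {r a a' : ℝ} (hr0 : 0 < r) (hr1 : r < ∑ k, b k - b i - b j) (ha0 : 0 < a) (ha1 : a < b i)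
    (ha'0 : 0 < a') (ha'1 : a' < b j) :
    ∃ q : Fin d → ℝ, (∀ k, 0 < q k ∧ q k < b k) ∧ q i = a ∧ q j = a' ∧ ∑ k, q k = r + a + a' := by
  classical
  obtain ⟨S, hS⟩ : ∃ S : ℝ, S = ∑ k, b k - b i - b j := ⟨_, rfl⟩
  rw [← hS] at hr1
  have hS0 : 0 < S := hr0.trans hr1
  have hji : j ∈ univ.erase i := mem_erase.2 ⟨hij.symm, mem_univ _⟩
  have hsplit : ∀ g : Fin d → ℝ, ∑ k, g k = g i + (g j + ∑ k ∈ (univ.erase i).erase j, g k) := by
    intro g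
    rw [add_sum_erase _ _ hji, add_sum_erase _ _ (mem_univ i)]
  refine ⟨fun k => if k = i then a else if k = j then a' else b k * (r / S), ?_, ?_, ?_, ?_⟩
  · intro k
    by_cases h1 : k = i
    · simp only [h1, if_true]
      exact ⟨ha0, ha1⟩
    · by_cases h2 : k = j
      · simp only [h1, h2, if_false, if_true, hij.symm]
        exact ⟨ha'0, ha'1⟩
      · simp only [h1, h2, if_false]
        have h3 : r / S < 1 := (div_lt_one hS0).2 hr1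
        have h4 : 0 < r / S := div_pos hr0 hS0
        exact ⟨mul_pos (hb k) h4, by nlinarith [hb k]⟩
  · simp only [if_true]
  · simp only [hij.symm, if_false, if_true]
  · rw [hsplit]
    simp only [if_true, hij.symm, if_false]
    have h5 : ∑ k ∈ (univ.erase i).erase j, (if k = i then a else if k = j then a' else
        b k * (r / S)) = ∑ k ∈ (univ.erase i).erase j, b k * (r / S) := by
      refine sum_congr rfl fun k hk => ?_
      obtain ⟨h6, h7⟩ := mem_erase.1 hk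
      rw [if_neg (mem_erase.1 h7).1, if_neg h6]
    have h8 := hsplit b
    have h9 : ∑ k ∈ (univ.erase i).erase j, b k = S := by rw [hS]; linarith
    rw [h5, ← sum_mul, h9, mul_div_cancel₀ _ hS0.ne']
    ring

/-- a point in the intersection of two intervals -/
lemma inter_pt {a b a' b' : ℝ} (h1 : a < b) (h2 : a' < b') (h3 : a < b') (h4 : a' < b) :
    ∃ t, a < t ∧ t < b ∧ a' < t ∧ t < b' := by
  obtain ⟨t, ht1, ht2⟩ := exists_between (max_lt (lt_min h1 h3) (lt_min h4 h2))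
  exact ⟨t, (le_max_left _ _).trans_lt ht1, ht2.trans_le (min_le_left _ _),
    (le_max_right _ _).trans_lt ht1, ht2.trans_le (min_le_right _ _)⟩

lemma low_core {d : ℕ} (hd : 3 ≤ d) {c : ℝ} (hc1 : 1 < c)
    (hc3 : c * (2 * d - 1) < d * (d - 1)) {p : Fin d → ℝ} (hp : ∀ k, 0 ≤ p k ∧ p k < 1)
    (hR : ∑ k, p k < c) : ∃ i j q, CL c 0 i j p q := by
  have : Nonempty (Fin d) := ⟨⟨0, by omega⟩⟩
  have hd3 : (3 : ℝ) ≤ d := by exact_mod_cast hd
  obtain ⟨i, -, hi⟩ := (univ : Finset (Fin d)).exists_max_image p univ_nonempty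
  obtain ⟨j, hji⟩ : ∃ j : Fin d, j ≠ i :=
    Fintype.exists_ne_of_one_lt_card (by rw [Fintype.card_fin]; omega) i
  obtain ⟨R, hRd⟩ : ∃ R : ℝ, R = ∑ k, p k := ⟨_, rfl⟩
  rw [← hRd] at hR
  have hRi : R ≤ d * p i := by
    rw [hRd]
    calc ∑ k, p k ≤ ∑ _k : Fin d, p i := sum_le_sum fun k hk => hi k hk
      _ = d * p i := by rw [sum_const, card_univ, Fintype.card_fin, nsmul_eq_mul]
  have hR0 : 0 ≤ R := by rw [hRd]; exact sum_nonneg fun k _ => (hp k).1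
  have hji' : j ∈ univ.erase i := mem_erase.2 ⟨hji, mem_univ _⟩
  have hsplit : ∑ k, p k = p i + (p j + ∑ k ∈ (univ.erase i).erase j, p k) := by
    rw [add_sum_erase _ _ hji', add_sum_erase _ _ (mem_univ i)]
  have hrest : 0 ≤ ∑ k ∈ (univ.erase i).erase j, p k := sum_nonneg fun k _ => (hp k).1
  have hpi : p i + p j ≤ R := by rw [hRd, hsplit]; linarith
  have hpi0 := (hp i).1
  have hpj0 := (hp j).1
  have hpi1 := (hp i).2
  have hpj1 := (hp j).2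
  have hsumb : ∑ k, (1 - p k) = d - R := by
    rw [sum_sub_distrib, sum_const, card_univ, Fintype.card_fin, nsmul_eq_mul, mul_one, hRd]
  -- the key inequality
  have hkey : R + c + 1 - d < p i := by
    by_contra hcon
    push Not at hcon
    have h1 : (d : ℝ) * p i ≤ d * (R + c + 1 - d) := mul_le_mul_of_nonneg_left hcon (by linarith)
    nlinarith
  obtain ⟨r, hr1, hr2⟩ := exists_between (show c - 1 + p j < min (2 * c - 1 - R + p j)
    (d - R - (1 - p i) - (1 - p j)) from lt_min (by linarith) (by linarith))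
  have hr3 := hr2.trans_le (min_le_left _ _)
  have hr4 := hr2.trans_le (min_le_right _ _)
  obtain ⟨a', ha1, ha2, ha3, ha4⟩ := inter_pt (a := c - r) (b := 2 * c - 1 - r) (a' := 0)
    (b' := 1 - p j) (by linarith) (by linarith) (by linarith) (by linarith)
  obtain ⟨a, hb1, hb2, hb3, hb4⟩ := inter_pt (a := c - R + p j - r) (b := 2 * c - 1 - R + p j - r)
    (a' := 0) (b' := 1 - p i) (by linarith) (by linarith) (by linarith) (by linarith)
  obtain ⟨q, hq1, hq2, hq3, hq4⟩ := box_sum hd hji.symm (fun k => 1 - p k)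
    (fun k => by linarith [(hp k).2]) (r := r) (a := a) (a' := a') (by linarith)
    (by rw [hsumb]; linarith) hb3 hb4 ha3 ha4
  refine ⟨i, j, q, fun k => ⟨(hq1 k).1, by linarith [(hq1 k).2]⟩, ?_, ?_, ?_, ?_⟩
  · rw [hq4, hq2]; linarith
  · rw [hq4, hq2]; linarith
  · rw [sum_add_distrib, hq4, hq3, ← hRd]; linarith
  · rw [sum_add_distrib, hq4, hq3, ← hRd]; linarith

lemma high_core {d : ℕ} (hd : 3 ≤ d) {c : ℝ} (hc1 : 1 < c) (hc3 : (d : ℝ) / 3 < c)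
    {z : Fin d → ℝ} (hz : ∀ k, 0 < z k ∧ z k ≤ 1) (hZ : 2 * c < ∑ k, z k) :
    ∃ i j q, CH c 0 i j z q := by
  have hd3 : (3 : ℝ) ≤ d := by exact_mod_cast hd
  obtain ⟨i, j, hij⟩ : ∃ i j : Fin d, i ≠ j :=
    ⟨⟨0, by omega⟩, ⟨1, by omega⟩, by simp [Fin.ext_iff]⟩
  obtain ⟨Z, hZd⟩ : ∃ Z : ℝ, Z = ∑ k, z k := ⟨_, rfl⟩
  rw [← hZd] at hZ
  have hji' : j ∈ univ.erase i := mem_erase.2 ⟨hij.symm, mem_univ _⟩
  have hsplit : ∑ k, z k = z i + (z j + ∑ k ∈ (univ.erase i).erase j, z k) := by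
    rw [add_sum_erase _ _ hji', add_sum_erase _ _ (mem_univ i)]
  obtain ⟨Cap, hCap⟩ : ∃ Cap : ℝ, Cap = ∑ k ∈ (univ.erase i).erase j, z k := ⟨_, rfl⟩
  have hcard : ((univ.erase i).erase j).card = d - 2 := by
    rw [card_erase_of_mem hji', card_erase_of_mem (mem_univ i), card_univ, Fintype.card_fin]
    omega
  have hCap1 : Cap ≤ d - 2 := by
    rw [hCap]
    calc ∑ k ∈ (univ.erase i).erase j, z k ≤ ∑ _k ∈ (univ.erase i).erase j, (1 : ℝ) :=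
          sum_le_sum fun k _ => (hz k).2
      _ = d - 2 := by
          rw [sum_const, hcard, nsmul_eq_mul, mul_one, Nat.cast_sub (by omega)]
          norm_num
  have hCap0 : 0 < Cap := by
    rw [hCap]
    refine sum_pos (fun k _ => (hz k).1) ?_
    rw [← card_pos, hcard]
    omega
  have hZC : Z = z i + z j + Cap := by rw [hZd, hsplit, hCap]; ring
  have hi0 := (hz i).1
  have hi1 := (hz i).2
  have hj0 := (hz j).1
  have hj1 := (hz j).2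
  obtain ⟨r, hr1, hr2⟩ := exists_between (show max (c - z j) (Cap - 2 * c + 1) <
    min (2 * c - 1) (min (Cap + z i - c) Cap) from
      max_lt (lt_min (by linarith) (lt_min (by linarith) (by linarith)))
        (lt_min (by linarith) (lt_min (by linarith) (by linarith))))
  have hr3 := (le_max_left _ _).trans_lt hr1
  have hr4 := (le_max_right _ _).trans_lt hr1
  have hr5 := hr2.trans_le (min_le_left _ _)
  have hr6 := hr2.trans_le ((min_le_right _ _).trans (min_le_left _ _))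
  have hr7 := hr2.trans_le ((min_le_right _ _).trans (min_le_right _ _))
  obtain ⟨a', ha1, ha2, ha3, ha4⟩ := inter_pt (a := c - r) (b := 2 * c - 1 - r) (a' := 0)
    (b' := z j) (by linarith) (by linarith) (by linarith) (by linarith)
  obtain ⟨s, hb1, hb2, hb3, hb4⟩ := inter_pt (a := c - (Cap - r)) (b := 2 * c - 1 - (Cap - r))
    (a' := 0) (b' := z i) (by linarith) (by linarith) (by linarith) (by linarith)
  obtain ⟨q, hq1, hq2, hq3, hq4⟩ := box_sum hd hij z (fun k => (hz k).1) (r := r) (a := z i - s)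
    (a' := a') (by linarith) (by rw [← hZd, hZC]; linarith) (by linarith) (by linarith) ha3 ha4
  refine ⟨i, j, q, fun k => ⟨(hq1 k).1, by linarith [(hq1 k).2]⟩, ?_, ?_, ?_, ?_⟩
  · rw [hq4, hq2]; linarith
  · rw [hq4, hq2]; linarith
  · rw [sum_sub_distrib, hq4, hq3, ← hZd, hZC]; linarith
  · rw [sum_sub_distrib, hq4, hq3, ← hZd, hZC]; linarith

end ModS1

open ModS1

theorem stab_low {d : ℕ} (hd : 3 ≤ d) {c : ℝ} (hc1 : 1 < c) (_hc2 : c < (d : ℝ) / 2)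
    (hc3 : c * (2 * d - 1) < d * (d - 1)) {δ : ℝ} (hδ : 0 < δ) :
    ∃ ρ : ℝ, 0 < ρ ∧ ∀ p : Fin d → ℝ, (∀ k, 0 ≤ p k ∧ p k ≤ 1 - δ) → ∑ k, p k ≤ c - δ →
      ∃ i j : Fin d, ∃ q : Fin d → ℝ, ∀ q' : Fin d → ℝ, (∀ k, |q' k - q k| ≤ ρ) →
        (∀ k, ρ < q' k ∧ q' k + p k < 1 - ρ) ∧
        c + ρ < ∑ k, q' k - q' i ∧ ∑ k, q' k - q' i < 2 * c - 1 - ρ ∧
        c + ρ < ∑ k, (q' k + p k) - (q' j + p j) ∧
        ∑ k, (q' k + p k) - (q' j + p j) < 2 * c - 1 - ρ := by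
  have hK : IsCompact ((Set.univ.pi fun _ : Fin d => Set.Icc (0 : ℝ) (1 - δ)) ∩
      {p : Fin d → ℝ | ∑ k, p k ≤ c - δ}) :=
    (isCompact_univ_pi fun _ => isCompact_Icc).inter_right
      (isClosed_le (by fun_prop) (by fun_prop))
  obtain ⟨ρ, hρ, h⟩ := uniform_of_local _ hK (CL c) CL_mono (CL_open c) (by
    rintro p ⟨hp1, hp2⟩
    have hp2' : ∑ k, p k ≤ c - δ := hp2
    exact low_core hd hc1 hc3 (fun k => ⟨(hp1 k (Set.mem_univ k)).1,
      by linarith [(hp1 k (Set.mem_univ k)).2]⟩) (by linarith))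
  exact ⟨ρ, hρ, fun p hp1 hp2 => h p ⟨fun k _ => hp1 k, hp2⟩⟩

theorem stab_high {d : ℕ} (hd : 3 ≤ d) {c : ℝ} (hc1 : 1 < c) (_hc2 : c < (d : ℝ) / 2)
    (hc3 : (d : ℝ) / 3 < c) {δ : ℝ} (hδ : 0 < δ) :
    ∃ ρ : ℝ, 0 < ρ ∧ ∀ z : Fin d → ℝ, (∀ k, δ ≤ z k ∧ z k ≤ 1) → 2 * c + δ ≤ ∑ k, z k →
      ∃ i j : Fin d, ∃ q : Fin d → ℝ, ∀ q' : Fin d → ℝ, (∀ k, |q' k - q k| ≤ ρ) →
        (∀ k, ρ < q' k ∧ q' k + ρ < z k) ∧
        c + ρ < ∑ k, q' k - q' i ∧ ∑ k, q' k - q' i < 2 * c - 1 - ρ ∧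
        c + ρ < ∑ k, (z k - q' k) - (z j - q' j) ∧
        ∑ k, (z k - q' k) - (z j - q' j) < 2 * c - 1 - ρ := by
  have hK : IsCompact ((Set.univ.pi fun _ : Fin d => Set.Icc δ (1 : ℝ)) ∩
      {z : Fin d → ℝ | 2 * c + δ ≤ ∑ k, z k}) :=
    (isCompact_univ_pi fun _ => isCompact_Icc).inter_right
      (isClosed_le (by fun_prop) (by fun_prop))
  obtain ⟨ρ, hρ, h⟩ := uniform_of_local _ hK (CH c) CH_mono (CH_open c) (by
    rintro z ⟨hz1, hz2⟩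
    have hz2' : 2 * c + δ ≤ ∑ k, z k := hz2
    exact high_core hd hc1 hc3 (fun k => ⟨by linarith [(hz1 k (Set.mem_univ k)).1],
      (hz1 k (Set.mem_univ k)).2⟩) (by linarith))
  exact ⟨ρ, hρ, fun z hz1 hz2 => h z ⟨fun k _ => hz1 k, hz2⟩⟩

/-- the critical level is not too large -/
theorem Good.c_small {m : ℕ} {c u κ₁ κ₂ : ℝ} (hG : Good m c u κ₁ κ₂) (hm : 2 ≤ m) :
    c * (2 * ((m + 1 : ℕ) : ℝ) - 1) < ((m + 1 : ℕ) : ℝ) * (((m + 1 : ℕ) : ℝ) - 1) := by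
  have h1 := hG.lt_c
  have h2 := hG.c_lt
  have hsum := hG.sum
  have hcrit := hG.crit
  rcases (by omega : m = 2 ∨ m = 3 ∨ 4 ≤ m) with rfl | rfl | hm4
  · push_cast at h1 h2 hsum ⊢
    have hu : u = 3 - 2 * c := by linarith
    have hc' : f 3 c = 2 * f 3 (3 - 2 * c) := by rw [← hu]; exact hcrit
    rw [ModI.f_three_mid (by linarith) (by linarith),
      ModI.f_three_left (by linarith) (by linarith)] at hc'
    have hc2 : c ≤ 112 / 100 := by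
      by_contra hcon
      push Not at hcon
      nlinarith
    linarith
  · push_cast at h1 h2 hsum ⊢
    have hu : u = 4 - 2 * c := by linarith
    have hc' : f 4 c = 2 * f 4 (4 - 2 * c) := by rw [← hu]; exact hcrit
    have hc2 : c ≤ 3 / 2 := by
      by_contra hcon
      push Not at hcon
      rw [ModI.f_four_mid (by linarith) (by linarith),
        ModI.f_four_left (by linarith) (by linarith)] at hc'
      obtain ⟨s, rfl⟩ : ∃ s : ℝ, c = 2 - s := ⟨2 - c, by ring⟩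
      have hs0 : 0 < s := by linarith
      have hs1 : s < 1 / 2 := by linarith
      nlinarith [mul_pos hs0 hs0, mul_pos (mul_pos hs0 hs0) hs0]
    linarith
  · have hm5 : (4 : ℝ) ≤ m := by exact_mod_cast hm4
    have hcast : ((m + 1 : ℕ) : ℝ) = m + 1 := by push_cast; ring
    obtain ⟨h, hh⟩ : ∃ h : ℝ, h = c - ((m + 1 : ℕ) : ℝ) / 3 := ⟨_, rfl⟩
    have ec : c = ((m + 1 : ℕ) : ℝ) / 3 + h := by rw [hh]; ring
    have eu : u = ((m + 1 : ℕ) : ℝ) / 3 - 2 * h := by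
      rw [hh, hcast]; linarith
    have h3 : f (m + 1) (((m + 1 : ℕ) : ℝ) / 3 + h) =
        2 * f (m + 1) (((m + 1 : ℕ) : ℝ) / 3 - 2 * h) := by
      rw [← ec, ← eu]; exact hcrit
    obtain ⟨-, hhi⟩ := ModI.crit_bounds (d := m + 1) (by omega) (by rw [hh]; linarith)
      (by rw [hh]; linarith) h3
    rw [ec]
    rw [hcast]
    nlinarith

end Pool.Agent.Work.MP_0cd883_co.Cube
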