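import Pool.Agent.Work.MP_0cd883_co.Cube.DefsS
import Pool.Agent.Work.MP_0cd883_co.Cube.ModS1

/-! Module S3: exclusion of low and high points by counting pairs. -/

namespace Pool.Agent.Work.MP_0cd883_co.Cube

open Finset

/-- at least `ρ N` integers `v` in `[1, N]` have `(v - 1)/N` at distance at most `ρ` from `q` -/
theorem modS3_line {N : ℕ} {ρ q : ℝ} (hN : 0 < N) (hρN : 1 ≤ ρ * N) (h0 : 0 ≤ q - ρ)
    (h1 : q + ρ ≤ 1 - ρ) :
    ρ * N ≤ (((Icc 1 N).filter fun v : ℕ => |((v : ℝ) - 1) / N - q| ≤ ρ).card : ℝ) := by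
  have hN0 : (0 : ℝ) < N := by exact_mod_cast hN
  obtain ⟨a, ha⟩ : ∃ a, a = (N : ℝ) * (q - ρ) := ⟨_, rfl⟩
  obtain ⟨b, hb⟩ : ∃ b, b = (N : ℝ) * (q + ρ) := ⟨_, rfl⟩
  have ha0 : 0 ≤ a := by rw [ha]; positivity
  have hb1 : b ≤ N - 1 := by
    rw [hb]
    nlinarith
  have hab : b - a = 2 * (ρ * N) := by rw [ha, hb]; ring
  have hb0 : 0 ≤ b := by linarith
  have hfl : b - 1 < (⌊b⌋₊ : ℝ) := Nat.sub_one_lt_floor b
  have hce : (⌈a⌉₊ : ℝ) < a + 1 := Nat.ceil_lt_add_one ha0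
  have hsub : (Icc ⌈a⌉₊ ⌊b⌋₊).image (fun v => v + 1) ⊆
      (Icc 1 N).filter fun v : ℕ => |((v : ℝ) - 1) / N - q| ≤ ρ := by
    intro v hv
    rw [mem_image] at hv
    obtain ⟨w, hw, rfl⟩ := hv
    rw [mem_Icc] at hw
    have hw1 : a ≤ w := (Nat.le_ceil a).trans (by exact_mod_cast hw.1)
    have hw2 : (w : ℝ) ≤ b := le_trans (by exact_mod_cast hw.2) (Nat.floor_le hb0)
    rw [mem_filter, mem_Icc]
    refine ⟨⟨by omega, ?_⟩, ?_⟩
    · have h2 : ((w + 1 : ℕ) : ℝ) ≤ N := by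
        push_cast
        linarith
      exact_mod_cast h2
    · push_cast
      rw [add_sub_cancel_right, abs_le]
      constructor
      · have : q - ρ ≤ (w : ℝ) / N := by
          rw [le_div_iff₀ hN0]
          linarith
        linarith
      · have : (w : ℝ) / N ≤ q + ρ := by
          rw [div_le_iff₀ hN0]
          linarith
        linarith
  have hcard := card_le_card hsub
  rw [card_image_of_injective _ (fun x y hxy => by simpa using hxy), Nat.card_Icc] at hcard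
  have h2 : (⌊b⌋₊ : ℝ) + 1 - ⌈a⌉₊ ≤ ((⌊b⌋₊ + 1 - ⌈a⌉₊ : ℕ) : ℝ) := by
    have h3 : ⌊b⌋₊ + 1 ≤ (⌊b⌋₊ + 1 - ⌈a⌉₊) + ⌈a⌉₊ := by omega
    have h4 : ((⌊b⌋₊ + 1 : ℕ) : ℝ) ≤ (((⌊b⌋₊ + 1 - ⌈a⌉₊) + ⌈a⌉₊ : ℕ) : ℝ) := by exact_mod_cast h3
    push_cast at h4
    linarith
  have h3 : ((⌊b⌋₊ + 1 - ⌈a⌉₊ : ℕ) : ℝ) ≤
      (((Icc 1 N).filter fun v : ℕ => |((v : ℝ) - 1) / N - q| ≤ ρ).card : ℝ) := by
    exact_mod_cast hcard
  linarith

/-- the lattice points near `q` -/
noncomputable def boxS {d : ℕ} (N : ℕ) (ρ : ℝ) (q : Fin d → ℝ) : Finset (Fin d → ℕ) :=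
  Fintype.piFinset fun k => (Icc 1 N).filter fun v : ℕ => |((v : ℝ) - 1) / N - q k| ≤ ρ

theorem modS3_box {d N : ℕ} {ρ : ℝ} {q : Fin d → ℝ} (hN : 0 < N) (hρN : 1 ≤ ρ * N)
    (h0 : ∀ k, 0 ≤ q k - ρ) (h1 : ∀ k, q k + ρ ≤ 1 - ρ) :
    (ρ * N) ^ d ≤ ((boxS N ρ q).card : ℝ) := by
  rw [boxS, Fintype.card_piFinset]
  push_cast
  calc (ρ * N) ^ d = ∏ _k : Fin d, ρ * (N : ℝ) := by simp
    _ ≤ _ := prod_le_prod (fun k _ => by linarith)
        (fun k _ => modS3_line hN hρN (h0 k) (h1 k))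

/-- each point of `B` is in `S` or its image in `T` -/
theorem modS3_pairs {α : Type*} [DecidableEq α] {B S T : Finset α} (g : α → α)
    (hg : Set.InjOn g B) (h : ∀ q ∈ B, q ∈ S ∨ g q ∈ T) : B.card ≤ S.card + T.card := by
  have h1 : B ⊆ S ∪ B.filter (fun q => g q ∈ T) := by
    intro q hq
    rcases h q hq with h2 | h2
    · exact mem_union_left _ h2
    · exact mem_union_right _ (mem_filter.mpr ⟨hq, h2⟩)
  refine (card_le_card h1).trans ((card_union_le _ _).trans (Nat.add_le_add_left ?_ _))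
  refine card_le_card_of_injOn g (fun q hq => ?_) (hg.mono fun q hq => ?_)
  · exact (mem_filter.mp (mem_coe.mp hq)).2
  · exact mem_coe.mpr (mem_filter.mp (mem_coe.mp hq)).1

/-- the normalised coordinates of a lattice point -/
noncomputable def nrm {d : ℕ} (N : ℕ) (x : Fin d → ℕ) : Fin d → ℝ := fun k => ((x k : ℝ) - 1) / N

theorem levD_eq {d N : ℕ} (i : Fin d) (x : Fin d → ℕ) :
    levD N i x = ∑ k, nrm N x k - nrm N x i := by
  simp only [levD, nrm]
  rw [← sum_div, sub_div]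

theorem mem_box {d N : ℕ} {ρ : ℝ} {q : Fin d → ℝ} {x : Fin d → ℕ} (hx : x ∈ boxS N ρ q) :
    x ∈ grid d N ∧ ∀ k, |nrm N x k - q k| ≤ ρ := by
  rw [boxS, Fintype.mem_piFinset] at hx
  constructor
  · rw [grid, Fintype.mem_piFinset]
    exact fun k => (mem_filter.mp (hx k)).1
  · exact fun k => (mem_filter.mp (hx k)).2

/-- for `c, d, δ` as in the geometry lemmas: few missing deep points force no low point in `A` -/
theorem excl_low {d : ℕ} (hd : 3 ≤ d) {c : ℝ} (hc1 : 1 < c) (hc2 : c < (d : ℝ) / 2)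
    (hc3 : c * (2 * d - 1) < d * (d - 1)) {δ : ℝ} (hδ : 0 < δ) :
    ∃ κ : ℝ, 0 < κ ∧ ∃ N₀ : ℕ, ∀ N : ℕ, N₀ ≤ N → ∀ A : Finset (Fin d → ℕ), SumFree A →
      (∀ i, ((deepMiss N c i A).card : ℝ) ≤ κ * (N : ℝ) ^ d) →
      ∀ p ∈ A, p ∈ grid d N → (∀ k, (p k : ℝ) ≤ (1 - δ) * N) → (c - δ) * N < ∑ k, (p k : ℝ) := by
  classical
  obtain ⟨ρ, hρ, hgeo⟩ := stab_low hd hc1 hc2 hc3 hδ
  refine ⟨ρ ^ d / 4, by positivity, ⌈1 / ρ⌉₊ + 1, fun N hN A hA hdeep p hp _ hpk => ?_⟩
  have hN0 : 0 < N := by omega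
  have hN0' : (0 : ℝ) < N := by exact_mod_cast hN0
  have hρN : 1 ≤ ρ * N := by
    have h1 : 1 / ρ ≤ N := (Nat.le_ceil _).trans (by exact_mod_cast (Nat.le_succ _).trans hN)
    rw [div_le_iff₀ hρ] at h1
    linarith
  by_contra hcon
  rw [not_lt] at hcon
  obtain ⟨i, j, q, hq⟩ := hgeo (fun k => (p k : ℝ) / N)
    (fun k => ⟨by positivity, by rw [div_le_iff₀ hN0']; exact hpk k⟩)
    (by rw [← sum_div, div_le_iff₀ hN0']; exact hcon)
  -- the box is inside the grid
  have hq0 : ∀ k, 0 ≤ q k - ρ := by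
    intro k
    have h1 := ((hq (fun k => q k - ρ) (fun k => by
      rw [sub_sub_cancel_left, abs_neg, abs_of_pos hρ])).1 k).1
    linarith
  have hq1 : ∀ k, q k + ρ ≤ 1 - ρ := by
    intro k
    have h1 := ((hq (fun k => q k + ρ) (fun k => by
      rw [add_sub_cancel_left, abs_of_pos hρ])).1 k).2
    have h2 : (0 : ℝ) ≤ (p k : ℝ) / N := by positivity
    linarith
  have hbox := modS3_box hN0 hρN hq0 hq1
  have hcount : (boxS N ρ q).card ≤ (deepMiss N c i A).card + (deepMiss N c j A).card := by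
    refine modS3_pairs (fun x => x + p) (fun x _ y _ hxy => by simpa using hxy)
      (fun x hx => ?_)
    obtain ⟨hxg, hxq⟩ := mem_box hx
    obtain ⟨hin, h1, h2, h3, h4⟩ := hq _ hxq
    have hsum : ∀ k, nrm N (x + p) k = nrm N x k + (p k : ℝ) / N := by
      intro k
      simp only [nrm, Pi.add_apply, Nat.cast_add]
      ring
    by_cases hxA : x ∈ A
    · right
      simp only [deepMiss, mem_filter]
      refine ⟨?_, ?_, ?_, ?_⟩
      · rw [grid, Fintype.mem_piFinset]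
        rw [grid, Fintype.mem_piFinset] at hxg
        intro k
        have hxk := mem_Icc.mp (hxg k)
        rw [mem_Icc, Pi.add_apply]
        refine ⟨by omega, ?_⟩
        have h5 := (hin k).2
        have h6 : ((x k : ℝ) - 1) / N + (p k : ℝ) / N < 1 := by
          have h7 : nrm N x k = ((x k : ℝ) - 1) / N := rfl
          rw [h7] at h5
          linarith
        rw [← add_div, div_lt_one hN0'] at h6
        have h7 : ((x k + p k : ℕ) : ℝ) < ((N + 1 : ℕ) : ℝ) := by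
          push_cast
          linarith
        have h8 : x k + p k < N + 1 := by exact_mod_cast h7
        omega
      · intro hxpA
        exact hA x hxA p hp _ hxpA rfl
      · rw [levD_eq, sum_congr rfl (fun k _ => hsum k), hsum]
        linarith
      · rw [levD_eq, sum_congr rfl (fun k _ => hsum k), hsum]
        linarith
    · left
      simp only [deepMiss, mem_filter]
      rw [levD_eq]
      exact ⟨hxg, hxA, by linarith, by linarith⟩
  have h1 : ((boxS N ρ q).card : ℝ) ≤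
      ((deepMiss N c i A).card : ℝ) + ((deepMiss N c j A).card : ℝ) := by exact_mod_cast hcount
  have h2 := hdeep i
  have h3 := hdeep j
  have h4 : 0 < ρ ^ d * (N : ℝ) ^ d := by positivity
  rw [mul_pow] at hbox
  linarith

theorem excl_high {d : ℕ} (hd : 3 ≤ d) {c : ℝ} (hc1 : 1 < c) (hc2 : c < (d : ℝ) / 2)
    (hc3 : (d : ℝ) / 3 < c) {δ : ℝ} (hδ : 0 < δ) :
    ∃ κ : ℝ, 0 < κ ∧ ∃ N₀ : ℕ, ∀ N : ℕ, N₀ ≤ N → ∀ A : Finset (Fin d → ℕ), SumFree A →
      (∀ i, ((deepMiss N c i A).card : ℝ) ≤ κ * (N : ℝ) ^ d) →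
      ∀ p ∈ A, p ∈ grid d N → (∀ k, δ * N ≤ (p k : ℝ)) → ∑ k, (p k : ℝ) < (2 * c + δ) * N := by
  classical
  obtain ⟨ρ, hρ, hgeo⟩ := stab_high hd hc1 hc2 hc3 hδ
  refine ⟨ρ ^ d / 4, by positivity, ⌈2 * d / ρ⌉₊ + 1, fun N hN A hA hdeep z hz hzg hzk => ?_⟩
  have hN0 : 0 < N := by omega
  have hN0' : (0 : ℝ) < N := by exact_mod_cast hN0
  have hρN' : 2 * (d : ℝ) ≤ ρ * N := by
    have h1 : 2 * (d : ℝ) / ρ ≤ N :=
      (Nat.le_ceil _).trans (by exact_mod_cast (Nat.le_succ _).trans hN)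
    rw [div_le_iff₀ hρ] at h1
    linarith
  have hd' : (3 : ℝ) ≤ d := by exact_mod_cast hd
  have hρN : 1 ≤ ρ * N := by linarith
  by_contra hcon
  rw [not_lt] at hcon
  rw [grid, Fintype.mem_piFinset] at hzg
  obtain ⟨i, j, q, hq⟩ := hgeo (fun k => (z k : ℝ) / N)
    (fun k => ⟨by rw [le_div_iff₀ hN0']; exact hzk k,
      by rw [div_le_one hN0']; exact_mod_cast (mem_Icc.mp (hzg k)).2⟩)
    (by rw [← sum_div, le_div_iff₀ hN0']; exact hcon)
  have hz1 : ∀ k, (z k : ℝ) / N ≤ 1 := by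
    intro k
    rw [div_le_one hN0']
    exact_mod_cast (mem_Icc.mp (hzg k)).2
  -- the box is inside the grid
  have hq0 : ∀ k, 0 ≤ q k - ρ := by
    intro k
    have h1 := ((hq (fun k => q k - ρ) (fun k => by
      rw [sub_sub_cancel_left, abs_neg, abs_of_pos hρ])).1 k).1
    linarith
  have hq1 : ∀ k, q k + ρ ≤ 1 - ρ := by
    intro k
    have h1 := ((hq (fun k => q k + ρ) (fun k => by
      rw [add_sub_cancel_left, abs_of_pos hρ])).1 k).2
    have h2 := hz1 k
    linarith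
  have hbox := modS3_box hN0 hρN hq0 hq1
  -- the points of the box are below `z`
  have hlt : ∀ x ∈ boxS N ρ q, ∀ k, x k < z k := by
    intro x hx k
    obtain ⟨hxg, hxq⟩ := mem_box hx
    have h1 := ((hq _ hxq).1 k).2
    simp only [nrm] at h1
    have h2 : (((x k : ℝ) - 1) / N + ρ) * N < (z k : ℝ) / N * N :=
      mul_lt_mul_of_pos_right h1 hN0'
    rw [add_mul, div_mul_cancel₀ _ hN0'.ne', div_mul_cancel₀ _ hN0'.ne'] at h2
    have h3 : (x k : ℝ) < z k := by linarith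
    exact_mod_cast h3
  have hcount : (boxS N ρ q).card ≤ (deepMiss N c i A).card + (deepMiss N c j A).card := by
    refine modS3_pairs (fun x => z - x) (fun x hx y hy hxy => ?_) (fun x hx => ?_)
    · funext k
      have h1 := hlt x hx k
      have h2 := hlt y hy k
      have h3 := congrFun hxy k
      simp only [Pi.sub_apply] at h3
      omega
    obtain ⟨hxg, hxq⟩ := mem_box hx
    obtain ⟨hin, h1, h2, h3, h4⟩ := hq _ hxq
    have hsub : ∀ k, nrm N (z - x) k = ((z k : ℝ) / N - nrm N x k) - 2 / N := by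
      intro k
      have h5 := hlt x hx k
      simp only [nrm, Pi.sub_apply]
      rw [Nat.cast_sub h5.le]
      ring
    have hlev : levD N j (z - x) = ∑ k, ((z k : ℝ) / N - nrm N x k) -
        ((z j : ℝ) / N - nrm N x j) - 2 * (d - 1) / N := by
      rw [levD_eq, sum_congr rfl (fun k _ => hsub k), hsub, sum_sub_distrib]
      simp only [sum_const, card_univ, Fintype.card_fin, nsmul_eq_mul]
      ring
    have hsmall : 0 ≤ 2 * ((d : ℝ) - 1) / N ∧ 2 * ((d : ℝ) - 1) / N ≤ ρ := by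
      constructor
      · apply div_nonneg _ hN0'.le
        linarith
      · rw [div_le_iff₀ hN0']
        linarith
    by_cases hxA : x ∈ A
    · right
      simp only [deepMiss, mem_filter]
      refine ⟨?_, ?_, ?_, ?_⟩
      · rw [grid, Fintype.mem_piFinset]
        intro k
        have h5 := hlt x hx k
        have h6 := (mem_Icc.mp (hzg k)).2
        rw [mem_Icc, Pi.sub_apply]
        omega
      · intro hzxA
        refine hA x hxA (z - x) hzxA z hz ?_
        funext k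
        have h5 := hlt x hx k
        simp only [Pi.add_apply, Pi.sub_apply]
        omega
      · rw [hlev]
        linarith
      · rw [hlev]
        linarith
    · left
      simp only [deepMiss, mem_filter]
      rw [levD_eq]
      exact ⟨hxg, hxA, by linarith, by linarith⟩
  have h1 : ((boxS N ρ q).card : ℝ) ≤
      ((deepMiss N c i A).card : ℝ) + ((deepMiss N c j A).card : ℝ) := by exact_mod_cast hcount
  have h2 := hdeep i
  have h3 := hdeep j
  have h4 : 0 < ρ ^ d * (N : ℝ) ^ d := by positivity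
  rw [mul_pow] at hbox
  linarith

end Pool.Agent.Work.MP_0cd883_co.Cube
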