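import Pool.Agent.Work.MP_0cd883_co.Cube.ModS4a
import Pool.Agent.Work.MP_0cd883_co.Cube.ModS2
import Pool.Agent.Work.MP_0cd883_co.Cube.ModS3

/-! Module S4: stability. -/

namespace Pool.Agent.Work.MP_0cd883_co.Cube

open Finset

theorem stability (hL : ∀ n, 1 ≤ n → LCore n) {m : ℕ} (hm : 2 ≤ m) {c u κ₁ κ₂ : ℝ}
    (hG : Good m c u κ₁ κ₂) {δ : ℝ} (hδ : 0 < δ) :
    ∃ η : ℝ, 0 < η ∧ ∃ N₀ : ℕ, ∀ N : ℕ, N₀ ≤ N → ∀ A : Finset (Fin (m + 1) → ℕ),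
      A ⊆ grid (m + 1) N → SumFree A →
      (1 - F (m + 1) c - F (m + 1) u - η) * (N : ℝ) ^ (m + 1) ≤ A.card →
      (((A \ slab (m + 1) N c) ∪ (slab (m + 1) N c \ A)).card : ℝ) ≤ δ * (N : ℝ) ^ (m + 1) := by
  have h1 := hG.one_lt
  have h2 := hG.sum
  have h3 := hG.u_pos
  have h4 := hG.u_lt
  refine stability_of (by linarith) h2 (deep_dir hL hm hG) ?_ ?_ hδ
  · intro δ' hδ'
    exact excl_low (by omega) h1 (by push_cast; linarith) (hG.c_small hm) hδ'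
  · intro δ' hδ'
    exact excl_high (by omega) h1 (by push_cast; linarith) (by push_cast; linarith) hδ'

end Pool.Agent.Work.MP_0cd883_co.Cube
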