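import Pool.Agent.Work.MP_0cd883_co.Cube.ModH

/-! Definitions of the second half: averages over the grid, good parameters. -/

namespace Pool.Agent.Work.MP_0cd883_co.Cube

/-- the average of `φ` over the grid -/
noncomputable def Av {m N : ℕ} (φ : (Fin m → Fin N) → ℝ) : ℝ := (∑ x, φ x) / (N : ℝ) ^ m

/-- the normalised coordinate sum -/
noncomputable def lev {m N : ℕ} (x : Fin m → Fin N) : ℝ := (∑ j, ((x j : ℕ) : ℝ)) / N

/-- truncation to `[0,1]` -/
noncomputable def clamp (t : ℝ) : ℝ := max 0 (min t 1)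

open Classical in
/-- indicator of a proposition, with values in the reals -/
noncomputable def ind (p : Prop) : ℝ := if p then 1 else 0

/-- the reflection `x ↦ N - x` modulo `N` in every coordinate -/
def mir {m N : ℕ} (x : Fin m → Fin N) : Fin m → Fin N :=
  fun j => ⟨(N - x j) % N, Nat.mod_lt _ (by have := (x j).isLt; omega)⟩

/-- the condition satisfied by the missing fractions on parallel lines -/
def Rel {m N : ℕ} (b : (Fin m → Fin N) → ℝ) : Prop :=
  ∀ x y z : Fin m → Fin N, (∀ j, (x j : ℕ) + y j + 1 = z j) → 1 - 1 / (N : ℝ) ≤ b x + b y + b z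

open Classical in
/-- the third function of the symmetric form of the relation -/
noncomputable def refl {m N : ℕ} (b : (Fin m → Fin N) → ℝ) (w : Fin m → Fin N) : ℝ :=
  if ∀ j, (w j : ℕ) ≠ 0 then b (mir w) else 1

/-- fraction of the grid with `lev x ≤ r + η φ x` -/
noncomputable def Lv {m N : ℕ} (φ : (Fin m → Fin N) → ℝ) (η r : ℝ) : ℝ :=
  Av (fun x => ind (lev x ≤ r + η * φ x))

/-- the modified function; `t = c - lev x` -/
noncomputable def modif (ε t b : ℝ) : ℝ :=
  if 1 < t then 1 else if 0 ≤ t then (1 - ε) * t + ε * b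
  else if -(ε / (1 - ε)) < t then ε * b else 0

/-- the numerical conditions under which the argument works -/
structure Good (m : ℕ) (c u κ₁ κ₂ : ℝ) : Prop where
  sum : 2 * c + u = m + 1
  one_lt : 1 < c
  u_pos : 0 < u
  u_lt : u < c
  crit : f (m + 1) c = 2 * f (m + 1) u
  k1_nonneg : 0 ≤ κ₁
  k2_nonneg : 0 ≤ κ₂
  b1 : ∀ τ, 0 < τ → τ < c - 1 → f m (c - 1 - τ) ≤ κ₁ * f m (c + τ / 2)
  b2 : ∀ τ, 0 < τ → τ < c - 1 → f m (c - 1 - τ) ≤ 49 / 100 * f m (u + τ / 2)
  b3 : ∀ τ, 0 < τ → τ < u - 1 → f m (u - 1 - τ) ≤ κ₂ * f m (c + τ / 2)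
  load : 2 * κ₁ + 4 * κ₂ ≤ 49 / 50

end Pool.Agent.Work.MP_0cd883_co.Cube
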