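import Pool.Agent.Work.MP_0cd883_co.Cube.ModI
import Pool.Agent.Work.MP_0cd883_co.Cube.DefsL

/-!
Good parameters exist in every dimension `m + 1 ≥ 3`.
-/

namespace Pool.Agent.Work.MP_0cd883_co.Cube

open MeasureTheory Set

namespace ModI

lemma exp_c {h : ℝ} (hh : h ≤ 1445 / 10000) :
    Real.exp (-(8 / 5 * (1 - 3 * h))) ≤ 49 / 100 := by
  have h1 : (100 / 49 : ℝ) ≤ Real.exp (8 / 5 * (1 - 3 * h)) := by
    have h2 : (9064 / 10000 : ℝ) ≤ 8 / 5 * (1 - 3 * h) := by linarith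
    have h3 := Real.quadratic_le_exp_of_nonneg (show (0 : ℝ) ≤ 9064 / 10000 by norm_num)
    have h4 := Real.exp_le_exp.2 h2
    norm_num at h3
    linarith
  rw [Real.exp_neg, show (49 / 100 : ℝ) = (100 / 49)⁻¹ by norm_num]
  exact inv_anti₀ (by norm_num) h1

lemma bounds_big {d : ℕ} (hd : 5 ≤ d) {h q : ℝ} (h0 : 0 < h) (h1 : h < d / 6)
    (hc : f d (d / 3 + h) = 2 * f d (d / 3 - 2 * h)) (hq0 : 0 ≤ q)
    (hq1 : q ≤ (d / 3 + h - 1) / 2) :
    f (d - 1) (d / 3 + h - 1 - 2 * q) ≤ 202 / 1000 * f (d - 1) (d / 3 + h + q) ∧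
    f (d - 1) (d / 3 - 2 * h - 1 - 2 * q) ≤ 14 / 100 * f (d - 1) (d / 3 + h + q) ∧
    f (d - 1) (d / 3 + h - 1 - 2 * q) ≤ 49 / 100 * f (d - 1) (d / 3 - 2 * h + q) := by
  obtain ⟨hlo, hhi⟩ := crit_bounds hd h0 h1 hc
  have hd5 : (5 : ℝ) ≤ d := by exact_mod_cast hd
  have hm4 : 4 ≤ d - 1 := by omega
  have hm : ((d - 1 : ℕ) : ℝ) = d - 1 := by rw [Nat.cast_sub (by omega), Nat.cast_one]
  obtain ⟨D, hD⟩ : ∃ D : ℝ, D = d / 3 - 1 := ⟨_, rfl⟩
  have hdD : (d : ℝ) = 3 * D + 3 := by rw [hD]; ring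
  have hD0 : 2 / 3 ≤ D := by linarith
  have hqD : q ≤ (D + h) / 2 := by linarith
  have hqq : -(1 / 40) ≤ q * ((D - 5 * h) / 2) := by
    rcases le_total (5 * h) D with hh | hh
    · have : 0 ≤ q * ((D - 5 * h) / 2) := mul_nonneg hq0 (by linarith)
      linarith
    · have h2 : -(1 / 30) ≤ (D - 5 * h) / 2 := by linarith
      have h3 : q ≤ 1 / 2 := by linarith
      nlinarith
  have A1 : f (d - 1) (d / 3 + h - 1 - 2 * q) ≤ f (d - 1) (d / 3 + h - 1) :=
    f_le_of hm4 (by linarith) (by rw [hm]; linarith)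
  have A2 : f (d - 1) (d / 3 + h - 1) ≤ f (d - 1) (d / 3 + h + q) * Real.exp (-(8 / 5)) := by
    refine f_log' hm4 (by linarith) (by rw [hm]; linarith) ?_
    rw [hm, hdD]
    nlinarith [mul_nonneg hq0 (sub_nonneg.2 hqD)]
  have A4 : f (d - 1) (d / 3 - 2 * h - 1 - 2 * q) ≤ f (d - 1) (d / 3 - 2 * h - 1) :=
    f_le_of hm4 (by linarith) (by rw [hm]; linarith)
  have A5 : f (d - 1) (d / 3 - 2 * h - 1) ≤
      f (d - 1) (d / 3 + h + q) * Real.exp (-(8 / 5 * (1 + 3 * h))) := by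
    refine f_log' hm4 (by linarith) (by rw [hm]; linarith) ?_
    rw [hm, hdD]
    nlinarith [mul_nonneg hq0 (sub_nonneg.2 hqD)]
  have hg := f_nonneg (d - 1) (d / 3 + h + q)
  have B1 := mul_le_mul_of_nonneg_left exp_a hg
  have B2 := mul_le_mul_of_nonneg_left (exp_b hlo) hg
  refine ⟨by linarith, by linarith, ?_⟩
  have A7 : f (d - 1) (d / 3 - 2 * h) ≤ f (d - 1) (d / 3 - 2 * h + q) :=
    f_le_of hm4 (by linarith) (by rw [hm]; linarith)
  have A8 : f (d - 1) (d / 3 + h - 1) ≤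
      f (d - 1) (d / 3 - 2 * h) * Real.exp (-(8 / 5 * (1 - 3 * h))) := by
    refine f_log' hm4 (by linarith) (by rw [hm]; linarith) ?_
    rw [hm, hdD]
    nlinarith
  have B4 := mul_le_mul_of_nonneg_left (exp_c hhi) (f_nonneg (d - 1) (d / 3 - 2 * h))
  linarith

/-- the critical level exists -/
lemma exists_crit {d : ℕ} (hd : 3 ≤ d) :
    ∃ c : ℝ, (d : ℝ) / 3 < c ∧ c < (d : ℝ) / 2 ∧ f d c = 2 * f d (d - 2 * c) := by
  have hd3 : (3 : ℝ) ≤ d := by exact_mod_cast hd
  have hc : Continuous fun c : ℝ => f d c - 2 * f d (d - 2 * c) := by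
    have := f_continuous (n := d) (by omega)
    fun_prop
  have h1 : f d (d / 3) - 2 * f d (d - 2 * (d / 3)) < 0 := by
    rw [show (d : ℝ) - 2 * (d / 3) = d / 3 by ring]
    have := f_pos (n := d) (by omega) (x := d / 3) (by linarith) (by linarith)
    linarith
  have h2 : 0 < f d (d / 2) - 2 * f d (d - 2 * (d / 2)) := by
    rw [show (d : ℝ) - 2 * (d / 2) = 0 by ring, f_eq_zero_left (by omega) le_rfl]
    have := f_pos (n := d) (by omega) (x := d / 2) (by linarith) (by linarith)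
    linarith
  obtain ⟨c, ⟨hc1, hc2⟩, hc3⟩ := intermediate_value_Ioo
    (show (d : ℝ) / 3 ≤ d / 2 by linarith) hc.continuousOn ⟨h1, h2⟩
  refine ⟨c, hc1, hc2, ?_⟩
  have hc4 : f d c - 2 * f d (d - 2 * c) = 0 := hc3
  linarith

end ModI

/-- the level `c` is above `d / 3` -/
theorem Good.lt_c {m : ℕ} {c u κ₁ κ₂ : ℝ} (h : Good m c u κ₁ κ₂) : ((m + 1 : ℕ) : ℝ) / 3 < c := by
  have h1 := h.sum
  have h2 := h.u_lt
  push_cast
  linarith

/-- the level `c` is below `d / 2` -/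
theorem Good.c_lt {m : ℕ} {c u κ₁ κ₂ : ℝ} (h : Good m c u κ₁ κ₂) : c < ((m + 1 : ℕ) : ℝ) / 2 := by
  have h1 := h.sum
  have h2 := h.u_pos
  push_cast
  linarith

/-- good parameters exist in every dimension -/
theorem good_exists {m : ℕ} (hm : 2 ≤ m) : ∃ c u κ₁ κ₂ : ℝ, Good m c u κ₁ κ₂ := by
  obtain ⟨c, hc0, hc1, hc⟩ := ModI.exists_crit (d := m + 1) (by omega)
  have hm2 : (2 : ℝ) ≤ m := by exact_mod_cast hm
  have hcast : ((m + 1 : ℕ) : ℝ) = m + 1 := by push_cast; ring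
  rw [hcast] at hc0 hc1 hc
  rcases (by omega : m = 2 ∨ m = 3 ∨ 4 ≤ m) with rfl | rfl | hm4
  · -- dimension 3
    push_cast at hc0 hc1 hc
    have hc' : f 3 c = 2 * f 3 (3 - 2 * c) := by
      rw [show (3 : ℝ) - 2 * c = 2 + 1 - 2 * c by ring]
      exact hc
    rw [ModI.f_three_mid (by linarith) (by linarith),
      ModI.f_three_left (by linarith) (by linarith)] at hc'
    have hc2 : c ≤ 112 / 100 := by
      by_contra hcon
      push Not at hcon
      nlinarith
    refine ⟨c, 3 - 2 * c, 1 / 5, 0, ?_, by linarith, by linarith, by linarith, ?_, by norm_num,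
      le_rfl, ?_, ?_, ?_, by norm_num⟩
    · push_cast; ring
    · show f 3 c = 2 * f 3 (3 - 2 * c)
      rw [show (3 : ℝ) - 2 * c = 2 + 1 - 2 * c by ring]
      exact hc
    · intro τ h0 h1
      rw [ModI.f_two_left (by linarith) (by linarith), ModI.f_two_right (by linarith) (by linarith)]
      linarith
    · intro τ h0 h1
      rw [ModI.f_two_left (by linarith) (by linarith), ModI.f_two_left (by linarith) (by linarith)]
      linarith
    · intro τ h0 h1
      exfalso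
      linarith
  · -- dimension 4
    push_cast at hc0 hc1 hc
    have hc' : f 4 c = 2 * f 4 (4 - 2 * c) := by
      rw [show (4 : ℝ) - 2 * c = 3 + 1 - 2 * c by ring]
      exact hc
    have hc2 : c ≤ 3 / 2 := by
      by_contra hcon
      push Not at hcon
      rw [ModI.f_four_mid (by linarith) (by linarith),
        ModI.f_four_left (by linarith) (by linarith)] at hc'
      obtain ⟨s, rfl⟩ : ∃ s : ℝ, c = 2 - s := ⟨2 - c, by ring⟩
      have hs0 : 0 < s := by linarith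
      have hs1 : s < 1 / 2 := by linarith
      nlinarith [mul_pos hs0 hs0, mul_pos (mul_pos hs0 hs0) hs0]
    refine ⟨c, 4 - 2 * c, 1 / 5, 1 / 10, ?_, by linarith, by linarith, by linarith, hc', by norm_num,
      by norm_num, ?_, ?_, ?_, by norm_num⟩
    · push_cast; ring
    · intro τ h0 h1
      rw [ModI.f_three_left (by linarith) (by linarith), ModI.f_three_mid (by linarith) (by linarith)]
      have e7 : (c - 1 - τ) ^ 2 ≤ 1 / 4 := by nlinarith
      nlinarith
    · intro τ h0 h1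
      rw [ModI.f_three_left (by linarith) (by linarith), ModI.f_three_mid (by linarith) (by linarith)]
      have e7 : (c - 1 - τ) ^ 2 ≤ 1 / 4 := by nlinarith
      nlinarith
    · intro τ h0 h1
      rw [ModI.f_three_left (by linarith) (by linarith), ModI.f_three_mid (by linarith) (by linarith)]
      have e7 : (4 - 2 * c - 1 - τ) ^ 2 ≤ 1 / 9 := by nlinarith
      nlinarith
  · -- dimension at least 5
    have hm5 : (4 : ℝ) ≤ m := by exact_mod_cast hm4
    obtain ⟨h, hh⟩ : ∃ h : ℝ, h = c - ((m + 1 : ℕ) : ℝ) / 3 := ⟨_, rfl⟩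
    have ec : c = ((m + 1 : ℕ) : ℝ) / 3 + h := by rw [hh]; ring
    have hh0 : 0 < h := by rw [hh, hcast]; linarith
    have hh1 : h < ((m + 1 : ℕ) : ℝ) / 6 := by rw [hh, hcast]; linarith
    have h2 : f (m + 1) (((m + 1 : ℕ) : ℝ) / 3 + h) =
        2 * f (m + 1) (((m + 1 : ℕ) : ℝ) / 3 - 2 * h) := by
      rw [← ec, hc]
      congr 2
      rw [ec, hcast]; ring
    have eu : (m : ℝ) + 1 - 2 * c = ((m + 1 : ℕ) : ℝ) / 3 - 2 * h := by rw [ec, hcast]; ring
    obtain ⟨-, hhi⟩ := ModI.crit_bounds (by omega) hh0 hh1 h2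
    have key := fun q hq0 hq1 => ModI.bounds_big (d := m + 1) (by omega) (h := h) (q := q) hh0 hh1
      h2 hq0 hq1
    simp only [Nat.add_sub_cancel] at key
    rw [← ec, ← eu] at key
    refine ⟨c, m + 1 - 2 * c, 202 / 1000, 14 / 100, by ring, by linarith, by linarith, by linarith,
      hc, by norm_num, by norm_num, ?_, ?_, ?_, by norm_num⟩
    · intro τ h0 h1
      have h3 := (key (τ / 2) (by linarith) (by linarith)).1
      rwa [show 2 * (τ / 2) = τ by ring] at h3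
    · intro τ h0 h1
      have h3 := (key (τ / 2) (by linarith) (by linarith)).2.2
      rwa [show 2 * (τ / 2) = τ by ring] at h3
    · intro τ h0 h1
      have h3 := (key (τ / 2) (by linarith) (by linarith)).2.1
      rwa [show 2 * (τ / 2) = τ by ring] at h3

end Pool.Agent.Work.MP_0cd883_co.Cube
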