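import Pool.Agent.Work.MP_0cd883_co.Cube.ModO1

/-! Module T, part 2: the sets `star d N v`, larger than slabs, and their size. -/

namespace Pool.Agent.Work.MP_0cd883_co.Cube

open Finset

open Classical in
/-- the number of points of `[n]^d` with coordinate sum at most `s` -/
noncomputable def low (d n s : ℕ) : ℕ := ((grid d n).filter fun x => ∑ i, x i ≤ s).card

open Classical in
/-- the points of `[N]^d` which have coordinate sum at least `v` or a coordinate `N`, and
coordinate sum at most `2v - 1` or a coordinate `1` -/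
noncomputable def star (d N v : ℕ) : Finset (Fin d → ℕ) :=
  (grid d N).filter fun x =>
    (v ≤ ∑ i, x i ∨ ∃ i, x i = N) ∧ (∑ i, x i < 2 * v ∨ ∃ i, x i = 1)

theorem mem_grid {d N : ℕ} {x : Fin d → ℕ} : x ∈ grid d N ↔ ∀ i, 1 ≤ x i ∧ x i ≤ N := by
  unfold grid
  rw [Fintype.mem_piFinset]
  simp only [mem_Icc]

theorem star_subset (d N v : ℕ) : star d N v ⊆ grid d N := by
  classical
  unfold star
  exact filter_subset _ _

theorem star_sumFree (d N v : ℕ) : SumFree (star d N v) := by
  classical
  intro x hx y hy z hz hxyz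
  unfold star at hx hy hz
  obtain ⟨gx, hx1, hx2⟩ := mem_filter.1 hx
  obtain ⟨gy, hy1, hy2⟩ := mem_filter.1 hy
  obtain ⟨gz, hz1, hz2⟩ := mem_filter.1 hz
  rw [mem_grid] at gx gy gz
  have hc : ∀ i, x i + y i = z i := fun i => congrFun hxyz i
  have hx3 : v ≤ ∑ i, x i := by
    rcases hx1 with h | ⟨i, hi⟩
    · exact h
    · have h1 := hc i
      have h2 := (gy i).1
      have h3 := (gz i).2
      omega
  have hy3 : v ≤ ∑ i, y i := by
    rcases hy1 with h | ⟨i, hi⟩
    · exact h
    · have h1 := hc i
      have h2 := (gx i).1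
      have h3 := (gz i).2
      omega
  have hs : ∑ i, x i + ∑ i, y i = ∑ i, z i := by
    rw [← sum_add_distrib]
    exact sum_congr rfl fun i _ => hc i
  rcases hz2 with h | ⟨i, hi⟩
  · omega
  · have h1 := hc i
    have h2 := (gx i).1
    have h3 := (gy i).1
    omega

theorem card_grid (d N : ℕ) : (grid d N).card = N ^ d := by
  unfold grid
  rw [Fintype.card_piFinset]
  simp

/-- the size of `star d N v` -/
theorem star_card {d N : ℕ} (hd : 1 ≤ d) (hN : 1 ≤ N) (v : ℕ) :
    (star d N v).card + low d (N - 1) (v - 1) + low d (N - 1) (d * (N + 1) - 2 * v) = N ^ d := by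
  classical
  -- the two missing parts
  set L : Finset (Fin d → ℕ) := (grid d N).filter fun x => ∑ i, x i < v ∧ ∀ i, x i ≠ N with hL
  set U : Finset (Fin d → ℕ) := (grid d N).filter fun x => 2 * v ≤ ∑ i, x i ∧ ∀ i, x i ≠ 1 with hU
  have hLc : L.card = low d (N - 1) (v - 1) := by
    unfold low
    congr 1
    ext x
    simp only [hL, mem_filter, mem_grid]
    constructor
    · rintro ⟨h1, h2, h3⟩
      refine ⟨fun i => ⟨(h1 i).1, ?_⟩, by omega⟩
      have h4 := (h1 i).2
      have h5 := h3 i
      omega
    · rintro ⟨h1, h2⟩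
      have hpos : 1 ≤ ∑ i, x i := by
        have h3 := (h1 ⟨0, hd⟩).1
        exact h3.trans (single_le_sum (f := x) (fun i _ => Nat.zero_le _) (mem_univ _))
      refine ⟨fun i => ⟨(h1 i).1, ?_⟩, by omega, fun i => ?_⟩
      · have h4 := (h1 i).2
        omega
      · have h4 := h1 i
        omega
  have hUc : U.card = low d (N - 1) (d * (N + 1) - 2 * v) := by
    unfold low
    have hrefl : ∀ x : Fin d → ℕ, (∀ i, x i ≤ N + 1) →
        ∑ i, (N + 1 - x i) + ∑ i, x i = d * (N + 1) := by
      intro x hx
      rw [← sum_add_distrib, sum_congr rfl fun i _ => Nat.sub_add_cancel (hx i), sum_const,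
        card_univ, Fintype.card_fin, smul_eq_mul]
    refine card_bij' (fun x _ i => N + 1 - x i) (fun x _ i => N + 1 - x i) ?_ ?_ ?_ ?_
    · intro x hx
      simp only [hU, mem_filter, mem_grid] at hx
      obtain ⟨h1, h2, h3⟩ := hx
      simp only [mem_filter, mem_grid]
      have h4 := hrefl x fun i => by have := (h1 i).2; omega
      refine ⟨fun i => ?_, by omega⟩
      have h5 := h1 i
      have h6 := h3 i
      omega
    · intro x hx
      simp only [mem_filter, mem_grid] at hx
      obtain ⟨h1, h2⟩ := hx
      simp only [hU, mem_filter, mem_grid]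
      have h4 := hrefl x fun i => by have := (h1 i).2; omega
      have hpos : 1 ≤ ∑ i, x i := by
        have h3 := (h1 ⟨0, hd⟩).1
        exact h3.trans (single_le_sum (f := x) (fun i _ => Nat.zero_le _) (mem_univ _))
      refine ⟨fun i => ?_, by omega, fun i => ?_⟩
      · have h5 := h1 i
        omega
      · have h5 := h1 i
        omega
    · intro x hx
      simp only [hU, mem_filter, mem_grid] at hx
      funext i
      have h5 := hx.1 i
      show N + 1 - (N + 1 - x i) = x i
      omega
    · intro x hx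
      simp only [mem_filter, mem_grid] at hx
      funext i
      have h5 := hx.1 i
      show N + 1 - (N + 1 - x i) = x i
      omega
  have hdisj : Disjoint L U := by
    rw [disjoint_left]
    intro x h1 h2
    simp only [hL, mem_filter] at h1
    simp only [hU, mem_filter] at h2
    omega
  have hcompl : grid d N \ star d N v = L ∪ U := by
    ext x
    unfold star
    simp only [hL, hU, mem_sdiff, mem_filter, mem_union]
    constructor
    · rintro ⟨h1, h2⟩
      rcases lt_or_ge (∑ i, x i) v with h3 | h3
      · left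
        refine ⟨h1, h3, fun i hi => h2 ⟨h1, Or.inr ⟨i, hi⟩, Or.inl (by omega)⟩⟩
      · right
        have h4 : 2 * v ≤ ∑ i, x i := by
          by_contra hcon
          exact h2 ⟨h1, Or.inl h3, Or.inl (by omega)⟩
        exact ⟨h1, h4, fun i hi => h2 ⟨h1, Or.inl h3, Or.inr ⟨i, hi⟩⟩⟩
    · rintro (⟨h1, h2, h3⟩ | ⟨h1, h2, h3⟩)
      · refine ⟨h1, ?_⟩
        rintro ⟨-, h4 | ⟨i, hi⟩, -⟩
        · omega
        · exact h3 i hi
      · refine ⟨h1, ?_⟩
        rintro ⟨-, -, h4 | ⟨i, hi⟩⟩
        · omega
        · exact h3 i hi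
  have h1 := card_sdiff_add_card_eq_card (star_subset d N v)
  rw [hcompl, card_union_of_disjoint hdisj, hLc, hUc, card_grid] at h1
  omega

theorem star_le (d N v : ℕ) : (star d N v).card ≤ maxSumFree d N :=
  card_le_maxSumFree (star_subset d N v) (star_sumFree d N v)

/-- the lower bound for the maximal size of a sum-free set given by `star d N v` -/
theorem low_add_maxSumFree {d N : ℕ} (hd : 1 ≤ d) (hN : 1 ≤ N) (v : ℕ) :
    N ^ d ≤ maxSumFree d N + low d (N - 1) (v - 1) + low d (N - 1) (d * (N + 1) - 2 * v) := by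
  have h1 := star_card hd hN v
  have h2 := star_le d N v
  omega

end Pool.Agent.Work.MP_0cd883_co.Cube
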