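import Pool.Agent.Work.MP_0cd883_co.Cube.ModT1
import Pool.Agent.Work.MP_0cd883_co.Cube.ModT2
import Pool.Agent.Work.MP_0cd883_co.Cube.ModI2

/-! Module T: slabs are not exactly extremal. -/

namespace Pool.Agent.Work.MP_0cd883_co.Cube

open Finset

/-- counting points of `[N]^d` with a property -/
theorem modT_grid_filter_card {d N : ℕ} (hN : 1 ≤ N) (p : (Fin d → ℕ) → Prop) [DecidablePred p] :
    (((grid d N).filter p).card : ℝ) / (N : ℝ) ^ d =
      Av (fun x : Fin d → Fin N => ind (p fun i => (x i : ℕ) + 1)) := by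
  classical
  have hcard : (((grid d N).filter p).card : ℝ) =
      ∑ x : Fin d → Fin N, ind (p fun i => (x i : ℕ) + 1) := by
    rw [sum_ind_card]
    congr 1
    symm
    refine card_bij' (fun x _ => fun i => (x i : ℕ) + 1)
      (fun a _ => fun i => ⟨(a i - 1) % N, Nat.mod_lt _ hN⟩) ?_ ?_ ?_ ?_
    · intro x hx
      refine mem_filter.2 ⟨mem_grid.2 fun i => ⟨by omega, ?_⟩, (mem_filter.1 hx).2⟩
      have := (x i).isLt
      omega
    · intro a ha
      have h1 := mem_filter.1 ha
      have h2 := mem_grid.1 h1.1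
      have h4 : (fun i => ((a i - 1) % N + 1 : ℕ)) = a := by
        funext i
        have := h2 i
        rw [Nat.mod_eq_of_lt (by omega)]
        omega
      refine mem_filter.2 ⟨mem_univ _, ?_⟩
      simp only [h4]
      exact h1.2
    · intro x hx
      funext i
      ext
      simp only [Nat.add_sub_cancel]
      exact Nat.mod_eq_of_lt (x i).isLt
    · intro a ha
      have h4 := mem_grid.1 (mem_filter.1 ha).1
      funext i
      have h5 := h4 i
      simp only
      rw [Nat.mod_eq_of_lt (by omega)]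
      omega
  unfold Av
  rw [hcard]

theorem sum_succ_lev {d N : ℕ} (hN : 1 ≤ N) (x : Fin d → Fin N) :
    ((∑ i, ((x i : ℕ) + 1) : ℕ) : ℝ) = N * lev x + d := by
  have hN' : (0 : ℝ) < N := by exact_mod_cast hN
  unfold lev
  push_cast
  rw [sum_add_distrib, mul_div_cancel₀ _ hN'.ne']
  simp

/-- the slab `v ≤ ∑ x ≤ 2v - 1` misses at least `Ph d (v / N) - d / N` -/
theorem slab_card_upper {d N : ℕ} (hd : 1 ≤ d) (hN : 1 ≤ N) (v : ℕ) :
    (((grid d N).filter fun x => v ≤ ∑ i, x i ∧ ∑ i, x i ≤ 2 * v - 1).card : ℝ) / (N : ℝ) ^ d ≤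
      1 - Ph d (v / N) + d / N := by
  classical
  have hN' : (0 : ℝ) < N := by exact_mod_cast hN
  rw [modT_grid_filter_card hN]
  have hpt : ∀ x : Fin d → Fin N,
      ind (v ≤ ∑ i, ((x i : ℕ) + 1) ∧ ∑ i, ((x i : ℕ) + 1) ≤ 2 * v - 1) ≤
      ind (lev x ≤ (2 * v - d) / N) - ind (lev x < (v - d) / N) := by
    intro x
    have hs := sum_succ_lev hN x
    by_cases h1 : lev x < (v - d) / N
    · have h2 : lev x ≤ (2 * v - d) / N := by
        refine h1.le.trans (div_le_div_of_nonneg_right ?_ hN'.le)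
        have : (0 : ℝ) ≤ v := Nat.cast_nonneg v
        linarith
      rw [ind_true h1, ind_true h2, sub_self]
      rw [ind_false]
      rintro ⟨h3, -⟩
      rw [lt_div_iff₀ hN'] at h1
      have h4 : (v : ℝ) ≤ ((∑ i, ((x i : ℕ) + 1) : ℕ) : ℝ) := by exact_mod_cast h3
      rw [hs] at h4
      linarith [mul_comm (N : ℝ) (lev x)]
    · rw [ind_false h1, sub_zero]
      refine ind_mono ?_
      rintro ⟨-, h3⟩
      have h4 : ∑ i, ((x i : ℕ) + 1) ≤ 2 * v := by omega
      have h5 : ((∑ i, ((x i : ℕ) + 1) : ℕ) : ℝ) ≤ 2 * v := by exact_mod_cast h4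
      rw [hs] at h5
      rw [le_div_iff₀ hN']
      linarith [mul_comm (N : ℝ) (lev x)]
  have h1 := Av_mono hpt
  rw [Av_sub] at h1
  have h2 := count_upper hd hN ((2 * (v : ℝ) - d) / N)
  have h3 := count_lower hd hN (((v : ℝ) - d) / N)
  have e1 : (2 * (v : ℝ) - d) / N + d / N = 2 * (v / N) := by ring
  have e2 : ((v : ℝ) - d) / N = v / N - d / N := by ring
  rw [e1] at h2
  have h4 := abs_le.1 (F_lip hd (v / N) (v / N - d / N))
  rw [sub_sub_cancel, abs_of_nonneg (by positivity)] at h4
  have h5 := F_symm hd (2 * ((v : ℝ) / N))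
  rw [e2] at h1 h3
  unfold Ph
  rw [h5]
  linarith [h4.2]

/-- for `d ≥ 3` and large `N` every slab `v ≤ ∑ x ≤ 2v - 1` is beaten by `κ N^(d-1)` points -/
theorem not_slab {m : ℕ} (hm : 2 ≤ m) {c u κ₁ κ₂ : ℝ} (hG : Good m c u κ₁ κ₂) :
    ∃ κ : ℝ, 0 < κ ∧ ∃ N₀ : ℕ, ∀ N : ℕ, N₀ ≤ N → ∀ v : ℕ,
      (((grid (m + 1) N).filter fun x => v ≤ ∑ i, x i ∧ ∑ i, x i ≤ 2 * v - 1).card : ℝ) +
        κ * (N : ℝ) ^ m ≤ maxSumFree (m + 1) N := by
  classical
  have hlt := hG.lt_c
  have hcl := hG.c_lt
  have hc1 := hG.one_lt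
  have hu : ((m + 1 : ℕ) : ℝ) - 2 * c = u := by
    have := hG.sum
    push_cast
    linarith
  have hm0 : (2 : ℝ) ≤ m := by exact_mod_cast hm
  obtain ⟨η, hη, hgap⟩ := Ph_gap (d := m + 1) (by omega) (c := c)
    (by push_cast at hlt ⊢; linarith) hcl (by rw [hu]; exact hG.crit) (ε := (c - 1) / 4)
    (by linarith)
  have hF : 0 < F m ((c - 1) / 2) := F_pos (by omega) (by linarith)
  refine ⟨min (η / 2) (F m ((c - 1) / 2)), lt_min (by linarith) hF,
    ⌈6 * (m + 1) / η⌉₊ + ⌈4 * m / (c - 1)⌉₊ + 1, ?_⟩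
  intro N hN v
  have hN1 : 1 ≤ N := by omega
  have hN1' : (1 : ℝ) ≤ N := by exact_mod_cast hN1
  have hN' : (0 : ℝ) < N := by linarith
  have hNa : 6 * ((m : ℝ) + 1) / η ≤ N := by
    refine (Nat.le_ceil _).trans ?_
    have : ⌈6 * ((m : ℝ) + 1) / η⌉₊ ≤ N := by omega
    exact_mod_cast this
  have hNb : 4 * (m : ℝ) / (c - 1) ≤ N := by
    refine (Nat.le_ceil _).trans ?_
    have : ⌈4 * (m : ℝ) / (c - 1)⌉₊ ≤ N := by omega
    exact_mod_cast this
  have k1 := min_le_left (η / 2) (F m ((c - 1) / 2))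
  have k2 := min_le_right (η / 2) (F m ((c - 1) / 2))
  set κ := min (η / 2) (F m ((c - 1) / 2)) with hκ
  rcases le_or_gt ((c - 1) / 4) |(v : ℝ) / N - c| with hfar | hnear
  · -- far from the critical level
    have h1 := hgap _ hfar
    have h2 := slab_card_upper (d := m + 1) (by omega) hN1 v
    have h3 := slab_bound (d := m + 1) (by omega) hN1 c
    have h4 : Ph (m + 1) c = F (m + 1) c + F (m + 1) (((m + 1 : ℕ) : ℝ) - 2 * c) := rfl
    rw [← h4] at h3
    have hpow : (0 : ℝ) < (N : ℝ) ^ (m + 1) := by positivity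
    have h5 : ((m + 1 : ℕ) : ℝ) / N ≤ η / 6 := by
      rw [div_le_iff₀ hη] at hNa
      rw [div_le_iff₀ hN']
      push_cast
      linarith
    have h6 : 2 * ((m + 1 : ℕ) : ℝ) / N = 2 * (((m + 1 : ℕ) : ℝ) / N) := by ring
    rw [h6] at h3
    have h7 : (((grid (m + 1) N).filter fun x => v ≤ ∑ i, x i ∧ ∑ i, x i ≤ 2 * v - 1).card : ℝ) /
        (N : ℝ) ^ (m + 1) + η / 2 ≤ (maxSumFree (m + 1) N : ℝ) / (N : ℝ) ^ (m + 1) := by
      linarith
    rw [le_div_iff₀ hpow, add_mul, div_mul_cancel₀ _ hpow.ne'] at h7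
    have h8 : κ * (N : ℝ) ^ m ≤ η / 2 * (N : ℝ) ^ (m + 1) := by
      have h9 : (N : ℝ) ^ m ≤ (N : ℝ) ^ (m + 1) := pow_le_pow_right₀ hN1' (by omega)
      exact mul_le_mul k1 h9 (by positivity) (by linarith)
    linarith
  · -- near the critical level: add the points with first coordinate `N` below the slab
    have hv1 := (abs_lt.1 hnear).1
    set S : Finset (Fin (m + 1) → ℕ) :=
      (grid (m + 1) N).filter fun x => v ≤ ∑ i, x i ∧ ∑ i, x i ≤ 2 * v - 1 with hS
    set T : Finset (Fin (m + 1) → ℕ) :=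
      (grid (m + 1) N).filter fun x => x 0 = N ∧ ∑ i, x i < v with hT
    have hvpos : 0 < v := by
      rcases Nat.eq_zero_or_pos v with h | h
      · rw [h, Nat.cast_zero, zero_div] at hv1
        linarith
      · exact h
    have hST : Disjoint S T := by
      rw [disjoint_left]
      intro x h1 h2
      simp only [hS, mem_filter] at h1
      simp only [hT, mem_filter] at h2
      omega
    have hsub : S ∪ T ⊆ star (m + 1) N v := by
      intro x hx
      unfold star
      rcases mem_union.1 hx with h1 | h1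
      · simp only [hS, mem_filter] at h1
        exact mem_filter.2 ⟨h1.1, Or.inl h1.2.1, Or.inl (by omega)⟩
      · simp only [hT, mem_filter] at h1
        exact mem_filter.2 ⟨h1.1, Or.inr ⟨0, h1.2.1⟩, Or.inl (by omega)⟩
    have h1 : S.card + T.card ≤ maxSumFree (m + 1) N := by
      rw [← card_union_of_disjoint hST]
      exact (card_le_card hsub).trans (star_le _ _ _)
    have h2 : κ * (N : ℝ) ^ m ≤ T.card := by
      set r : ℝ := (v - N - m) / N with hr
      have hr1 : (c - 1) / 2 ≤ r := by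
        have e : r = v / N - 1 - m / N := by
          rw [hr]
          field_simp
        have h3 : (m : ℝ) / N ≤ (c - 1) / 4 := by
          rw [div_le_iff₀ (by linarith)] at hNb
          rw [div_le_iff₀ hN']
          linarith
        rw [e]
        linarith
      have h3 := (F_mono m hr1).trans (count_lower (m := m) (by omega) hN1 r)
      have h4 : Av (fun x : Fin m → Fin N => ind (lev x < r)) ≤ (T.card : ℝ) / (N : ℝ) ^ m := by
        unfold Av
        rw [sum_ind_card]
        refine div_le_div_of_nonneg_right ?_ (by positivity)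
        refine Nat.cast_le.2 ?_
        refine card_le_card_of_injOn
          (fun y => (Fin.cons N fun i => (y i : ℕ) + 1 : Fin (m + 1) → ℕ)) ?_ ?_
        · intro y hy
          have hy' := (mem_filter.1 (mem_coe.1 hy)).2
          rw [mem_coe, hT, mem_filter]
          refine ⟨mem_grid.2 fun i => ?_, ?_, ?_⟩
          · refine Fin.cases ?_ (fun j => ?_) i
            · simp only [Fin.cons_zero]
              omega
            · simp only [Fin.cons_succ]
              have := (y j).isLt
              omega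
          · simp only [Fin.cons_zero]
          · rw [Fin.sum_univ_succ]
            simp only [Fin.cons_zero, Fin.cons_succ]
            have h5 := sum_succ_lev hN1 y
            rw [hr, lt_div_iff₀ hN'] at hy'
            have h6 : ((N + ∑ i, ((y i : ℕ) + 1) : ℕ) : ℝ) < v := by
              rw [Nat.cast_add, h5]
              linarith [mul_comm (N : ℝ) (lev y)]
            exact_mod_cast h6
        · intro y _ y' _ hyy
          have hyy' : (Fin.cons N fun i => (y i : ℕ) + 1 : Fin (m + 1) → ℕ) =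
            Fin.cons N fun i => (y' i : ℕ) + 1 := hyy
          funext j
          have h5 := congrFun hyy' j.succ
          simp only [Fin.cons_succ] at h5
          exact Fin.ext (by omega)
      have hpow : (0 : ℝ) < (N : ℝ) ^ m := by positivity
      have h5 := k2.trans (h3.trans h4)
      rwa [le_div_iff₀ hpow] at h5
    have h3 : (S.card : ℝ) + T.card ≤ maxSumFree (m + 1) N := by exact_mod_cast h1
    linarith

end Pool.Agent.Work.MP_0cd883_co.Cube
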