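import Pool.Agent.Work.MP_0cd883_co.Cube.ModA

/-! Module V: `F n t` is the volume of the part of the unit cube with coordinate sum at most `t`. -/

namespace Pool.Agent.Work.MP_0cd883_co.Cube

open MeasureTheory Set

theorem F_volume_aux (m : ℕ) : ∀ t : ℝ,
    volume {x : Fin (m + 1) → ℝ | (∀ i, 0 ≤ x i ∧ x i ≤ 1) ∧ ∑ i, x i ≤ t} =
      ENNReal.ofReal (F (m + 1) t) := by
  induction m with
  | zero =>
    intro t
    change volume {x : Fin 1 → ℝ | (∀ i, 0 ≤ x i ∧ x i ≤ 1) ∧ ∑ i, x i ≤ t} =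
      ENNReal.ofReal (F (0 + 1) t)
    have hset : {x : Fin 1 → ℝ | (∀ i, 0 ≤ x i ∧ x i ≤ 1) ∧ ∑ i, x i ≤ t} =
        (MeasurableEquiv.funUnique (Fin 1) ℝ) ⁻¹' (Icc 0 (min t 1)) := by
      ext x
      have h4 : ∑ i : Fin 1, x i = x default := Fintype.sum_unique _
      simp only [mem_ofPred_eq, mem_preimage, MeasurableEquiv.funUnique_apply, mem_Icc, le_min_iff]
      rw [h4]
      constructor
      · rintro ⟨h1, h2⟩
        have h3 := h1 default
        exact ⟨h3.1, h2, h3.2⟩
      · rintro ⟨h1, h2, h3⟩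
        refine ⟨fun i => ?_, h2⟩
        have h5 : i = default := Subsingleton.elim _ _
        rw [h5]
        exact ⟨h1, h3⟩
    have h7 := (volume_preserving_funUnique (Fin 1) ℝ).measure_preimage
      (measurableSet_Icc (a := (0 : ℝ)) (b := min t 1)).nullMeasurableSet
    have h8 : ∀ I : Fintype (Fin 1), @volume (Fin 1 → ℝ) (@MeasureSpace.pi (Fin 1) I
        (fun _ => ℝ) (fun _ => Real.measureSpace))
          ((MeasurableEquiv.funUnique (Fin 1) ℝ) ⁻¹' (Icc 0 (min t 1))) =
        volume (Icc (0 : ℝ) (min t 1)) := by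
      intro I
      obtain rfl : I = Unique.fintype := Subsingleton.elim _ _
      exact h7
    rw [hset, h8, Real.volume_Icc, sub_zero]
    have h6 : F (0 + 1) t = max 0 (min t 1) := rfl
    rw [h6]
    rcases le_total 0 (min t 1) with h | h
    · rw [max_eq_right h]
    · rw [max_eq_left h, ENNReal.ofReal_of_nonpos h, ENNReal.ofReal_zero]
  | succ m ih =>
    intro t
    set T : Set (ℝ × (Fin (m + 1) → ℝ)) := {p | (0 ≤ p.1 ∧ p.1 ≤ 1) ∧
      (∀ i, 0 ≤ p.2 i ∧ p.2 i ≤ 1) ∧ ∑ i, p.2 i ≤ t - p.1} with hTdef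
    have hset : {x : Fin (m + 1 + 1) → ℝ | (∀ i, 0 ≤ x i ∧ x i ≤ 1) ∧ ∑ i, x i ≤ t} =
        (MeasurableEquiv.piFinSuccAbove (fun _ : Fin (m + 2) => ℝ) 0) ⁻¹' T := by
      ext x
      simp only [mem_ofPred_eq, mem_preimage, hTdef, MeasurableEquiv.piFinSuccAbove_apply]
      rw [Fin.sum_univ_succ, Fin.forall_fin_succ]
      change _ ↔ (0 ≤ x 0 ∧ x 0 ≤ 1) ∧ (∀ i : Fin (m + 1), 0 ≤ x i.succ ∧ x i.succ ≤ 1) ∧
        ∑ i : Fin (m + 1), x i.succ ≤ t - x 0
      constructor
      · rintro ⟨⟨h1, h2⟩, h3⟩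
        exact ⟨h1, h2, by linarith⟩
      · rintro ⟨h1, h2, h3⟩
        exact ⟨⟨h1, h2⟩, by linarith⟩
    have hclosed : IsClosed T := by
      have h1 : IsClosed {p : ℝ × (Fin (m + 1) → ℝ) | 0 ≤ p.1} :=
        isClosed_le continuous_const continuous_fst
      have h2 : IsClosed {p : ℝ × (Fin (m + 1) → ℝ) | p.1 ≤ 1} :=
        isClosed_le continuous_fst continuous_const
      have h3 : IsClosed {p : ℝ × (Fin (m + 1) → ℝ) | ∀ i, 0 ≤ p.2 i ∧ p.2 i ≤ 1} := by
        have : {p : ℝ × (Fin (m + 1) → ℝ) | ∀ i, 0 ≤ p.2 i ∧ p.2 i ≤ 1} =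
            ⋂ i, ({p | 0 ≤ p.2 i} ∩ {p | p.2 i ≤ 1}) := by
          ext p
          simp
        rw [this]
        refine isClosed_iInter fun i => ?_
        have hc : Continuous fun p : ℝ × (Fin (m + 1) → ℝ) => p.2 i :=
          (continuous_apply i).comp continuous_snd
        exact (isClosed_le continuous_const hc).inter (isClosed_le hc continuous_const)
      have h4 : IsClosed {p : ℝ × (Fin (m + 1) → ℝ) | ∑ i, p.2 i ≤ t - p.1} := by
        refine isClosed_le ?_ ?_
        · exact continuous_finsetSum _ fun i _ => (continuous_apply i).comp continuous_snd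
        · exact continuous_const.sub continuous_fst
      have h5 : T = ({p | 0 ≤ p.1} ∩ {p | p.1 ≤ 1}) ∩
          ({p | ∀ i, 0 ≤ p.2 i ∧ p.2 i ≤ 1} ∩ {p | ∑ i, p.2 i ≤ t - p.1}) := by
        ext p
        simp [hTdef]
      rw [h5]
      exact (h1.inter h2).inter (h3.inter h4)
    rw [hset, (volume_preserving_piFinSuccAbove (fun _ : Fin (m + 2) => ℝ) 0).measure_preimage
      hclosed.measurableSet.nullMeasurableSet]
    rw [Measure.volume_eq_prod, Measure.prod_apply hclosed.measurableSet]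
    have hslice : ∀ u : ℝ, (volume : Measure (Fin (m + 1) → ℝ)) (Prod.mk u ⁻¹' T) =
        (Icc (0 : ℝ) 1).indicator (fun u => ENNReal.ofReal (F (m + 1) (t - u))) u := by
      intro u
      by_cases hu : u ∈ Icc (0 : ℝ) 1
      · rw [indicator_of_mem hu, ← ih (t - u)]
        congr 1
        ext x
        simp only [mem_preimage, hTdef, mem_ofPred_eq]
        exact ⟨fun h => h.2, fun h => ⟨hu, h⟩⟩
      · rw [indicator_of_notMem hu]
        have : Prod.mk u ⁻¹' T = ∅ := by
          ext x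
          simp only [mem_preimage, hTdef, mem_ofPred_eq, mem_empty_iff_false, iff_false]
          exact fun h => hu h.1
        rw [this, measure_empty]
    rw [lintegral_congr hslice, lintegral_indicator measurableSet_Icc]
    have hint : Integrable (fun u : ℝ => F (m + 1) (t - u)) (volume.restrict (Icc 0 1)) := by
      have hc : Continuous fun u : ℝ => F (m + 1) (t - u) := modA_F_cont_sub (by omega) t
      exact hc.continuousOn.integrableOn_compact isCompact_Icc
    rw [← ofReal_integral_eq_lintegral_ofReal hint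
      (Filter.Eventually.of_forall fun u => F_nonneg (m + 1) (t - u))]
    rw [F_succ (by omega) t, intervalIntegral.integral_of_le zero_le_one,
      integral_Icc_eq_integral_Ioc]

theorem F_volume {n : ℕ} (hn : 1 ≤ n) (t : ℝ) :
    (volume {x : Fin n → ℝ | (∀ i, 0 ≤ x i ∧ x i ≤ 1) ∧ ∑ i, x i ≤ t}).toReal = F n t := by
  obtain ⟨m, rfl⟩ : ∃ m, n = m + 1 := ⟨n - 1, by omega⟩
  rw [F_volume_aux m t, ENNReal.toReal_ofReal (F_nonneg (m + 1) t)]

end Pool.Agent.Work.MP_0cd883_co.Cube
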