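import Pool.Agent.Work.MP_0cd883_co.Cube.ModN3
import Pool.Agent.Work.MP_0cd883_co.Cube.ModO1

/-! Module W: the density of the largest sum-free subset, with the sharp rate, in dimension at
least three. -/

namespace Pool.Agent.Work.MP_0cd883_co.Cube

open Finset

theorem exists_maxSumFree (d N : ℕ) :
    ∃ A : Finset (Fin d → ℕ), A ⊆ grid d N ∧ SumFree A ∧ A.card = maxSumFree d N := by
  classical
  have hne : ((grid d N).powerset.filter fun A => SumFree A).Nonempty := by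
    refine ⟨∅, mem_filter.2 ⟨mem_powerset.2 (empty_subset _), ?_⟩⟩
    intro x hx
    exact absurd hx (notMem_empty x)
  obtain ⟨A, hA, hAc⟩ := exists_mem_eq_sup _ hne Finset.card
  rw [mem_filter, mem_powerset] at hA
  exact ⟨A, hA.1, hA.2, by rw [← hAc]; unfold maxSumFree; congr!⟩

/-- the upper bound for the size of a sum-free set -/
theorem card_upper (hL : ∀ n, 1 ≤ n → LCore n) {m : ℕ} (hm : 2 ≤ m) {c u κ₁ κ₂ : ℝ}
    (hG : Good m c u κ₁ κ₂) {N : ℕ} (hN : 1 ≤ N) {A : Finset (Fin (m + 1) → ℕ)}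
    (hA : A ⊆ grid (m + 1) N) (hf : SumFree A) :
    (A.card : ℝ) ≤ (1 - F (m + 1) c - F (m + 1) u) * (N : ℝ) ^ (m + 1) + 200 * m * (N : ℝ) ^ m := by
  have hN0 : (0 : ℝ) < N := by exact_mod_cast hN
  have h1 := lower_c hL hm hG hN (miss N A) (miss_mem hN A) (miss_rel hN hf)
  rw [miss_av hN hA] at h1
  have h2 : 0 ≤ Av (fun x => ind (c < lev x ∧ lev x < 2 * c - 1) * miss N A x) :=
    Av_nonneg fun x => mul_nonneg (ind_nonneg _) (miss_mem hN A x).1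
  have h3 : (A.card : ℝ) / (N : ℝ) ^ (m + 1) ≤
      1 - F (m + 1) c - F (m + 1) u + 200 * m / N := by linarith
  rw [div_le_iff₀ (by positivity)] at h3
  have h4 : (1 - F (m + 1) c - F (m + 1) u + 200 * m / N) * (N : ℝ) ^ (m + 1) =
      (1 - F (m + 1) c - F (m + 1) u) * (N : ℝ) ^ (m + 1) + 200 * m * (N : ℝ) ^ m := by
    rw [pow_succ]
    field_simp
  linarith

theorem maxSumFree_lower {d N : ℕ} (hd : 1 ≤ d) (hN : 1 ≤ N) (c : ℝ) :
    (1 - F d c - F d (d - 2 * c)) * (N : ℝ) ^ d - 2 * d * (N : ℝ) ^ (d - 1) ≤ maxSumFree d N := by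
  have hN0 : (0 : ℝ) < N := by exact_mod_cast hN
  have h1 := slab_bound hd hN c
  have h2 : 1 - F d c - F d (d - 2 * c) - 2 * d / N ≤ (maxSumFree d N : ℝ) / (N : ℝ) ^ d := by
    linarith
  rw [le_div_iff₀ (by positivity)] at h2
  obtain ⟨k, rfl⟩ : ∃ k, d = k + 1 := ⟨d - 1, by omega⟩
  have h4 : (1 - F (k + 1) c - F (k + 1) (((k + 1 : ℕ) : ℝ) - 2 * c) -
      2 * ((k + 1 : ℕ) : ℝ) / N) * (N : ℝ) ^ (k + 1) =
      (1 - F (k + 1) c - F (k + 1) (((k + 1 : ℕ) : ℝ) - 2 * c)) * (N : ℝ) ^ (k + 1) -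
        2 * ((k + 1 : ℕ) : ℝ) * (N : ℝ) ^ k := by
    rw [pow_succ]
    field_simp
  rw [Nat.add_sub_cancel]
  linarith

/-- the density with the sharp rate -/
theorem main_ge3 {m : ℕ} (hm : 2 ≤ m) {c u κ₁ κ₂ : ℝ} (hG : Good m c u κ₁ κ₂)
    (hL : ∀ n, 1 ≤ n → LCore n) {N : ℕ} (hN : 1 ≤ N) :
    |(maxSumFree (m + 1) N : ℝ) - (1 - F (m + 1) c - F (m + 1) u) * (N : ℝ) ^ (m + 1)| ≤
      200 * (m + 1) * (N : ℝ) ^ m := by
  have hN0 : (0 : ℝ) < N := by exact_mod_cast hN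
  obtain ⟨A, hA, hf, hc⟩ := exists_maxSumFree (m + 1) N
  have h1 := card_upper hL hm hG hN hA hf
  rw [hc] at h1
  have h2 := maxSumFree_lower (d := m + 1) (by omega) hN c
  have h3 : ((m + 1 : ℕ) : ℝ) - 2 * c = u := by
    push_cast
    linarith [hG.sum]
  rw [h3, Nat.add_sub_cancel] at h2
  push_cast at h2
  have h4 : 0 ≤ (N : ℝ) ^ m := by positivity
  have h5 : 0 ≤ (m : ℝ) * (N : ℝ) ^ m := by positivity
  rw [abs_le]
  constructor <;> nlinarith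

end Pool.Agent.Work.MP_0cd883_co.Cube
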