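import Pool.Agent.Work.MP_0cd883_co.Cube.Defs

/-! Definitions of module D: the smoothing map, the potential, the admissible triples. -/

namespace Pool.Agent.Work.MP_0cd883_co.Cube

open MeasureTheory Set

/-- the smoothing map -/
noncomputable def Psi (m : ℕ) (θ : ℝ → ℝ) (v : ℝ) : ℝ := ∫ u in (0 : ℝ)..1, F m (θ u - v)

/-- the potential -/
noncomputable def V (m : ℕ) (θ : ℝ → ℝ) : ℝ :=
  ∫ u in (0 : ℝ)..1, (u * F (m + 1) (θ u) + E (m + 1) (θ u))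

/-- `G` is admissible for the minimisation -/
def Adm (m : ℕ) (c : Fin 3 → ℝ) (g : Fin 3 → ℝ → ℝ) : Prop :=
  (∀ i x, 0 ≤ g i x ∧ g i x ≤ 1) ∧ (∀ i x y, |g i x - g i y| ≤ |x - y|) ∧
  (∀ i, (∫ u in (0 : ℝ)..1, g i u) ≤ F (m + 2) (c i)) ∧
  ∀ u₁ u₂ u₃ : ℝ, 0 ≤ u₁ → 0 ≤ u₂ → 0 ≤ u₃ → u₁ + u₂ + u₃ = 1 →
    ((m : ℝ) + 1) ≤ Inv (m + 1) (g 0 u₁) + Inv (m + 1) (g 1 u₂) + Inv (m + 1) (g 2 u₃)

end Pool.Agent.Work.MP_0cd883_co.Cube
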