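import Pool.Agent.Work.MP_0cd883_co.Cube.ModA
import Pool.Agent.Work.MP_0cd883_co.Cube.DefsD

/-! Module D1: elementary properties of the smoothing map. -/

namespace Pool.Agent.Work.MP_0cd883_co.Cube

open MeasureTheory Set

theorem modD1_int {m : ℕ} (hm : 1 ≤ m) {θ : ℝ → ℝ} (hθ : Measurable θ) (v a b : ℝ) :
    IntervalIntegrable (fun u => F m (θ u - v)) volume a b := by
  have hmeas : Measurable fun u => F m (θ u - v) :=
    (F_continuous hm).measurable.comp (hθ.sub_const v)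
  refine (intervalIntegrable_const (c := (1 : ℝ))).mono_fun hmeas.aestronglyMeasurable ?_
  refine Filter.Eventually.of_forall fun u => ?_
  show |F m (θ u - v)| ≤ |(1 : ℝ)|
  rw [abs_one, abs_of_nonneg (F_nonneg m _)]
  exact F_le_one m _

theorem Psi_nonneg {m : ℕ} (hm : 1 ≤ m) {θ : ℝ → ℝ} (hθ : Measurable θ) (v : ℝ) :
    0 ≤ Psi m θ v := by
  have _ := hm
  have _ := hθ
  exact intervalIntegral.integral_nonneg zero_le_one fun _ _ => F_nonneg m _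

theorem Psi_le_one {m : ℕ} (hm : 1 ≤ m) {θ : ℝ → ℝ} (hθ : Measurable θ) (v : ℝ) :
    Psi m θ v ≤ 1 := by
  have h := intervalIntegral.integral_mono_on (a := 0) (b := 1) (f := fun u => F m (θ u - v))
    (g := fun _ => (1 : ℝ)) (μ := volume) zero_le_one (modD1_int hm hθ v 0 1)
    intervalIntegrable_const (fun u _ => F_le_one m _)
  simpa [Psi] using h

theorem Psi_lip {m : ℕ} (hm : 1 ≤ m) {θ : ℝ → ℝ} (hθ : Measurable θ) (v w : ℝ) :
    |Psi m θ v - Psi m θ w| ≤ |v - w| := by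
  unfold Psi
  rw [← intervalIntegral.integral_sub (modD1_int hm hθ v 0 1) (modD1_int hm hθ w 0 1)]
  have h := intervalIntegral.norm_integral_le_of_norm_le_const (a := 0) (b := 1)
    (f := fun u => F m (θ u - v) - F m (θ u - w)) (C := |v - w|) (fun u _ => by
      have h1 := F_lip hm (θ u - v) (θ u - w)
      have h2 : θ u - v - (θ u - w) = -(v - w) := by ring
      rw [h2, abs_neg] at h1
      exact h1)
  simpa using h

theorem int_Psi {m : ℕ} (hm : 1 ≤ m) {θ : ℝ → ℝ} (hθ : Measurable θ) :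
    (∫ v in (0 : ℝ)..1, Psi m θ v) = ∫ u in (0 : ℝ)..1, F (m + 1) (θ u) := by
  have hsw : ∫ v in (0 : ℝ)..1, ∫ u in (0 : ℝ)..1, F m (θ u - v) =
      ∫ u in (0 : ℝ)..1, ∫ v in (0 : ℝ)..1, F m (θ u - v) := by
    apply intervalIntegral_intervalIntegral_swap
    have hmeas : Measurable (Function.uncurry fun v u => F m (θ u - v)) :=
      (F_continuous hm).measurable.comp ((hθ.comp measurable_snd).sub measurable_fst)
    have hfin : volume (uIoc (0 : ℝ) 1 ×ˢ uIoc (0 : ℝ) 1) ≠ ⊤ := by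
      rw [Measure.volume_eq_prod, Measure.prod_prod]
      simp
    refine Measure.integrableOn_of_bounded hfin hmeas.aestronglyMeasurable (M := 1) ?_
    refine Filter.Eventually.of_forall fun p => ?_
    rw [Real.norm_eq_abs]
    show |F m (θ p.2 - p.1)| ≤ 1
    rw [abs_of_nonneg (F_nonneg m _)]
    exact F_le_one m _
  unfold Psi
  rw [hsw]
  refine intervalIntegral.integral_congr fun u _ => ?_
  exact (F_succ hm (θ u)).symm

/-- the relation is preserved by the smoothing map -/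
theorem Psi_rel {m : ℕ} (hm : 1 ≤ m) (hL : LCore m) {θ₁ θ₂ θ₃ : ℝ → ℝ} (h₁ : Measurable θ₁)
    (h₂ : Measurable θ₂) (h₃ : Measurable θ₃)
    (h : ∀ u₁ u₂ u₃ : ℝ, 0 ≤ u₁ → 0 ≤ u₂ → 0 ≤ u₃ → u₁ + u₂ + u₃ = 1 →
      ((m : ℝ) + 1) ≤ θ₁ u₁ + θ₂ u₂ + θ₃ u₃)
    {v₁ v₂ v₃ : ℝ} (hv₁ : 0 ≤ v₁) (hv₂ : 0 ≤ v₂) (hv₃ : 0 ≤ v₃) (hv : v₁ + v₂ + v₃ = 1) :
    ((m : ℝ) + 1) ≤ Inv (m + 1) (Psi m θ₁ v₁) + Inv (m + 1) (Psi m θ₂ v₂) +
      Inv (m + 1) (Psi m θ₃ v₃) := by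
  have _ := hv₁
  have _ := hv₂
  have _ := hv₃
  have key : ∀ {θ : ℝ → ℝ} (hθ : Measurable θ) (v : ℝ),
      0 ≤ Inv (m + 1) (Psi m θ v) ∧
      (∫ u in (0 : ℝ)..1, F m (θ u - v)) ≤ F (m + 1) (Inv (m + 1) (Psi m θ v)) := by
    intro θ hθ v
    refine ⟨Inv_nonneg (by omega) (Psi_nonneg hm hθ v), ?_⟩
    rw [F_Inv (by omega) (Psi_nonneg hm hθ v) (Psi_le_one hm hθ v)]
    exact le_rfl
  refine hL (fun u => θ₁ u - v₁) (fun u => θ₂ u - v₂) (fun u => θ₃ u - v₃) (h₁.sub_const _)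
    (h₂.sub_const _) (h₃.sub_const _) ?_ _ _ _ (key h₁ v₁).1 (key h₂ v₂).1 (key h₃ v₃).1
    (key h₁ v₁).2 (key h₂ v₂).2 (key h₃ v₃).2
  intro u₁ u₂ u₃ a b c d
  have := h u₁ u₂ u₃ a b c d
  linarith

end Pool.Agent.Work.MP_0cd883_co.Cube
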