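import Pool.Agent.Work.MP_0cd883_co.Cube.ModA
import Pool.Agent.Work.MP_0cd883_co.Cube.DefsD

/-! Module D, second part: the potential drops under the smoothing map, with rigidity. -/

namespace Pool.Agent.Work.MP_0cd883_co.Cube

open MeasureTheory Set

namespace D2

lemma psi_cont {m : ℕ} (hm : 1 ≤ m) {θ : ℝ → ℝ} (hθ : Continuous θ) : Continuous (Psi m θ) := by
  have hF := F_continuous hm
  unfold Psi
  apply intervalIntegral.continuous_parametric_intervalIntegral_of_continuous'
    (f := fun v u => F m (θ u - v))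
  exact hF.comp ((hθ.comp continuous_snd).sub continuous_fst)

lemma psi_nonneg {m : ℕ} {θ : ℝ → ℝ} (v : ℝ) : 0 ≤ Psi m θ v :=
  intervalIntegral.integral_nonneg zero_le_one fun _ _ => F_nonneg m _

lemma psi_le_one {m : ℕ} (hm : 1 ≤ m) {θ : ℝ → ℝ} (hθ : Continuous θ) (v : ℝ) :
    Psi m θ v ≤ 1 := by
  have hc : Continuous fun u => F m (θ u - v) :=
    (F_continuous hm).comp (hθ.sub continuous_const)
  have h := intervalIntegral.integral_mono_on (a := 0) (b := 1) (f := fun u => F m (θ u - v))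
    (g := fun _ => (1 : ℝ)) (μ := volume) zero_le_one (hc.intervalIntegrable 0 1)
    (continuous_const.intervalIntegrable 0 1) (fun u _ => F_le_one m _)
  simpa [Psi] using h

/-- the second function -/
noncomputable def tau (m : ℕ) (θ : ℝ → ℝ) (v : ℝ) : ℝ := Inv (m + 1) (Psi m θ v)

lemma tau_cont {m : ℕ} (hm : 1 ≤ m) {θ : ℝ → ℝ} (hθ : Continuous θ) : Continuous (tau m θ) :=
  (Inv_continuous (Nat.le_add_left 1 m)).comp (psi_cont hm hθ)

lemma F_tau {m : ℕ} (hm : 1 ≤ m) {θ : ℝ → ℝ} (hθ : Continuous θ) (v : ℝ) :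
    F (m + 1) (tau m θ v) = Psi m θ v :=
  F_Inv (Nat.le_add_left 1 m) (psi_nonneg v) (psi_le_one hm hθ v)

/-- the defect -/
noncomputable def Q (m : ℕ) (θ : ℝ → ℝ) (v u : ℝ) : ℝ :=
  E m (θ u - v) - E m (tau m θ v - u) -
    (tau m θ v - u) * (F m (θ u - v) - F m (tau m θ v - u))

lemma Q_cont {m : ℕ} (hm : 1 ≤ m) {θ : ℝ → ℝ} (hθ : Continuous θ) :
    Continuous (Function.uncurry (Q m θ)) := by
  have hF := F_continuous hm
  have hE := E_continuous hm
  have ht := tau_cont hm hθ
  have h1 : Continuous fun p : ℝ × ℝ => θ p.2 - p.1 :=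
    (hθ.comp continuous_snd).sub continuous_fst
  have h2 : Continuous fun p : ℝ × ℝ => tau m θ p.1 - p.2 :=
    (ht.comp continuous_fst).sub continuous_snd
  have h3 := ((hE.comp h1).sub (hE.comp h2)).sub (h2.mul ((hF.comp h1).sub (hF.comp h2)))
  exact h3

lemma Q_ge {m : ℕ} (hm : 1 ≤ m) (θ : ℝ → ℝ) (v u : ℝ) :
    (F m (θ u - v) - F m (tau m θ v - u)) ^ 2 / 2 ≤ Q m θ v u := E_key hm _ _

lemma Q_nonneg {m : ℕ} (hm : 1 ≤ m) (θ : ℝ → ℝ) (v u : ℝ) : 0 ≤ Q m θ v u :=
  le_trans (by positivity) (Q_ge hm θ v u)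

/-- the integrand of the potential of `θ` as a function of two variables -/
noncomputable def P1 (m : ℕ) (θ : ℝ → ℝ) (u v : ℝ) : ℝ :=
  u * F m (θ u - v) + (v * F m (θ u - v) + E m (θ u - v))

lemma P1_cont {m : ℕ} (hm : 1 ≤ m) {θ : ℝ → ℝ} (hθ : Continuous θ) :
    Continuous (Function.uncurry (P1 m θ)) := by
  have hF := F_continuous hm
  have hE := E_continuous hm
  have h1 : Continuous fun p : ℝ × ℝ => θ p.1 - p.2 :=
    (hθ.comp continuous_fst).sub continuous_snd
  exact (continuous_fst.mul (hF.comp h1)).add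
    ((continuous_snd.mul (hF.comp h1)).add (hE.comp h1))

lemma V_eq {m : ℕ} (hm : 1 ≤ m) {θ : ℝ → ℝ} (hθ : Continuous θ) :
    V m θ = ∫ u in (0 : ℝ)..1, ∫ v in (0 : ℝ)..1, P1 m θ u v := by
  have hF := F_continuous hm
  have hE := E_continuous hm
  unfold V
  apply intervalIntegral.integral_congr
  intro u _
  have hc : Continuous fun v => θ u - v := continuous_const.sub continuous_id
  have hc1 : Continuous fun v => u * F m (θ u - v) := continuous_const.mul (hF.comp hc)
  have hc2 : Continuous fun v => v * F m (θ u - v) + E m (θ u - v) :=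
    (continuous_id.mul (hF.comp hc)).add (hE.comp hc)
  have h := intervalIntegral.integral_add (hc1.intervalIntegrable (μ := volume) 0 1)
    (hc2.intervalIntegrable 0 1)
  rw [intervalIntegral.integral_const_mul] at h
  simp only [P1]
  rw [h, F_succ hm, E_succ hm]

lemma swap {f : ℝ → ℝ → ℝ} (hf : Continuous (Function.uncurry f)) :
    ∫ u in (0 : ℝ)..1, ∫ v in (0 : ℝ)..1, f u v = ∫ v in (0 : ℝ)..1, ∫ u in (0 : ℝ)..1, f u v := by
  apply intervalIntegral_intervalIntegral_swap
  have h : IntegrableOn (Function.uncurry f) (uIcc (0 : ℝ) 1 ×ˢ uIcc (0 : ℝ) 1) :=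
    hf.continuousOn.integrableOn_compact (isCompact_uIcc.prod isCompact_uIcc)
  exact h.mono_set (Set.prod_mono uIoc_subset_uIcc uIoc_subset_uIcc)

/-- the difference of the potentials -/
lemma V_diff {m : ℕ} (hm : 1 ≤ m) {θ : ℝ → ℝ} (hθ : Continuous θ) :
    V m θ - V m (tau m θ) = ∫ v in (0 : ℝ)..1, ∫ u in (0 : ℝ)..1, Q m θ v u := by
  have hF := F_continuous hm
  have hE := E_continuous hm
  have ht := tau_cont hm hθ
  rw [V_eq hm hθ, V_eq hm ht, swap (P1_cont hm hθ)]
  have hA : Continuous fun v => ∫ u in (0 : ℝ)..1, P1 m θ u v := by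
    apply intervalIntegral.continuous_parametric_intervalIntegral_of_continuous'
      (f := fun v u => P1 m θ u v)
    exact (P1_cont hm hθ).comp (continuous_snd.prodMk continuous_fst)
  have hB : Continuous fun v => ∫ u in (0 : ℝ)..1, P1 m (tau m θ) v u := by
    apply intervalIntegral.continuous_parametric_intervalIntegral_of_continuous'
      (f := fun v u => P1 m (tau m θ) v u)
    exact P1_cont hm ht
  rw [← intervalIntegral.integral_sub (hA.intervalIntegrable 0 1) (hB.intervalIntegrable 0 1)]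
  apply intervalIntegral.integral_congr
  intro v _
  have hc1 : Continuous fun u => θ u - v := hθ.sub continuous_const
  have hc2 : Continuous fun u => tau m θ v - u := continuous_const.sub continuous_id
  have hi1 : Continuous fun u => P1 m θ u v :=
    (P1_cont hm hθ).comp (continuous_id.prodMk continuous_const)
  have hi2 : Continuous fun u => P1 m (tau m θ) v u :=
    (P1_cont hm ht).comp (continuous_const.prodMk continuous_id)
  have hi3 : Continuous fun u => Q m θ v u :=
    (Q_cont hm hθ).comp (continuous_const.prodMk continuous_id)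
  have hi4 : Continuous fun u => F m (θ u - v) := hF.comp hc1
  have hi5 : Continuous fun u => F m (tau m θ v - u) := hF.comp hc2
  have hzero : (∫ u in (0 : ℝ)..1, (F m (θ u - v) - F m (tau m θ v - u))) = 0 := by
    rw [intervalIntegral.integral_sub (hi4.intervalIntegrable 0 1) (hi5.intervalIntegrable 0 1),
      ← F_succ hm, F_tau hm hθ]
    simp [Psi]
  simp only
  rw [← intervalIntegral.integral_sub (hi1.intervalIntegrable 0 1) (hi2.intervalIntegrable 0 1)]
  have hpt : ∀ u, P1 m θ u v - P1 m (tau m θ) v u =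
      Q m θ v u + (v + tau m θ v) * (F m (θ u - v) - F m (tau m θ v - u)) := by
    intro u
    simp only [P1, Q]
    ring
  simp_rw [hpt]
  have hi6 : Continuous fun u => (v + tau m θ v) * (F m (θ u - v) - F m (tau m θ v - u)) :=
    continuous_const.mul (hi4.sub hi5)
  rw [intervalIntegral.integral_add (hi3.intervalIntegrable 0 1) (hi6.intervalIntegrable 0 1),
    intervalIntegral.integral_const_mul, hzero, mul_zero, add_zero]

lemma eq_zero_of_integral {f : ℝ → ℝ} (hf : Continuous f) (h0 : ∀ x, 0 ≤ f x)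
    (h : ∫ x in (0 : ℝ)..1, f x ≤ 0) : ∀ x ∈ Icc (0 : ℝ) 1, f x = 0 := by
  intro x hx
  by_contra hne
  have hpos : 0 < f x := lt_of_le_of_ne (h0 x) (Ne.symm hne)
  have := intervalIntegral.integral_pos (zero_lt_one) hf.continuousOn (fun y _ => h0 y)
    ⟨x, hx, hpos⟩
  linarith

end D2

/-- the potential does not increase, and equality forces the pointwise identity -/
theorem V_drop {m : ℕ} (hm : 1 ≤ m) {θ : ℝ → ℝ} (hθ : Continuous θ) :
    V m (fun v => Inv (m + 1) (Psi m θ v)) ≤ V m θ := by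
  have h := D2.V_diff hm hθ
  have h1 : 0 ≤ ∫ v in (0 : ℝ)..1, ∫ u in (0 : ℝ)..1, D2.Q m θ v u :=
    intervalIntegral.integral_nonneg zero_le_one fun v _ =>
      intervalIntegral.integral_nonneg zero_le_one fun u _ => D2.Q_nonneg hm θ v u
  have h2 : V m (D2.tau m θ) ≤ V m θ := by linarith
  exact h2

theorem V_rigid {m : ℕ} (hm : 1 ≤ m) {θ : ℝ → ℝ} (hθ : Continuous θ)
    (h : V m θ ≤ V m (fun v => Inv (m + 1) (Psi m θ v))) :
    ∀ u ∈ Icc (0 : ℝ) 1, ∀ v ∈ Icc (0 : ℝ) 1,
      F m (θ u - v) = F m (Inv (m + 1) (Psi m θ v) - u) := by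
  intro u hu v hv
  have h1 := D2.V_diff hm hθ
  have h2 : (∫ v in (0 : ℝ)..1, ∫ u in (0 : ℝ)..1, D2.Q m θ v u) ≤ 0 := by
    have : V m θ ≤ V m (D2.tau m θ) := h
    linarith
  have hH : Continuous fun v => ∫ u in (0 : ℝ)..1, D2.Q m θ v u := by
    apply intervalIntegral.continuous_parametric_intervalIntegral_of_continuous'
      (f := fun v u => D2.Q m θ v u)
    exact D2.Q_cont hm hθ
  have h3 := D2.eq_zero_of_integral hH (fun v =>
    intervalIntegral.integral_nonneg zero_le_one fun u _ => D2.Q_nonneg hm θ v u) h2 v hv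
  have hK : Continuous fun u => D2.Q m θ v u :=
    (D2.Q_cont hm hθ).comp (continuous_const.prodMk continuous_id)
  have h4 := D2.eq_zero_of_integral hK (fun u => D2.Q_nonneg hm θ v u) (le_of_eq h3) u hu
  have h5 := D2.Q_ge hm θ v u
  rw [h4] at h5
  have h6 : (F m (θ u - v) - F m (D2.tau m θ v - u)) ^ 2 = 0 :=
    le_antisymm (by linarith) (sq_nonneg _)
  have h7 := pow_eq_zero_iff (two_ne_zero) |>.mp h6
  exact sub_eq_zero.mp h7

end Pool.Agent.Work.MP_0cd883_co.Cube
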