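import Pool.Agent.Work.MP_0cd883_co.Cube.ModA
import Pool.Agent.Work.MP_0cd883_co.Cube.DefsD

/-! Module D3: existence of a minimiser of the potential (Arzela-Ascoli). -/

namespace Pool.Agent.Work.MP_0cd883_co.Cube

open MeasureTheory Set

/-- the set of `1`-Lipschitz functions with values in `[0,1]` -/
def modD3S : Set C(ℝ, ℝ) := {f | (∀ x, 0 ≤ f x ∧ f x ≤ 1) ∧ ∀ x y, |f x - f y| ≤ |x - y|}

theorem modD3_lip_cont {f : ℝ → ℝ} (h : ∀ x y, |f x - f y| ≤ |x - y|) : Continuous f := by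
  have : LipschitzWith 1 f := LipschitzWith.of_dist_le_mul fun x y => by
    simpa [Real.dist_eq] using h x y
  exact this.continuous

theorem modD3_compact : IsCompact modD3S := by
  apply ArzelaAscoli.isCompact_of_equicontinuous
  · have himg : ContinuousMap.toFun '' modD3S =
        (univ.pi fun _ : ℝ => Icc (0 : ℝ) 1) ∩ {f | ∀ x y, |f x - f y| ≤ |x - y|} := by
      ext f
      constructor
      · rintro ⟨g, hg, rfl⟩
        exact ⟨fun x _ => hg.1 x, hg.2⟩
      · rintro ⟨h1, h2⟩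
        exact ⟨⟨f, modD3_lip_cont h2⟩, ⟨fun x => h1 x (mem_univ x), h2⟩, rfl⟩
    rw [himg]
    apply (isCompact_univ_pi fun _ => isCompact_Icc).inter_right
    have : {f : ℝ → ℝ | ∀ x y, |f x - f y| ≤ |x - y|} =
        ⋂ x, ⋂ y, {f : ℝ → ℝ | |f x - f y| ≤ |x - y|} := by
      ext f; simp
    rw [this]
    refine isClosed_iInter fun x => isClosed_iInter fun y => isClosed_le ?_ continuous_const
    fun_prop
  · intro x
    rw [Metric.equicontinuousAt_iff]
    intro ε hε
    refine ⟨ε, hε, fun y hy f => ?_⟩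
    rw [Real.dist_eq]
    rw [Real.dist_eq, abs_sub_comm] at hy
    exact lt_of_le_of_lt (f.2.2 x y) hy

theorem modD3_cont_int {Φ : ℝ → ℝ → ℝ} (hΦ : Continuous fun p : ℝ × ℝ => Φ p.1 p.2) (i : Fin 3) :
    Continuous fun f : Fin 3 → C(ℝ, ℝ) => ∫ u in (0 : ℝ)..1, Φ u (f i u) := by
  apply intervalIntegral.continuous_parametric_intervalIntegral_of_continuous'
  have : Continuous fun p : (Fin 3 → C(ℝ, ℝ)) × ℝ => (p.2, p.1 i p.2) := by fun_prop
  exact hΦ.comp this

/-- existence of a minimiser (Arzela-Ascoli) -/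
theorem exists_min {m : ℕ} (hm : 1 ≤ m) (c : Fin 3 → ℝ) (hne : ∃ g, Adm m c g) :
    ∃ g, Adm m c g ∧ ∀ g', Adm m c g' →
      ∑ i, V m (fun u => Inv (m + 1) (g i u)) ≤ ∑ i, V m (fun u => Inv (m + 1) (g' i u)) := by
  have hI : Continuous (Inv (m + 1)) := Inv_continuous (by omega)
  have hF : Continuous (F (m + 1)) := F_continuous (by omega)
  have hE : Continuous (E (m + 1)) := E_continuous (by omega)
  have hVc : Continuous fun f : Fin 3 → C(ℝ, ℝ) =>
      ∑ i, V m (fun u => Inv (m + 1) (f i u)) := by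
    apply continuous_finsetSum
    intro i _
    unfold V
    refine modD3_cont_int (Φ := fun u y => u * F (m + 1) (Inv (m + 1) y) +
      E (m + 1) (Inv (m + 1) y)) ?_ i
    fun_prop
  set K : Set (Fin 3 → C(ℝ, ℝ)) := {f | Adm m c fun i => f i} with hK
  have hKc : IsCompact K := by
    have hK2 : K = (univ.pi fun _ : Fin 3 => modD3S) ∩
        ({f | ∀ i, (∫ u in (0 : ℝ)..1, f i u) ≤ F (m + 2) (c i)} ∩
        {f | ∀ u₁ u₂ u₃ : ℝ, 0 ≤ u₁ → 0 ≤ u₂ → 0 ≤ u₃ → u₁ + u₂ + u₃ = 1 →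
          ((m : ℝ) + 1) ≤ Inv (m + 1) (f 0 u₁) + Inv (m + 1) (f 1 u₂) +
            Inv (m + 1) (f 2 u₃)}) := by
      ext f
      constructor
      · rintro ⟨h1, h2, h3, h4⟩
        exact ⟨fun i _ => ⟨h1 i, h2 i⟩, h3, h4⟩
      · rintro ⟨h1, h3, h4⟩
        exact ⟨fun i => (h1 i (mem_univ i)).1, fun i => (h1 i (mem_univ i)).2, h3, h4⟩
    rw [hK2]
    apply (isCompact_univ_pi fun _ => modD3_compact).inter_right
    apply IsClosed.inter
    · simp only [Set.ofPred_forall]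
      refine isClosed_iInter fun i => isClosed_le ?_ continuous_const
      exact modD3_cont_int (Φ := fun _ y => y) continuous_snd i
    · simp only [Set.ofPred_forall]
      refine isClosed_iInter fun u₁ => isClosed_iInter fun u₂ => isClosed_iInter fun u₃ =>
        isClosed_iInter fun _ => isClosed_iInter fun _ => isClosed_iInter fun _ =>
        isClosed_iInter fun _ => isClosed_le continuous_const ?_
      fun_prop
  obtain ⟨g₀, hg₀⟩ := hne
  have hKne : K.Nonempty :=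
    ⟨fun i => ⟨g₀ i, modD3_lip_cont (hg₀.2.1 i)⟩, hg₀⟩
  obtain ⟨f, hf, hmin⟩ := hKc.exists_isMinOn hKne hVc.continuousOn
  refine ⟨fun i => f i, hf, fun g' hg' => ?_⟩
  have h' : (fun i => (⟨g' i, modD3_lip_cont (hg'.2.1 i)⟩ : C(ℝ, ℝ))) ∈ K := hg'
  exact hmin h'

end Pool.Agent.Work.MP_0cd883_co.Cube
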