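import Pool.Agent.Work.MP_0cd883_co.Cube.ModC
import Pool.Agent.Work.MP_0cd883_co.Cube.ModD1
import Pool.Agent.Work.MP_0cd883_co.Cube.ModD2
import Pool.Agent.Work.MP_0cd883_co.Cube.ModD3

/-! Module D, final step: the induction step of the one variable statement. -/

namespace Pool.Agent.Work.MP_0cd883_co.Cube

open MeasureTheory Set

theorem L_step {m : ℕ} (hm : 1 ≤ m) (hL : LCore m) : LCore (m + 1) := by
  intro θ₁ θ₂ θ₃ h₁ h₂ h₃ hrel c₁ c₂ c₃ hc₁ hc₂ hc₃ hi₁ hi₂ hi₃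
  have hm0 : (1 : ℝ) ≤ m := by exact_mod_cast hm
  have hrel' : ∀ u₁ u₂ u₃ : ℝ, 0 ≤ u₁ → 0 ≤ u₂ → 0 ≤ u₃ → u₁ + u₂ + u₃ = 1 →
      ((m : ℝ) + 1) ≤ θ₁ u₁ + θ₂ u₂ + θ₃ u₃ := by
    intro u₁ u₂ u₃ a b c d
    have := hrel u₁ u₂ u₃ a b c d
    push_cast at this
    exact this
  -- the set of admissible triples is nonempty
  set c : Fin 3 → ℝ := ![c₁, c₂, c₃] with hc
  have hc0 : ∀ i, 0 ≤ c i := by
    intro i
    fin_cases i
    · exact hc₁
    · exact hc₂
    · exact hc₃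
  have hne : ∃ g, Adm m c g := by
    refine ⟨![Psi m θ₁, Psi m θ₂, Psi m θ₃], ?_, ?_, ?_, ?_⟩
    · intro i x
      fin_cases i
      · exact ⟨Psi_nonneg hm h₁ x, Psi_le_one hm h₁ x⟩
      · exact ⟨Psi_nonneg hm h₂ x, Psi_le_one hm h₂ x⟩
      · exact ⟨Psi_nonneg hm h₃ x, Psi_le_one hm h₃ x⟩
    · intro i x y
      fin_cases i
      · exact Psi_lip hm h₁ x y
      · exact Psi_lip hm h₂ x y
      · exact Psi_lip hm h₃ x y
    · intro i
      fin_cases i
      · exact (int_Psi hm h₁).le.trans hi₁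
      · exact (int_Psi hm h₂).le.trans hi₂
      · exact (int_Psi hm h₃).le.trans hi₃
    · intro u₁ u₂ u₃ a b c' d
      exact Psi_rel hm hL h₁ h₂ h₃ hrel' a b c' d
  obtain ⟨g, hg, hmin⟩ := exists_min hm c hne
  have hgc : ∀ i, Continuous (g i) := fun i => modD3_lip_cont (hg.2.1 i)
  have hIc : Continuous (Inv (m + 1)) := Inv_continuous (by omega)
  set θ : Fin 3 → ℝ → ℝ := fun i u => Inv (m + 1) (g i u) with hθ
  have hθc : ∀ i, Continuous (θ i) := fun i => hIc.comp (hgc i)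
  have hθ0 : ∀ i u, θ i u ∈ Icc (0 : ℝ) (m + 1) := by
    intro i u
    have k1 := Inv_nonneg (n := m + 1) (by omega) (hg.1 i u).1
    have k2 := Inv_le (n := m + 1) (by omega) (hg.1 i u).2
    push_cast at k2
    exact ⟨k1, k2⟩
  have hFθ : ∀ i u, F (m + 1) (θ i u) = g i u := fun i u =>
    F_Inv (by omega) (hg.1 i u).1 (hg.1 i u).2
  have hθm : ∀ i, Measurable (θ i) := fun i => (hθc i).measurable
  -- the image of the minimiser is admissible
  have hadm : Adm m c (fun i => Psi m (θ i)) := by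
    refine ⟨fun i x => ⟨Psi_nonneg hm (hθm i) x, Psi_le_one hm (hθm i) x⟩,
      fun i x y => Psi_lip hm (hθm i) x y, fun i => ?_, ?_⟩
    · rw [int_Psi hm (hθm i)]
      simp only [hFθ]
      exact hg.2.2.1 i
    · intro u₁ u₂ u₃ a b c' d
      refine Psi_rel hm hL (hθm 0) (hθm 1) (hθm 2) ?_ a b c' d
      intro v₁ v₂ v₃ a' b' c'' d'
      exact hg.2.2.2 v₁ v₂ v₃ a' b' c'' d'
  have hle := hmin _ hadm
  have hdrop : ∀ i, V m (fun v => Inv (m + 1) (Psi m (θ i) v)) ≤ V m (θ i) :=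
    fun i => V_drop hm (hθc i)
  have heq : ∀ i, V m (θ i) ≤ V m (fun v => Inv (m + 1) (Psi m (θ i) v)) := by
    intro i
    have e1 : ∀ i, V m (fun u => Inv (m + 1) (g i u)) = V m (θ i) := fun i => rfl
    simp only [e1] at hle
    rw [Fin.sum_univ_three, Fin.sum_univ_three] at hle
    have d0 := hdrop 0
    have d1 := hdrop 1
    have d2 := hdrop 2
    fin_cases i
    · show V m (θ 0) ≤ V m (fun v => Inv (m + 1) (Psi m (θ 0) v))
      linarith
    · show V m (θ 1) ≤ V m (fun v => Inv (m + 1) (Psi m (θ 1) v))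
      linarith
    · show V m (θ 2) ≤ V m (fun v => Inv (m + 1) (Psi m (θ 2) v))
      linarith
  -- rigidity
  have hrig : ∀ i, ∃ d : ℝ, 0 ≤ d ∧ d ≤ m + 2 ∧
      ∀ u ∈ Icc (0 : ℝ) 1, θ i u = max 0 (min (d - u) (m + 1)) := by
    intro i
    refine rigid (τ := fun v => Inv (m + 1) (Psi m (θ i) v)) hm (fun u _ => hθ0 i u) ?_
      (V_rigid hm (hθc i) (heq i))
    intro v _
    have k1 := Inv_nonneg (n := m + 1) (by omega) (Psi_nonneg hm (hθm i) v)
    have k2 := Inv_le (n := m + 1) (by omega) (Psi_le_one hm (hθm i) v)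
    push_cast at k2
    exact ⟨k1, k2⟩
  choose d hd0 hd2 hd using hrig
  have hdc : ∀ i, d i ≤ c i := by
    intro i
    by_contra hcon
    push Not at hcon
    have e1 : (∫ u in (0 : ℝ)..1, g i u) = F (m + 2) (d i) := by
      have e2 := int_halfspace (n := m + 1) (by omega) (hd0 i)
        (by push_cast; linarith [hd2 i])
      rw [← e2]
      refine intervalIntegral.integral_congr fun u hu => ?_
      rw [uIcc_of_le zero_le_one] at hu
      show g i u = F (m + 1) (max 0 (min (d i - u) ((m + 1 : ℕ) : ℝ)))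
      rw [← hFθ i u, hd i u hu]
      push_cast
      rfl
    have e3 := hg.2.2.1 i
    rw [e1] at e3
    have e4 := F_strictMonoOn (n := m + 2) (by omega) (a := c i) (b := d i)
      ⟨hc0 i, by push_cast; linarith [hd2 i, hcon]⟩ ⟨hd0 i, by push_cast; exact hd2 i⟩ hcon
    linarith
  by_contra hcon
  push Not at hcon
  push_cast at hcon
  have hs : d 0 + d 1 + d 2 < ((m + 1 : ℕ) : ℝ) + 1 := by
    have h0 := hdc 0
    have h1 := hdc 1
    have h2 := hdc 2
    have e0 : c 0 = c₁ := rfl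
    have e1 : c 1 = c₂ := rfl
    have e2 : c 2 = c₃ := rfl
    rw [e0] at h0
    rw [e1] at h1
    rw [e2] at h2
    push_cast
    linarith
  obtain ⟨u₁, u₂, u₃, a₁, a₂, a₃, hsum, hlt⟩ :=
    choose_u (n := m + 1) (by omega) (hd0 0) (hd0 1) (hd0 2) hs
  have hr := hg.2.2.2 u₁ u₂ u₃ a₁ a₂ a₃ hsum
  have k0 := hd 0 u₁ ⟨a₁, by linarith⟩
  have k1 := hd 1 u₂ ⟨a₂, by linarith⟩
  have k2 := hd 2 u₃ ⟨a₃, by linarith⟩
  push_cast at hlt
  have hr' : (m : ℝ) + 1 ≤ θ 0 u₁ + θ 1 u₂ + θ 2 u₃ := hr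
  rw [k0, k1, k2] at hr'
  linarith

theorem L_all (h1 : LCore 1) {n : ℕ} (hn : 1 ≤ n) : LCore n := by
  induction n, hn using Nat.le_induction with
  | base => exact h1
  | succ n hn ih => exact L_step hn ih

end Pool.Agent.Work.MP_0cd883_co.Cube
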