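import Pool.Agent.Work.MP_0cd883_co.Cube.ModB
import Pool.Agent.Work.MP_0cd883_co.Cube.ModD

/-! The one variable statement in all dimensions. -/

namespace Pool.Agent.Work.MP_0cd883_co.Cube

theorem L_main (n : ℕ) (hn : 1 ≤ n) : LCore n := L_all L_one hn

end Pool.Agent.Work.MP_0cd883_co.Cube
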