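import Mathlib

/-!
Irwin-Hall distribution functions and the one variable statement `LCore n`.
-/

namespace Pool.Agent.Work.MP_0cd883_co.Cube

open MeasureTheory Set

/-- `F n t` is the volume of the set of `x ∈ [0,1]^n` with coordinate sum at most `t`. -/
noncomputable def F : ℕ → ℝ → ℝ
  | 0 => fun t => if 0 ≤ t then 1 else 0
  | 1 => fun t => max 0 (min t 1)
  | (n + 2) => fun t => ∫ u in (0 : ℝ)..1, F (n + 1) (t - u)

/-- `E n t` is the integral of the coordinate sum over the set of `x ∈ [0,1]^n` with coordinate sum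
at most `t`. -/
noncomputable def E : ℕ → ℝ → ℝ
  | 0 => fun _ => 0
  | 1 => fun t => (max 0 (min t 1)) ^ 2 / 2
  | (n + 2) => fun t => ∫ v in (0 : ℝ)..1, (v * F (n + 1) (t - v) + E (n + 1) (t - v))

/-- A strictly increasing continuous surjective extension of `F n` restricted to `[0, n]`. -/
noncomputable def G (n : ℕ) (t : ℝ) : ℝ := F n t + min t 0 + max (t - n) 0

/-- The inverse of `F n` on `[0, 1]`, extended. -/
noncomputable def Inv (n : ℕ) (y : ℝ) : ℝ := Function.invFun (G n) y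

/-- The one variable core statement. -/
def LCore (n : ℕ) : Prop :=
  ∀ θ₁ θ₂ θ₃ : ℝ → ℝ, Measurable θ₁ → Measurable θ₂ → Measurable θ₃ →
    (∀ u₁ u₂ u₃ : ℝ, 0 ≤ u₁ → 0 ≤ u₂ → 0 ≤ u₃ → u₁ + u₂ + u₃ = 1 →
      (n : ℝ) ≤ θ₁ u₁ + θ₂ u₂ + θ₃ u₃) →
    ∀ c₁ c₂ c₃ : ℝ, 0 ≤ c₁ → 0 ≤ c₂ → 0 ≤ c₃ →
      (∫ u in (0 : ℝ)..1, F n (θ₁ u)) ≤ F (n + 1) c₁ →
      (∫ u in (0 : ℝ)..1, F n (θ₂ u)) ≤ F (n + 1) c₂ →
      (∫ u in (0 : ℝ)..1, F n (θ₃ u)) ≤ F (n + 1) c₃ →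
      (n : ℝ) + 1 ≤ c₁ + c₂ + c₃

end Pool.Agent.Work.MP_0cd883_co.Cube
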