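import Pool.Agent.Work.MP_0cd883_co.Cube.DefsL

/-! Definitions for the three function form and the refinement of the grid. -/

namespace Pool.Agent.Work.MP_0cd883_co.Cube

/-- the exact relation for three functions -/
def Rel3 {m N : ℕ} (b₁ b₂ b₃ : (Fin m → Fin N) → ℝ) : Prop :=
  ∀ x y w : Fin m → Fin N, (∀ j, (x j : ℕ) + y j + w j + 1 = N) → 1 ≤ b₁ x + b₂ y + b₃ w

open Classical in
/-- extension of `b` by `1` outside the grid -/
noncomputable def hat {m N : ℕ} (b : (Fin m → Fin N) → ℝ) (x : Fin m → ℕ) : ℝ :=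
  if h : ∀ j, x j < N then b (fun j => ⟨x j, h j⟩) else 1

/-- the first function on the refined grid -/
noncomputable def rB₁ {m N : ℕ} (M : ℕ) (b : (Fin m → Fin N) → ℝ) (x : Fin m → Fin (N * M)) : ℝ :=
  Av (fun a : Fin m → Fin M => hat b (fun j => ((x j : ℕ) + a j) / M))

/-- the second function on the refined grid -/
noncomputable def rB₂ {m N : ℕ} (M : ℕ) (b : (Fin m → Fin N) → ℝ) (y : Fin m → Fin (N * M)) : ℝ :=
  Av (fun a : Fin m → Fin M => Av (fun a' : Fin m → Fin M =>
    hat b (fun j => ((y j : ℕ) + (a j + a' j)) / M)))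

/-- the third function on the refined grid -/
noncomputable def rB₃ {m N : ℕ} (M : ℕ) (b : (Fin m → Fin N) → ℝ) (w : Fin m → Fin (N * M)) : ℝ :=
  Av (fun a : Fin m → Fin M => Av (fun a' : Fin m → Fin M =>
    hat b (fun j => (N * M - 1 - (w j : ℕ) + (a j + a' j + M)) / M)))

end Pool.Agent.Work.MP_0cd883_co.Cube
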