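import Pool.Agent.Work.MP_0cd883_co.Cube.DefsL
import Pool.Agent.Work.MP_0cd883_co.Defs

/-! Definitions: fibres of a set, slabs, deep regions. -/

namespace Pool.Agent.Work.MP_0cd883_co.Cube

open Classical in
/-- missing fraction on the line over `x` in the last direction -/
noncomputable def miss {m : ℕ} (N : ℕ) (A : Finset (Fin (m + 1) → ℕ)) (x : Fin m → Fin N) : ℝ :=
  1 - ((Finset.Icc 1 N).filter fun v =>
    Fin.snoc (α := fun _ => ℕ) (fun j => (x j : ℕ) + 1) v ∈ A).card / N

open Classical in
/-- the points of `[N]^d` of level between `c N` and `2 c N` -/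
noncomputable def slab (d N : ℕ) (c : ℝ) : Finset (Fin d → ℕ) :=
  (grid d N).filter fun x => c * N < ∑ i, (x i : ℝ) ∧ ∑ i, (x i : ℝ) ≤ 2 * c * N

/-- normalised sum of the coordinates other than `i`, counted from `1` -/
noncomputable def levD {d : ℕ} (N : ℕ) (i : Fin d) (x : Fin d → ℕ) : ℝ :=
  (∑ k, ((x k : ℝ) - 1) - ((x i : ℝ) - 1)) / N

open Classical in
/-- points missing in `A` whose line in direction `i` is over the deep region -/
noncomputable def deepMiss {d : ℕ} (N : ℕ) (c : ℝ) (i : Fin d) (A : Finset (Fin d → ℕ)) :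
    Finset (Fin d → ℕ) :=
  (grid d N).filter fun x => x ∉ A ∧ c < levD N i x ∧ levD N i x < 2 * c - 1

end Pool.Agent.Work.MP_0cd883_co.Cube
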