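import Pool.Agent.Work.MP_0cd883_co.Cube.ModA

/-! Module B: the case `n = 1` of the one variable statement. -/

namespace Pool.Agent.Work.MP_0cd883_co.Cube

open MeasureTheory Set

theorem modB_ii {q : ℝ → ℝ} (hm : Measurable q) (h0 : ∀ u, 0 ≤ q u) (h1 : ∀ u, q u ≤ 1)
    (a b : ℝ) : IntervalIntegrable q volume a b := by
  rw [intervalIntegrable_iff]
  refine Measure.integrableOn_of_bounded (M := 1) ?_ hm.aestronglyMeasurable ?_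
  · exact (measure_mono Set.uIoc_subset_uIcc).trans_lt isCompact_uIcc.measure_lt_top |>.ne
  · refine Filter.Eventually.of_forall fun u => ?_
    rw [Real.norm_eq_abs, abs_of_nonneg (h0 u)]
    exact h1 u

/-- integral of `q` along an affine path, multiplied by the speed -/
theorem modB_path (q : ℝ → ℝ) (c d : ℝ) :
    c * ∫ s in (0 : ℝ)..1, q (c * s + d) = ∫ x in d..(c + d), q x := by
  have h := intervalIntegral.mul_integral_comp_mul_add (a := 0) (b := 1) (f := q) c d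
  simp only [mul_zero, zero_add, mul_one] at h
  exact h

/-- the same with negative speed -/
theorem modB_path' (q : ℝ → ℝ) {c d e : ℝ} (he : -c + d = e) :
    c * ∫ s in (0 : ℝ)..1, q (-c * s + d) = ∫ x in e..d, q x := by
  have h := modB_path q (-c) d
  have h2 : ∫ x in d..(-c + d), q x = - ∫ x in (-c + d)..d, q x :=
    intervalIntegral.integral_symm _ _
  rw [h2, he] at h
  linarith

theorem modB_path_ii {q : ℝ → ℝ} (hm : Measurable q) (h0 : ∀ u, 0 ≤ q u) (h1 : ∀ u, q u ≤ 1)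
    (c d : ℝ) : IntervalIntegrable (fun s => q (c * s + d)) volume 0 1 :=
  modB_ii (hm.comp (by fun_prop)) (fun _ => h0 _) (fun _ => h1 _) 0 1

/-- the relation integrated along a segment -/
theorem modB_seg {q₁ q₂ q₃ : ℝ → ℝ}
    (m₁ : Measurable q₁) (m₂ : Measurable q₂) (m₃ : Measurable q₃)
    (p₁ : ∀ u, 0 ≤ q₁ u) (p₂ : ∀ u, 0 ≤ q₂ u) (p₃ : ∀ u, 0 ≤ q₃ u)
    (r₁ : ∀ u, q₁ u ≤ 1) (r₂ : ∀ u, q₂ u ≤ 1) (r₃ : ∀ u, q₃ u ≤ 1)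
    (hrel : ∀ u₁ u₂ u₃ : ℝ, 0 ≤ u₁ → 0 ≤ u₂ → 0 ≤ u₃ → u₁ + u₂ + u₃ = 1 →
      1 ≤ q₁ u₁ + q₂ u₂ + q₃ u₃)
    {k₁ k₂ k₃ d₁ d₂ d₃ : ℝ} (hd₁ : 0 ≤ d₁) (hd₂ : 0 ≤ d₂) (hd₃ : 0 ≤ d₃)
    (he₁ : 0 ≤ k₁ + d₁) (he₂ : 0 ≤ k₂ + d₂) (he₃ : 0 ≤ k₃ + d₃)
    (hd : d₁ + d₂ + d₃ = 1) (hk : k₁ + k₂ + k₃ = 0) :
    1 ≤ (∫ s in (0 : ℝ)..1, q₁ (k₁ * s + d₁)) + (∫ s in (0 : ℝ)..1, q₂ (k₂ * s + d₂))
      + ∫ s in (0 : ℝ)..1, q₃ (k₃ * s + d₃) := by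
  have i₁ := modB_path_ii m₁ p₁ r₁ k₁ d₁
  have i₂ := modB_path_ii m₂ p₂ r₂ k₂ d₂
  have i₃ := modB_path_ii m₃ p₃ r₃ k₃ d₃
  rw [← intervalIntegral.integral_add i₁ i₂, ← intervalIntegral.integral_add (i₁.add i₂) i₃]
  have h := intervalIntegral.integral_mono_on (f := fun _ => (1 : ℝ))
    (g := fun s => q₁ (k₁ * s + d₁) + q₂ (k₂ * s + d₂) + q₃ (k₃ * s + d₃))
    (a := 0) (b := 1) (μ := volume) zero_le_one (continuous_const.intervalIntegrable _ _)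
    ((i₁.add i₂).add i₃) ?_
  · simpa using h
  · intro s hs
    have key : ∀ k d : ℝ, 0 ≤ d → 0 ≤ k + d → 0 ≤ k * s + d := by
      intro k d hd hkd
      have : k * s + d = s * (k + d) + (1 - s) * d := by ring
      rw [this]
      exact add_nonneg (mul_nonneg hs.1 hkd) (mul_nonneg (by linarith [hs.2]) hd)
    refine hrel _ _ _ (key _ _ hd₁ he₁) (key _ _ hd₂ he₂) (key _ _ hd₃ he₃) ?_
    have : k₁ * s + d₁ + (k₂ * s + d₂) + (k₃ * s + d₃)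
        = (k₁ + k₂ + k₃) * s + (d₁ + d₂ + d₃) := by ring
    rw [this, hk, hd]
    ring

/-- one of the `c`'s exceeds `1` -/
theorem modB_caseB {q₁ q₂ q₃ : ℝ → ℝ}
    (m₁ : Measurable q₁) (m₂ : Measurable q₂) (m₃ : Measurable q₃)
    (p₁ : ∀ u, 0 ≤ q₁ u) (p₂ : ∀ u, 0 ≤ q₂ u) (p₃ : ∀ u, 0 ≤ q₃ u)
    (r₁ : ∀ u, q₁ u ≤ 1) (r₂ : ∀ u, q₂ u ≤ 1) (r₃ : ∀ u, q₃ u ≤ 1)
    (hrel : ∀ u₁ u₂ u₃ : ℝ, 0 ≤ u₁ → 0 ≤ u₂ → 0 ≤ u₃ → u₁ + u₂ + u₃ = 1 →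
      1 ≤ q₁ u₁ + q₂ u₂ + q₃ u₃)
    {c₁ c₂ c₃ : ℝ} (h₁ : 0 < c₁) (h₂ : 0 < c₂) (h₃ : 1 < c₃) (hs : c₁ + c₂ + c₃ < 2)
    (hi₁ : (∫ u in (0 : ℝ)..1, q₁ u) ≤ F 2 c₁) (hi₂ : (∫ u in (0 : ℝ)..1, q₂ u) ≤ F 2 c₂)
    (hi₃ : (∫ u in (0 : ℝ)..1, q₃ u) ≤ F 2 c₃) : False := by
  have hcc : 0 < c₁ + c₂ := by linarith
  set a₁ : ℝ := c₁ / (c₁ + c₂) with ha₁
  set a₂ : ℝ := c₂ / (c₁ + c₂) with ha₂
  have pa₁ : 0 < a₁ := div_pos h₁ hcc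
  have pa₂ : 0 < a₂ := div_pos h₂ hcc
  have hsum : a₁ + a₂ = 1 := by
    rw [ha₁, ha₂, ← add_div, div_self hcc.ne']
  have key := modB_seg m₁ m₂ m₃ p₁ p₂ p₃ r₁ r₂ r₃ hrel (k₁ := a₁) (k₂ := a₂) (k₃ := -1)
    (d₁ := 0) (d₂ := 0) (d₃ := 1) le_rfl le_rfl zero_le_one (by linarith) (by linarith)
    (by norm_num) (by ring) (by linarith)
  have e₁ := modB_path q₁ a₁ 0
  have e₂ := modB_path q₂ a₂ 0
  have e₃ := modB_path q₃ (-1) 1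
  have e₃' : ∫ s in (0 : ℝ)..1, q₃ (-1 * s + 1) = ∫ x in (0 : ℝ)..1, q₃ x := by
    have h : ∫ x in (1 : ℝ)..(-1 + 1), q₃ x = - ∫ x in (0 : ℝ)..1, q₃ x := by
      rw [show (-1 : ℝ) + 1 = 0 by ring, intervalIntegral.integral_symm]
    rw [h] at e₃
    linarith
  have sub : ∀ {q : ℝ → ℝ}, Measurable q → (∀ u, 0 ≤ q u) → (∀ u, q u ≤ 1) → ∀ a : ℝ, 0 ≤ a →
      a ≤ 1 → ∫ x in (0 : ℝ)..(a + 0), q x ≤ ∫ x in (0 : ℝ)..1, q x := by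
    intro q hm h0 h1 a ha0 ha1
    rw [add_zero, ← intervalIntegral.integral_add_adjacent_intervals (a := 0) (b := a) (c := 1)
      (modB_ii hm h0 h1 _ _) (modB_ii hm h0 h1 _ _)]
    have := intervalIntegral.integral_nonneg (a := a) (b := 1) (μ := volume) ha1 (fun u _ => h0 u)
    linarith
  have s₁ := sub m₁ p₁ r₁ a₁ pa₁.le (by linarith)
  have s₂ := sub m₂ p₂ r₂ a₂ pa₂.le (by linarith)
  have f₁ : F 2 c₁ = c₁ ^ 2 / 2 := F_two h₁.le (by linarith)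
  have f₂ : F 2 c₂ = c₂ ^ 2 / 2 := F_two h₂.le (by linarith)
  have f₃ : F 2 c₃ = 1 - (2 - c₃) ^ 2 / 2 := by
    have := F_symm (n := 2) (by norm_num) c₃
    have h' := F_two (t := 2 - c₃) (by linarith) (by linarith)
    push_cast at this
    rw [h'] at this
    linarith
  -- the two line integrals
  have g₁ : (∫ s in (0 : ℝ)..1, q₁ (a₁ * s + 0)) ≤ c₁ * (c₁ + c₂) / 2 := by
    have : a₁ * (∫ s in (0 : ℝ)..1, q₁ (a₁ * s + 0)) ≤ c₁ ^ 2 / 2 := by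
      rw [e₁]; linarith
    have h' : a₁ * (c₁ * (c₁ + c₂) / 2) = c₁ ^ 2 / 2 := by
      rw [ha₁]; field_simp
    rw [← h'] at this
    exact le_of_mul_le_mul_left this pa₁
  have g₂ : (∫ s in (0 : ℝ)..1, q₂ (a₂ * s + 0)) ≤ c₂ * (c₁ + c₂) / 2 := by
    have : a₂ * (∫ s in (0 : ℝ)..1, q₂ (a₂ * s + 0)) ≤ c₂ ^ 2 / 2 := by
      rw [e₂]; linarith
    have h' : a₂ * (c₂ * (c₁ + c₂) / 2) = c₂ ^ 2 / 2 := by
      rw [ha₂]; field_simp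
    rw [← h'] at this
    exact le_of_mul_le_mul_left this pa₂
  rw [e₃'] at key
  rw [f₃] at hi₃
  nlinarith

/-- all the `c`'s are at most `1` -/
theorem modB_caseA {q₁ q₂ q₃ : ℝ → ℝ}
    (m₁ : Measurable q₁) (m₂ : Measurable q₂) (m₃ : Measurable q₃)
    (p₁ : ∀ u, 0 ≤ q₁ u) (p₂ : ∀ u, 0 ≤ q₂ u) (p₃ : ∀ u, 0 ≤ q₃ u)
    (r₁ : ∀ u, q₁ u ≤ 1) (r₂ : ∀ u, q₂ u ≤ 1) (r₃ : ∀ u, q₃ u ≤ 1)
    (hrel : ∀ u₁ u₂ u₃ : ℝ, 0 ≤ u₁ → 0 ≤ u₂ → 0 ≤ u₃ → u₁ + u₂ + u₃ = 1 →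
      1 ≤ q₁ u₁ + q₂ u₂ + q₃ u₃)
    {c₁ c₂ c₃ : ℝ} (h₁ : 0 < c₁) (h₂ : 0 < c₂) (h₃ : 0 < c₃)
    (k₁ : c₁ ≤ 1) (k₂ : c₂ ≤ 1) (k₃ : c₃ ≤ 1) (hs : c₁ + c₂ + c₃ < 2)
    (hi₁ : (∫ u in (0 : ℝ)..1, q₁ u) ≤ F 2 c₁) (hi₂ : (∫ u in (0 : ℝ)..1, q₂ u) ≤ F 2 c₂)
    (hi₃ : (∫ u in (0 : ℝ)..1, q₃ u) ≤ F 2 c₃) : False := by
  -- choose the `a`'s
  obtain ⟨a₁, a₂, a₃, la₁, la₂, la₃, ua₁, ua₂, ua₃, hsum⟩ : ∃ a₁ a₂ a₃ : ℝ, c₁ ≤ a₁ ∧ c₂ ≤ a₂ ∧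
      c₃ ≤ a₃ ∧ a₁ ≤ 1 ∧ a₂ ≤ 1 ∧ a₃ ≤ 1 ∧ a₁ + a₂ + a₃ = 2 := by
    set σ : ℝ := (2 - (c₁ + c₂ + c₃)) / (3 - (c₁ + c₂ + c₃)) with hσ
    have hden : 0 < 3 - (c₁ + c₂ + c₃) := by linarith
    have hσ0 : 0 ≤ σ := div_nonneg (by linarith) hden.le
    have hσ1 : σ ≤ 1 := by
      rw [hσ, div_le_one hden]; linarith
    have hmul : σ * (3 - (c₁ + c₂ + c₃)) = 2 - (c₁ + c₂ + c₃) := div_mul_cancel₀ _ hden.ne'
    refine ⟨c₁ + σ * (1 - c₁), c₂ + σ * (1 - c₂), c₃ + σ * (1 - c₃), ?_, ?_, ?_, ?_, ?_, ?_, ?_⟩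
    · nlinarith
    · nlinarith
    · nlinarith
    · nlinarith
    · nlinarith
    · nlinarith
    · linarith
  obtain ⟨b₁, hb₁⟩ : ∃ b₁ : ℝ, b₁ = 1 - a₁ := ⟨_, rfl⟩
  obtain ⟨b₂, hb₂⟩ : ∃ b₂ : ℝ, b₂ = 1 - a₂ := ⟨_, rfl⟩
  obtain ⟨b₃, hb₃⟩ : ∃ b₃ : ℝ, b₃ = 1 - a₃ := ⟨_, rfl⟩
  have nb₁ : 0 ≤ b₁ := by linarith
  have nb₂ : 0 ≤ b₂ := by linarith
  have nb₃ : 0 ≤ b₃ := by linarith
  have hbs : b₁ + b₂ + b₃ = 1 := by linarith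
  have sb₁ : b₁ < 1 := by linarith
  have sb₂ : b₂ < 1 := by linarith
  have sb₃ : b₃ < 1 := by linarith
  have pa₁ : 0 < a₁ := by linarith
  have pa₂ : 0 < a₂ := by linarith
  have pa₃ : 0 < a₃ := by linarith
  -- the three segments
  have S12 := modB_seg m₁ m₂ m₃ p₁ p₂ p₃ r₁ r₂ r₃ hrel (k₁ := a₁) (k₂ := -b₃) (k₃ := -b₂)
    (d₁ := 0) (d₂ := b₃) (d₃ := a₃) le_rfl nb₃ pa₃.le (by linarith) (by linarith)
    (by linarith) (by linarith) (by linarith)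
  have S23 := modB_seg m₁ m₂ m₃ p₁ p₂ p₃ r₁ r₂ r₃ hrel (k₁ := -b₃) (k₂ := a₂) (k₃ := -b₁)
    (d₁ := a₁) (d₂ := 0) (d₃ := b₁) pa₁.le le_rfl nb₁ (by linarith) (by linarith)
    (by linarith) (by linarith) (by linarith)
  have S31 := modB_seg m₁ m₂ m₃ p₁ p₂ p₃ r₁ r₂ r₃ hrel (k₁ := -b₂) (k₂ := -b₁) (k₃ := a₃)
    (d₁ := b₂) (d₂ := a₂) (d₃ := 0) nb₂ pa₂.le le_rfl (by linarith) (by linarith)
    (by linarith) (by linarith) (by linarith)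
  -- evaluate
  have E1 := modB_path q₁ a₁ 0
  have E2 := modB_path' q₂ (c := b₃) (d := b₃) (e := 0) (by ring)
  have E3 := modB_path' q₃ (c := b₂) (d := a₃) (e := b₁) (by linarith)
  have G1 := modB_path' q₁ (c := b₃) (d := a₁) (e := b₂) (by linarith)
  have G2 := modB_path q₂ a₂ 0
  have G3 := modB_path' q₃ (c := b₁) (d := b₁) (e := 0) (by ring)
  have H1 := modB_path' q₁ (c := b₂) (d := b₂) (e := 0) (by ring)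
  have H2 := modB_path' q₂ (c := b₁) (d := a₂) (e := b₃) (by linarith)
  have H3 := modB_path q₃ a₃ 0
  rw [add_zero] at E1 G2 H3
  -- split of the total integrals
  have T1 : (∫ x in (0 : ℝ)..b₂, q₁ x) + (∫ x in b₂..a₁, q₁ x) = ∫ x in (0 : ℝ)..a₁, q₁ x :=
    intervalIntegral.integral_add_adjacent_intervals (modB_ii m₁ p₁ r₁ _ _) (modB_ii m₁ p₁ r₁ _ _)
  have T2 : (∫ x in (0 : ℝ)..b₃, q₂ x) + (∫ x in b₃..a₂, q₂ x) = ∫ x in (0 : ℝ)..a₂, q₂ x :=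
    intervalIntegral.integral_add_adjacent_intervals (modB_ii m₂ p₂ r₂ _ _) (modB_ii m₂ p₂ r₂ _ _)
  have T3 : (∫ x in (0 : ℝ)..b₁, q₃ x) + (∫ x in b₁..a₃, q₃ x) = ∫ x in (0 : ℝ)..a₃, q₃ x :=
    intervalIntegral.integral_add_adjacent_intervals (modB_ii m₃ p₃ r₃ _ _) (modB_ii m₃ p₃ r₃ _ _)
  have sub : ∀ {q : ℝ → ℝ}, Measurable q → (∀ u, 0 ≤ q u) → (∀ u, q u ≤ 1) → ∀ a : ℝ, 0 ≤ a →
      a ≤ 1 → ∫ x in (0 : ℝ)..a, q x ≤ ∫ x in (0 : ℝ)..1, q x := by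
    intro q hm h0 h1 a ha0 ha1
    rw [← intervalIntegral.integral_add_adjacent_intervals (a := 0) (b := a) (c := 1)
      (modB_ii hm h0 h1 _ _) (modB_ii hm h0 h1 _ _)]
    have := intervalIntegral.integral_nonneg (a := a) (b := 1) (μ := volume) ha1 (fun u _ => h0 u)
    linarith
  have s₁ := sub m₁ p₁ r₁ a₁ pa₁.le ua₁
  have s₂ := sub m₂ p₂ r₂ a₂ pa₂.le ua₂
  have s₃ := sub m₃ p₃ r₃ a₃ pa₃.le ua₃
  rw [F_two h₁.le k₁] at hi₁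
  rw [F_two h₂.le k₂] at hi₂
  rw [F_two h₃.le k₃] at hi₃
  -- name the normalised integrals
  set K₁ := ∫ s in (0 : ℝ)..1, q₁ (a₁ * s + 0)
  set K₂ := ∫ s in (0 : ℝ)..1, q₂ (a₂ * s + 0)
  set K₃ := ∫ s in (0 : ℝ)..1, q₃ (a₃ * s + 0)
  have B1 : K₁ ≤ c₁ / 2 := by
    have h : a₁ * K₁ ≤ a₁ * (c₁ / 2) := by
      rw [E1]; nlinarith
    exact le_of_mul_le_mul_left h pa₁
  have B2 : K₂ ≤ c₂ / 2 := by
    have h : a₂ * K₂ ≤ a₂ * (c₂ / 2) := by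
      rw [G2]; nlinarith
    exact le_of_mul_le_mul_left h pa₂
  have B3 : K₃ ≤ c₃ / 2 := by
    have h : a₃ * K₃ ≤ a₃ * (c₃ / 2) := by
      rw [H3]; nlinarith
    exact le_of_mul_le_mul_left h pa₃
  -- the weighted sum of the three segment inequalities
  have hw : 0 < b₁ * b₂ + b₂ * b₃ + b₁ * b₃ := by
    rcases lt_or_eq_of_le nb₁ with h | h
    · have h' : 0 < b₂ + b₃ := by linarith
      have := mul_pos h h'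
      have := mul_nonneg nb₂ nb₃
      nlinarith
    · have h2 : 0 < b₂ := by linarith
      have h3 : 0 < b₃ := by linarith
      have := mul_pos h2 h3
      rw [← h]
      linarith
  have W12 := mul_le_mul_of_nonneg_left S12 (mul_nonneg nb₂ nb₃)
  have W23 := mul_le_mul_of_nonneg_left S23 (mul_nonneg nb₁ nb₃)
  have W31 := mul_le_mul_of_nonneg_left S31 (mul_nonneg nb₁ nb₂)
  have hfin : b₁ * b₂ + b₂ * b₃ + b₁ * b₃ ≤ (b₁ * b₂ + b₂ * b₃ + b₁ * b₃) * (K₁ + K₂ + K₃) := by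
    have x1 : b₂ * b₃ * (∫ s in (0 : ℝ)..1, q₂ (-b₃ * s + b₃)) = b₂ * ∫ x in (0 : ℝ)..b₃, q₂ x := by
      linear_combination b₂ * E2
    have x2 : b₂ * b₃ * (∫ s in (0 : ℝ)..1, q₃ (-b₂ * s + a₃)) = b₃ * ∫ x in b₁..a₃, q₃ x := by
      linear_combination b₃ * E3
    have x3 : b₁ * b₃ * (∫ s in (0 : ℝ)..1, q₁ (-b₃ * s + a₁)) = b₁ * ∫ x in b₂..a₁, q₁ x := by
      linear_combination b₁ * G1
    have x4 : b₁ * b₃ * (∫ s in (0 : ℝ)..1, q₃ (-b₁ * s + b₁)) = b₃ * ∫ x in (0 : ℝ)..b₁, q₃ x := by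
      linear_combination b₃ * G3
    have x5 : b₁ * b₂ * (∫ s in (0 : ℝ)..1, q₁ (-b₂ * s + b₂)) = b₁ * ∫ x in (0 : ℝ)..b₂, q₁ x := by
      linear_combination b₁ * H1
    have x6 : b₁ * b₂ * (∫ s in (0 : ℝ)..1, q₂ (-b₁ * s + a₂)) = b₂ * ∫ x in b₃..a₂, q₂ x := by
      linear_combination b₂ * H2
    have y1 : b₁ * (∫ x in (0 : ℝ)..b₂, q₁ x) + b₁ * (∫ x in b₂..a₁, q₁ x) = b₁ * (a₁ * K₁) := by
      rw [E1, ← T1]; ring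
    have y2 : b₂ * (∫ x in (0 : ℝ)..b₃, q₂ x) + b₂ * (∫ x in b₃..a₂, q₂ x) = b₂ * (a₂ * K₂) := by
      rw [G2, ← T2]; ring
    have y3 : b₃ * (∫ x in (0 : ℝ)..b₁, q₃ x) + b₃ * (∫ x in b₁..a₃, q₃ x) = b₃ * (a₃ * K₃) := by
      rw [H3, ← T3]; ring
    have z1 : b₂ * b₃ * K₁ + b₁ * (a₁ * K₁) = (b₁ * b₂ + b₂ * b₃ + b₁ * b₃) * K₁ := by
      have : a₁ = b₂ + b₃ := by linarith
      rw [this]; ring
    have z2 : b₁ * b₃ * K₂ + b₂ * (a₂ * K₂) = (b₁ * b₂ + b₂ * b₃ + b₁ * b₃) * K₂ := by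
      have : a₂ = b₁ + b₃ := by linarith
      rw [this]; ring
    have z3 : b₁ * b₂ * K₃ + b₃ * (a₃ * K₃) = (b₁ * b₂ + b₂ * b₃ + b₁ * b₃) * K₃ := by
      have : a₃ = b₁ + b₂ := by linarith
      rw [this]; ring
    rw [mul_add, mul_add, x1, x2] at W12
    rw [mul_add, mul_add, x3, x4] at W23
    rw [mul_add, mul_add, x5, x6] at W31
    rw [mul_add, mul_add, ← z1, ← z2, ← z3]
    linarith
  have hK : 1 ≤ K₁ + K₂ + K₃ := by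
    by_contra hcon
    push Not at hcon
    have := mul_lt_mul_of_pos_left hcon hw
    linarith
  linarith

theorem L_one : LCore 1 := by
  intro θ₁ θ₂ θ₃ hm₁ hm₂ hm₃ hrel c₁ c₂ c₃ h₁ h₂ h₃ hi₁ hi₂ hi₃
  by_contra hcon
  push Not at hcon
  push_cast at hcon hrel
  have mF : Measurable (F 1) := (F_continuous le_rfl).measurable
  have m₁ : Measurable fun u => F 1 (θ₁ u) := mF.comp hm₁
  have m₂ : Measurable fun u => F 1 (θ₂ u) := mF.comp hm₂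
  have m₃ : Measurable fun u => F 1 (θ₃ u) := mF.comp hm₃
  have p : ∀ (θ : ℝ → ℝ) (u : ℝ), 0 ≤ F 1 (θ u) := fun θ u => F_nonneg _ _
  have r : ∀ (θ : ℝ → ℝ) (u : ℝ), F 1 (θ u) ≤ 1 := fun θ u => F_le_one _ _
  have rel : ∀ u₁ u₂ u₃ : ℝ, 0 ≤ u₁ → 0 ≤ u₂ → 0 ≤ u₃ → u₁ + u₂ + u₃ = 1 →
      1 ≤ F 1 (θ₁ u₁) + F 1 (θ₂ u₂) + F 1 (θ₃ u₃) := by
    intro u₁ u₂ u₃ g₁ g₂ g₃ gs
    have h := hrel u₁ u₂ u₃ g₁ g₂ g₃ gs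
    have n₁ := p θ₁ u₁
    have n₂ := p θ₂ u₂
    have n₃ := p θ₃ u₃
    have one : ∀ t : ℝ, 1 ≤ t → F 1 t = 1 := fun t ht => F_eq_one (by simpa using ht)
    have lo : ∀ t : ℝ, t ≤ 1 → t ≤ F 1 t := by
      intro t ht
      rw [modA_F_one, min_eq_left ht]
      exact le_max_right _ _
    rcases le_total 1 (θ₁ u₁) with t₁ | t₁
    · rw [one _ t₁]; linarith
    rcases le_total 1 (θ₂ u₂) with t₂ | t₂
    · rw [one _ t₂]; linarith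
    rcases le_total 1 (θ₃ u₃) with t₃ | t₃
    · rw [one _ t₃]; linarith
    have := lo _ t₁
    have := lo _ t₂
    have := lo _ t₃
    linarith
  -- enlarge the `c`'s
  set δ : ℝ := (2 - (c₁ + c₂ + c₃)) / 6 with hδ
  have hδ0 : 0 < δ := by rw [hδ]; linarith
  have e₁ : (∫ u in (0 : ℝ)..1, F 1 (θ₁ u)) ≤ F 2 (c₁ + δ) := hi₁.trans (F_mono 2 (by linarith))
  have e₂ : (∫ u in (0 : ℝ)..1, F 1 (θ₂ u)) ≤ F 2 (c₂ + δ) := hi₂.trans (F_mono 2 (by linarith))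
  have e₃ : (∫ u in (0 : ℝ)..1, F 1 (θ₃ u)) ≤ F 2 (c₃ + δ) := hi₃.trans (F_mono 2 (by linarith))
  have q₁ : 0 < c₁ + δ := by linarith
  have q₂ : 0 < c₂ + δ := by linarith
  have q₃ : 0 < c₃ + δ := by linarith
  have hs : (c₁ + δ) + (c₂ + δ) + (c₃ + δ) < 2 := by rw [hδ]; linarith
  rcases lt_or_ge 1 (c₃ + δ) with k₃ | k₃
  · exact modB_caseB m₁ m₂ m₃ (p θ₁) (p θ₂) (p θ₃) (r θ₁) (r θ₂) (r θ₃) rel q₁ q₂ k₃ hs e₁ e₂ e₃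
  rcases lt_or_ge 1 (c₂ + δ) with k₂ | k₂
  · refine modB_caseB m₁ m₃ m₂ (p θ₁) (p θ₃) (p θ₂) (r θ₁) (r θ₃) (r θ₂) ?_ q₁ q₃ k₂
      (by linarith) e₁ e₃ e₂
    intro u₁ u₂ u₃ g₁ g₂ g₃ gs
    have := rel u₁ u₃ u₂ g₁ g₃ g₂ (by linarith)
    linarith
  rcases lt_or_ge 1 (c₁ + δ) with k₁ | k₁
  · refine modB_caseB m₃ m₂ m₁ (p θ₃) (p θ₂) (p θ₁) (r θ₃) (r θ₂) (r θ₁) ?_ q₃ q₂ k₁
      (by linarith) e₃ e₂ e₁
    intro u₁ u₂ u₃ g₁ g₂ g₃ gs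
    have := rel u₃ u₂ u₁ g₃ g₂ g₁ (by linarith)
    linarith
  exact modB_caseA m₁ m₂ m₃ (p θ₁) (p θ₂) (p θ₃) (r θ₁) (r θ₂) (r θ₃) rel q₁ q₂ q₃ k₁ k₂ k₃ hs
    e₁ e₂ e₃

end Pool.Agent.Work.MP_0cd883_co.Cube
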