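import Pool.Agent.Work.MP_0cd883_co.Cube.ModA

/-! Module C: rigidity, and the final choice of the points `u`. -/

namespace Pool.Agent.Work.MP_0cd883_co.Cube

open MeasureTheory Set

/-- strict monotonicity of `F m` for pairs that meet the open interval `(0, m)` -/
theorem F_lt_F {m : ℕ} (hm : 1 ≤ m) {s t : ℝ} (hst : s < t) (ht : 0 < t) (hs : s < m) :
    F m s < F m t := by
  have hm0 : (0 : ℝ) < m := by exact_mod_cast hm
  rcases lt_or_eq_of_le (F_mono m hst.le) with h | h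
  · exact h
  exfalso
  have h1 : max s 0 < min t m := by
    rw [max_lt_iff, lt_min_iff, lt_min_iff]
    exact ⟨⟨hst, hs⟩, ht, hm0⟩
  have h2 := le_max_left s 0
  have h3 := le_max_right s 0
  have h4 := min_le_left t m
  have h5 := min_le_right t m
  obtain ⟨w, hw1, hw2⟩ := exists_between h1
  have hw0 : 0 < w := by linarith
  have hwm : w < m := by linarith
  have hsw : s < w := by linarith
  have hwt : w < t := by linarith
  have e1 : F m w = F m s :=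
    le_antisymm ((F_mono m hwt.le).trans h.ge) (F_mono m hsw.le)
  have := F_inj hm hw0 hwm e1
  linarith

/-- the profile is nonincreasing -/
theorem rigid_anti {m : ℕ} (hm : 1 ≤ m) {θ τ : ℝ → ℝ}
    (hθ : ∀ u ∈ Icc (0 : ℝ) 1, θ u ∈ Icc (0 : ℝ) (m + 1))
    (h : ∀ u ∈ Icc (0 : ℝ) 1, ∀ v ∈ Icc (0 : ℝ) 1, F m (θ u - v) = F m (τ v - u))
    {u u' : ℝ} (hu : u ∈ Icc (0 : ℝ) 1) (hu' : u' ∈ Icc (0 : ℝ) 1) (huu : u ≤ u') :
    θ u' ≤ θ u := by
  by_contra hcon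
  push Not at hcon
  have hm0 : (1 : ℝ) ≤ m := by exact_mod_cast hm
  have b1 := hθ u hu
  have b2 := hθ u' hu'
  -- pick v
  have hv' : max 0 (θ u - m) < min 1 (θ u') := by
    refine lt_min (max_lt ?_ ?_) (max_lt ?_ ?_) <;> linarith [b1.1, b1.2, b2.1, b2.2]
  obtain ⟨v, hv1, hv2⟩ := exists_between hv'
  have k1 := le_max_left 0 (θ u - m)
  have k2 := le_max_right 0 (θ u - m)
  have k3 := min_le_left 1 (θ u')
  have k4 := min_le_right 1 (θ u')
  have hvI : v ∈ Icc (0 : ℝ) 1 := ⟨by linarith, by linarith⟩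
  have e1 := h u hu v hvI
  have e2 := h u' hu' v hvI
  have e3 : F m (τ v - u') ≤ F m (τ v - u) := F_mono m (by linarith)
  have e4 : F m (θ u - v) < F m (θ u' - v) :=
    F_lt_F hm (by linarith) (by linarith) (by linarith)
  linarith

/-- the profile is 1-Lipschitz away from a jump from `m + 1` to `0`, short pairs -/
theorem rigid_lip0 {m : ℕ} (hm : 1 ≤ m) {θ τ : ℝ → ℝ}
    (hθ : ∀ u ∈ Icc (0 : ℝ) 1, θ u ∈ Icc (0 : ℝ) (m + 1))
    (h : ∀ u ∈ Icc (0 : ℝ) 1, ∀ v ∈ Icc (0 : ℝ) 1, F m (θ u - v) = F m (τ v - u))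
    {u u' : ℝ} (hu : u ∈ Icc (0 : ℝ) 1) (hu' : u' ∈ Icc (0 : ℝ) 1) (huu : u < u')
    (hlt : u' - u < 1) (hc : θ u < m + 1 ∨ 0 < θ u') :
    θ u ≤ θ u' + (u' - u) := by
  by_contra hcon
  push Not at hcon
  have hm0 : (1 : ℝ) ≤ m := by exact_mod_cast hm
  have b1 := hθ u hu
  have b2 := hθ u' hu'
  rcases hc with hc | hc
  · -- v in (θ u - m, θ u + u - u')
    have hv' : max 0 (θ u - m) < min 1 (θ u + u - u') := by
      refine lt_min (max_lt ?_ ?_) (max_lt ?_ ?_) <;> linarith [b1.1, b1.2, b2.1, b2.2]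
    obtain ⟨v, hv1, hv2⟩ := exists_between hv'
    have k1 := le_max_left 0 (θ u - m)
    have k2 := le_max_right 0 (θ u - m)
    have k3 := min_le_left 1 (θ u + u - u')
    have k4 := min_le_right 1 (θ u + u - u')
    have hvI : v ∈ Icc (0 : ℝ) 1 := ⟨by linarith, by linarith⟩
    have e1 := F_inj hm (s := θ u - v) (by linarith) (by linarith) (h u hu v hvI)
    have e2 := h u' hu' v hvI
    have e3 : F m (θ u' - v) < F m (τ v - u') :=
      F_lt_F hm (by linarith) (by linarith) (by linarith)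
    linarith
  · have hv' : max 0 (θ u' + u' - u - m) < min 1 (θ u') := by
      refine lt_min (max_lt ?_ ?_) (max_lt ?_ ?_) <;> linarith [b1.1, b1.2, b2.1, b2.2]
    obtain ⟨v, hv1, hv2⟩ := exists_between hv'
    have k1 := le_max_left 0 (θ u' + u' - u - m)
    have k2 := le_max_right 0 (θ u' + u' - u - m)
    have k3 := min_le_left 1 (θ u')
    have k4 := min_le_right 1 (θ u')
    have hvI : v ∈ Icc (0 : ℝ) 1 := ⟨by linarith, by linarith⟩
    have e1 := F_inj hm (s := θ u' - v) (by linarith) (by linarith) (h u' hu' v hvI)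
    have e2 := h u hu v hvI
    have e3 : F m (τ v - u) < F m (θ u - v) :=
      F_lt_F hm (by linarith) (by linarith) (by linarith)
    linarith

theorem rigid_lip {m : ℕ} (hm : 1 ≤ m) {θ τ : ℝ → ℝ}
    (hθ : ∀ u ∈ Icc (0 : ℝ) 1, θ u ∈ Icc (0 : ℝ) (m + 1))
    (h : ∀ u ∈ Icc (0 : ℝ) 1, ∀ v ∈ Icc (0 : ℝ) 1, F m (θ u - v) = F m (τ v - u))
    {u u' : ℝ} (hu : u ∈ Icc (0 : ℝ) 1) (hu' : u' ∈ Icc (0 : ℝ) 1) (huu : u < u')
    (hc : θ u < m + 1 ∨ 0 < θ u') :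
    θ u ≤ θ u' + (u' - u) := by
  have hmid : (u + u') / 2 ∈ Icc (0 : ℝ) 1 := ⟨by linarith [hu.1, hu'.1], by linarith [hu.2, hu'.2]⟩
  have m1 := rigid_anti hm hθ h hu hmid (by linarith)
  have m2 := rigid_anti hm hθ h hmid hu' (by linarith)
  have l1 := rigid_lip0 hm hθ h hu hmid (by linarith) (by linarith [hu.1, hu'.2])
    (by rcases hc with hc | hc
        · exact Or.inl hc
        · exact Or.inr (by linarith))
  have l2 := rigid_lip0 hm hθ h hmid hu' (by linarith) (by linarith [hu.1, hu'.2])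
    (by rcases hc with hc | hc
        · exact Or.inl (by linarith)
        · exact Or.inr hc)
  linarith

theorem rigid_const0 {m : ℕ} (hm : 1 ≤ m) {θ τ : ℝ → ℝ}
    (hθ : ∀ u ∈ Icc (0 : ℝ) 1, θ u ∈ Icc (0 : ℝ) (m + 1))
    (h : ∀ u ∈ Icc (0 : ℝ) 1, ∀ v ∈ Icc (0 : ℝ) 1, F m (θ u - v) = F m (τ v - u))
    {u u' : ℝ} (hu : u ∈ Icc (0 : ℝ) 1) (hu' : u' ∈ Icc (0 : ℝ) 1) (huu : u < u')
    (hlt : u' - u < 1) (hc : θ u < m + 1) (hc' : 0 < θ u') :
    θ u + u = θ u' + u' := by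
  have hm0 : (1 : ℝ) ≤ m := by exact_mod_cast hm
  have b1 := hθ u hu
  have b2 := hθ u' hu'
  have m1 := rigid_anti hm hθ h hu hu' huu.le
  have l1 := rigid_lip hm hθ h hu hu' huu (Or.inl hc)
  have hv' : max 0 (θ u - m) < min 1 (θ u') := by
    refine lt_min (max_lt ?_ ?_) (max_lt ?_ ?_) <;> linarith [b1.1, b1.2, b2.1, b2.2]
  obtain ⟨v, hv1, hv2⟩ := exists_between hv'
  have k1 := le_max_left 0 (θ u - m)
  have k2 := le_max_right 0 (θ u - m)
  have k3 := min_le_left 1 (θ u')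
  have k4 := min_le_right 1 (θ u')
  have hvI : v ∈ Icc (0 : ℝ) 1 := ⟨by linarith, by linarith⟩
  have e1 := F_inj hm (s := θ u - v) (by linarith) (by linarith) (h u hu v hvI)
  have e2 := F_inj hm (s := θ u' - v) (by linarith) (by linarith) (h u' hu' v hvI)
  linarith

theorem rigid_const {m : ℕ} (hm : 1 ≤ m) {θ τ : ℝ → ℝ}
    (hθ : ∀ u ∈ Icc (0 : ℝ) 1, θ u ∈ Icc (0 : ℝ) (m + 1))
    (h : ∀ u ∈ Icc (0 : ℝ) 1, ∀ v ∈ Icc (0 : ℝ) 1, F m (θ u - v) = F m (τ v - u))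
    {u u' : ℝ} (hu : u ∈ Icc (0 : ℝ) 1) (hu' : u' ∈ Icc (0 : ℝ) 1) (huu : u < u')
    (hc : θ u < m + 1) (hc' : 0 < θ u') :
    θ u + u = θ u' + u' := by
  have hmid : (u + u') / 2 ∈ Icc (0 : ℝ) 1 := ⟨by linarith [hu.1, hu'.1], by linarith [hu.2, hu'.2]⟩
  have m1 := rigid_anti hm hθ h hu hmid (by linarith)
  have m2 := rigid_anti hm hθ h hmid hu' (by linarith)
  have l1 := rigid_const0 hm hθ h hu hmid (by linarith) (by linarith [hu.1, hu'.2]) hc
    (by linarith)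
  have l2 := rigid_const0 hm hθ h hmid hu' (by linarith) (by linarith [hu.1, hu'.2])
    (by linarith) hc'
  linarith

/-- no jump from `m + 1` to `0` over a distance less than `m` -/
theorem rigid_jump {m : ℕ} (hm : 1 ≤ m) {θ τ : ℝ → ℝ}
    (h : ∀ u ∈ Icc (0 : ℝ) 1, ∀ v ∈ Icc (0 : ℝ) 1, F m (θ u - v) = F m (τ v - u))
    {u u' : ℝ} (hu : u ∈ Icc (0 : ℝ) 1) (hu' : u' ∈ Icc (0 : ℝ) 1)
    (hc : θ u = m + 1) (hc' : θ u' = 0) : (m : ℝ) ≤ u' - u := by
  have h0 : (0 : ℝ) ∈ Icc (0 : ℝ) 1 := ⟨le_rfl, zero_le_one⟩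
  have e1 := h u hu 0 h0
  have e2 := h u' hu' 0 h0
  rw [hc, F_eq_one (by linarith)] at e1
  rw [hc', F_eq_zero hm (by linarith)] at e2
  have k1 : (m : ℝ) ≤ τ 0 - u := by
    by_contra hcon
    push Not at hcon
    have := F_lt_one hm hcon
    linarith
  have k2 : τ 0 - u' ≤ 0 := by
    by_contra hcon
    push Not at hcon
    have := F_pos hm hcon
    linarith
  linarith

theorem rigid {m : ℕ} (hm : 1 ≤ m) {θ τ : ℝ → ℝ}
    (hθ : ∀ u ∈ Icc (0 : ℝ) 1, θ u ∈ Icc (0 : ℝ) (m + 1))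
    (hτ : ∀ v ∈ Icc (0 : ℝ) 1, τ v ∈ Icc (0 : ℝ) (m + 1))
    (h : ∀ u ∈ Icc (0 : ℝ) 1, ∀ v ∈ Icc (0 : ℝ) 1, F m (θ u - v) = F m (τ v - u)) :
    ∃ d : ℝ, 0 ≤ d ∧ d ≤ m + 2 ∧ ∀ u ∈ Icc (0 : ℝ) 1, θ u = max 0 (min (d - u) (m + 1)) := by
  have _ := hτ
  have hm0 : (1 : ℝ) ≤ m := by exact_mod_cast hm
  by_cases hU : ∃ u0 ∈ Icc (0 : ℝ) 1, 0 < θ u0 ∧ θ u0 < m + 1
  · obtain ⟨u0, hu0, hp, hl⟩ := hU
    refine ⟨θ u0 + u0, by linarith [hu0.1], by linarith [hu0.2], fun u hu => ?_⟩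
    have b := hθ u hu
    rcases lt_trichotomy u u0 with huu | huu | huu
    · have ha := rigid_anti hm hθ h hu hu0 huu.le
      rcases lt_or_eq_of_le b.2 with hlt | heq
      · have hcst := rigid_const hm hθ h hu hu0 huu hlt hp
        rw [min_eq_left (by linarith), max_eq_right (by linarith)]
        linarith
      · have hlip := rigid_lip hm hθ h hu hu0 huu (Or.inr hp)
        rw [min_eq_right (by linarith), max_eq_right (by linarith)]
        exact heq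
    · subst huu
      rw [min_eq_left (by linarith), max_eq_right (by linarith)]
      ring
    · have ha := rigid_anti hm hθ h hu0 hu huu.le
      rcases lt_or_eq_of_le b.1 with hlt | heq
      · have hcst := rigid_const hm hθ h hu0 hu huu hl hlt
        rw [min_eq_left (by linarith), max_eq_right (by linarith)]
        linarith
      · have hlip := rigid_lip hm hθ h hu0 hu huu (Or.inl hl)
        rw [min_eq_left (by linarith), max_eq_left (by linarith)]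
        exact heq.symm
  · have hval : ∀ u ∈ Icc (0 : ℝ) 1, θ u = 0 ∨ θ u = m + 1 := by
      intro u hu
      by_contra hcon
      push Not at hcon
      exact hU ⟨u, hu, lt_of_le_of_ne (hθ u hu).1 (Ne.symm hcon.1),
        lt_of_le_of_ne (hθ u hu).2 hcon.2⟩
    by_cases h0 : ∀ u ∈ Icc (0 : ℝ) 1, θ u = 0
    · refine ⟨0, le_rfl, by linarith, fun u hu => ?_⟩
      rw [h0 u hu, min_eq_left (by linarith [hu.1]), max_eq_left (by linarith [hu.1])]
    by_cases h1 : ∀ u ∈ Icc (0 : ℝ) 1, θ u = m + 1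
    · refine ⟨m + 2, by linarith, le_rfl, fun u hu => ?_⟩
      rw [h1 u hu, min_eq_right (by linarith [hu.2]), max_eq_right (by linarith)]
    exfalso
    push Not at h0 h1
    obtain ⟨u, hu, hu1⟩ := h0
    obtain ⟨u', hu', hu1'⟩ := h1
    have e1 : θ u = m + 1 := (hval u hu).resolve_left hu1
    have e2 : θ u' = 0 := (hval u' hu').resolve_right hu1'
    have hmid : (u + u') / 2 ∈ Icc (0 : ℝ) 1 :=
      ⟨by linarith [hu.1, hu'.1], by linarith [hu.2, hu'.2]⟩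
    have j1 := rigid_jump hm h hu hu' e1 e2
    rcases hval _ hmid with e3 | e3
    · have j2 := rigid_jump hm h hu hmid e1 e3
      linarith [hu.1, hu'.2]
    · have j2 := rigid_jump hm h hmid hu' e3 e2
      linarith [hu.1, hu'.2]

theorem choose_u {n : ℕ} (hn : 1 ≤ n) {d₁ d₂ d₃ : ℝ} (h₁ : 0 ≤ d₁) (h₂ : 0 ≤ d₂) (h₃ : 0 ≤ d₃)
    (h : d₁ + d₂ + d₃ < n + 1) :
    ∃ u₁ u₂ u₃ : ℝ, 0 ≤ u₁ ∧ 0 ≤ u₂ ∧ 0 ≤ u₃ ∧ u₁ + u₂ + u₃ = 1 ∧
      max 0 (min (d₁ - u₁) n) + max 0 (min (d₂ - u₂) n) + max 0 (min (d₃ - u₃) n) < n := by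
  have hn0 : (1 : ℝ) ≤ n := by exact_mod_cast hn
  by_cases hs : 1 ≤ d₁ + d₂ + d₃
  · have hpos : 0 < d₁ + d₂ + d₃ := by linarith
    have hle : ∀ x : ℝ, 0 ≤ x → x / (d₁ + d₂ + d₃) ≤ x := fun x hx => div_le_self hx hs
    have hm : ∀ x : ℝ, 0 ≤ x →
        max 0 (min (x - x / (d₁ + d₂ + d₃)) n) ≤ x - x / (d₁ + d₂ + d₃) := fun x hx =>
      max_le (by linarith [hle x hx]) (min_le_left _ _)
    refine ⟨d₁ / (d₁ + d₂ + d₃), d₂ / (d₁ + d₂ + d₃), d₃ / (d₁ + d₂ + d₃), by positivity,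
      by positivity, by positivity, ?_, ?_⟩
    · rw [← add_div, ← add_div, div_self hpos.ne']
    · have hsum : d₁ / (d₁ + d₂ + d₃) + d₂ / (d₁ + d₂ + d₃) + d₃ / (d₁ + d₂ + d₃) = 1 := by
        rw [← add_div, ← add_div, div_self hpos.ne']
      linarith [hm d₁ h₁, hm d₂ h₂, hm d₃ h₃]
  · push Not at hs
    have hm : ∀ x : ℝ, max 0 (min (x - (x + (1 - (d₁ + d₂ + d₃)) / 3)) (n : ℝ)) = 0 := by
      intro x
      exact max_eq_left ((min_le_left _ _).trans (by linarith))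
    refine ⟨d₁ + (1 - (d₁ + d₂ + d₃)) / 3, d₂ + (1 - (d₁ + d₂ + d₃)) / 3,
      d₃ + (1 - (d₁ + d₂ + d₃)) / 3, by linarith, by linarith, by linarith, by ring, ?_⟩
    rw [hm, hm, hm]
    linarith

theorem F_clamp {n : ℕ} (hn : 1 ≤ n) (t : ℝ) : F n (max 0 (min t n)) = F n t := by
  have hn0 : (1 : ℝ) ≤ n := by exact_mod_cast hn
  rcases le_total t 0 with h | h
  · rw [min_eq_left (by linarith), max_eq_left h, F_eq_zero hn le_rfl, F_eq_zero hn h]
  rcases le_total t n with h' | h'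
  · rw [min_eq_left h', max_eq_right h]
  · rw [min_eq_right h', max_eq_right (by linarith), F_eq_one le_rfl, F_eq_one h']

/-- the integral of the half-space profile -/
theorem int_halfspace {n : ℕ} (hn : 1 ≤ n) {d : ℝ} (h0 : 0 ≤ d) (h1 : d ≤ n + 1) :
    (∫ u in (0 : ℝ)..1, F n (max 0 (min (d - u) n))) = F (n + 1) d := by
  have _ := h0
  have _ := h1
  rw [F_succ hn]
  simp only [F_clamp hn]

end Pool.Agent.Work.MP_0cd883_co.Cube
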