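import Pool.Agent.Work.MP_0cd883_co.Cube.ModE2

/-! Module E3: the sharp tri-free theorem for sets. -/

namespace Pool.Agent.Work.MP_0cd883_co.Cube

open MeasureTheory Set

/-- fibre of `A` over `x` in the first direction -/
noncomputable def fib {m N : ℕ} (A : Finset (Fin (m + 1) → Fin N)) (x : Fin m → Fin N) :
    Finset (Fin N) := by
  classical exact Finset.univ.filter fun k => (Fin.cons k x : Fin (m + 1) → Fin N) ∈ A

theorem mem_fib {m N : ℕ} {A : Finset (Fin (m + 1) → Fin N)} {x : Fin m → Fin N} {k : Fin N} :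
    k ∈ fib A x ↔ (Fin.cons k x : Fin (m + 1) → Fin N) ∈ A := by
  classical
  unfold fib
  simp

theorem sum_fib {m N : ℕ} (A : Finset (Fin (m + 1) → Fin N)) :
    ∑ x : Fin m → Fin N, (fib A x).card = A.card := by
  classical
  have h1 : A.card = ∑ y : Fin (m + 1) → Fin N, if y ∈ A then 1 else 0 := by
    rw [Finset.sum_ite_mem, Finset.univ_inter, Finset.sum_const, smul_eq_mul, mul_one]
  rw [h1, ← Equiv.sum_comp (Fin.consEquiv (fun _ : Fin (m + 1) => Fin N)),
    Fintype.sum_prod_type, Finset.sum_comm]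
  refine Finset.sum_congr rfl fun x _ => ?_
  unfold fib
  rw [Finset.card_filter]
  rfl

/-- the sharp tri-free theorem for sets -/
theorem T_sets (hL : ∀ n, 1 ≤ n → LCore n) {n N : ℕ} (hn : 1 ≤ n) (hN : 1 ≤ N)
    (A : Fin 3 → Finset (Fin n → Fin N))
    (hfree : ∀ x ∈ A 0, ∀ y ∈ A 1, ∀ w ∈ A 2, ¬ ∀ j, (x j : ℕ) + y j + w j + 1 = N)
    (c : Fin 3 → ℝ) (hc : ∀ i, 0 ≤ c i)
    (h : ∀ i, ((N : ℝ) ^ n - (A i).card) / (N : ℝ) ^ n + n / N ≤ F n (c i)) :
    (n : ℝ) ≤ c 0 + c 1 + c 2 := by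
  classical
  obtain ⟨m, rfl⟩ : ∃ m, n = m + 1 := ⟨n - 1, by omega⟩
  have hN0 : (0 : ℝ) < N := by exact_mod_cast hN
  have key := T_func hL m N hN (fun i x => 1 - ((fib (A i) x).card : ℝ) / N) ?_ ?_ c hc ?_
  · push_cast
    exact key
  · intro i x
    have h1 : ((fib (A i) x).card : ℝ) ≤ N := by
      have := Finset.card_le_univ (fib (A i) x)
      rw [Fintype.card_fin] at this
      exact_mod_cast this
    have h2 : ((fib (A i) x).card : ℝ) / N ≤ 1 := (div_le_one hN0).2 h1
    have h3 : 0 ≤ ((fib (A i) x).card : ℝ) / N := by positivity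
    exact ⟨by linarith, by linarith⟩
  · intro x y w hxyw
    have h1 := pigeon (fib (A 0) x) (fib (A 1) y) (fib (A 2) w) (by
      intro a ha b hb c' hc' habc
      refine hfree _ (mem_fib.1 ha) _ (mem_fib.1 hb) _ (mem_fib.1 hc') fun j => ?_
      refine Fin.cases ?_ (fun j => ?_) j
      · simpa using habc
      · simpa using hxyw j)
    have h2 : (((fib (A 0) x).card : ℝ) + (fib (A 1) y).card + (fib (A 2) w).card) ≤ 2 * N := by
      exact_mod_cast h1
    have h3 : (((fib (A 0) x).card : ℝ) / N + (fib (A 1) y).card / N + (fib (A 2) w).card / N)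
        ≤ 2 := by
      rw [← add_div, ← add_div]
      exact (div_le_iff₀ hN0).2 h2
    linarith
  · intro i
    have h1 : ∑ x : Fin m → Fin N, (1 - ((fib (A i) x).card : ℝ) / N) =
        (N : ℝ) ^ m - (A i).card / N := by
      rw [Finset.sum_sub_distrib, ← Finset.sum_div, ← Nat.cast_sum, sum_fib]
      simp
    rw [h1]
    refine le_trans ?_ (h i)
    have h2 : ((N : ℝ) ^ m - (A i).card / N) / (N : ℝ) ^ m =
        ((N : ℝ) ^ (m + 1) - (A i).card) / (N : ℝ) ^ (m + 1) := by
      rw [pow_succ]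
      field_simp
    rw [h2]
    have h3 : (m : ℝ) / N ≤ ((m + 1 : ℕ) : ℝ) / N := by
      apply div_le_div_of_nonneg_right _ hN0.le
      push_cast
      linarith
    linarith

end Pool.Agent.Work.MP_0cd883_co.Cube
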