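import Mathlib

/-! Module E, first part: pigeon hole facts and decreasing rearrangement. -/

namespace Pool.Agent.Work.MP_0cd883_co.Cube

open Set

/-- two of the sets against one element of the third -/
theorem pigeon_pair {N : ℕ} (E₁ E₂ : Finset (Fin N)) (c : Fin N)
    (h : ∀ a ∈ E₁, ∀ b ∈ E₂, (a : ℕ) + b + c + 1 ≠ N) :
    E₁.card + E₂.card ≤ N + c := by
  classical
  set P := E₂.filter (fun b : Fin N => (b : ℕ) + c + 1 ≤ N) with hP
  set Q := E₂.filter (fun b : Fin N => ¬ ((b : ℕ) + c + 1 ≤ N)) with hQ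
  have hPQ : P.card + Q.card = E₂.card := Finset.card_filter_add_card_filter_not _
  have hQc : Q.card ≤ c := by
    have h1 : Q.card = (Q.image (fun b : Fin N => (b : ℕ))).card :=
      (Finset.card_image_of_injective _ Fin.val_injective).symm
    have h2 : Q.image (fun b : Fin N => (b : ℕ)) ⊆ Finset.Ico (N - c) N := by
      intro x hx
      obtain ⟨b, hb, rfl⟩ := Finset.mem_image.mp hx
      have hb2 := (Finset.mem_filter.mp hb).2
      rw [Finset.mem_Ico]
      exact ⟨by omega, b.2⟩
    have h3 := Finset.card_le_card h2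
    rw [Nat.card_Ico] at h3
    have := c.2
    omega
  have hPc : E₁.card + P.card ≤ N := by
    have hinj : Set.InjOn (fun b : Fin N => (⟨N - 1 - c - b, by omega⟩ : Fin N)) P := by
      intro b hb b' hb' hbb
      have hb2 := (Finset.mem_filter.mp hb).2
      have hb2' := (Finset.mem_filter.mp hb').2
      have := congrArg Fin.val hbb
      simp only at this
      ext
      omega
    have h1 := Finset.card_image_of_injOn hinj
    have hdis : Disjoint E₁ (P.image (fun b : Fin N => (⟨N - 1 - c - b, by omega⟩ : Fin N))) := by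
      rw [Finset.disjoint_left]
      intro a ha ha'
      obtain ⟨b, hb, hab⟩ := Finset.mem_image.mp ha'
      have hb2 := (Finset.mem_filter.mp hb).2
      have hb1 := (Finset.mem_filter.mp hb).1
      have hv := congrArg Fin.val hab
      simp only at hv
      exact h a ha b hb1 (by omega)
    have h2 := Finset.card_union_of_disjoint hdis
    have h3 := Finset.card_le_univ (E₁ ∪ P.image (fun b : Fin N =>
      (⟨N - 1 - c - b, by omega⟩ : Fin N)))
    rw [Fintype.card_fin] at h3
    omega
  omega

/-- one-dimensional fact: three sets of residues with no triple summing to `N - 1` -/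
theorem pigeon {N : ℕ} (E₁ E₂ E₃ : Finset (Fin N))
    (h : ∀ a ∈ E₁, ∀ b ∈ E₂, ∀ c ∈ E₃, (a : ℕ) + b + c + 1 ≠ N) :
    E₁.card + E₂.card + E₃.card ≤ 2 * N := by
  classical
  rcases E₃.eq_empty_or_nonempty with h3 | h3
  · have h1 := Finset.card_le_univ E₁
    have h2 := Finset.card_le_univ E₂
    rw [Fintype.card_fin] at h1 h2
    rw [h3, Finset.card_empty]
    omega
  · set c := E₃.min' h3 with hc
    have hcm : c ∈ E₃ := Finset.min'_mem _ _
    have h1 := pigeon_pair E₁ E₂ c (fun a ha b hb => h a ha b hb c hcm)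
    have h2 : E₃ ⊆ Finset.Ici c := by
      intro x hx
      rw [Finset.mem_Ici]
      exact Finset.min'_le _ _ hx
    have h4 := Finset.card_le_card h2
    rw [Fin.card_Ici] at h4
    have := c.2
    omega

/-- holes of `E` above an element of `E` -/
def holes {N : ℕ} (E : Finset (Fin N)) : Finset (Fin N) :=
  Finset.univ.filter fun k => k ∉ E ∧ ∃ a ∈ E, a < k

theorem holes_card {N : ℕ} (E : Finset (Fin N)) (h : E.Nonempty) :
    (holes E).card + E.card + (E.min' h : Fin N) ≤ N := by
  classical
  have hdis : Disjoint (holes E) E := by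
    rw [Finset.disjoint_left]
    intro a ha
    exact (Finset.mem_filter.mp ha).2.1
  have h1 := Finset.card_union_of_disjoint hdis
  have h2 : holes E ∪ E ⊆ Finset.Ici (E.min' h) := by
    intro x hx
    rw [Finset.mem_Ici]
    rcases Finset.mem_union.mp hx with hx | hx
    · obtain ⟨a, ha, hax⟩ := (Finset.mem_filter.mp hx).2.2
      exact (Finset.min'_le _ _ ha).trans hax.le
    · exact Finset.min'_le _ _ hx
  have h3 := Finset.card_le_card h2
  rw [Fin.card_Ici] at h3
  have := (E.min' h).2
  omega

theorem holes_card_le {N : ℕ} (E : Finset (Fin N)) : (holes E).card + E.card ≤ N := by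
  classical
  rcases E.eq_empty_or_nonempty with h | h
  · subst h
    have h2 := Finset.card_le_univ (holes (∅ : Finset (Fin N)))
    rw [Fintype.card_fin] at h2
    simpa using h2
  · have := holes_card E h
    omega

/-- the strengthening with a credit `1/3` for the holes -/
theorem pigeon_plus {N : ℕ} (E₁ E₂ E₃ : Finset (Fin N))
    (h : ∀ a ∈ E₁, ∀ b ∈ E₂, ∀ c ∈ E₃, (a : ℕ) + b + c + 1 ≠ N) :
    3 * N + (holes E₁).card + (holes E₂).card + (holes E₃).card + 3 * (E₁.card + E₂.card + E₃.card)
      ≤ 9 * N := by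
  classical
  have l1 := holes_card_le E₁
  have l2 := holes_card_le E₂
  have l3 := holes_card_le E₃
  have u0 : (holes (∅ : Finset (Fin N))).card = 0 := by
    rw [Finset.card_eq_zero]
    ext k
    simp [holes]
  rcases E₁.eq_empty_or_nonempty with n1 | n1
  · subst n1
    rw [u0, Finset.card_empty]
    omega
  rcases E₂.eq_empty_or_nonempty with n2 | n2
  · subst n2
    rw [u0, Finset.card_empty]
    omega
  rcases E₃.eq_empty_or_nonempty with n3 | n3
  · subst n3
    rw [u0, Finset.card_empty]
    omega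
  have c1 := holes_card E₁ n1
  have c2 := holes_card E₂ n2
  have c3 := holes_card E₃ n3
  have m1 := Finset.min'_mem _ n1
  have m2 := Finset.min'_mem _ n2
  have m3 := Finset.min'_mem _ n3
  have p12 := pigeon_pair E₁ E₂ (E₃.min' n3) (fun a ha b hb => h a ha b hb _ m3)
  have p13 := pigeon_pair E₁ E₃ (E₂.min' n2) (fun a ha b hb => by
    have := h a ha _ m2 b hb
    omega)
  have p23 := pigeon_pair E₂ E₃ (E₁.min' n1) (fun a ha b hb => by
    have := h _ m1 a ha b hb
    omega)
  omega

/-- a decreasing rearrangement of a tuple -/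
theorem exists_antitone_perm {N : ℕ} (f : Fin N → ℝ) :
    ∃ σ : Equiv.Perm (Fin N), Antitone (fun k => f (σ k)) := by
  refine ⟨Fin.revPerm.trans (Tuple.sort f), ?_⟩
  intro a b hab
  have h := Tuple.monotone_sort f
  have hr : Fin.rev b ≤ Fin.rev a := Fin.rev_le_rev.mpr hab
  simpa using h hr

/-- decreasing rearrangement -/
theorem rearr {N : ℕ} {s : ℝ} (θ : Fin 3 → Fin N → ℝ)
    (h : ∀ a b c : Fin N, (a : ℕ) + b + c + 1 = N → s ≤ θ 0 a + θ 1 b + θ 2 c) :
    ∃ θ' : Fin 3 → Fin N → ℝ, (∀ i, Antitone (θ' i)) ∧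
      (∀ i, ∃ σ : Equiv.Perm (Fin N), ∀ k, θ' i k = θ i (σ k)) ∧
      ∀ a b c : Fin N, (a : ℕ) + b + c + 1 ≤ N → s ≤ θ' 0 a + θ' 1 b + θ' 2 c := by
  classical
  choose σ hσ using fun i => exists_antitone_perm (θ i)
  refine ⟨fun i k => θ i (σ i k), hσ, fun i => ⟨σ i, fun k => rfl⟩, ?_⟩
  have key : ∀ (i : Fin 3) (a : Fin N),
      N ≤ (Finset.univ.filter fun k => θ i k ≤ θ i (σ i a)).card + a := by
    intro i a
    have h1 : (Finset.Ici a).image (σ i) ⊆
        Finset.univ.filter fun k => θ i k ≤ θ i (σ i a) := by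
      intro x hx
      obtain ⟨b, hb, rfl⟩ := Finset.mem_image.mp hx
      rw [Finset.mem_filter]
      exact ⟨Finset.mem_univ _, hσ i (Finset.mem_Ici.mp hb)⟩
    have h2 := Finset.card_le_card h1
    rw [Finset.card_image_of_injective _ (σ i).injective, Fin.card_Ici] at h2
    have := a.2
    omega
  intro a b c habc
  by_contra hcon
  push Not at hcon
  have hp := pigeon (Finset.univ.filter fun k => θ 0 k ≤ θ 0 (σ 0 a))
    (Finset.univ.filter fun k => θ 1 k ≤ θ 1 (σ 1 b))
    (Finset.univ.filter fun k => θ 2 k ≤ θ 2 (σ 2 c)) (by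
      intro x hx y hy z hz hxyz
      have h1 := (Finset.mem_filter.mp hx).2
      have h2 := (Finset.mem_filter.mp hy).2
      have h3 := (Finset.mem_filter.mp hz).2
      have h4 := h x y z hxyz
      linarith)
  have k0 := key 0 a
  have k1 := key 1 b
  have k2 := key 2 c
  omega

end Pool.Agent.Work.MP_0cd883_co.Cube
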