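import Pool.Agent.Work.MP_0cd883_co.Cube.ModA
import Pool.Agent.Work.MP_0cd883_co.Cube.ModB
import Pool.Agent.Work.MP_0cd883_co.Cube.ModE1

/-! Module E, second part: the discrete induction on the dimension (`step_func`, `T_func`). -/

namespace Pool.Agent.Work.MP_0cd883_co.Cube

open MeasureTheory Set

/-- integral of a step function -/
theorem modE2_step_int {N : ℕ} (hN : 1 ≤ N) (φ : ℝ → ℝ) (v : ℕ → ℝ)
    (hint : ∀ a b, IntervalIntegrable φ volume a b)
    (h : ∀ j < N, ∀ u : ℝ, (j : ℝ) / N ≤ u → u < ((j : ℝ) + 1) / N → φ u = v j) :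
    ∫ u in (0 : ℝ)..1, φ u = (∑ j ∈ Finset.range N, v j) / N := by
  have hN0 : (0 : ℝ) < N := by exact_mod_cast hN
  have hsum := intervalIntegral.sum_integral_adjacent_intervals (μ := volume) (f := φ)
    (a := fun j : ℕ => (j : ℝ) / N) (n := N) (fun k _ => hint _ _)
  have e0 : ((0 : ℕ) : ℝ) / N = 0 := by simp
  have e1 : ((N : ℕ) : ℝ) / N = 1 := div_self hN0.ne'
  rw [e0, e1] at hsum
  rw [← hsum, Finset.sum_div]
  refine Finset.sum_congr rfl fun j hj => ?_
  have hjN := Finset.mem_range.mp hj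
  have hle : (j : ℝ) / N ≤ ((j : ℝ) + 1) / N := by
    apply div_le_div_of_nonneg_right _ hN0.le
    linarith
  have hcast : ((j + 1 : ℕ) : ℝ) = (j : ℝ) + 1 := by push_cast; ring
  rw [hcast]
  have hcongr : ∫ u in ((j : ℝ) / N)..(((j : ℝ) + 1) / N), φ u
      = ∫ u in ((j : ℝ) / N)..(((j : ℝ) + 1) / N), v j := by
    refine intervalIntegral.integral_congr_ae ?_
    have hne : ∀ᵐ r : ℝ, r ≠ ((j : ℝ) + 1) / N := by
      simp [ae_iff]
    filter_upwards [hne] with r hr hmem
    rw [Set.uIoc_of_le hle] at hmem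
    exact h j hjN r hmem.1.le (lt_of_le_of_ne hmem.2 hr)
  rw [hcongr, intervalIntegral.integral_const, smul_eq_mul]
  ring

/-- one step of the induction: from the one variable statement to functions on `Fin N` -/
theorem step_func {n N : ℕ} (hn : 1 ≤ n) (hL : LCore n) (hN : 1 ≤ N) (θ : Fin 3 → Fin N → ℝ)
    (h : ∀ a b c : Fin N, (a : ℕ) + b + c + 1 = N → (n : ℝ) ≤ θ 0 a + θ 1 b + θ 2 c)
    (c : Fin 3 → ℝ) (hc : ∀ i, 0 ≤ c i)
    (hi : ∀ i, (∑ k, F n (θ i k)) / N + 1 / N ≤ F (n + 1) (c i)) :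
    (n : ℝ) + 1 ≤ c 0 + c 1 + c 2 := by
  classical
  obtain ⟨θ', _, hperm, hrel⟩ := rearr θ h
  have hN0 : (0 : ℝ) < N := by exact_mod_cast hN
  have hn0 : (0 : ℝ) ≤ n := Nat.cast_nonneg n
  -- the step functions
  obtain ⟨g, hg⟩ : ∃ g : Fin 3 → ℕ → ℝ, ∀ i j, g i j = if hj : j < N then max 0 (θ' i ⟨j, hj⟩)
    else 0 := ⟨fun i j => if hj : j < N then max 0 (θ' i ⟨j, hj⟩) else 0, fun _ _ => rfl⟩
  have g_nonneg : ∀ i j, 0 ≤ g i j := by
    intro i j
    rw [hg]
    split_ifs
    · exact le_max_left _ _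
    · exact le_rfl
  obtain ⟨τ, hτ⟩ : ∃ τ : Fin 3 → ℝ → ℝ, ∀ i u, τ i u = if u < 1 / (N : ℝ) then (n : ℝ)
    else g i (⌊(N : ℝ) * u⌋₊ - 1) :=
    ⟨fun i u => if u < 1 / (N : ℝ) then (n : ℝ) else g i (⌊(N : ℝ) * u⌋₊ - 1), fun _ _ => rfl⟩
  have τ_nonneg : ∀ i u, 0 ≤ τ i u := by
    intro i u
    rw [hτ]
    split_ifs
    · exact hn0
    · exact g_nonneg _ _
  have τ_meas : ∀ i, Measurable (τ i) := by
    intro i
    have e : τ i = fun u => if u < 1 / (N : ℝ) then (n : ℝ) else g i (⌊(N : ℝ) * u⌋₊ - 1) :=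
      funext fun u => hτ i u
    rw [e]
    refine Measurable.ite measurableSet_Iio measurable_const ?_
    have hfl : Measurable fun u : ℝ => ⌊(N : ℝ) * u⌋₊ :=
      Nat.measurable_floor.comp (measurable_const.mul measurable_id)
    exact (measurable_from_nat (f := fun j => g i (j - 1))).comp hfl
  -- the relation
  have τ_rel : ∀ u₁ u₂ u₃ : ℝ, 0 ≤ u₁ → 0 ≤ u₂ → 0 ≤ u₃ → u₁ + u₂ + u₃ = 1 →
      (n : ℝ) ≤ τ 0 u₁ + τ 1 u₂ + τ 2 u₃ := by
    intro u₁ u₂ u₃ h₁ h₂ h₃ hs
    have t1 := τ_nonneg 0 u₁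
    have t2 := τ_nonneg 1 u₂
    have t3 := τ_nonneg 2 u₃
    rcases lt_or_ge u₁ (1 / (N : ℝ)) with l1 | l1
    · have : τ 0 u₁ = n := by rw [hτ, if_pos l1]
      linarith
    rcases lt_or_ge u₂ (1 / (N : ℝ)) with l2 | l2
    · have : τ 1 u₂ = n := by rw [hτ, if_pos l2]
      linarith
    rcases lt_or_ge u₃ (1 / (N : ℝ)) with l3 | l3
    · have : τ 2 u₃ = n := by rw [hτ, if_pos l3]
      linarith
    have fl : ∀ u : ℝ, 0 ≤ u → ((⌊(N : ℝ) * u⌋₊ : ℕ) : ℝ) ≤ N * u := fun u hu =>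
      Nat.floor_le (mul_nonneg hN0.le hu)
    have fl1 : ∀ u : ℝ, 1 / (N : ℝ) ≤ u → 1 ≤ ⌊(N : ℝ) * u⌋₊ := by
      intro u hu
      refine Nat.le_floor ?_
      rw [Nat.cast_one]
      rw [div_le_iff₀ hN0] at hu
      linarith
    have a1 := fl u₁ h₁
    have a2 := fl u₂ h₂
    have a3 := fl u₃ h₃
    have b1 := fl1 u₁ l1
    have b2 := fl1 u₂ l2
    have b3 := fl1 u₃ l3
    have hk : ⌊(N : ℝ) * u₁⌋₊ + ⌊(N : ℝ) * u₂⌋₊ + ⌊(N : ℝ) * u₃⌋₊ ≤ N := by
      have : ((⌊(N : ℝ) * u₁⌋₊ + ⌊(N : ℝ) * u₂⌋₊ + ⌊(N : ℝ) * u₃⌋₊ : ℕ) : ℝ) ≤ (N : ℝ) := by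
        push_cast
        have : (N : ℝ) * u₁ + N * u₂ + N * u₃ = N := by
          rw [← mul_add, ← mul_add, hs, mul_one]
        linarith
      exact_mod_cast this
    have i1 : ⌊(N : ℝ) * u₁⌋₊ - 1 < N := by omega
    have i2 : ⌊(N : ℝ) * u₂⌋₊ - 1 < N := by omega
    have i3 : ⌊(N : ℝ) * u₃⌋₊ - 1 < N := by omega
    have r := hrel ⟨_, i1⟩ ⟨_, i2⟩ ⟨_, i3⟩ (by simp only; omega)
    rw [hτ, hτ, hτ, if_neg (not_lt.2 l1), if_neg (not_lt.2 l2), if_neg (not_lt.2 l3),
      hg, hg, hg, dif_pos i1, dif_pos i2, dif_pos i3]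
    have m1 := le_max_right 0 (θ' 0 ⟨_, i1⟩)
    have m2 := le_max_right 0 (θ' 1 ⟨_, i2⟩)
    have m3 := le_max_right 0 (θ' 2 ⟨_, i3⟩)
    linarith
  -- the integrals
  have τ_int : ∀ i, (∫ u in (0 : ℝ)..1, F n (τ i u)) ≤ F (n + 1) (c i) := by
    intro i
    refine le_trans ?_ (hi i)
    have hm : Measurable fun u => F n (τ i u) := (F_continuous hn).measurable.comp (τ_meas i)
    have hii : ∀ a b, IntervalIntegrable (fun u => F n (τ i u)) volume a b :=
      modB_ii hm (fun _ => F_nonneg _ _) (fun _ => F_le_one _ _)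
    rw [modE2_step_int hN (fun u => F n (τ i u)) (fun j => if j = 0 then 1 else F n (g i (j - 1)))
      hii ?_]
    · rw [← add_div]
      apply div_le_div_of_nonneg_right _ hN0.le
      obtain ⟨σ, hσ⟩ := hperm i
      have e1 : ∑ k, F n (θ i k) = ∑ k, F n (θ' i k) := by
        rw [← Equiv.sum_comp σ (fun k => F n (θ i k))]
        exact Finset.sum_congr rfl fun k _ => by rw [hσ k]
      have e2 : ∑ k, F n (θ' i k) = ∑ j ∈ Finset.range N, F n (g i j) := by
        rw [Finset.sum_range]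
        refine Finset.sum_congr rfl fun k _ => ?_
        rw [hg, dif_pos k.2]
        rcases le_total 0 (θ' i k) with hk | hk
        · rw [max_eq_right hk]
        · rw [max_eq_left hk, F_eq_zero hn hk, F_eq_zero hn le_rfl]
      rw [e1, e2]
      obtain ⟨M, rfl⟩ : ∃ M, N = M + 1 := ⟨N - 1, by omega⟩
      rw [Finset.sum_range_succ', Finset.sum_range_succ (fun j => F n (g i j))]
      have e3 : ∑ j ∈ Finset.range M, (if j + 1 = 0 then (1 : ℝ) else F n (g i (j + 1 - 1)))
          = ∑ j ∈ Finset.range M, F n (g i j) := by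
        refine Finset.sum_congr rfl fun j _ => ?_
        rw [if_neg (Nat.succ_ne_zero j), Nat.add_sub_cancel]
      rw [e3, if_pos rfl]
      have := F_nonneg n (g i M)
      linarith
    · intro j hj u hu1 hu2
      rcases Nat.eq_zero_or_pos j with h0 | h0
      · subst h0
        have : u < 1 / (N : ℝ) := by simpa using hu2
        rw [if_pos rfl, hτ, if_pos this]
        exact F_eq_one le_rfl
      · have hj1 : (1 : ℝ) ≤ j := by exact_mod_cast h0
        have h1 : 1 / (N : ℝ) ≤ u := le_trans (div_le_div_of_nonneg_right hj1 hN0.le) hu1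
        have hfl : ⌊(N : ℝ) * u⌋₊ = j := by
          rw [Nat.floor_eq_iff (mul_nonneg hN0.le (le_trans (by positivity) h1))]
          rw [div_le_iff₀ hN0] at hu1
          rw [lt_div_iff₀ hN0] at hu2
          constructor <;> linarith
        rw [if_neg (by omega), hτ, if_neg (not_lt.2 h1), hfl]
  exact hL (τ 0) (τ 1) (τ 2) (τ_meas 0) (τ_meas 1) (τ_meas 2) τ_rel (c 0) (c 1) (c 2)
    (hc 0) (hc 1) (hc 2) (τ_int 0) (τ_int 1) (τ_int 2)

theorem modE2_sum_cons {m N : ℕ} (f : (Fin (m + 1) → Fin N) → ℝ) :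
    ∑ x, f x = ∑ k : Fin N, ∑ x : Fin m → Fin N, f (Fin.cons k x) := by
  rw [← Equiv.sum_comp (Fin.consEquiv (fun _ : Fin (m + 1) => Fin N)) f, Fintype.sum_prod_type]
  rfl

theorem T_func (hL : ∀ n, 1 ≤ n → LCore n) (m N : ℕ) (hN : 1 ≤ N)
    (f : Fin 3 → (Fin m → Fin N) → ℝ) (h01 : ∀ i x, 0 ≤ f i x ∧ f i x ≤ 1)
    (hrel : ∀ x y w : Fin m → Fin N, (∀ j, (x j : ℕ) + y j + w j + 1 = N) →
      1 ≤ f 0 x + f 1 y + f 2 w)
    (c : Fin 3 → ℝ) (hc : ∀ i, 0 ≤ c i)
    (h : ∀ i, (∑ x, f i x) / (N : ℝ) ^ m + m / N ≤ F (m + 1) (c i)) :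
    (m : ℝ) + 1 ≤ c 0 + c 1 + c 2 := by
  classical
  have hN0 : (0 : ℝ) < N := by exact_mod_cast hN
  induction m generalizing c with
  | zero =>
      have hle : ∀ i, f i default ≤ c i := by
        intro i
        have h1 := h i
        rw [Fintype.sum_unique] at h1
        simp only [pow_zero, div_one, Nat.cast_zero, zero_div, add_zero, zero_add] at h1
        have h2 : F 1 (c i) ≤ c i := by
          rw [modA_F_one]
          exact max_le (hc i) (min_le_left _ _)
        exact h1.trans h2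
      have h3 := hrel default default default (fun j => j.elim0)
      have := hle 0
      have := hle 1
      have := hle 2
      simp only [Nat.cast_zero, zero_add]
      linarith
  | succ m ih =>
      -- fibre averages
      obtain ⟨a, ha⟩ : ∃ a : Fin 3 → Fin N → ℝ, ∀ i k,
          a i k = (∑ x : Fin m → Fin N, f i (Fin.cons k x)) / (N : ℝ) ^ m + m / N :=
        ⟨fun i k => (∑ x : Fin m → Fin N, f i (Fin.cons k x)) / (N : ℝ) ^ m + m / N,
          fun _ _ => rfl⟩
      have a_nonneg : ∀ i k, 0 ≤ a i k := by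
        intro i k
        rw [ha]
        have : 0 ≤ ∑ x : Fin m → Fin N, f i (Fin.cons k x) :=
          Finset.sum_nonneg fun x _ => (h01 i _).1
        positivity
      obtain ⟨θ, hθ⟩ : ∃ θ : Fin 3 → Fin N → ℝ, ∀ i k, θ i k = Inv (m + 1) (min 1 (a i k)) :=
        ⟨fun i k => Inv (m + 1) (min 1 (a i k)), fun _ _ => rfl⟩
      have Fθ : ∀ i k, F (m + 1) (θ i k) = min 1 (a i k) := by
        intro i k
        rw [hθ]
        exact F_Inv (by omega) (le_min zero_le_one (a_nonneg i k)) (min_le_left _ _)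
      have θ_nonneg : ∀ i k, 0 ≤ θ i k := by
        intro i k
        rw [hθ]
        exact Inv_nonneg (by omega) (le_min zero_le_one (a_nonneg i k))
      have θ_top : ∀ i k, 1 < a i k → θ i k = (m : ℝ) + 1 := by
        intro i k hk
        have h1 : F (m + 1) ((m + 1 : ℕ) : ℝ) = 1 := F_eq_one le_rfl
        have h2 := Inv_F (n := m + 1) (by omega) (t := ((m + 1 : ℕ) : ℝ)) (Nat.cast_nonneg _) le_rfl
        rw [h1] at h2
        rw [hθ, min_eq_left hk.le, h2]
        push_cast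
        ring
      have rel : ∀ p q r : Fin N, (p : ℕ) + q + r + 1 = N →
          ((m + 1 : ℕ) : ℝ) ≤ θ 0 p + θ 1 q + θ 2 r := by
        intro p q r hpqr
        push_cast
        have t0 := θ_nonneg 0 p
        have t1 := θ_nonneg 1 q
        have t2 := θ_nonneg 2 r
        rcases lt_or_ge 1 (a 0 p) with l0 | l0
        · have := θ_top 0 p l0
          linarith
        rcases lt_or_ge 1 (a 1 q) with l1 | l1
        · have := θ_top 1 q l1
          linarith
        rcases lt_or_ge 1 (a 2 r) with l2 | l2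
        · have := θ_top 2 r l2
          linarith
        have key := ih (fun i x => f i (Fin.cons (![p, q, r] i) x)) (fun i x => h01 i _) ?_
          (fun i => θ i (![p, q, r] i)) (fun i => θ_nonneg i _) ?_
        · simpa using key
        · intro x y w hxyw
          refine hrel _ _ _ fun j => ?_
          refine Fin.cases ?_ (fun j => ?_) j
          · simpa using hpqr
          · simpa using hxyw j
        · intro i
          have l : ∀ i, a i (![p, q, r] i) ≤ 1 := by
            intro i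
            fin_cases i
            · exact l0
            · exact l1
            · exact l2
          rw [Fθ, min_eq_right (l i), ha]
      have hstep := step_func (n := m + 1) (by omega) (hL (m + 1) (by omega)) hN θ rel c hc ?_
      · push_cast at hstep ⊢
        exact hstep
      · intro i
        refine le_trans ?_ (h i)
        have e1 : ∑ k, F (m + 1) (θ i k) ≤ ∑ k, a i k :=
          Finset.sum_le_sum fun k _ => by rw [Fθ]; exact min_le_right _ _
        have e2 : ∑ k, a i k = (∑ x, f i x) / (N : ℝ) ^ m + m := by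
          simp_rw [ha]
          rw [Finset.sum_add_distrib, ← Finset.sum_div, ← modE2_sum_cons, Finset.sum_const,
            Finset.card_univ, Fintype.card_fin, nsmul_eq_mul]
          field_simp
        have e3 : (∑ k, F (m + 1) (θ i k)) / N ≤ ((∑ x, f i x) / (N : ℝ) ^ m + m) / N :=
          div_le_div_of_nonneg_right (e1.trans e2.le) hN0.le
        have e4 : ((∑ x, f i x) / (N : ℝ) ^ m + m) / N + 1 / N
            = (∑ x, f i x) / (N : ℝ) ^ (m + 1) + ((m + 1 : ℕ) : ℝ) / N := by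
          push_cast
          rw [pow_succ]
          field_simp
          ring
        linarith

end Pool.Agent.Work.MP_0cd883_co.Cube
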