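import Pool.Agent.Work.MP_0cd883_co.Cube.ModA

/-!
The density `f n` of the Irwin-Hall distribution function `F n`, `n ≥ 2`, and its calculus.
-/

namespace Pool.Agent.Work.MP_0cd883_co.Cube

open MeasureTheory Set

/-- the density of `F n` (`n ≥ 2`) -/
noncomputable def f (n : ℕ) (x : ℝ) : ℝ := F (n - 1) x - F (n - 1) (x - 1)

theorem f_succ (n : ℕ) (x : ℝ) : f (n + 1) x = F n x - F n (x - 1) := rfl

theorem f_nonneg (n : ℕ) (x : ℝ) : 0 ≤ f n x := by
  unfold f
  have h := F_mono (n - 1) (show x - 1 ≤ x by linarith)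
  linarith

theorem f_le_one (n : ℕ) (x : ℝ) : f n x ≤ 1 := by
  unfold f
  have h1 := F_le_one (n - 1) x
  have h2 := F_nonneg (n - 1) (x - 1)
  linarith

theorem f_continuous {n : ℕ} (hn : 2 ≤ n) : Continuous (f n) := by
  have h := F_continuous (n := n - 1) (by omega)
  unfold f
  fun_prop

theorem f_eq_zero_left {n : ℕ} (hn : 2 ≤ n) {x : ℝ} (hx : x ≤ 0) : f n x = 0 := by
  unfold f
  rw [F_eq_zero (by omega) hx, F_eq_zero (by omega) (by linarith), sub_zero]

theorem f_eq_zero_right {n : ℕ} (hn : 2 ≤ n) {x : ℝ} (hx : (n : ℝ) ≤ x) : f n x = 0 := by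
  unfold f
  have h1 : ((n - 1 : ℕ) : ℝ) = n - 1 := by rw [Nat.cast_sub (by omega), Nat.cast_one]
  rw [F_eq_one (by rw [h1]; linarith), F_eq_one (by rw [h1]; linarith), sub_self]

theorem f_symm {n : ℕ} (hn : 2 ≤ n) (x : ℝ) : f n (n - x) = f n x := by
  unfold f
  have h1 : ((n - 1 : ℕ) : ℝ) = n - 1 := by rw [Nat.cast_sub (by omega), Nat.cast_one]
  have h2 := F_symm (n := n - 1) (by omega) (x - 1)
  have h3 := F_symm (n := n - 1) (by omega) x
  rw [h1] at h2 h3
  have e2 : (n : ℝ) - 1 - (x - 1) = n - x := by ring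
  have e3 : (n : ℝ) - 1 - x = n - x - 1 := by ring
  rw [e2] at h2
  rw [e3] at h3
  rw [h2, h3]
  ring

theorem f_lip {n : ℕ} (hn : 2 ≤ n) (x y : ℝ) : |f n x - f n y| ≤ |x - y| := by
  wlog h : y ≤ x generalizing x y
  · rw [abs_sub_comm, abs_sub_comm x y]
    exact this y x (le_of_not_ge h)
  unfold f
  have h1 := F_mono (n - 1) h
  have h2 := F_mono (n - 1) (show y - 1 ≤ x - 1 by linarith)
  have h3 := F_lip (n := n - 1) (by omega) x y
  have h4 := F_lip (n := n - 1) (by omega) (x - 1) (y - 1)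
  rw [show x - 1 - (y - 1) = x - y by ring] at h4
  rw [abs_of_nonneg (by linarith)] at h3 h4
  rw [abs_of_nonneg (show 0 ≤ x - y by linarith)] at h3 h4 ⊢
  rw [abs_le]
  constructor <;> linarith

theorem hasDerivAt_F {n : ℕ} (hn : 2 ≤ n) (x : ℝ) : HasDerivAt (F n) (f n x) x := by
  obtain ⟨m, rfl⟩ : ∃ m, n = m + 1 := ⟨n - 1, by omega⟩
  have hm : 1 ≤ m := by omega
  have hc := F_continuous hm
  have e : F (m + 1) = fun t => (∫ v in (0 : ℝ)..t, F m v) - ∫ v in (0 : ℝ)..(t - 1), F m v := by
    funext t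
    rw [F_succ hm t]
    have h1 : ∫ u in (0 : ℝ)..1, F m (t - u) = ∫ v in (t - 1)..(t - 0), F m v :=
      intervalIntegral.integral_comp_sub_left (fun v => F m v) t
    rw [h1, sub_zero]
    exact (intervalIntegral.integral_interval_sub_left (hc.intervalIntegrable _ _)
      (hc.intervalIntegrable _ _)).symm
  rw [e, f_succ]
  have h1 : HasDerivAt (fun t => ∫ v in (0 : ℝ)..t, F m v) (F m x) x :=
    intervalIntegral.integral_hasDerivAt_right (hc.intervalIntegrable _ _)
      (hc.stronglyMeasurableAtFilter _ _) hc.continuousAt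
  have h2 : HasDerivAt (fun t => ∫ v in (0 : ℝ)..t, F m v) (F m (x - 1)) (x - 1) :=
    intervalIntegral.integral_hasDerivAt_right (hc.intervalIntegrable _ _)
      (hc.stronglyMeasurableAtFilter _ _) hc.continuousAt
  have h3 : HasDerivAt (fun t : ℝ => t - 1) 1 x := by
    simpa using (hasDerivAt_id x).sub_const 1
  have h4 := h2.comp x h3
  rw [mul_one] at h4
  exact h1.sub h4

theorem hasDerivAt_f {n : ℕ} (hn : 2 ≤ n) (x : ℝ) :
    HasDerivAt (f (n + 1)) (f n x - f n (x - 1)) x := by
  have e : f (n + 1) = fun t => F n t - F n (t - 1) := by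
    funext t
    exact f_succ n t
  rw [e]
  have h3 : HasDerivAt (fun t : ℝ => t - 1) 1 x := by
    simpa using (hasDerivAt_id x).sub_const 1
  have h4 := (hasDerivAt_F hn (x - 1)).comp x h3
  rw [mul_one] at h4
  exact (hasDerivAt_F hn x).sub h4

theorem modH_const {φ : ℝ → ℝ} (h : ∀ x, HasDerivAt φ 0 x) (h0 : φ 0 = 0) (x : ℝ) : φ x = 0 := by
  have h1 : ∀ x, deriv φ x = 0 := fun x => (h x).deriv
  have h2 : Differentiable ℝ φ := fun x => (h x).differentiableAt
  rw [is_const_of_deriv_eq_zero h2 h1 x 0, h0]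

theorem modH_two (x : ℝ) : 2 * F 2 x = x * F 1 x + (2 - x) * F 1 (x - 1) := by
  have hF1 : ∀ t : ℝ, 0 ≤ t → t ≤ 1 → F 1 t = t := by
    intro t h0 h1
    rw [modA_F_one, min_eq_left h1, max_eq_right h0]
  rcases le_total x 0 with h | h
  · rw [F_eq_zero (by norm_num) h, F_eq_zero le_rfl h, F_eq_zero le_rfl (by linarith)]
    ring
  rcases le_total x 1 with h1 | h1
  · rw [F_two h h1, hF1 x h h1, F_eq_zero le_rfl (by linarith)]
    ring
  rcases le_total x 2 with h2 | h2
  · have h3 := F_symm (n := 2) (by norm_num) (2 - x)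
    have e : ((2 : ℕ) : ℝ) - (2 - x) = x := by push_cast; ring
    rw [e, F_two (t := 2 - x) (by linarith) (by linarith)] at h3
    rw [h3, hF1 (x - 1) (by linarith) (by linarith), F_eq_one (by push_cast; linarith)]
    ring
  · rw [F_eq_one (by push_cast; linarith), F_eq_one (by push_cast; linarith),
      F_eq_one (by push_cast; linarith)]
    ring

/-- the recursion of the distribution functions -/
theorem F_rec {n : ℕ} (hn : 1 ≤ n) (x : ℝ) :
    ((n : ℝ) + 1) * F (n + 1) x = x * F n x + (n + 1 - x) * F n (x - 1) := by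
  induction n, hn using Nat.le_induction generalizing x with
  | base =>
    have h := modH_two x
    push_cast
    rw [show (1 : ℝ) + 1 = 2 by norm_num]
    exact h
  | succ n hn ih =>
    have key : ∀ y, HasDerivAt (fun y : ℝ => (((n + 1 : ℕ) : ℝ) + 1) * F (n + 1 + 1) y -
        (y * F (n + 1) y + (((n + 1 : ℕ) : ℝ) + 1 - y) * F (n + 1) (y - 1))) 0 y := by
      intro y
      have h1 := (hasDerivAt_F (n := n + 1 + 1) (by omega) y).const_mul (((n + 1 : ℕ) : ℝ) + 1)
      have hF := hasDerivAt_F (n := n + 1) (by omega) y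
      have h2 := (hasDerivAt_id y).mul hF
      have h3 : HasDerivAt (fun t : ℝ => t - 1) 1 y := by
        simpa using (hasDerivAt_id y).sub_const 1
      have h4 := (hasDerivAt_F (n := n + 1) (by omega) (y - 1)).comp y h3
      have h5 : HasDerivAt (fun t : ℝ => ((n + 1 : ℕ) : ℝ) + 1 - t) (-1) y := by
        simpa using (hasDerivAt_id y).const_sub (((n + 1 : ℕ) : ℝ) + 1)
      have h6 := h1.sub (h2.add (h5.mul h4))
      refine h6.congr_deriv ?_
      simp only [id, f_succ, Function.comp, mul_one, one_mul]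
      have i1 := ih y
      have i2 := ih (y - 1)
      push_cast
      linear_combination i1 - i2
    have h := modH_const key (by
      rw [F_eq_zero (by omega) le_rfl, F_eq_zero (by omega) le_rfl,
        F_eq_zero (by omega) (by norm_num)]
      ring) x
    exact sub_eq_zero.1 h

/-- the recursion of the densities -/
theorem f_rec {n : ℕ} (hn : 2 ≤ n) (x : ℝ) :
    (n : ℝ) * f (n + 1) x = x * f n x + (n + 1 - x) * f n (x - 1) := by
  obtain ⟨m, rfl⟩ : ∃ m, n = m + 1 := ⟨n - 1, by omega⟩
  have h1 := F_rec (n := m) (by omega) x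
  have h2 := F_rec (n := m) (by omega) (x - 1)
  rw [f_succ, f_succ, f_succ]
  push_cast
  linear_combination h1 - h2

theorem f_two_mono {x y : ℝ} (hxy : x ≤ y) (hy : y ≤ 1) : f 2 x ≤ f 2 y := by
  unfold f
  show F 1 x - F 1 (x - 1) ≤ F 1 y - F 1 (y - 1)
  rw [F_eq_zero le_rfl (show x - 1 ≤ 0 by linarith), F_eq_zero le_rfl (show y - 1 ≤ 0 by linarith)]
  have := F_mono 1 hxy
  linarith

/-- the density is increasing up to the middle -/
theorem f_monoOn {n : ℕ} (hn : 2 ≤ n) : MonotoneOn (f n) (Iic ((n : ℝ) / 2)) := by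
  induction n, hn using Nat.le_induction with
  | base =>
    intro x _ y hy hxy
    refine f_two_mono hxy ?_
    have h : y ≤ ((2 : ℕ) : ℝ) / 2 := hy
    push_cast at h
    linarith
  | succ n hn ih =>
    refine monotoneOn_of_deriv_nonneg (convex_Iic _) (f_continuous (by omega)).continuousOn
      (fun x _ => (hasDerivAt_f hn x).differentiableAt.differentiableWithinAt) ?_
    intro x hx
    rw [interior_Iic] at hx
    have hx' : x < ((n + 1 : ℕ) : ℝ) / 2 := hx
    push_cast at hx'
    rw [(hasDerivAt_f hn x).deriv]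
    rcases le_total x (n / 2) with h | h
    · have h1 := ih (show x - 1 ≤ (n : ℝ) / 2 by linarith) h (by linarith)
      linarith
    · have h1 := ih (show x - 1 ≤ (n : ℝ) / 2 by linarith) (show (n : ℝ) - x ≤ n / 2 by linarith)
        (by linarith)
      rw [f_symm hn] at h1
      linarith

theorem f_pos {n : ℕ} (hn : 2 ≤ n) {x : ℝ} (h0 : 0 < x) (h1 : x < n) : 0 < f n x := by
  obtain ⟨m, rfl⟩ : ∃ m, n = m + 1 := ⟨n - 1, by omega⟩
  have hm : 1 ≤ m := by omega
  rw [f_succ]
  push_cast at h1
  have hm' : (1 : ℝ) ≤ m := by exact_mod_cast hm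
  have ha : F m (max (x - 1) 0) = F m (x - 1) := by
    rcases le_total (x - 1) 0 with h | h
    · rw [max_eq_right h, F_eq_zero hm h, F_eq_zero hm le_rfl]
    · rw [max_eq_left h]
  have hb : F m (min x m) = F m x := by
    rcases le_total x m with h | h
    · rw [min_eq_left h]
    · rw [min_eq_right h, F_eq_one le_rfl, F_eq_one h]
  have h2 : max (x - 1) 0 < min x m :=
    max_lt (lt_min (by linarith) (by linarith)) (lt_min h0 (by linarith))
  have h3 := F_strictMonoOn hm (a := max (x - 1) 0) (b := min x m)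
    ⟨le_max_right _ _, h2.le.trans (min_le_right _ _)⟩
    ⟨(le_max_right _ _).trans h2.le, min_le_right _ _⟩ h2
  rw [ha, hb] at h3
  linarith

/-- the lower Taylor bound -/
theorem F_add_ge {n : ℕ} (hn : 2 ≤ n) (x h : ℝ) :
    F n x + f n x * h - h ^ 2 / 2 ≤ F n (x + h) := by
  have hd : ∀ s : ℝ, HasDerivAt (fun s : ℝ => F n (x + s) - f n x * s + s ^ 2 / 2)
      (f n (x + s) - f n x + s) s := by
    intro s
    have h1 : HasDerivAt (fun t : ℝ => x + t) 1 s := by
      simpa using (hasDerivAt_id s).const_add x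
    have h2 := (hasDerivAt_F hn (x + s)).comp s h1
    have h3 := (hasDerivAt_id s).const_mul (f n x)
    have h4 := (hasDerivAt_pow 2 s).div_const 2
    have h5 := (h2.sub h3).add h4
    refine h5.congr_deriv ?_
    simp only [mul_one]
    push_cast
    ring
  have hc : Continuous (fun s : ℝ => F n (x + s) - f n x * s + s ^ 2 / 2) :=
    continuous_iff_continuousAt.2 fun s => (hd s).continuousAt
  have key : F n x ≤ F n (x + h) - f n x * h + h ^ 2 / 2 := by
    rcases le_total 0 h with h0 | h0
    · have hm : MonotoneOn (fun s : ℝ => F n (x + s) - f n x * s + s ^ 2 / 2) (Ici 0) := by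
        refine monotoneOn_of_deriv_nonneg (convex_Ici _) hc.continuousOn
          (fun s _ => (hd s).differentiableAt.differentiableWithinAt) fun s hs => ?_
        rw [interior_Ici] at hs
        have hs' : 0 < s := hs
        rw [(hd s).deriv]
        have h1 := f_lip hn (x + s) x
        rw [show x + s - x = s by ring, abs_of_pos hs', abs_le] at h1
        linarith [h1.1]
      have h1 := hm (mem_Ici.2 le_rfl : (0 : ℝ) ∈ Ici (0 : ℝ)) h0 h0
      simp only [add_zero, mul_zero, sub_zero] at h1
      have e : F n x + 0 ^ 2 / 2 = F n x := by ring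
      linarith
    · have hm : AntitoneOn (fun s : ℝ => F n (x + s) - f n x * s + s ^ 2 / 2) (Iic 0) := by
        refine antitoneOn_of_deriv_nonpos (convex_Iic _) hc.continuousOn
          (fun s _ => (hd s).differentiableAt.differentiableWithinAt) fun s hs => ?_
        rw [interior_Iic] at hs
        have hs' : s < 0 := hs
        rw [(hd s).deriv]
        have h1 := f_lip hn (x + s) x
        rw [show x + s - x = s by ring, abs_of_neg hs', abs_le] at h1
        linarith [h1.2]
      have h1 := hm h0 (mem_Iic.2 le_rfl : (0 : ℝ) ∈ Iic (0 : ℝ)) h0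
      simp only [add_zero, mul_zero, sub_zero] at h1
      have e : F n x + 0 ^ 2 / 2 = F n x := by ring
      linarith
  linarith

end Pool.Agent.Work.MP_0cd883_co.Cube
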