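import Pool.Agent.Work.MP_0cd883_co.Cube.ModH

/-!
Log-derivative estimates of the densities `f n` (step 3 of note 2282).
-/

namespace Pool.Agent.Work.MP_0cd883_co.Cube

open MeasureTheory Set

namespace ModI

/-! ### an inequality for hyperbolic functions -/

lemma tanh_le {w : ℝ} (hw : 0 ≤ w) : Real.sinh w ≤ w * Real.cosh w := by
  have hd : ∀ s : ℝ, HasDerivAt (fun s : ℝ => s * Real.cosh s - Real.sinh s)
      (s * Real.sinh s) s := by
    intro s
    have h := ((hasDerivAt_id s).mul (Real.hasDerivAt_cosh s)).sub (Real.hasDerivAt_sinh s)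
    refine h.congr_deriv ?_
    simp only [id, one_mul]
    ring
  have hm : MonotoneOn (fun s : ℝ => s * Real.cosh s - Real.sinh s) (Ici 0) := by
    refine monotoneOn_of_deriv_nonneg (convex_Ici _)
      (fun s _ => (hd s).continuousAt.continuousWithinAt)
      (fun s _ => (hd s).differentiableAt.differentiableWithinAt) fun s hs => ?_
    rw [interior_Ici] at hs
    have hs' : 0 < s := hs
    rw [(hd s).deriv]
    exact mul_nonneg hs'.le (Real.sinh_nonneg_iff.2 hs'.le)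
  have h := hm (mem_Ici.2 le_rfl : (0 : ℝ) ∈ Ici (0 : ℝ)) (mem_Ici.2 hw) hw
  simp only [zero_mul, Real.sinh_zero, sub_zero] at h
  linarith

lemma cosh_le {w : ℝ} (hw : 0 ≤ w) : w * Real.cosh w ≤ (1 + w ^ 2 / 3) * Real.sinh w := by
  have hd : ∀ s : ℝ, HasDerivAt (fun s : ℝ => (1 + s ^ 2 / 3) * Real.sinh s - s * Real.cosh s)
      (s / 3 * (s * Real.cosh s - Real.sinh s)) s := by
    intro s
    have h1 : HasDerivAt (fun s : ℝ => 1 + s ^ 2 / 3) (2 * s / 3) s := by
      have := ((hasDerivAt_pow 2 s).div_const 3).const_add 1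
      refine this.congr_deriv ?_
      push_cast
      ring
    have h := (h1.mul (Real.hasDerivAt_sinh s)).sub
      ((hasDerivAt_id s).mul (Real.hasDerivAt_cosh s))
    refine h.congr_deriv ?_
    simp only [id, one_mul]
    ring
  have hm : MonotoneOn (fun s : ℝ => (1 + s ^ 2 / 3) * Real.sinh s - s * Real.cosh s) (Ici 0) := by
    refine monotoneOn_of_deriv_nonneg (convex_Ici _)
      (fun s _ => (hd s).continuousAt.continuousWithinAt)
      (fun s _ => (hd s).differentiableAt.differentiableWithinAt) fun s hs => ?_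
    rw [interior_Ici] at hs
    have hs' : 0 < s := hs
    rw [(hd s).deriv]
    have := tanh_le hs'.le
    exact mul_nonneg (by positivity) (by linarith)
  have h := hm (mem_Ici.2 le_rfl : (0 : ℝ) ∈ Ici (0 : ℝ)) (mem_Ici.2 hw) hw
  simp only [zero_mul, Real.sinh_zero, mul_zero, sub_zero] at h
  linarith

lemma exp_key {w t : ℝ} (hw : 0 ≤ w) (ht : 1 / 3 ≤ t) :
    Real.exp (-(2 * w)) * (1 + w + t * w ^ 2) ≤ 1 - w + t * w ^ 2 := by
  have h1 := cosh_le hw
  have h2 : 0 ≤ Real.sinh w := Real.sinh_nonneg_iff.2 hw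
  have h3 : w * Real.cosh w ≤ (1 + t * w ^ 2) * Real.sinh w :=
    h1.trans (mul_le_mul_of_nonneg_right (by nlinarith [sq_nonneg w]) h2)
  have h4 : 0 < Real.exp (-w) := Real.exp_pos _
  have e1 : Real.exp (-(2 * w)) = Real.exp (-w) * Real.exp (-w) := by
    rw [← Real.exp_add]; congr 1; ring
  have e2 : Real.exp (-w) * Real.exp w = 1 := by rw [← Real.exp_add]; simp
  rw [Real.cosh_eq, Real.sinh_eq] at h3
  rw [e1]
  have h5 : Real.exp (-w) * (w * ((Real.exp w + Real.exp (-w)) / 2)) ≤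
      Real.exp (-w) * ((1 + t * w ^ 2) * ((Real.exp w - Real.exp (-w)) / 2)) :=
    mul_le_mul_of_nonneg_left h3 h4.le
  have e3 : Real.exp (-w) * (w * ((Real.exp w + Real.exp (-w)) / 2)) =
      w * (1 + Real.exp (-w) * Real.exp (-w)) / 2 := by
    rw [← e2]; ring
  have e4 : Real.exp (-w) * ((1 + t * w ^ 2) * ((Real.exp w - Real.exp (-w)) / 2)) =
      (1 + t * w ^ 2) * (1 - Real.exp (-w) * Real.exp (-w)) / 2 := by
    rw [← e2]; ring
  rw [e3, e4] at h5
  nlinarith

/-! ### small cases -/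

lemma F_one_mid {t : ℝ} (h0 : 0 ≤ t) (h1 : t ≤ 1) : F 1 t = t := by
  rw [modA_F_one, min_eq_left h1, max_eq_right h0]

lemma f_two_left {x : ℝ} (h0 : 0 ≤ x) (h1 : x ≤ 1) : f 2 x = x := by
  show F 1 x - F 1 (x - 1) = x
  rw [F_one_mid h0 h1, F_eq_zero le_rfl (by linarith), sub_zero]

lemma f_two_right {x : ℝ} (h0 : 1 ≤ x) (h1 : x ≤ 2) : f 2 x = 2 - x := by
  show F 1 x - F 1 (x - 1) = 2 - x
  rw [F_eq_one (by push_cast; linarith), F_one_mid (by linarith) (by linarith)]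
  ring

lemma f_three_left {x : ℝ} (h0 : 0 ≤ x) (h1 : x ≤ 1) : f 3 x = x ^ 2 / 2 := by
  have h := f_rec (n := 2) le_rfl x
  rw [f_two_left h0 h1, f_eq_zero_left le_rfl (show x - 1 ≤ 0 by linarith)] at h
  push_cast at h
  norm_num at h
  linarith

lemma f_three_mid {x : ℝ} (h0 : 1 ≤ x) (h1 : x ≤ 2) : f 3 x = (-2 * x ^ 2 + 6 * x - 3) / 2 := by
  have h := f_rec (n := 2) le_rfl x
  rw [f_two_right h0 h1, f_two_left (by linarith) (by linarith)] at h
  push_cast at h
  norm_num at h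
  linarith

lemma f_four_left {x : ℝ} (h0 : 0 ≤ x) (h1 : x ≤ 1) : f 4 x = x ^ 3 / 6 := by
  have h := f_rec (n := 3) (by norm_num) x
  rw [f_three_left h0 h1, f_eq_zero_left (by norm_num) (show x - 1 ≤ 0 by linarith)] at h
  push_cast at h
  norm_num at h
  linarith

lemma f_four_mid {x : ℝ} (h0 : 1 ≤ x) (h1 : x ≤ 2) :
    f 4 x = (x ^ 3 - 4 * (x - 1) ^ 3) / 6 := by
  have h := f_rec (n := 3) (by norm_num) x
  rw [f_three_mid h0 h1, f_three_left (by linarith) (by linarith)] at h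
  push_cast at h
  norm_num at h
  linarith

/-! ### the log-derivative -/

/-- the derivative inequality -/
def DI (n : ℕ) : Prop := ∀ x : ℝ, x ≤ (n : ℝ) / 2 →
  24 / (5 * (n : ℝ)) * (n - 2 * x) * f n x ≤ f (n - 1) x - f (n - 1) (x - 1)

/-- the two point inequality -/
def TP (n : ℕ) : Prop := ∀ x y : ℝ, y ≤ x → x + y ≤ n →
  f n y ≤ f n x * Real.exp (-(24 / (5 * (n : ℝ)) * (x - y) * (n - x - y)))

lemma di_four : DI 4 := by
  intro x hx
  push_cast at hx
  show 24 / (5 * ((4 : ℕ) : ℝ)) * (((4 : ℕ) : ℝ) - 2 * x) * f 4 x ≤ f 3 x - f 3 (x - 1)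
  push_cast
  rcases le_total x 0 with h | h
  · rw [f_eq_zero_left (by norm_num) h, f_eq_zero_left (by norm_num) h,
      f_eq_zero_left (by norm_num) (by linarith)]
    norm_num
  rcases le_total x 1 with h1 | h1
  · rw [f_four_left h h1, f_three_left h h1, f_eq_zero_left (by norm_num) (by linarith)]
    nlinarith [mul_nonneg (sq_nonneg x) (sq_nonneg (x - 1)), sq_nonneg x]
  · rw [f_four_mid h1 (by linarith), f_three_mid h1 (by linarith),
      f_three_left (by linarith) (by linarith)]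
    obtain ⟨s, rfl⟩ : ∃ s : ℝ, x = 2 - s := ⟨2 - x, by ring⟩
    have hs0 : 0 ≤ s := by linarith
    have hs1 : s ≤ 1 := by linarith
    have key : 0 ≤ 2 / 5 - 3 / 2 * s + 12 / 5 * s ^ 2 - 6 / 5 * s ^ 3 := by
      nlinarith [mul_nonneg (sub_nonneg.2 hs1) (sq_nonneg (s - 11 / 20)),
        mul_nonneg hs0 (sq_nonneg (s - 11 / 20)), mul_nonneg hs0 (sub_nonneg.2 hs1),
        sq_nonneg (s - 11 / 20)]
    nlinarith [mul_nonneg hs0 key]

lemma tp_of_di {n : ℕ} (hn : 3 ≤ n) (h : DI n) : TP n := by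
  have hn0 : (0 : ℝ) < n := by exact_mod_cast (by omega : 0 < n)
  obtain ⟨κ, hκ⟩ : ∃ κ : ℝ, κ = 24 / (5 * (n : ℝ)) := ⟨_, rfl⟩
  have hd : ∀ s : ℝ, HasDerivAt (fun s : ℝ => f n s * Real.exp (-(κ * (s * (n - s)))))
      ((f (n - 1) s - f (n - 1) (s - 1) - κ * (n - 2 * s) * f n s) *
        Real.exp (-(κ * (s * (n - s))))) s := by
    intro s
    have h1 : HasDerivAt (f n) (f (n - 1) s - f (n - 1) (s - 1)) s := by
      have := hasDerivAt_f (n := n - 1) (by omega) s
      rwa [show n - 1 + 1 = n by omega] at this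
    have h2 : HasDerivAt (fun s : ℝ => -(κ * (s * (n - s)))) (-(κ * (n - 2 * s))) s := by
      have h3 := ((hasDerivAt_id s).mul ((hasDerivAt_id s).const_sub (n : ℝ)))
      have h4 := (h3.const_mul κ).neg
      refine h4.congr_deriv ?_
      simp only [id]
      ring
    have h5 := h1.mul h2.exp
    refine h5.congr_deriv ?_
    ring
  have hm : MonotoneOn (fun s : ℝ => f n s * Real.exp (-(κ * (s * (n - s))))) (Iic ((n : ℝ) / 2)) := by
    refine monotoneOn_of_deriv_nonneg (convex_Iic _)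
      (fun s _ => (hd s).continuousAt.continuousWithinAt)
      (fun s _ => (hd s).differentiableAt.differentiableWithinAt) fun s hs => ?_
    rw [interior_Iic] at hs
    have hs' : s < (n : ℝ) / 2 := hs
    rw [(hd s).deriv]
    have h1 := h s hs'.le
    rw [← hκ] at h1
    exact mul_nonneg (by linarith) (Real.exp_pos _).le
  have hmain : ∀ x y : ℝ, y ≤ x → x ≤ (n : ℝ) / 2 →
      f n y ≤ f n x * Real.exp (-(κ * (x - y) * (n - x - y))) := by
    intro x y hyx hx
    have h1 := hm (show y ≤ (n : ℝ) / 2 by linarith) hx hyx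
    simp only at h1
    have h2 := mul_le_mul_of_nonneg_right h1 (Real.exp_pos (κ * (y * (n - y)))).le
    rw [mul_assoc, ← Real.exp_add, mul_assoc, ← Real.exp_add] at h2
    rw [show -(κ * (y * (n - y))) + κ * (y * (n - y)) = 0 by ring, Real.exp_zero, mul_one,
      show -(κ * (x * (n - x))) + κ * (y * (n - y)) = -(κ * (x - y) * (n - x - y)) by ring] at h2
    exact h2
  intro x y hyx hxy
  rw [← hκ]
  rcases le_total x (n / 2) with hx | hx
  · exact hmain x y hyx hx
  · have h1 := hmain (n - x) y (by linarith) (by linarith)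
    rw [f_symm (by omega)] at h1
    rw [show κ * ((n : ℝ) - x - y) * (n - (n - x) - y) = κ * (x - y) * (n - x - y) by ring] at h1
    exact h1

lemma di_succ {n : ℕ} (hn : 4 ≤ n) (h : TP n) : DI (n + 1) := by
  intro x hx
  push_cast at hx
  show 24 / (5 * ((n + 1 : ℕ) : ℝ)) * (((n + 1 : ℕ) : ℝ) - 2 * x) * f (n + 1) x ≤
    f n x - f n (x - 1)
  have hn4 : (4 : ℝ) ≤ n := by exact_mod_cast hn
  have hn0 : (0 : ℝ) < n := by linarith
  rcases le_or_gt x 0 with h0 | h0
  · rw [f_eq_zero_left (by omega) h0, f_eq_zero_left (by omega) h0,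
      f_eq_zero_left (by omega) (by linarith)]
    norm_num
  push_cast
  obtain ⟨w, hw⟩ : ∃ w : ℝ, w = 12 / (5 * (n : ℝ)) * (n + 1 - 2 * x) := ⟨_, rfl⟩
  have hw0 : 0 ≤ w := by
    rw [hw]
    have : 0 ≤ (n : ℝ) + 1 - 2 * x := by linarith
    positivity
  have hr := f_rec (n := n) (by omega) x
  have ha : 0 ≤ f n x := f_nonneg n x
  have hb : 0 ≤ f n (x - 1) := f_nonneg n _
  have hba : f n (x - 1) ≤ f n x * Real.exp (-(2 * w)) := by
    have h1 := h x (x - 1) (by linarith) (by linarith)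
    rw [show 24 / (5 * (n : ℝ)) * (x - (x - 1)) * (n - x - (x - 1)) = 2 * w by rw [hw]; ring] at h1
    exact h1
  set a := f n x with had
  set b := f n (x - 1) with hbd
  obtain ⟨t, ht⟩ : ∃ t : ℝ, t = 5 * n / (12 * (n + 1)) := ⟨_, rfl⟩
  have ht3 : 1 / 3 ≤ t := by
    rw [ht, div_le_div_iff₀ (by norm_num) (by positivity)]
    linarith
  have hkey := exp_key hw0 ht3
  -- the coefficients
  have ec1 : 24 / (5 * ((n : ℝ) + 1)) * (n + 1 - 2 * x) * (x / n) = w - t * w ^ 2 := by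
    rw [ht, hw]
    field_simp
    ring
  have ec2 : 24 / (5 * ((n : ℝ) + 1)) * (n + 1 - 2 * x) * ((n + 1 - x) / n) = w + t * w ^ 2 := by
    rw [ht, hw]
    field_simp
    ring
  have e3 : f (n + 1) x = x / n * a + (n + 1 - x) / n * b := by
    field_simp
    linarith
  have e4 : 24 / (5 * ((n : ℝ) + 1)) * (n + 1 - 2 * x) * f (n + 1) x =
      (w - t * w ^ 2) * a + (w + t * w ^ 2) * b := by
    rw [e3, ← ec1, ← ec2]
    ring
  rw [e4]
  have h5 : (1 + w + t * w ^ 2) * b ≤ (1 - w + t * w ^ 2) * a := by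
    have h6 : 0 ≤ 1 + w + t * w ^ 2 := by
      have : 0 ≤ t * w ^ 2 := mul_nonneg (by linarith) (sq_nonneg _)
      linarith
    calc (1 + w + t * w ^ 2) * b ≤ (1 + w + t * w ^ 2) * (a * Real.exp (-(2 * w))) :=
          mul_le_mul_of_nonneg_left hba h6
      _ = (Real.exp (-(2 * w)) * (1 + w + t * w ^ 2)) * a := by ring
      _ ≤ (1 - w + t * w ^ 2) * a := mul_le_mul_of_nonneg_right hkey ha
  linarith

theorem di_all {n : ℕ} (hn : 4 ≤ n) : DI n := by
  induction n, hn using Nat.le_induction with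
  | base => exact di_four
  | succ n hn ih => exact di_succ hn (tp_of_di (by omega) ih)

end ModI

/-- LinI: `f n x * exp (- 24 / (5 n) * x (n - x))` is increasing up to the middle -/
theorem f_log {n : ℕ} (hn : 4 ≤ n) {x y : ℝ} (hyx : y ≤ x) (hxy : x + y ≤ n) :
    f n y ≤ f n x * Real.exp (-(24 / (5 * (n : ℝ)) * (x - y) * (n - x - y))) :=
  ModI.tp_of_di (by omega) (ModI.di_all hn) x y hyx hxy

/-- the growth of `f n` is at most that of `x ^ (n - 1)` -/
theorem f_growth {n : ℕ} (hn : 3 ≤ n) {x y : ℝ} (hy : 0 < y) (hyx : y ≤ x) :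
    f n x * y ^ (n - 1) ≤ f n y * x ^ (n - 1) := by
  obtain ⟨m, rfl⟩ : ∃ m, n = m + 1 := ⟨n - 1, by omega⟩
  have hm : 2 ≤ m := by omega
  rw [Nat.add_sub_cancel]
  have hd : ∀ s : ℝ, 0 < s → HasDerivAt (fun s : ℝ => f (m + 1) s / s ^ m)
      (((f m s - f m (s - 1)) * s ^ m - f (m + 1) s * (m * s ^ (m - 1))) / (s ^ m) ^ 2) s := by
    intro s hs
    exact (hasDerivAt_f hm s).div (hasDerivAt_pow m s) (by positivity)
  have ha : AntitoneOn (fun s : ℝ => f (m + 1) s / s ^ m) (Ici y) := by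
    refine antitoneOn_of_deriv_nonpos (convex_Ici _)
      (fun s hs => (hd s (hy.trans_le hs)).continuousAt.continuousWithinAt)
      (fun s hs => ?_) fun s hs => ?_
    · rw [interior_Ici] at hs
      exact (hd s (hy.trans hs)).differentiableAt.differentiableWithinAt
    · rw [interior_Ici] at hs
      have hs0 : 0 < s := hy.trans hs
      rw [(hd s hs0).deriv]
      refine div_nonpos_of_nonpos_of_nonneg ?_ (by positivity)
      have h1 := f_rec hm s
      have h2 : s ^ m = s * s ^ (m - 1) := by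
        rw [← pow_succ', Nat.sub_add_cancel (by omega)]
      have h3 : 0 < s ^ (m - 1) := by positivity
      have h4 : 0 ≤ f m (s - 1) := f_nonneg m _
      rw [h2]
      have h5 : (f m s - f m (s - 1)) * (s * s ^ (m - 1)) - f (m + 1) s * (m * s ^ (m - 1)) =
          -((m + 1) * f m (s - 1) * s ^ (m - 1)) := by
        linear_combination (-s ^ (m - 1)) * h1
      rw [h5]
      have : 0 ≤ ((m : ℝ) + 1) * f m (s - 1) * s ^ (m - 1) := by positivity
      linarith
  have h := ha (mem_Ici.2 le_rfl) (mem_Ici.2 hyx) hyx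
  simp only at h
  have hx : 0 < x := hy.trans_le hyx
  rw [div_le_div_iff₀ (by positivity) (by positivity)] at h
  exact h

namespace ModI

lemma f_le_of {n : ℕ} (hn : 4 ≤ n) {x y : ℝ} (hyx : y ≤ x) (hxy : x + y ≤ n) : f n y ≤ f n x := by
  have h := f_log hn hyx hxy
  have h1 : 0 ≤ 24 / (5 * (n : ℝ)) * (x - y) * (n - x - y) := by
    have h2 : 0 ≤ x - y := by linarith
    have h3 : 0 ≤ (n : ℝ) - x - y := by linarith
    positivity
  have h4 : Real.exp (-(24 / (5 * (n : ℝ)) * (x - y) * (n - x - y))) ≤ 1 :=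
    Real.exp_le_one_iff.2 (by linarith)
  exact h.trans (mul_le_of_le_one_right (f_nonneg n x) h4)

/-- the two point inequality with a lower bound of the exponent -/
lemma f_log' {n : ℕ} (hn : 4 ≤ n) {x y E : ℝ} (hyx : y ≤ x) (hxy : x + y ≤ n)
    (hE : E * n ≤ 24 / 5 * ((x - y) * (n - x - y))) : f n y ≤ f n x * Real.exp (-E) := by
  have h := f_log hn hyx hxy
  have hn0 : (0 : ℝ) < n := by exact_mod_cast (by omega : 0 < n)
  have h1 : E ≤ 24 / (5 * (n : ℝ)) * (x - y) * (n - x - y) := by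
    have e : 24 / (5 * (n : ℝ)) * (x - y) * (n - x - y) =
        24 / 5 * ((x - y) * (n - x - y)) / n := by
      field_simp
    rw [e, le_div_iff₀ hn0]
    exact hE
  refine h.trans (mul_le_mul_of_nonneg_left ?_ (f_nonneg n x))
  exact Real.exp_le_exp.2 (by linarith)

lemma exp_a : Real.exp (-(8 / 5)) ≤ 202 / 1000 := by
  have h1 : (2.7182818283 : ℝ) < Real.exp 1 := Real.exp_one_gt_d9
  have h2 : Real.exp (8 / 5) ^ 5 = Real.exp 1 ^ 8 := by
    rw [← Real.exp_nat_mul, ← Real.exp_nat_mul]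
    norm_num
  have h3 : (1000 / 202 : ℝ) ≤ Real.exp (8 / 5) := by
    refine le_of_pow_le_pow_left₀ (n := 5) (by norm_num) (Real.exp_pos _).le ?_
    rw [h2]
    calc (1000 / 202 : ℝ) ^ 5 ≤ 2.7182818283 ^ 8 := by norm_num
      _ ≤ Real.exp 1 ^ 8 := pow_le_pow_left₀ (by norm_num) h1.le 8
  rw [Real.exp_neg]
  rw [show (202 / 1000 : ℝ) = (1000 / 202)⁻¹ by norm_num]
  exact inv_anti₀ (by norm_num) h3

lemma exp_b {h : ℝ} (hh : 77 / 1000 ≤ h) : Real.exp (-(8 / 5 * (1 + 3 * h))) ≤ 14 / 100 := by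
  have h1 : (2.7182818283 : ℝ) < Real.exp 1 := Real.exp_one_gt_d9
  have h2 : Real.exp 2 = Real.exp 1 ^ 2 := by
    rw [← Real.exp_nat_mul]
    norm_num
  have h3 : (1 : ℝ) - 304 / 10000 ≤ Real.exp (-(304 / 10000)) := by
    have := Real.add_one_le_exp (-(304 / 10000 : ℝ))
    linarith
  have h4 : (100 / 14 : ℝ) ≤ Real.exp (8 / 5 * (1 + 3 * h)) := by
    calc (100 / 14 : ℝ) ≤ 2.7182818283 ^ 2 * (1 - 304 / 10000) := by norm_num
      _ ≤ Real.exp 1 ^ 2 * Real.exp (-(304 / 10000)) := by gcongr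
      _ = Real.exp (2 + -(304 / 10000)) := by rw [Real.exp_add, h2]
      _ ≤ Real.exp (8 / 5 * (1 + 3 * h)) := Real.exp_le_exp.2 (by linarith)
  rw [Real.exp_neg, show (14 / 100 : ℝ) = (100 / 14)⁻¹ by norm_num]
  exact inv_anti₀ (by norm_num) h4

/-- bounds of the critical level -/
lemma crit_bounds {d : ℕ} (hd : 5 ≤ d) {h : ℝ} (h0 : 0 < h) (h1 : h < d / 6)
    (hc : f d (d / 3 + h) = 2 * f d (d / 3 - 2 * h)) : 77 / 1000 ≤ h ∧ h ≤ 1445 / 10000 := by
  have hd5 : (5 : ℝ) ≤ d := by exact_mod_cast hd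
  have hd0 : (0 : ℝ) < d := by linarith
  have hpos : 0 < f d (d / 3 + h) := f_pos (by omega) (by linarith) (by linarith)
  have hlog1 := Real.log_two_lt_d9
  have hlog2 := Real.log_two_gt_d9
  have hup : h ≤ 1445 / 10000 := by
    have h2 := f_log' (n := d) (by omega) (x := d / 3 + h) (y := d / 3 - 2 * h) (E := 24 / 5 * h)
      (by linarith) (by linarith) (by nlinarith [mul_nonneg h0.le h0.le])
    have h3 : 1 / 2 ≤ Real.exp (-(24 / 5 * h)) := by
      by_contra hcon
      push Not at hcon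
      have h4 := mul_lt_mul_of_pos_left hcon hpos
      linarith
    have h4 := Real.log_le_log (by norm_num) h3
    rw [Real.log_exp, one_div, Real.log_inv] at h4
    linarith
  refine ⟨?_, hup⟩
  have hu : 0 < (d : ℝ) / 3 - 2 * h := by linarith
  have h2 := f_growth (n := d) (by omega) (x := d / 3 + h) (y := d / 3 - 2 * h) hu (by linarith)
  have hfu : 0 < f d (d / 3 - 2 * h) := f_pos (by omega) hu (by linarith)
  rw [hc] at h2
  obtain ⟨u, hud⟩ : ∃ u : ℝ, u = d / 3 - 2 * h := ⟨_, rfl⟩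
  rw [← hud] at h2 hfu hu
  have hcu : (d : ℝ) / 3 + h = u * (1 + 3 * h / u) := by
    field_simp
    rw [hud]; ring
  rw [hcu, mul_pow] at h2
  have hup0 : 0 < u ^ (d - 1) := by positivity
  have h3 : 2 ≤ (1 + 3 * h / u) ^ (d - 1) := by
    by_contra hcon
    push Not at hcon
    have h4 : f d u * (u ^ (d - 1) * (1 + 3 * h / u) ^ (d - 1)) < f d u * (u ^ (d - 1) * 2) := by
      gcongr
    linarith
  have h5 : (1 + 3 * h / u) ^ (d - 1) ≤ Real.exp (3 * h / u) ^ (d - 1) := by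
    refine pow_le_pow_left₀ (by positivity) ?_ _
    have := Real.add_one_le_exp (3 * h / u)
    linarith
  have h6 : Real.exp (3 * h / u) ^ (d - 1) ≤ Real.exp (9 * h) := by
    rw [← Real.exp_nat_mul]
    refine Real.exp_le_exp.2 ?_
    rw [Nat.cast_sub (by omega), Nat.cast_one, mul_div_assoc', div_le_iff₀ hu, hud]
    nlinarith
  have h7 := Real.log_le_log (by norm_num) (h3.trans (h5.trans h6))
  rw [Real.log_exp] at h7
  linarith

/-- (C1), (C2) for `d ≥ 5` -/
lemma crit_big {d : ℕ} (hd : 5 ≤ d) {h q : ℝ} (h0 : 0 < h) (h1 : h < d / 6)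
    (hc : f d (d / 3 + h) = 2 * f d (d / 3 - 2 * h)) (hq0 : 0 ≤ q)
    (hq1 : q ≤ (d / 3 + h - 1) / 2) :
    2 * f (d - 1) (d / 3 + h - 1 - 2 * q) + 4 * f (d - 1) (2 * (d / 3 + h) + 2 * q) ≤
      f (d - 1) (d / 3 + h + q) ∧
    2 * f (d - 1) (d / 3 + h - 1 - 2 * q) ≤ f (d - 1) (2 * (d / 3 + h) - 1 - q) := by
  obtain ⟨hlo, hhi⟩ := crit_bounds hd h0 h1 hc
  have hd5 : (5 : ℝ) ≤ d := by exact_mod_cast hd
  have hm4 : 4 ≤ d - 1 := by omega
  have hm : ((d - 1 : ℕ) : ℝ) = d - 1 := by rw [Nat.cast_sub (by omega), Nat.cast_one]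
  obtain ⟨D, hD⟩ : ∃ D : ℝ, D = d / 3 - 1 := ⟨_, rfl⟩
  have hdD : (d : ℝ) = 3 * D + 3 := by rw [hD]; ring
  have hD0 : 2 / 3 ≤ D := by linarith
  have hqD : q ≤ (D + h) / 2 := by linarith
  -- the product `q * (D - 5 h) / 2` is not much smaller than zero
  have hqq : -(1 / 40) ≤ q * ((D - 5 * h) / 2) := by
    rcases le_total (5 * h) D with hh | hh
    · have : 0 ≤ q * ((D - 5 * h) / 2) := mul_nonneg hq0 (by linarith)
      linarith
    · have h2 : -(1 / 30) ≤ (D - 5 * h) / 2 := by linarith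
      have h3 : q ≤ 1 / 2 := by linarith
      nlinarith
  have A1 : f (d - 1) (d / 3 + h - 1 - 2 * q) ≤ f (d - 1) (d / 3 + h - 1) :=
    f_le_of hm4 (by linarith) (by rw [hm]; linarith)
  have A2 : f (d - 1) (d / 3 + h - 1) ≤ f (d - 1) (d / 3 + h + q) * Real.exp (-(8 / 5)) := by
    refine f_log' hm4 (by linarith) (by rw [hm]; linarith) ?_
    rw [hm, hdD]
    nlinarith [mul_nonneg hq0 (sub_nonneg.2 hqD)]
  have A3 : f (d - 1) (2 * (d / 3 + h) + 2 * q) = f (d - 1) (d / 3 - 2 * h - 1 - 2 * q) := by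
    rw [← f_symm (n := d - 1) (by omega), hm]
    congr 1
    ring
  have A4 : f (d - 1) (d / 3 - 2 * h - 1 - 2 * q) ≤ f (d - 1) (d / 3 - 2 * h - 1) :=
    f_le_of hm4 (by linarith) (by rw [hm]; linarith)
  have A5 : f (d - 1) (d / 3 - 2 * h - 1) ≤
      f (d - 1) (d / 3 + h + q) * Real.exp (-(8 / 5 * (1 + 3 * h))) := by
    refine f_log' hm4 (by linarith) (by rw [hm]; linarith) ?_
    rw [hm, hdD]
    nlinarith [mul_nonneg hq0 (sub_nonneg.2 hqD)]
  have hg := f_nonneg (d - 1) (d / 3 + h + q)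
  constructor
  · rw [A3]
    have B1 := mul_le_mul_of_nonneg_left exp_a hg
    have B2 := mul_le_mul_of_nonneg_left (exp_b hlo) hg
    linarith
  · have A6 : f (d - 1) (2 * (d / 3 + h) - 1 - q) = f (d - 1) (d / 3 - 2 * h + q) := by
      rw [← f_symm (n := d - 1) (by omega), hm]
      congr 1
      ring
    have A7 : f (d - 1) (d / 3 - 2 * h) ≤ f (d - 1) (d / 3 - 2 * h + q) :=
      f_le_of hm4 (by linarith) (by rw [hm]; linarith)
    have A8 : f (d - 1) (d / 3 + h - 1) ≤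
        f (d - 1) (d / 3 - 2 * h) * Real.exp (-(8 / 5 * (1 - 3 * h))) := by
      refine f_log' hm4 (by linarith) (by rw [hm]; linarith) ?_
      rw [hm, hdD]
      nlinarith
    have hlog1 := Real.log_two_lt_d9
    have B3 : Real.exp (-(8 / 5 * (1 - 3 * h))) ≤ 1 / 2 := by
      have : Real.exp (-(8 / 5 * (1 - 3 * h))) ≤ Real.exp (-Real.log 2) :=
        Real.exp_le_exp.2 (by linarith)
      rw [Real.exp_neg (Real.log 2), Real.exp_log (by norm_num)] at this
      linarith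
    have B4 := mul_le_mul_of_nonneg_left B3 (f_nonneg (d - 1) (d / 3 - 2 * h))
    rw [A6]
    linarith

end ModI

/-- (C1), (C2) of note 2282 for all `d ≥ 3` -/
theorem crit {d : ℕ} (hd : 3 ≤ d) {c q : ℝ} (hc0 : (d : ℝ) / 3 < c) (hc1 : c < (d : ℝ) / 2)
    (hc : f d c = 2 * f d (d - 2 * c)) (hq0 : 0 ≤ q) (hq1 : q ≤ (c - 1) / 2) :
    2 * f (d - 1) (c - 1 - 2 * q) + 4 * f (d - 1) (2 * c + 2 * q) ≤ f (d - 1) (c + q) ∧
    2 * f (d - 1) (c - 1 - 2 * q) ≤ f (d - 1) (2 * c - 1 - q) := by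
  rcases (by omega : d = 3 ∨ d = 4 ∨ 5 ≤ d) with rfl | rfl | hd5
  · -- dimension 3
    show 2 * f 2 (c - 1 - 2 * q) + 4 * f 2 (2 * c + 2 * q) ≤ f 2 (c + q) ∧
      2 * f 2 (c - 1 - 2 * q) ≤ f 2 (2 * c - 1 - q)
    push_cast at hc0 hc1 hc
    rw [ModI.f_three_mid (by linarith) (by linarith),
      ModI.f_three_left (by linarith) (by linarith)] at hc
    have hc2 : c ≤ 112 / 100 := by
      by_contra hcon
      push Not at hcon
      nlinarith
    rw [ModI.f_two_left (x := c - 1 - 2 * q) (by linarith) (by linarith),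
      f_eq_zero_right (n := 2) le_rfl (x := 2 * c + 2 * q) (by push_cast; linarith),
      ModI.f_two_right (x := c + q) (by linarith) (by linarith),
      ModI.f_two_right (x := 2 * c - 1 - q) (by linarith) (by linarith)]
    constructor <;> linarith
  · -- dimension 4
    show 2 * f 3 (c - 1 - 2 * q) + 4 * f 3 (2 * c + 2 * q) ≤ f 3 (c + q) ∧
      2 * f 3 (c - 1 - 2 * q) ≤ f 3 (2 * c - 1 - q)
    push_cast at hc0 hc1 hc
    have hc2 : c ≤ 3 / 2 := by
      by_contra hcon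
      push Not at hcon
      rw [ModI.f_four_mid (by linarith) (by linarith),
        ModI.f_four_left (by linarith) (by linarith)] at hc
      obtain ⟨s, rfl⟩ : ∃ s : ℝ, c = 2 - s := ⟨2 - c, by ring⟩
      have hs0 : 0 < s := by linarith
      have hs1 : s < 1 / 2 := by linarith
      nlinarith [mul_pos hs0 hs0, mul_pos (mul_pos hs0 hs0) hs0]
    have e1 : f 3 (c - 1 - 2 * q) = (c - 1 - 2 * q) ^ 2 / 2 :=
      ModI.f_three_left (by linarith) (by linarith)
    have e2 : f 3 (2 * c + 2 * q) ≤ (1 / 3) ^ 2 / 2 := by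
      rw [← f_symm (n := 3) (by norm_num)]
      have e3 : ((3 : ℕ) : ℝ) - (2 * c + 2 * q) ≤ 1 / 3 := by push_cast; linarith
      have e4 := f_monoOn (n := 3) (by norm_num)
        (show ((3 : ℕ) : ℝ) - (2 * c + 2 * q) ∈ Iic (((3 : ℕ) : ℝ) / 2) from
          mem_Iic.2 (e3.trans (by norm_num)))
        (show (1 / 3 : ℝ) ∈ Iic (((3 : ℕ) : ℝ) / 2) from mem_Iic.2 (by norm_num)) e3
      rwa [ModI.f_three_left (x := 1 / 3) (by norm_num) (by norm_num)] at e4
    have e5 : f 3 (c + q) = (-2 * (c + q) ^ 2 + 6 * (c + q) - 3) / 2 :=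
      ModI.f_three_mid (by linarith) (by linarith)
    have e6 : f 3 (2 * c - 1 - q) = (-2 * (2 * c - 1 - q) ^ 2 + 6 * (2 * c - 1 - q) - 3) / 2 :=
      ModI.f_three_mid (by linarith) (by linarith)
    have e7 : (c - 1 - 2 * q) ^ 2 ≤ 1 / 4 := by nlinarith
    rw [e1, e5, e6]
    constructor
    · nlinarith
    · nlinarith
  · obtain ⟨h, hh⟩ : ∃ h : ℝ, h = c - d / 3 := ⟨_, rfl⟩
    have ec : c = d / 3 + h := by rw [hh]; ring
    have h2 : f d (d / 3 + h) = 2 * f d (d / 3 - 2 * h) := by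
      rw [← ec, hc]
      congr 2
      rw [ec]; ring
    have h3 := ModI.crit_big hd5 (h := h) (q := q) (by linarith) (by linarith) h2 hq0
      (by rw [← ec]; exact hq1)
    rw [← ec] at h3
    exact h3

end Pool.Agent.Work.MP_0cd883_co.Cube
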