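import Pool.Agent.Work.MP_0cd883_co.Cube.DefsL

/-! Module J: inversion of `F n` near a point, with a quadratic error. -/

namespace Pool.Agent.Work.MP_0cd883_co.Cube

open Set

theorem f_le_self {n : ℕ} (hn : 2 ≤ n) {r : ℝ} (hr : 0 ≤ r) : f n r ≤ r := by
  have h := f_lip hn r 0
  rw [f_eq_zero_left hn le_rfl, sub_zero, sub_zero, abs_of_nonneg (f_nonneg n r),
    abs_of_nonneg hr] at h
  exact h

/-- two sided, with a quadratic error (only continuity of the density is used) -/
theorem lin_b {n : ℕ} (hn : 2 ≤ n) {r g κ P : ℝ} (hg : 0 < g) (hf : g ≤ f n r) (hP : |P| ≤ κ)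
    (hκ : κ ≤ g ^ 2 / 2) :
    0 ≤ r + (P / f n r + 2 * κ ^ 2 / g ^ 3) ∧
      F n r + P ≤ F n (r + (P / f n r + 2 * κ ^ 2 / g ^ 3)) := by
  have hfpos : 0 < f n r := lt_of_lt_of_le hg hf
  have hκ0 : 0 ≤ κ := (abs_nonneg P).trans hP
  have hr0 : 0 ≤ r := by
    by_contra hcon
    push Not at hcon
    rw [f_eq_zero_left hn hcon.le] at hfpos
    exact lt_irrefl _ hfpos
  have hrg : g ≤ r := hf.trans (f_le_self hn hr0)
  have hP1 := (abs_le.mp hP).1
  have hP2 := (abs_le.mp hP).2
  -- bounds for `P / f`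
  have q1 : |P / f n r| ≤ κ / g := by
    rw [abs_div, abs_of_pos hfpos]
    exact div_le_div₀ hκ0 hP hg hf
  have q2 : 2 * κ ^ 2 / g ^ 3 ≤ κ / g := by
    rw [div_le_div_iff₀ (by positivity) hg]
    have : 0 ≤ κ * g * (g ^ 2 - 2 * κ) := by
      apply mul_nonneg (by positivity)
      linarith
    nlinarith [this]
  have q3 : 0 ≤ 2 * κ ^ 2 / g ^ 3 := by positivity
  have q4 : κ / g ≤ g / 2 := by
    rw [div_le_div_iff₀ hg (by norm_num)]
    nlinarith
  have q1' := abs_le.mp q1
  set δ : ℝ := P / f n r + 2 * κ ^ 2 / g ^ 3 with hδ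
  refine ⟨by linarith [q1'.1], ?_⟩
  have h1 := F_add_ge hn r δ
  have h2 : P + 2 * κ ^ 2 / g ^ 2 ≤ f n r * δ := by
    have e : f n r * δ = P + f n r * (2 * κ ^ 2 / g ^ 3) := by
      rw [hδ]
      field_simp
    rw [e]
    have e2 : 2 * κ ^ 2 / g ^ 2 = g * (2 * κ ^ 2 / g ^ 3) := by
      field_simp
    rw [e2]
    have := mul_le_mul_of_nonneg_right hf q3
    linarith
  have h3 : δ ^ 2 / 2 ≤ 2 * κ ^ 2 / g ^ 2 := by
    have habs : |δ| ≤ 2 * (κ / g) := by
      rw [abs_le]
      constructor <;> linarith [q1'.1, q1'.2]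
    have hsq : δ ^ 2 ≤ (2 * (κ / g)) ^ 2 := by
      rw [← sq_abs]
      exact pow_le_pow_left₀ (abs_nonneg _) habs 2
    have e : (2 * (κ / g)) ^ 2 = 2 * (2 * κ ^ 2 / g ^ 2) := by
      rw [mul_pow, div_pow]
      ring
    linarith
  linarith

/-- one sided, exact, on the increasing half -/
theorem lin_a {n : ℕ} (hn : 2 ≤ n) {r P : ℝ} (h0 : 0 < r) (h1 : r ≤ n / 2) (hP : P ≤ 0)
    (hp : 0 ≤ F n r + P) :
    0 ≤ r + P / f n r ∧ F n r + P ≤ F n (r + P / f n r) := by
  have hn' : (2 : ℝ) ≤ n := by exact_mod_cast hn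
  have hfpos : 0 < f n r := f_pos hn h0 (by linarith)
  have key : ∀ s, s ≤ r → F n r - F n s ≤ f n r * (r - s) := by
    intro s hs
    have hm : MonotoneOn (fun t : ℝ => f n r * t - F n t) (Iic r) := by
      have hd : ∀ t : ℝ, HasDerivAt (fun t : ℝ => f n r * t - F n t) (f n r - f n t) t := by
        intro t
        have h2 := (hasDerivAt_id t).const_mul (f n r)
        rw [mul_one] at h2
        exact h2.sub (hasDerivAt_F hn t)
      refine monotoneOn_of_deriv_nonneg (convex_Iic _)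
        (continuous_iff_continuousAt.2 fun t => (hd t).continuousAt).continuousOn
        (fun t _ => (hd t).differentiableAt.differentiableWithinAt) fun t ht => ?_
      rw [interior_Iic] at ht
      have ht' : t < r := ht
      rw [(hd t).deriv]
      have := f_monoOn hn (show t ∈ Iic ((n : ℝ) / 2) from (by
        show t ≤ (n : ℝ) / 2
        linarith)) (show r ∈ Iic ((n : ℝ) / 2) from h1) ht'.le
      linarith
    have h2 := hm (mem_Iic.2 hs) (mem_Iic.2 le_rfl) hs
    simp only at h2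
    linarith
  have h2 := key 0 h0.le
  rw [F_eq_zero (by omega) le_rfl, sub_zero, sub_zero] at h2
  have h3 : -r ≤ P / f n r := by
    rw [le_div_iff₀ hfpos]
    linarith
  have h4 : P / f n r ≤ 0 := div_nonpos_of_nonpos_of_nonneg hP hfpos.le
  refine ⟨by linarith, ?_⟩
  have h5 := key (r + P / f n r) (by linarith)
  have e : f n r * (r - (r + P / f n r)) = -P := by
    field_simp
    ring
  rw [e] at h5
  linarith

end Pool.Agent.Work.MP_0cd883_co.Cube
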