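import Pool.Agent.Work.MP_0cd883_co.Cube.ModJ
import Pool.Agent.Work.MP_0cd883_co.Cube.ModM
import Pool.Agent.Work.MP_0cd883_co.Cube.ModE

/-! Module K: the visible inequality (first variation of the functional form of the theorem). -/

namespace Pool.Agent.Work.MP_0cd883_co.Cube

theorem modif_mem {ε t b : ℝ} (h0 : 0 ≤ ε) (h1 : ε < 1) (hb : 0 ≤ b ∧ b ≤ 1) :
    0 ≤ modif ε t b ∧ modif ε t b ≤ 1 := by
  obtain ⟨hb0, hb1⟩ := hb
  unfold modif
  split_ifs with ha hb hc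
  · exact ⟨zero_le_one, le_rfl⟩
  · have ht1 : t ≤ 1 := not_lt.mp ha
    have e1 : 0 ≤ (1 - ε) * t := mul_nonneg (by linarith) hb
    have e2 : 0 ≤ ε * b := mul_nonneg h0 hb0
    have e3 : (1 - ε) * t ≤ (1 - ε) * 1 := mul_le_mul_of_nonneg_left ht1 (by linarith)
    have e4 : ε * b ≤ ε * 1 := mul_le_mul_of_nonneg_left hb1 h0
    constructor <;> linarith
  · have e2 : 0 ≤ ε * b := mul_nonneg h0 hb0
    have e4 : ε * b ≤ ε * 1 := mul_le_mul_of_nonneg_left hb1 h0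
    constructor <;> linarith
  · exact ⟨le_rfl, zero_le_one⟩

/-- the linear lower bound for the modified function -/
theorem modK_lower {ε t b : ℝ} (h1 : ε < 1)
    (ht : t ≤ 1) (ht' : 0 ≤ t ∨ -(ε / (1 - ε)) < t) : (1 - ε) * t + ε * b ≤ modif ε t b := by
  unfold modif
  rw [if_neg (not_lt.mpr ht)]
  split_ifs with h2 h3
  · exact le_rfl
  · have : (1 - ε) * t ≤ 0 := mul_nonpos_of_nonneg_of_nonpos (by linarith) (le_of_lt (not_le.mp h2))
    linarith
  · exact absurd ht' (not_or.mpr ⟨h2, h3⟩)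

theorem modK_two {ε t₁ t₂ t₃ b₂ b₃ : ℝ} (h0 : 0 ≤ ε) (h1 : ε < 1)
    (hb₂ : 0 ≤ b₂ ∧ b₂ ≤ 1) (hb₃ : 0 ≤ b₃ ∧ b₃ ≤ 1)
    (ht : 1 ≤ t₁ + t₂ + t₃) (h₁ : t₁ ≤ -(ε / (1 - ε))) (h₂ : t₂ ≤ 1) (h₃ : t₃ ≤ 1) :
    1 ≤ modif ε t₂ b₂ + modif ε t₃ b₃ := by
  have hd : 0 < 1 - ε := by linarith
  have hq : 0 ≤ ε / (1 - ε) := div_nonneg h0 hd.le
  have e2 := modK_lower (b := b₂) h1 h₂ (Or.inl (by linarith))
  have e3 := modK_lower (b := b₃) h1 h₃ (Or.inl (by linarith))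
  have e4 : 1 + ε / (1 - ε) ≤ t₂ + t₃ := by linarith
  have e5 : (1 - ε) * (1 + ε / (1 - ε)) ≤ (1 - ε) * (t₂ + t₃) :=
    mul_le_mul_of_nonneg_left e4 hd.le
  have e6 : (1 - ε) * (1 + ε / (1 - ε)) = 1 := by field_simp; ring
  have e7 : 0 ≤ ε * b₂ := mul_nonneg h0 hb₂.1
  have e8 : 0 ≤ ε * b₃ := mul_nonneg h0 hb₃.1
  linarith

theorem modif_sum {ε δ t₁ t₂ t₃ b₁ b₂ b₃ : ℝ} (h0 : 0 ≤ ε) (h1 : ε < 1) (hδ : 0 ≤ δ)
    (hb₁ : 0 ≤ b₁ ∧ b₁ ≤ 1) (hb₂ : 0 ≤ b₂ ∧ b₂ ≤ 1) (hb₃ : 0 ≤ b₃ ∧ b₃ ≤ 1)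
    (ht : 1 ≤ t₁ + t₂ + t₃) (hb : 1 - δ ≤ b₁ + b₂ + b₃) :
    1 - ε * δ ≤ modif ε t₁ b₁ + modif ε t₂ b₂ + modif ε t₃ b₃ := by
  have hεδ : 0 ≤ ε * δ := mul_nonneg h0 hδ
  have m1 := (modif_mem (t := t₁) h0 h1 hb₁).1
  have m2 := (modif_mem (t := t₂) h0 h1 hb₂).1
  have m3 := (modif_mem (t := t₃) h0 h1 hb₃).1
  by_cases c1 : 1 < t₁
  · have : modif ε t₁ b₁ = 1 := by unfold modif; rw [if_pos c1]
    linarith
  by_cases c2 : 1 < t₂
  · have : modif ε t₂ b₂ = 1 := by unfold modif; rw [if_pos c2]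
    linarith
  by_cases c3 : 1 < t₃
  · have : modif ε t₃ b₃ = 1 := by unfold modif; rw [if_pos c3]
    linarith
  rw [not_lt] at c1 c2 c3
  by_cases d1 : t₁ ≤ -(ε / (1 - ε))
  · have := modK_two h0 h1 hb₂ hb₃ ht d1 c2 c3
    linarith
  by_cases d2 : t₂ ≤ -(ε / (1 - ε))
  · have := modK_two h0 h1 hb₁ hb₃ (by linarith) d2 c1 c3
    linarith
  by_cases d3 : t₃ ≤ -(ε / (1 - ε))
  · have := modK_two h0 h1 hb₁ hb₂ (by linarith) d3 c1 c2
    linarith
  rw [not_le] at d1 d2 d3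
  have e1 := modK_lower (b := b₁) h1 c1 (Or.inr d1)
  have e2 := modK_lower (b := b₂) h1 c2 (Or.inr d2)
  have e3 := modK_lower (b := b₃) h1 c3 (Or.inr d3)
  have e4 : (1 - ε) * 1 ≤ (1 - ε) * (t₁ + t₂ + t₃) :=
    mul_le_mul_of_nonneg_left ht (by linarith)
  have e5 : ε * (1 - δ) ≤ ε * (b₁ + b₂ + b₃) := mul_le_mul_of_nonneg_left hb h0
  linarith

/-- pointwise upper bound -/
theorem modK_upper {ε t b : ℝ} (h0 : 0 < ε) (h1 : ε ≤ 1 / 2) (hb : 0 ≤ b ∧ b ≤ 1) :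
    modif ε t b ≤ clamp t + ε * (ind (0 ≤ t ∧ t ≤ 1) * (b - t)) +
      ε * ind (-(2 * ε) ≤ t ∧ t ≤ 0) := by
  have hi := ind_nonneg (-(2 * ε) ≤ t ∧ t ≤ 0)
  have hi' : 0 ≤ ε * ind (-(2 * ε) ≤ t ∧ t ≤ 0) := mul_nonneg h0.le hi
  unfold modif
  split_ifs with ha hb' hc
  · have e : clamp t = 1 := by
      unfold clamp
      rw [min_eq_right ha.le]; norm_num
    rw [e, ind_false (fun h => absurd h.2 (not_le.mpr ha))]
    linarith
  · have ht1 : t ≤ 1 := not_lt.mp ha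
    have e : clamp t = t := by
      unfold clamp
      rw [min_eq_left ht1, max_eq_right hb']
    rw [e, ind_true ⟨hb', ht1⟩]
    linarith
  · have ht0 : t < 0 := not_le.mp hb'
    have e : clamp t = 0 := by
      unfold clamp
      rw [min_eq_left (by linarith), max_eq_left ht0.le]
    have hε' : ε / (1 - ε) ≤ 2 * ε := by
      rw [div_le_iff₀ (by linarith)]
      nlinarith
    rw [e, ind_false (fun h => absurd h.1 (not_le.mpr ht0)), ind_true ⟨by linarith, ht0.le⟩]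
    have : ε * b ≤ ε * 1 := mul_le_mul_of_nonneg_left hb.2 h0.le
    linarith
  · have ht0 : t < 0 := not_le.mp hb'
    have e : clamp t = 0 := by
      unfold clamp
      rw [min_eq_left (by linarith), max_eq_left ht0.le]
    rw [e, ind_false (fun h => absurd h.1 (not_le.mpr ht0))]
    linarith

/-- the average of the modified function -/
theorem modif_av {m N : ℕ} (hm : 1 ≤ m) (hN : 1 ≤ N) {ε : ℝ} (h0 : 0 < ε) (h1 : ε ≤ 1 / 2)
    (b : (Fin m → Fin N) → ℝ) (hb : ∀ x, 0 ≤ b x ∧ b x ≤ 1) (c : ℝ) :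
    Av (fun x => modif ε (c - lev x) (b x)) ≤ F (m + 1) c +
      ε * Av (fun x => ind (c - 1 ≤ lev x ∧ lev x ≤ c) * (b x - (c - lev x))) +
      (m / N + ε * (2 * ε + m / N)) := by
  have hp : ∀ x : Fin m → Fin N, modif ε (c - lev x) (b x) ≤ clamp (c - lev x) +
      ε * (ind (c - 1 ≤ lev x ∧ lev x ≤ c) * (b x - (c - lev x))) +
      ε * ind (c ≤ lev x ∧ lev x ≤ c + 2 * ε) := by
    intro x
    have h := modK_upper (t := c - lev x) h0 h1 (hb x)
    have e1 : ind (0 ≤ c - lev x ∧ c - lev x ≤ 1) = ind (c - 1 ≤ lev x ∧ lev x ≤ c) := by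
      congr 1
      apply propext
      constructor <;> rintro ⟨h1, h2⟩ <;> constructor <;> linarith
    have e2 : ind (-(2 * ε) ≤ c - lev x ∧ c - lev x ≤ 0) =
        ind (c ≤ lev x ∧ lev x ≤ c + 2 * ε) := by
      congr 1
      apply propext
      constructor <;> rintro ⟨h1, h2⟩ <;> constructor <;> linarith
    rw [e1, e2] at h
    exact h
  have h2 := Av_mono hp
  have e : Av (fun x : Fin m → Fin N => clamp (c - lev x) +
      ε * (ind (c - 1 ≤ lev x ∧ lev x ≤ c) * (b x - (c - lev x))) +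
      ε * ind (c ≤ lev x ∧ lev x ≤ c + 2 * ε)) =
      Av (fun x : Fin m → Fin N => clamp (c - lev x)) +
      ε * Av (fun x : Fin m → Fin N => ind (c - 1 ≤ lev x ∧ lev x ≤ c) * (b x - (c - lev x))) +
      ε * Av (fun x : Fin m → Fin N => ind (c ≤ lev x ∧ lev x ≤ c + 2 * ε)) := by
    rw [Av_add, Av_add, Av_mul, Av_mul]
  rw [e] at h2
  have h3 := clamp_upper (m := m) hN c
  have h4 := F_lip (n := m + 1) (by omega) (c + m / N) c
  have h5 : F (m + 1) (c + m / N) ≤ F (m + 1) c + m / N := by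
    have h6 : |c + (m : ℝ) / N - c| = m / N := by
      rw [add_sub_cancel_left, abs_of_nonneg (by positivity)]
    rw [h6] at h4
    linarith [le_abs_self (F (m + 1) (c + m / N) - F (m + 1) c)]
  have h6 := count_layer (m := m) (N := N) hm hN (r := c) (t := 2 * ε) (by linarith)
  have h7 := mul_le_mul_of_nonneg_left h6 h0.le
  linarith

theorem modK_abs {p : Prop} {b t : ℝ} (hb : 0 ≤ b ∧ b ≤ 1) (ht : p → 0 ≤ t ∧ t ≤ 1) :
    |ind p * (b - t)| ≤ 1 := by
  by_cases hp : p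
  · rw [ind_true hp, one_mul, abs_le]
    obtain ⟨h1, h2⟩ := ht hp
    constructor <;> linarith [hb.1, hb.2]
  · rw [ind_false hp, zero_mul, abs_zero]
    exact zero_le_one

theorem modK_Av_abs {m N : ℕ} (hN : 1 ≤ N) {φ : (Fin m → Fin N) → ℝ} (h : ∀ x, |φ x| ≤ 1) :
    |Av φ| ≤ 1 := by
  rw [abs_le]
  constructor
  · have := Av_mono (φ := fun _ : Fin m → Fin N => (-1 : ℝ)) (ψ := φ) fun x => (abs_le.mp (h x)).1
    rwa [Av_const hN] at this
  · have := Av_mono (φ := φ) (ψ := fun _ : Fin m → Fin N => (1 : ℝ)) fun x => (abs_le.mp (h x)).2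
    rwa [Av_const hN] at this

/-- the visible inequality -/
theorem visible (hL : ∀ n, 1 ≤ n → LCore n) {m : ℕ} (hm : 2 ≤ m) {c u : ℝ}
    (hcu : 2 * c + u = m + 1) (hc : 0 < c) (hu : 0 < u) (hcrit : f (m + 1) c = 2 * f (m + 1) u) :
    ∃ K ε₀ : ℝ, 0 < K ∧ 0 < ε₀ ∧ ∀ N : ℕ, 1 ≤ N → ∀ b : (Fin m → Fin N) → ℝ,
      (∀ x, 0 ≤ b x ∧ b x ≤ 1) → Rel b → ∀ ε : ℝ, 0 < ε → ε ≤ ε₀ → 1 / (N : ℝ) ≤ ε ^ 2 →
      -(K * ε) ≤
        Av (fun x => ind (c - 1 ≤ lev x ∧ lev x ≤ c) * (b x - (c - lev x))) +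
        Av (fun x => ind (2 * c - 1 ≤ lev x ∧ lev x ≤ 2 * c) * (b x - (lev x - (2 * c - 1)))) := by
  set g : ℝ := f (m + 1) u with hg
  have hgpos : 0 < g := f_pos (by omega) hu (by push_cast; linarith)
  have hm0 : (0 : ℝ) ≤ m := Nat.cast_nonneg m
  set K₁ : ℝ := 3 * m + 3 with hK₁
  have hK₁pos : 0 < K₁ := by positivity
  refine ⟨2 * K₁ + 6 * (1 + K₁) ^ 2 / g ^ 2 + 2 * m + 1,
    min (1 / 2) (g ^ 2 / (2 * (1 + K₁))), by positivity, ?_, ?_⟩
  · apply lt_min (by norm_num)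
    positivity
  intro N hN b hb hrel ε hε0 hε hNε
  have hεh : ε ≤ 1 / 2 := hε.trans (min_le_left _ _)
  have hεg : ε ≤ g ^ 2 / (2 * (1 + K₁)) := hε.trans (min_le_right _ _)
  have hNpos : (0 : ℝ) < N := by exact_mod_cast hN
  set cc : Fin 3 → ℝ := ![c, c, u] with hcc
  set gg : Fin 3 → (Fin m → Fin N) → ℝ := ![b, b, refl b] with hgg
  have hgg01 : ∀ i x, 0 ≤ gg i x ∧ gg i x ≤ 1 := by
    intro i x
    fin_cases i
    · exact hb x
    · exact hb x
    · exact refl_mem hb x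
  set V : Fin 3 → ℝ := fun i =>
    Av (fun x => ind (cc i - 1 ≤ lev x ∧ lev x ≤ cc i) * (gg i x - (cc i - lev x))) with hV
  have hVabs : ∀ i, |V i| ≤ 1 := by
    intro i
    apply modK_Av_abs hN
    intro x
    apply modK_abs (hgg01 i x)
    rintro ⟨h1, h2⟩
    constructor <;> linarith
  set ff : Fin 3 → (Fin m → Fin N) → ℝ :=
    fun i x => min 1 (modif ε (cc i - lev x) (gg i x) + ε / N) with hff
  have hεN : 0 < ε / N := by positivity
  have hff01 : ∀ i x, 0 ≤ ff i x ∧ ff i x ≤ 1 := by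
    intro i x
    have h := (modif_mem (t := cc i - lev x) hε0.le (by linarith) (hgg01 i x)).1
    exact ⟨le_min zero_le_one (by linarith), min_le_left _ _⟩
  have hffrel : ∀ x y w : Fin m → Fin N, (∀ j, (x j : ℕ) + y j + w j + 1 = N) →
      1 ≤ ff 0 x + ff 1 y + ff 2 w := by
    intro x y w hxyw
    have hlev : lev x + lev y + lev w = m - m / N := by
      unfold lev
      rw [← add_div, ← add_div, ← Finset.sum_add_distrib, ← Finset.sum_add_distrib]
      have : ∀ j, (((x j : ℕ) : ℝ) + ((y j : ℕ) : ℝ)) + ((w j : ℕ) : ℝ) = N - 1 := by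
        intro j
        have := hxyw j
        have h2 : (((x j : ℕ) + (y j : ℕ) + (w j : ℕ) + 1 : ℕ) : ℝ) = (N : ℝ) := by
          exact_mod_cast this
        push_cast at h2
        linarith
      rw [Finset.sum_congr rfl fun j _ => this j]
      simp only [Finset.sum_const, Finset.card_univ, Fintype.card_fin, nsmul_eq_mul]
      field_simp
    have hmN : 0 ≤ (m : ℝ) / N := by positivity
    have hs := modif_sum (ε := ε) (δ := 1 / N) (t₁ := c - lev x) (t₂ := c - lev y)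
      (t₃ := u - lev w) (b₁ := b x) (b₂ := b y) (b₃ := refl b w) hε0.le (by linarith)
      (by positivity) (hb x) (hb y) (refl_mem hb w) (by linarith)
      (refl_rel hb hrel x y w hxyw)
    have hs' : 1 - ε / N ≤ modif ε (c - lev x) (b x) + modif ε (c - lev y) (b y) +
        modif ε (u - lev w) (refl b w) := by
      have : ε * (1 / N) = ε / N := by ring
      rw [this] at hs
      exact hs
    have p0 : 0 ≤ ff 0 x := (hff01 0 x).1
    have p1 : 0 ≤ ff 1 y := (hff01 1 y).1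
    have p2 : 0 ≤ ff 2 w := (hff01 2 w).1
    have e0 : ff 0 x = min 1 (modif ε (c - lev x) (b x) + ε / N) := rfl
    have e1 : ff 1 y = min 1 (modif ε (c - lev y) (b y) + ε / N) := rfl
    have e2 : ff 2 w = min 1 (modif ε (u - lev w) (refl b w) + ε / N) := rfl
    rcases le_total 1 (modif ε (c - lev x) (b x) + ε / N) with h | h
    · rw [min_eq_left h] at e0
      linarith
    rcases le_total 1 (modif ε (c - lev y) (b y) + ε / N) with h' | h'
    · rw [min_eq_left h'] at e1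
      linarith
    rcases le_total 1 (modif ε (u - lev w) (refl b w) + ε / N) with h'' | h''
    · rw [min_eq_left h''] at e2
      linarith
    rw [min_eq_right h] at e0
    rw [min_eq_right h'] at e1
    rw [min_eq_right h''] at e2
    linarith
  -- averages
  set P : Fin 3 → ℝ := fun i => ε * V i + K₁ * ε ^ 2 with hP
  have hav : ∀ i, (∑ x, ff i x) / (N : ℝ) ^ m + m / N ≤ F (m + 1) (cc i) + P i := by
    intro i
    have h1 : Av (ff i) ≤ Av (fun x => modif ε (cc i - lev x) (gg i x) + ε / N) :=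
      Av_mono fun x => min_le_right _ _
    have h2 : Av (fun x : Fin m → Fin N => modif ε (cc i - lev x) (gg i x) + ε / N) =
        Av (fun x => modif ε (cc i - lev x) (gg i x)) + ε / N := by
      rw [Av_add, Av_const hN]
    have h3 := modif_av (m := m) (by omega) hN hε0 hεh (gg i) (hgg01 i) (cc i)
    have h4 : Av (ff i) = (∑ x, ff i x) / (N : ℝ) ^ m := rfl
    rw [← h4]
    have h5 : (m : ℝ) / N ≤ m * ε ^ 2 := by
      have := mul_le_mul_of_nonneg_left hNε hm0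
      rw [mul_one_div] at this
      exact this
    have h6 : ε / N ≤ ε ^ 2 := by
      have := mul_le_mul_of_nonneg_left hNε hε0.le
      rw [mul_one_div] at this
      nlinarith [sq_nonneg ε]
    have h7 : ε * ((m : ℝ) / N) ≤ m * ε ^ 2 := by
      have : 0 ≤ (m : ℝ) / N := by positivity
      nlinarith
    have h8 : Av (ff i) + m / N ≤ F (m + 1) (cc i) + ε * V i +
        (m / N + ε * (2 * ε + m / N)) + ε / N + m / N := by
      rw [h2] at h1
      linarith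
    simp only [hP, hK₁]
    nlinarith
  set κ : ℝ := (1 + K₁) * ε with hκ
  have hκ2 : κ ≤ g ^ 2 / 2 := by
    rw [hκ]
    rw [le_div_iff₀ (by positivity)] at hεg
    linarith
  have hPabs : ∀ i, |P i| ≤ κ := by
    intro i
    have h1 := abs_le.mp (hVabs i)
    have h2 : |ε * V i| ≤ ε := by
      rw [abs_mul, abs_of_pos hε0]
      calc ε * |V i| ≤ ε * 1 := mul_le_mul_of_nonneg_left (hVabs i) hε0.le
        _ = ε := mul_one ε
    have h3 : |K₁ * ε ^ 2| ≤ K₁ * ε := by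
      rw [abs_of_nonneg (by positivity)]
      apply mul_le_mul_of_nonneg_left _ hK₁pos.le
      nlinarith
    calc |P i| ≤ |ε * V i| + |K₁ * ε ^ 2| := abs_add_le _ _
      _ ≤ ε + K₁ * ε := add_le_add h2 h3
      _ = κ := by rw [hκ]; ring
  have hgf : ∀ i, g ≤ f (m + 1) (cc i) := by
    intro i
    fin_cases i
    · show g ≤ f (m + 1) c
      rw [hcrit]; linarith
    · show g ≤ f (m + 1) c
      rw [hcrit]; linarith
    · exact le_rfl
  set c' : Fin 3 → ℝ := fun i => cc i + (P i / f (m + 1) (cc i) + 2 * κ ^ 2 / g ^ 3) with hc'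
  have hlin : ∀ i, 0 ≤ c' i ∧ F (m + 1) (cc i) + P i ≤ F (m + 1) (c' i) := fun i =>
    lin_b (by omega) hgpos (hgf i) (hPabs i) hκ2
  have hT := T_func hL m N hN ff hff01 hffrel c' (fun i => (hlin i).1)
    (fun i => (hav i).trans (hlin i).2)
  have e0 : c' 0 = c + (P 0 / (2 * g) + 2 * κ ^ 2 / g ^ 3) := by
    show c + (P 0 / f (m + 1) c + 2 * κ ^ 2 / g ^ 3) = _
    rw [hcrit]
  have e1 : c' 1 = c + (P 0 / (2 * g) + 2 * κ ^ 2 / g ^ 3) := by
    show c + (P 1 / f (m + 1) c + 2 * κ ^ 2 / g ^ 3) = _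
    rw [hcrit]
    rfl
  have e2 : c' 2 = u + (P 2 / g + 2 * κ ^ 2 / g ^ 3) := rfl
  rw [e0, e1, e2] at hT
  have hsum : 0 ≤ (P 0 + P 2) / g + 6 * κ ^ 2 / g ^ 3 := by
    have : (P 0 + P 2) / g + 6 * κ ^ 2 / g ^ 3 =
        (P 0 / (2 * g) + 2 * κ ^ 2 / g ^ 3) + (P 0 / (2 * g) + 2 * κ ^ 2 / g ^ 3) +
        (P 2 / g + 2 * κ ^ 2 / g ^ 3) := by
      field_simp
      ring
    rw [this]
    linarith
  have hsum2 : 0 ≤ (P 0 + P 2) + 6 * κ ^ 2 / g ^ 2 := by
    have := mul_nonneg hgpos.le hsum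
    have e : g * ((P 0 + P 2) / g + 6 * κ ^ 2 / g ^ 3) = (P 0 + P 2) + 6 * κ ^ 2 / g ^ 2 := by
      field_simp
    rwa [e] at this
  have hVV : -(ε * (2 * K₁ + 6 * (1 + K₁) ^ 2 / g ^ 2)) ≤ V 0 + V 2 := by
    have e3 : (P 0 + P 2) + 6 * κ ^ 2 / g ^ 2 =
        ε * ((V 0 + V 2) + ε * (2 * K₁ + 6 * (1 + K₁) ^ 2 / g ^ 2)) := by
      simp only [hP, hκ]
      field_simp
      ring
    rw [e3] at hsum2
    have := nonneg_of_mul_nonneg_right hsum2 hε0
    linarith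
  -- reflection
  have hmir := Av_mir (m := m) (N := N) hN
    (fun x => ind (2 * c - 1 ≤ lev x ∧ lev x ≤ 2 * c) * (b x - (lev x - (2 * c - 1))))
    (fun x => ind (u - 1 ≤ lev x ∧ lev x ≤ u) * (refl b x - (u - lev x))) (B := 2) (by norm_num)
    (by
      intro x hx
      have h1 := lev_mir hN hx
      have h2 : refl b x = b (mir x) := by
        unfold refl
        rw [if_pos hx]
      show ind (2 * c - 1 ≤ lev (mir x) ∧ lev (mir x) ≤ 2 * c) *
        (b (mir x) - (lev (mir x) - (2 * c - 1))) = _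
      rw [h1, h2]
      have h3 : ind (2 * c - 1 ≤ (m : ℝ) - lev x ∧ (m : ℝ) - lev x ≤ 2 * c) =
          ind (u - 1 ≤ lev x ∧ lev x ≤ u) := by
        congr 1
        apply propext
        constructor <;> rintro ⟨h3, h4⟩ <;> constructor <;> linarith
      rw [h3]
      congr 1
      linarith)
    (by
      intro x
      have h1 : |ind (2 * c - 1 ≤ lev (mir x) ∧ lev (mir x) ≤ 2 * c) *
          (b (mir x) - (lev (mir x) - (2 * c - 1)))| ≤ 1 := by
        apply modK_abs (hb _)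
        rintro ⟨h1, h2⟩
        constructor <;> linarith
      have h2 : |ind (u - 1 ≤ lev x ∧ lev x ≤ u) * (refl b x - (u - lev x))| ≤ 1 := by
        apply modK_abs (refl_mem hb _)
        rintro ⟨h1, h2⟩
        constructor <;> linarith
      calc _ ≤ |ind (2 * c - 1 ≤ lev (mir x) ∧ lev (mir x) ≤ 2 * c) *
          (b (mir x) - (lev (mir x) - (2 * c - 1)))| +
          |ind (u - 1 ≤ lev x ∧ lev x ≤ u) * (refl b x - (u - lev x))| := abs_sub _ _
        _ ≤ 2 := by linarith)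
  have hmir2 : 2 * ((m : ℝ) / N) ≤ 2 * m * ε := by
    have h5 : (m : ℝ) / N ≤ m * ε ^ 2 := by
      have := mul_le_mul_of_nonneg_left hNε hm0
      rw [mul_one_div] at this
      exact this
    have h6 : (m : ℝ) * ε ^ 2 ≤ m * ε := by
      apply mul_le_mul_of_nonneg_left _ hm0
      nlinarith
    linarith
  have hV0 : V 0 = Av (fun x => ind (c - 1 ≤ lev x ∧ lev x ≤ c) * (b x - (c - lev x))) := rfl
  have hV2 : V 2 = Av (fun x => ind (u - 1 ≤ lev x ∧ lev x ≤ u) * (refl b x - (u - lev x))) := rfl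
  rw [hV0, hV2] at hVV
  have h9 := (abs_le.mp (hmir.trans hmir2)).1
  nlinarith

end Pool.Agent.Work.MP_0cd883_co.Cube
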