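import Pool.Agent.Work.MP_0cd883_co.Cube.ModK
import Pool.Agent.Work.MP_0cd883_co.Cube.DefsR

/-! Module K3: the visible inequality for three functions. -/

namespace Pool.Agent.Work.MP_0cd883_co.Cube

/-- the visible inequality for three functions -/
theorem visible3 (hL : ∀ n, 1 ≤ n → LCore n) {m : ℕ} (hm : 2 ≤ m) {c u : ℝ}
    (hcu : 2 * c + u = m + 1) (hc : 0 < c) (hu : 0 < u) (hcrit : f (m + 1) c = 2 * f (m + 1) u) :
    ∃ K ε₀ : ℝ, 0 < K ∧ 0 < ε₀ ∧ ∀ N : ℕ, 1 ≤ N → ∀ b₁ b₂ b₃ : (Fin m → Fin N) → ℝ,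
      (∀ x, 0 ≤ b₁ x ∧ b₁ x ≤ 1) → (∀ x, 0 ≤ b₂ x ∧ b₂ x ≤ 1) → (∀ x, 0 ≤ b₃ x ∧ b₃ x ≤ 1) →
      Rel3 b₁ b₂ b₃ → ∀ ε : ℝ, 0 < ε → ε ≤ ε₀ → 1 / (N : ℝ) ≤ ε ^ 2 →
      -(K * ε) ≤
        Av (fun x => ind (c - 1 ≤ lev x ∧ lev x ≤ c) * (b₁ x - (c - lev x))) +
        Av (fun x => ind (c - 1 ≤ lev x ∧ lev x ≤ c) * (b₂ x - (c - lev x))) +
        2 * Av (fun x => ind (u - 1 ≤ lev x ∧ lev x ≤ u) * (b₃ x - (u - lev x))) := by
  set g : ℝ := f (m + 1) u with hg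
  have hgpos : 0 < g := f_pos (by omega) hu (by push_cast; linarith)
  have hm0 : (0 : ℝ) ≤ m := Nat.cast_nonneg m
  set K₁ : ℝ := 3 * m + 3 with hK₁
  have hK₁pos : 0 < K₁ := by positivity
  refine ⟨4 * K₁ + 12 * (1 + K₁) ^ 2 / g ^ 2,
    min (1 / 2) (g ^ 2 / (2 * (1 + K₁))), by positivity, ?_, ?_⟩
  · apply lt_min (by norm_num)
    positivity
  intro N hN b₁ b₂ b₃ hb₁ hb₂ hb₃ hrel ε hε0 hε hNε
  have hεh : ε ≤ 1 / 2 := hε.trans (min_le_left _ _)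
  have hεg : ε ≤ g ^ 2 / (2 * (1 + K₁)) := hε.trans (min_le_right _ _)
  have hNpos : (0 : ℝ) < N := by exact_mod_cast hN
  set cc : Fin 3 → ℝ := ![c, c, u] with hcc
  set gg : Fin 3 → (Fin m → Fin N) → ℝ := ![b₁, b₂, b₃] with hgg
  have hgg01 : ∀ i x, 0 ≤ gg i x ∧ gg i x ≤ 1 := by
    intro i x
    fin_cases i
    · exact hb₁ x
    · exact hb₂ x
    · exact hb₃ x
  set V : Fin 3 → ℝ := fun i =>
    Av (fun x => ind (cc i - 1 ≤ lev x ∧ lev x ≤ cc i) * (gg i x - (cc i - lev x))) with hV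
  have hVabs : ∀ i, |V i| ≤ 1 := by
    intro i
    apply modK_Av_abs hN
    intro x
    apply modK_abs (hgg01 i x)
    rintro ⟨h1, h2⟩
    constructor <;> linarith
  set ff : Fin 3 → (Fin m → Fin N) → ℝ :=
    fun i x => modif ε (cc i - lev x) (gg i x) with hff
  have hff01 : ∀ i x, 0 ≤ ff i x ∧ ff i x ≤ 1 := fun i x =>
    modif_mem (t := cc i - lev x) hε0.le (by linarith) (hgg01 i x)
  have hffrel : ∀ x y w : Fin m → Fin N, (∀ j, (x j : ℕ) + y j + w j + 1 = N) →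
      1 ≤ ff 0 x + ff 1 y + ff 2 w := by
    intro x y w hxyw
    have hlev : lev x + lev y + lev w = m - m / N := by
      unfold lev
      rw [← add_div, ← add_div, ← Finset.sum_add_distrib, ← Finset.sum_add_distrib]
      have : ∀ j, (((x j : ℕ) : ℝ) + ((y j : ℕ) : ℝ)) + ((w j : ℕ) : ℝ) = N - 1 := by
        intro j
        have := hxyw j
        have h2 : (((x j : ℕ) + (y j : ℕ) + (w j : ℕ) + 1 : ℕ) : ℝ) = (N : ℝ) := by
          exact_mod_cast this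
        push_cast at h2
        linarith
      rw [Finset.sum_congr rfl fun j _ => this j]
      simp only [Finset.sum_const, Finset.card_univ, Fintype.card_fin, nsmul_eq_mul]
      field_simp
    have hmN : 0 ≤ (m : ℝ) / N := by positivity
    have hs := modif_sum (ε := ε) (δ := 0) (t₁ := c - lev x) (t₂ := c - lev y)
      (t₃ := u - lev w) (b₁ := b₁ x) (b₂ := b₂ y) (b₃ := b₃ w) hε0.le (by linarith)
      le_rfl (hb₁ x) (hb₂ y) (hb₃ w) (by linarith) (by linarith [hrel x y w hxyw])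
    rw [mul_zero, sub_zero] at hs
    exact hs
  -- averages
  set P : Fin 3 → ℝ := fun i => ε * V i + K₁ * ε ^ 2 with hP
  have hav : ∀ i, (∑ x, ff i x) / (N : ℝ) ^ m + m / N ≤ F (m + 1) (cc i) + P i := by
    intro i
    have h3 := modif_av (m := m) (by omega) hN hε0 hεh (gg i) (hgg01 i) (cc i)
    have h4 : Av (ff i) = (∑ x, ff i x) / (N : ℝ) ^ m := rfl
    rw [← h4]
    have h5 : (m : ℝ) / N ≤ m * ε ^ 2 := by
      have := mul_le_mul_of_nonneg_left hNε hm0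
      rw [mul_one_div] at this
      exact this
    have h7 : ε * ((m : ℝ) / N) ≤ m * ε ^ 2 := by
      have : 0 ≤ (m : ℝ) / N := by positivity
      nlinarith
    have h8 : Av (ff i) + m / N ≤ F (m + 1) (cc i) + ε * V i +
        (m / N + ε * (2 * ε + m / N)) + m / N := by
      linarith
    simp only [hP, hK₁]
    nlinarith
  set κ : ℝ := (1 + K₁) * ε with hκ
  have hκ2 : κ ≤ g ^ 2 / 2 := by
    rw [hκ]
    rw [le_div_iff₀ (by positivity)] at hεg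
    linarith
  have hPabs : ∀ i, |P i| ≤ κ := by
    intro i
    have h2 : |ε * V i| ≤ ε := by
      rw [abs_mul, abs_of_pos hε0]
      calc ε * |V i| ≤ ε * 1 := mul_le_mul_of_nonneg_left (hVabs i) hε0.le
        _ = ε := mul_one ε
    have h3 : |K₁ * ε ^ 2| ≤ K₁ * ε := by
      rw [abs_of_nonneg (by positivity)]
      apply mul_le_mul_of_nonneg_left _ hK₁pos.le
      nlinarith
    calc |P i| ≤ |ε * V i| + |K₁ * ε ^ 2| := abs_add_le _ _
      _ ≤ ε + K₁ * ε := add_le_add h2 h3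
      _ = κ := by rw [hκ]; ring
  have hgf : ∀ i, g ≤ f (m + 1) (cc i) := by
    intro i
    fin_cases i
    · show g ≤ f (m + 1) c
      rw [hcrit]; linarith
    · show g ≤ f (m + 1) c
      rw [hcrit]; linarith
    · exact le_rfl
  set c' : Fin 3 → ℝ := fun i => cc i + (P i / f (m + 1) (cc i) + 2 * κ ^ 2 / g ^ 3) with hc'
  have hlin : ∀ i, 0 ≤ c' i ∧ F (m + 1) (cc i) + P i ≤ F (m + 1) (c' i) := fun i =>
    lin_b (by omega) hgpos (hgf i) (hPabs i) hκ2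
  have hT := T_func hL m N hN ff hff01 hffrel c' (fun i => (hlin i).1)
    (fun i => (hav i).trans (hlin i).2)
  have e0 : c' 0 = c + (P 0 / (2 * g) + 2 * κ ^ 2 / g ^ 3) := by
    show c + (P 0 / f (m + 1) c + 2 * κ ^ 2 / g ^ 3) = _
    rw [hcrit]
  have e1 : c' 1 = c + (P 1 / (2 * g) + 2 * κ ^ 2 / g ^ 3) := by
    show c + (P 1 / f (m + 1) c + 2 * κ ^ 2 / g ^ 3) = _
    rw [hcrit]
  have e2 : c' 2 = u + (P 2 / g + 2 * κ ^ 2 / g ^ 3) := rfl
  rw [e0, e1, e2] at hT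
  have hsum : 0 ≤ (P 0 + P 1 + 2 * P 2) / (2 * g) + 6 * κ ^ 2 / g ^ 3 := by
    have : (P 0 + P 1 + 2 * P 2) / (2 * g) + 6 * κ ^ 2 / g ^ 3 =
        (P 0 / (2 * g) + 2 * κ ^ 2 / g ^ 3) + (P 1 / (2 * g) + 2 * κ ^ 2 / g ^ 3) +
        (P 2 / g + 2 * κ ^ 2 / g ^ 3) := by
      field_simp
      ring
    rw [this]
    linarith
  have hsum2 : 0 ≤ (P 0 + P 1 + 2 * P 2) + 12 * κ ^ 2 / g ^ 2 := by
    have := mul_nonneg (by positivity : 0 ≤ 2 * g) hsum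
    have e : 2 * g * ((P 0 + P 1 + 2 * P 2) / (2 * g) + 6 * κ ^ 2 / g ^ 3) =
        (P 0 + P 1 + 2 * P 2) + 12 * κ ^ 2 / g ^ 2 := by
      field_simp
      ring
    rwa [e] at this
  have hVV : -(ε * (4 * K₁ + 12 * (1 + K₁) ^ 2 / g ^ 2)) ≤ V 0 + V 1 + 2 * V 2 := by
    have e3 : (P 0 + P 1 + 2 * P 2) + 12 * κ ^ 2 / g ^ 2 =
        ε * ((V 0 + V 1 + 2 * V 2) + ε * (4 * K₁ + 12 * (1 + K₁) ^ 2 / g ^ 2)) := by
      simp only [hP, hκ]
      field_simp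
      ring
    rw [e3] at hsum2
    have := nonneg_of_mul_nonneg_right hsum2 hε0
    linarith
  have hV0 : V 0 = Av (fun x => ind (c - 1 ≤ lev x ∧ lev x ≤ c) * (b₁ x - (c - lev x))) := rfl
  have hV1 : V 1 = Av (fun x => ind (c - 1 ≤ lev x ∧ lev x ≤ c) * (b₂ x - (c - lev x))) := rfl
  have hV2 : V 2 = Av (fun x => ind (u - 1 ≤ lev x ∧ lev x ≤ u) * (b₃ x - (u - lev x))) := rfl
  rw [hV0, hV1, hV2] at hVV
  linarith

end Pool.Agent.Work.MP_0cd883_co.Cube
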