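import Pool.Agent.Work.MP_0cd883_co.Cube.ModJ
import Pool.Agent.Work.MP_0cd883_co.Cube.ModM
import Pool.Agent.Work.MP_0cd883_co.Cube.ModE

/-! Module L, first part: the slice inequality at fixed levels. -/

namespace Pool.Agent.Work.MP_0cd883_co.Cube

open MeasureTheory Set Finset

theorem frac_compl {m N : ℕ} (hN : 1 ≤ N) (p : (Fin m → Fin N) → Prop) [DecidablePred p] :
    ((N : ℝ) ^ m - ((Finset.univ.filter p).card : ℝ)) / (N : ℝ) ^ m =
      Av (fun x => ind (¬ p x)) := by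
  have hN' : (0 : ℝ) < N := by exact_mod_cast hN
  have e : (fun x => ind (¬ p x)) = fun x => (fun _ => (1 : ℝ)) x - (fun x => ind (p x)) x := by
    funext x
    by_cases h : p x
    · simp only [ind_true h, ind_false (not_not.2 h), sub_self]
    · simp only [ind_false h, ind_true h, sub_zero]
  rw [e, Av_sub, Av_const hN]
  unfold Av
  rw [sum_ind_card, sub_div, div_self (by positivity)]

theorem lev_sum {m N : ℕ} (hN : 1 ≤ N) {x y w : Fin m → Fin N}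
    (h : ∀ j, (x j : ℕ) + y j + w j + 1 = N) : lev x + lev y + lev w = m - m / N := by
  have hN' : (0 : ℝ) < N := by exact_mod_cast hN
  unfold lev
  rw [← add_div, ← add_div, ← Finset.sum_add_distrib, ← Finset.sum_add_distrib]
  have h1 : ∀ j : Fin m, ((x j : ℕ) : ℝ) + ((y j : ℕ) : ℝ) + ((w j : ℕ) : ℝ) = N - 1 := by
    intro j
    have := h j
    have h2 : (((x j : ℕ) + y j + w j + 1 : ℕ) : ℝ) = N := by exact_mod_cast this
    push_cast at h2
    linarith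
  rw [Finset.sum_congr rfl fun j _ => h1 j, Finset.sum_const, Finset.card_univ, Fintype.card_fin,
    nsmul_eq_mul]
  field_simp

/-- the slice inequality at fixed levels -/
theorem slice_pt (hL : ∀ n, 1 ≤ n → LCore n) {m : ℕ} (hm : 2 ≤ m) {g : ℝ} (hg : 0 < g) :
    ∃ K η₀ : ℝ, 0 < K ∧ 0 < η₀ ∧ ∀ N : ℕ, 1 ≤ N → ∀ φ₁ φ₂ φ₃ : (Fin m → Fin N) → ℝ,
      (∀ x, 0 ≤ φ₁ x ∧ φ₁ x ≤ 1) → (∀ x, 0 ≤ φ₂ x ∧ φ₂ x ≤ 1) → (∀ x, 0 ≤ φ₃ x ∧ φ₃ x ≤ 1) →
      (∀ x y w : Fin m → Fin N, (∀ j, (x j : ℕ) + y j + w j + 1 = N) →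
        -(1 / (N : ℝ)) ≤ -φ₁ x + φ₂ y + φ₃ w) →
      ∀ η : ℝ, 0 < η → η ≤ η₀ → 1 / (N : ℝ) ≤ η ^ 2 →
      ∀ r₁ r₂ r₃ : ℝ, 0 < r₁ → r₁ ≤ m / 2 → g ≤ f m r₂ → g ≤ f m r₃ → r₁ + r₂ + r₃ = m →
      ∀ k₂ k₃ : ℝ, f m r₁ ≤ k₂ * f m r₂ → f m r₁ ≤ k₃ * f m r₃ →
        Lv φ₁ 0 r₁ - Lv φ₁ (-η) r₁ ≤
          k₂ * (Lv φ₂ η r₂ - Lv φ₂ 0 r₂) + k₃ * (Lv φ₃ η r₃ - Lv φ₃ 0 r₃) + K * η ^ 2 := by
  classical
  have hm' : (2 : ℝ) ≤ m := by exact_mod_cast hm
  have hm1 : 1 ≤ m := by omega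
  refine ⟨2 * m * (1 + 2 / g) + 4 * (1 + 3 * m) ^ 2 / g ^ 3, min 1 (g ^ 2 / (2 * (1 + 3 * m))),
    by positivity, lt_min zero_lt_one (by positivity), ?_⟩
  intro N hN φ₁ φ₂ φ₃ h₁ h₂ h₃ hrel η hη hη₀ hNη r₁ r₂ r₃ hr₁ hr₁' hr₂ hr₃ hsum k₂ k₃ hk₂ hk₃
  have hN' : (0 : ℝ) < N := by exact_mod_cast hN
  have hη1 : η ≤ 1 := hη₀.trans (min_le_left _ _)
  have hη2 : η ≤ g ^ 2 / (2 * (1 + 3 * m)) := hη₀.trans (min_le_right _ _)
  have hf1 : 0 < f m r₁ := f_pos hm hr₁ (by linarith)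
  have hf2 : 0 < f m r₂ := lt_of_lt_of_le hg hr₂
  have hf3 : 0 < f m r₃ := lt_of_lt_of_le hg hr₃
  have hk2 : 0 < k₂ := by
    by_contra hcon
    push Not at hcon
    have := mul_nonpos_of_nonpos_of_nonneg hcon hf2.le
    linarith
  have hk3 : 0 < k₃ := by
    by_contra hcon
    push Not at hcon
    have := mul_nonpos_of_nonpos_of_nonneg hcon hf3.le
    linarith
  have hmN0 : (0 : ℝ) ≤ m / N := by positivity
  have hmN : (m : ℝ) / N ≤ m * η ^ 2 := by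
    rw [div_eq_mul_one_div]
    exact mul_le_mul_of_nonneg_left hNη (by positivity)
  have hηη : η ^ 2 ≤ η := by nlinarith
  -- base values
  have base : ∀ (φ : (Fin m → Fin N) → ℝ) (r : ℝ), Lv φ 0 r ≤ F m r + m / N := by
    intro φ r
    have h := count_upper hm1 hN r
    have h' := F_lip hm1 (r + m / N) r
    rw [show r + (m : ℝ) / N - r = m / N by ring, abs_of_nonneg hmN0] at h'
    have h'' := (abs_le.mp h').2
    unfold Lv
    simp only [zero_mul, add_zero]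
    linarith
  have hD : ∀ (φ : (Fin m → Fin N) → ℝ), (∀ x, 0 ≤ φ x ∧ φ x ≤ 1) → ∀ r : ℝ,
      0 ≤ Lv φ η r - Lv φ 0 r ∧ Lv φ η r - Lv φ 0 r ≤ η + m / N := by
    intro φ hφ r
    unfold Lv
    constructor
    · rw [sub_nonneg]
      refine Av_mono fun x => ind_mono fun h => ?_
      have := mul_nonneg hη.le (hφ x).1
      linarith
    · refine le_trans ?_ (count_layer hm1 hN (r := r) hη.le)
      rw [← Av_sub]
      refine Av_mono fun x => ?_
      by_cases ha : lev x ≤ r + 0 * φ x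
      · rw [ind_true ha]
        have := ind_le_one (lev x ≤ r + η * φ x)
        have := ind_nonneg (r ≤ lev x ∧ lev x ≤ r + η)
        linarith
      · rw [ind_false ha, sub_zero]
        refine ind_mono fun h => ?_
        have h1 : η * φ x ≤ η * 1 := mul_le_mul_of_nonneg_left (hφ x).2 hη.le
        simp only [zero_mul, add_zero, not_le] at ha
        exact ⟨ha.le, by linarith⟩
  have hD1 : Lv φ₁ (-η) r₁ - Lv φ₁ 0 r₁ ≤ 0 := by
    unfold Lv
    rw [sub_nonpos]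
    refine Av_mono fun x => ind_mono fun h => ?_
    have := mul_nonneg hη.le (h₁ x).1
    linarith
  obtain ⟨hD2, hD2'⟩ := hD φ₂ h₂ r₂
  obtain ⟨hD3, hD3'⟩ := hD φ₃ h₃ r₃
  set D₁ := Lv φ₁ (-η) r₁ - Lv φ₁ 0 r₁ with hD₁def
  set D₂ := Lv φ₂ η r₂ - Lv φ₂ 0 r₂ with hD₂def
  set D₃ := Lv φ₃ η r₃ - Lv φ₃ 0 r₃ with hD₃def
  have hgoal : -D₁ ≤ k₂ * D₂ + k₃ * D₃ +
      (2 * m * (1 + 2 / g) + 4 * (1 + 3 * m) ^ 2 / g ^ 3) * η ^ 2 := by
    by_cases hP1 : 0 < D₁ + 2 * (m / N)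
    · have e1 : 0 ≤ k₂ * D₂ := mul_nonneg hk2.le hD2
      have e2 : 0 ≤ k₃ * D₃ := mul_nonneg hk3.le hD3
      have e3 : (2 * m) * η ^ 2 ≤
          (2 * m * (1 + 2 / g) + 4 * (1 + 3 * m) ^ 2 / g ^ 3) * η ^ 2 := by
        refine mul_le_mul_of_nonneg_right ?_ (by positivity)
        have e4 : 0 ≤ 2 * (m : ℝ) * (2 / g) := by positivity
        have e5 : 0 ≤ 4 * (1 + 3 * (m : ℝ)) ^ 2 / g ^ 3 := by positivity
        linarith
      linarith
    push Not at hP1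
    set κ : ℝ := η + 3 * (m / N) with hκ
    have hκ1 : κ ≤ (1 + 3 * m) * η := by
      have : (m : ℝ) * η ^ 2 ≤ m * η := mul_le_mul_of_nonneg_left hηη (by positivity)
      rw [hκ]
      linarith
    have hκ2 : κ ≤ g ^ 2 / 2 := by
      refine hκ1.trans ?_
      rw [le_div_iff₀ (by positivity)] at hη2
      linarith
    have hκ0 : 0 ≤ κ := by positivity
    -- the three sets
    set A₁ := Finset.univ.filter fun x : Fin m → Fin N => r₁ + -η * φ₁ x < lev x with hA₁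
    set A₂ := Finset.univ.filter fun x : Fin m → Fin N => r₂ + η * φ₂ x < lev x with hA₂
    set A₃ := Finset.univ.filter fun x : Fin m → Fin N => r₃ + η * φ₃ x < lev x with hA₃
    have c1 : ((N : ℝ) ^ m - (A₁.card : ℝ)) / (N : ℝ) ^ m = Lv φ₁ (-η) r₁ := by
      rw [hA₁, frac_compl hN]
      unfold Lv
      simp only [not_lt]
    have c2 : ((N : ℝ) ^ m - (A₂.card : ℝ)) / (N : ℝ) ^ m = Lv φ₂ η r₂ := by
      rw [hA₂, frac_compl hN]
      unfold Lv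
      simp only [not_lt]
    have c3 : ((N : ℝ) ^ m - (A₃.card : ℝ)) / (N : ℝ) ^ m = Lv φ₃ η r₃ := by
      rw [hA₃, frac_compl hN]
      unfold Lv
      simp only [not_lt]
    have hfree : ∀ x ∈ A₁, ∀ y ∈ A₂, ∀ w ∈ A₃, ¬ ∀ j, (x j : ℕ) + y j + w j + 1 = N := by
      intro x hx y hy w hw hj
      have hx' := (Finset.mem_filter.mp hx).2
      have hy' := (Finset.mem_filter.mp hy).2
      have hw' := (Finset.mem_filter.mp hw).2
      have e1 := lev_sum hN hj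
      have e2 := mul_le_mul_of_nonneg_left (hrel x y w hj) hη.le
      have e3 : η * (1 / (N : ℝ)) ≤ m / N := by
        rw [div_eq_mul_one_div (m : ℝ) (N : ℝ)]
        exact mul_le_mul_of_nonneg_right (by linarith) (by positivity)
      have e4 : η * (-φ₁ x + φ₂ y + φ₃ w) = -η * φ₁ x + η * φ₂ y + η * φ₃ w := by ring
      rw [e4] at e2
      linarith
    have l1 := lin_a (n := m) (r := r₁) (P := D₁ + 2 * (m / N)) hm hr₁ hr₁' hP1 (by
      have := base φ₁ r₁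
      have h0 : 0 ≤ Lv φ₁ (-η) r₁ := by
        unfold Lv
        exact Av_nonneg fun x => ind_nonneg _
      linarith)
    have l2 := lin_b (n := m) (r := r₂) (g := g) (κ := κ) (P := D₂ + 2 * (m / N)) hm hg hr₂ (by
      rw [abs_of_nonneg (by positivity)]
      linarith) hκ2
    have l3 := lin_b (n := m) (r := r₃) (g := g) (κ := κ) (P := D₃ + 2 * (m / N)) hm hg hr₃ (by
      rw [abs_of_nonneg (by positivity)]
      linarith) hκ2
    have hT := T_sets hL (n := m) (N := N) hm1 hN ![A₁, A₂, A₃] hfree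
      ![r₁ + (D₁ + 2 * (m / N)) / f m r₁,
        r₂ + ((D₂ + 2 * (m / N)) / f m r₂ + 2 * κ ^ 2 / g ^ 3),
        r₃ + ((D₃ + 2 * (m / N)) / f m r₃ + 2 * κ ^ 2 / g ^ 3)]
      (by
        intro i
        fin_cases i
        · exact l1.1
        · exact l2.1
        · exact l3.1)
      (by
        intro i
        fin_cases i
        · show ((N : ℝ) ^ m - (A₁.card : ℝ)) / (N : ℝ) ^ m + m / N ≤ _
          rw [c1]
          refine le_trans ?_ l1.2
          have := base φ₁ r₁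
          linarith
        · show ((N : ℝ) ^ m - (A₂.card : ℝ)) / (N : ℝ) ^ m + m / N ≤ _
          rw [c2]
          refine le_trans ?_ l2.2
          have := base φ₂ r₂
          linarith
        · show ((N : ℝ) ^ m - (A₃.card : ℝ)) / (N : ℝ) ^ m + m / N ≤ _
          rw [c3]
          refine le_trans ?_ l3.2
          have := base φ₃ r₃
          linarith)
    have hT' : (m : ℝ) ≤ (r₁ + (D₁ + 2 * (m / N)) / f m r₁) +
        (r₂ + ((D₂ + 2 * (m / N)) / f m r₂ + 2 * κ ^ 2 / g ^ 3)) +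
        (r₃ + ((D₃ + 2 * (m / N)) / f m r₃ + 2 * κ ^ 2 / g ^ 3)) := hT
    -- multiply by `f m r₁`
    have hT2 : 0 ≤ (D₁ + 2 * (m / N)) / f m r₁ + (D₂ + 2 * (m / N)) / f m r₂ +
        (D₃ + 2 * (m / N)) / f m r₃ + 4 * κ ^ 2 / g ^ 3 := by
      have : 4 * κ ^ 2 / g ^ 3 = 2 * κ ^ 2 / g ^ 3 + 2 * κ ^ 2 / g ^ 3 := by ring
      linarith
    have hT3 := mul_nonneg hf1.le hT2
    have hf11 : f m r₁ ≤ 1 := f_le_one m r₁
    have s1 : f m r₁ * ((D₁ + 2 * (m / N)) / f m r₁) = D₁ + 2 * (m / N) := by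
      field_simp
    have s2 : ∀ D r k : ℝ, 0 ≤ D → g ≤ f m r → f m r₁ ≤ k * f m r →
        f m r₁ * ((D + 2 * (m / N)) / f m r) ≤ k * D + 2 / g * (m / N) := by
      intro D r k hD0 hgr hkr
      have hfr : 0 < f m r := lt_of_lt_of_le hg hgr
      have t1 : f m r₁ / f m r ≤ k := by rwa [div_le_iff₀ hfr]
      have t2 : f m r₁ / f m r ≤ 1 / g := div_le_div₀ zero_le_one hf11 hg hgr
      have t3 : f m r₁ * ((D + 2 * (m / N)) / f m r) =
          f m r₁ / f m r * D + f m r₁ / f m r * (2 * (m / N)) := by ring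
      rw [t3]
      have t4 := mul_le_mul_of_nonneg_right t1 hD0
      have t5 := mul_le_mul_of_nonneg_right t2 (show 0 ≤ 2 * ((m : ℝ) / N) by positivity)
      have t6 : 1 / g * (2 * ((m : ℝ) / N)) = 2 / g * (m / N) := by ring
      linarith
    have s3 := s2 D₂ r₂ k₂ hD2 hr₂ hk₂
    have s4 := s2 D₃ r₃ k₃ hD3 hr₃ hk₃
    have s5 : f m r₁ * (4 * κ ^ 2 / g ^ 3) ≤ 4 * (1 + 3 * m) ^ 2 / g ^ 3 * η ^ 2 := by
      have t1 : κ ^ 2 ≤ ((1 + 3 * m) * η) ^ 2 := pow_le_pow_left₀ hκ0 hκ1 2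
      have t2 : 4 * κ ^ 2 / g ^ 3 ≤ 4 * ((1 + 3 * m) * η) ^ 2 / g ^ 3 :=
        div_le_div_of_nonneg_right (by linarith) (by positivity)
      have t3 : f m r₁ * (4 * κ ^ 2 / g ^ 3) ≤ 1 * (4 * κ ^ 2 / g ^ 3) :=
        mul_le_mul_of_nonneg_right hf11 (by positivity)
      have t4 : 4 * ((1 + 3 * (m : ℝ)) * η) ^ 2 / g ^ 3 =
          4 * (1 + 3 * m) ^ 2 / g ^ 3 * η ^ 2 := by ring
      linarith
    have s6 : (2 + 2 * (2 / g)) * ((m : ℝ) / N) ≤ 2 * m * (1 + 2 / g) * η ^ 2 := by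
      have t1 : (2 + 2 * (2 / g)) * ((m : ℝ) / N) ≤ (2 + 2 * (2 / g)) * (m * η ^ 2) :=
        mul_le_mul_of_nonneg_left hmN (by positivity)
      have t2 : (2 + 2 * (2 / g)) * ((m : ℝ) * η ^ 2) = 2 * m * (1 + 2 / g) * η ^ 2 := by ring
      linarith
    rw [mul_add, mul_add, mul_add, s1] at hT3
    rw [add_mul]
    linarith
  have e0 : Lv φ₁ 0 r₁ - Lv φ₁ (-η) r₁ = -D₁ := by rw [hD₁def]; ring
  rw [e0]
  exact hgoal

end Pool.Agent.Work.MP_0cd883_co.Cube
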