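import Pool.Agent.Work.MP_0cd883_co.Cube.ModL3
import Pool.Agent.Work.MP_0cd883_co.Cube.DefsR

/-! Module L4: below and above for three functions. -/

namespace Pool.Agent.Work.MP_0cd883_co.Cube

open MeasureTheory Set ModL3

theorem below3 {m : ℕ} (hm : 2 ≤ m) (hS : SlicePt m) {c u κ₁ κ₂ : ℝ} (hG : Good m c u κ₁ κ₂) :
    ∃ K η₀ : ℝ, 0 < K ∧ 0 < η₀ ∧ ∀ N : ℕ, 1 ≤ N → ∀ b₁ b₂ b₃ : (Fin m → Fin N) → ℝ,
      (∀ x, 0 ≤ b₁ x ∧ b₁ x ≤ 1) → (∀ x, 0 ≤ b₂ x ∧ b₂ x ≤ 1) → (∀ x, 0 ≤ b₃ x ∧ b₃ x ≤ 1) →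
      Rel3 b₁ b₂ b₃ → ∀ η : ℝ, 0 < η → η ≤ η₀ → 1 / (N : ℝ) ≤ η ^ 2 →
      Av (fun x => ind (lev x < c - 1) * (1 - b₁ x)) ≤
        2 * κ₁ * Av (fun x => ind (c < lev x ∧ lev x < (3 * c - 1) / 2) * b₂ x) +
        49 / 50 * Av (fun x => ind (u < lev x ∧ lev x < u + (c - 1) / 2) * b₃ x) + K * η := by
  obtain ⟨g, hg, hgf⟩ := exists_g hm hG
  obtain ⟨K, η₀, hK, hη₀, hS⟩ := hS g hg
  have h1 := hG.sum
  have h2 := hG.u_pos
  have h3 := hG.u_lt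
  have h4 := hG.one_lt
  have hk1 := hG.k1_nonneg
  have hm2 : (2 : ℝ) ≤ m := by exact_mod_cast hm
  refine ⟨(4 * κ₁ + 4 * (49 / 100) + 1) * (1 + m) + K * (c - 1), min η₀ 1, ?_,
    lt_min hη₀ one_pos, fun N hN b₁ b₂ b₃ hb₁ hb₂ hb₃ hr η hη hηη hNη => ?_⟩
  · have : 0 ≤ K * (c - 1) := mul_nonneg hK.le (by linarith)
    positivity
  have hη1 : η ≤ 1 := hηη.trans (min_le_right _ _)
  have hN' : (0 : ℝ) < 1 / (N : ℝ) := by
    have : (0 : ℝ) < N := by exact_mod_cast hN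
    positivity
  have hφ₁ : ∀ x, 0 ≤ 1 - b₁ x ∧ 1 - b₁ x ≤ 1 := fun x =>
    ⟨by linarith [(hb₁ x).2], by linarith [(hb₁ x).1]⟩
  have hI := integrated (m := m) (N := N) (by omega) hN (φ₁ := fun x => 1 - b₁ x) (φ₂ := b₂)
    (φ₃ := b₃) hφ₁ hb₂ hb₃ (K := K) (s := c - 1) (r₂ := c) (r₃ := u) (k₂ := κ₁)
    (k₃ := 49 / 100) hη hη1 hNη (by linarith) hk1 (by norm_num) (by
      intro τ h0 hτ
      refine hS N hN _ _ _ hφ₁ hb₂ hb₃ ?_ η hη (hηη.trans (min_le_left _ _)) hNη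
        (c - 1 - τ) (c + τ / 2) (u + τ / 2) (by linarith) (by linarith)
        (hgf _ (by linarith) (by linarith)) (hgf _ (by linarith) (by linarith)) (by linarith)
        κ₁ (49 / 100) (hG.b1 τ h0 hτ) (hG.b2 τ h0 hτ)
      intro x y w hxyw
      have := hr x y w hxyw
      linarith)
  rw [show c + (c - 1) / 2 = (3 * c - 1) / 2 by ring] at hI
  linarith

theorem above3 {m : ℕ} (hm : 2 ≤ m) (hS : SlicePt m) {c u κ₁ κ₂ : ℝ} (hG : Good m c u κ₁ κ₂) :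
    ∃ K η₀ : ℝ, 0 < K ∧ 0 < η₀ ∧ ∀ N : ℕ, 1 ≤ N → ∀ b₁ b₂ b₃ : (Fin m → Fin N) → ℝ,
      (∀ x, 0 ≤ b₁ x ∧ b₁ x ≤ 1) → (∀ x, 0 ≤ b₂ x ∧ b₂ x ≤ 1) → (∀ x, 0 ≤ b₃ x ∧ b₃ x ≤ 1) →
      Rel3 b₁ b₂ b₃ → ∀ η : ℝ, 0 < η → η ≤ η₀ → 1 / (N : ℝ) ≤ η ^ 2 →
      Av (fun x => ind (lev x < u - 1) * (1 - b₃ x)) ≤
        2 * κ₂ * (Av (fun x => ind (c < lev x ∧ lev x < (3 * c - 1) / 2) * b₁ x) +
          Av (fun x => ind (c < lev x ∧ lev x < (3 * c - 1) / 2) * b₂ x)) + K * η := by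
  obtain ⟨g, hg, hgf⟩ := exists_g hm hG
  obtain ⟨K, η₀, hK, hη₀, hS⟩ := hS g hg
  have h1 := hG.sum
  have h2 := hG.u_pos
  have h3 := hG.u_lt
  have h4 := hG.one_lt
  have hk2 := hG.k2_nonneg
  have hm2 : (2 : ℝ) ≤ m := by exact_mod_cast hm
  refine ⟨(4 * κ₂ + 4 * κ₂ + 1) * (1 + m) + K * c, min η₀ 1, by positivity,
    lt_min hη₀ one_pos, fun N hN b₁ b₂ b₃ hb₁ hb₂ hb₃ hr η hη hηη hNη => ?_⟩
  have hη1 : η ≤ 1 := hηη.trans (min_le_right _ _)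
  have hN' : (0 : ℝ) < 1 / (N : ℝ) := by
    have : (0 : ℝ) < N := by exact_mod_cast hN
    positivity
  have hD1 : 0 ≤ Av (fun x => ind (c < lev x ∧ lev x < (3 * c - 1) / 2) * b₁ x) :=
    Av_nonneg fun x => (ind_mul_mem (hb₁ x)).1
  have hD2 : 0 ≤ Av (fun x => ind (c < lev x ∧ lev x < (3 * c - 1) / 2) * b₂ x) :=
    Av_nonneg fun x => (ind_mul_mem (hb₂ x)).1
  rcases le_or_gt u 1 with hu | hu
  · have hz : Av (fun x => ind (lev x < u - 1) * (1 - b₃ x)) ≤ 0 := by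
      have h5 : Av (fun x : Fin m → Fin N => ind (lev x < u - 1) * (1 - b₃ x)) =
          Av (fun _ : Fin m → Fin N => (0 : ℝ)) := by
        congr 1
        funext x
        have h6 := lev_nonneg x
        rw [modL2_ind_false (by linarith), zero_mul]
      rw [h5, Av_const hN]
    refine hz.trans ?_
    positivity
  have hφ₁ : ∀ x, 0 ≤ 1 - b₃ x ∧ 1 - b₃ x ≤ 1 := fun x =>
    ⟨by linarith [(hb₃ x).2], by linarith [(hb₃ x).1]⟩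
  have hI := integrated (m := m) (N := N) (by omega) hN (φ₁ := fun x => 1 - b₃ x) (φ₂ := b₁)
    (φ₃ := b₂) hφ₁ hb₁ hb₂ (K := K) (s := u - 1) (r₂ := c) (r₃ := c) (k₂ := κ₂)
    (k₃ := κ₂) hη hη1 hNη (by linarith) hk2 hk2 (by
      intro τ h0 hτ
      refine hS N hN _ _ _ hφ₁ hb₁ hb₂ ?_ η hη (hηη.trans (min_le_left _ _)) hNη
        (u - 1 - τ) (c + τ / 2) (c + τ / 2) (by linarith) (by linarith)
        (hgf _ (by linarith) (by linarith)) (hgf _ (by linarith) (by linarith)) (by linarith)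
        κ₂ κ₂ (hG.b3 τ h0 hτ) (hG.b3 τ h0 hτ)
      intro x y w hxyw
      have := hr y w x fun j => by have := hxyw j; omega
      linarith)
  have hmono : ∀ b : (Fin m → Fin N) → ℝ, (∀ x, 0 ≤ b x ∧ b x ≤ 1) →
      Av (fun x => ind (c < lev x ∧ lev x < c + (u - 1) / 2) * b x) ≤
      Av (fun x => ind (c < lev x ∧ lev x < (3 * c - 1) / 2) * b x) := by
    intro b hb
    refine Av_mono fun x => mul_le_mul_of_nonneg_right ?_ (hb x).1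
    exact modL2_ind_mono fun h => ⟨h.1, by linarith [h.2]⟩
  have h6 := mul_le_mul_of_nonneg_left (hmono b₁ hb₁) hk2
  have h8 := mul_le_mul_of_nonneg_left (hmono b₂ hb₂) hk2
  have h7 : K * (u - 1) * η ≤ K * c * η := by
    have : K * (u - 1) ≤ K * c := mul_le_mul_of_nonneg_left (by linarith) hK.le
    exact mul_le_mul_of_nonneg_right this hη.le
  nlinarith

end Pool.Agent.Work.MP_0cd883_co.Cube
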