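import Pool.Agent.Work.MP_0cd883_co.Cube.ModL3

/-!
Module N: accounting. The visible inequality and the slice inequality enter as hypotheses.
-/

namespace Pool.Agent.Work.MP_0cd883_co.Cube

open MeasureTheory Set

/-- the conclusion of the visible inequality -/
def Visible (m : ℕ) (c : ℝ) : Prop :=
    ∃ K ε₀ : ℝ, 0 < K ∧ 0 < ε₀ ∧ ∀ N : ℕ, 1 ≤ N → ∀ b : (Fin m → Fin N) → ℝ,
      (∀ x, 0 ≤ b x ∧ b x ≤ 1) → Rel b → ∀ ε : ℝ, 0 < ε → ε ≤ ε₀ → 1 / (N : ℝ) ≤ ε ^ 2 →
      -(K * ε) ≤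
        Av (fun x => ind (c - 1 ≤ lev x ∧ lev x ≤ c) * (b x - (c - lev x))) +
        Av (fun x => ind (2 * c - 1 ≤ lev x ∧ lev x ≤ 2 * c) * (b x - (lev x - (2 * c - 1))))

/-- the conclusion of the slice inequality -/
def Slices (m : ℕ) (c : ℝ) : Prop :=
    ∃ K η₀ : ℝ, 0 < K ∧ 0 < η₀ ∧ ∀ N : ℕ, 1 ≤ N → ∀ b : (Fin m → Fin N) → ℝ,
      (∀ x, 0 ≤ b x ∧ b x ≤ 1) → Rel b → ∀ η : ℝ, 0 < η → η ≤ η₀ → 1 / (N : ℝ) ≤ η ^ 2 →
      Av (fun x => ind (lev x < c - 1) * (1 - b x)) + Av (fun x => ind (2 * c < lev x) * (1 - b x)) ≤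
        49 / 50 * Av (fun x => ind (c < lev x ∧ lev x < 2 * c - 1) * b x) + K * η

lemma modN_point {c t b : ℝ} (hc : 1 < c) :
    b = ind (c - 1 ≤ t ∧ t ≤ c) * (b - (c - t)) +
      ind (2 * c - 1 ≤ t ∧ t ≤ 2 * c) * (b - (t - (2 * c - 1))) + clamp (c - t) +
      clamp (t - (2 * c - 1)) - ind (t < c - 1) * (1 - b) - ind (2 * c < t) * (1 - b) +
      ind (c < t ∧ t < 2 * c - 1) * b := by
  unfold clamp
  rcases lt_or_ge t (c - 1) with h1 | h1
  · rw [modL2_ind_false (show ¬ (c - 1 ≤ t ∧ t ≤ c) from fun h => by linarith [h.1]),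
      modL2_ind_false (show ¬ (2 * c - 1 ≤ t ∧ t ≤ 2 * c) from fun h => by linarith [h.1]),
      modL2_ind_true h1, modL2_ind_false (show ¬ (2 * c < t) by linarith),
      modL2_ind_false (show ¬ (c < t ∧ t < 2 * c - 1) from fun h => by linarith [h.1]),
      min_eq_right (by linarith), max_eq_right (by norm_num),
      max_eq_left ((min_le_left _ _).trans (by linarith))]
    ring
  rcases le_or_gt t c with h2 | h2
  · rw [modL2_ind_true (show c - 1 ≤ t ∧ t ≤ c from ⟨h1, h2⟩),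
      modL2_ind_false (show ¬ (2 * c - 1 ≤ t ∧ t ≤ 2 * c) from fun h => by linarith [h.1]),
      modL2_ind_false (show ¬ (t < c - 1) by linarith),
      modL2_ind_false (show ¬ (2 * c < t) by linarith),
      modL2_ind_false (show ¬ (c < t ∧ t < 2 * c - 1) from fun h => by linarith [h.1]),
      min_eq_left (by linarith : c - t ≤ 1), max_eq_right (by linarith : 0 ≤ c - t),
      max_eq_left ((min_le_left _ _).trans (by linarith))]
    ring
  rcases lt_or_ge t (2 * c - 1) with h3 | h3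
  · rw [modL2_ind_false (show ¬ (c - 1 ≤ t ∧ t ≤ c) from fun h => by linarith [h.2]),
      modL2_ind_false (show ¬ (2 * c - 1 ≤ t ∧ t ≤ 2 * c) from fun h => by linarith [h.1]),
      modL2_ind_false (show ¬ (t < c - 1) by linarith),
      modL2_ind_false (show ¬ (2 * c < t) by linarith),
      modL2_ind_true (show c < t ∧ t < 2 * c - 1 from ⟨h2, h3⟩),
      max_eq_left ((min_le_left _ _).trans (by linarith : c - t ≤ 0)),
      max_eq_left ((min_le_left _ _).trans (by linarith : t - (2 * c - 1) ≤ 0))]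
    ring
  rcases le_or_gt t (2 * c) with h4 | h4
  · rw [modL2_ind_false (show ¬ (c - 1 ≤ t ∧ t ≤ c) from fun h => by linarith [h.2]),
      modL2_ind_true (show 2 * c - 1 ≤ t ∧ t ≤ 2 * c from ⟨h3, h4⟩),
      modL2_ind_false (show ¬ (t < c - 1) by linarith),
      modL2_ind_false (show ¬ (2 * c < t) by linarith),
      modL2_ind_false (show ¬ (c < t ∧ t < 2 * c - 1) from fun h => by linarith [h.2]),
      max_eq_left ((min_le_left _ _).trans (by linarith : c - t ≤ 0)),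
      min_eq_left (by linarith : t - (2 * c - 1) ≤ 1),
      max_eq_right (by linarith : 0 ≤ t - (2 * c - 1))]
    ring
  · rw [modL2_ind_false (show ¬ (c - 1 ≤ t ∧ t ≤ c) from fun h => by linarith [h.2]),
      modL2_ind_false (show ¬ (2 * c - 1 ≤ t ∧ t ≤ 2 * c) from fun h => by linarith [h.2]),
      modL2_ind_false (show ¬ (t < c - 1) by linarith),
      modL2_ind_true h4,
      modL2_ind_false (show ¬ (c < t ∧ t < 2 * c - 1) from fun h => by linarith [h.2]),
      max_eq_left ((min_le_left _ _).trans (by linarith : c - t ≤ 0)),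
      min_eq_right (by linarith : (1 : ℝ) ≤ t - (2 * c - 1)), max_eq_right (by norm_num)]
    ring

/-- the missing fraction, with a gain from the deep region -/
theorem lower_b' {m : ℕ} {c u κ₁ κ₂ : ℝ} (hG : Good m c u κ₁ κ₂)
    (hV : Visible m c) (hS : Slices m c) :
    ∃ K : ℝ, 0 < K ∧ ∀ N : ℕ, 1 ≤ N → ∀ b : (Fin m → Fin N) → ℝ,
      (∀ x, 0 ≤ b x ∧ b x ≤ 1) → Rel b →
      F (m + 1) c + F (m + 1) u + 1 / 50 * Av (fun x => ind (c < lev x ∧ lev x < 2 * c - 1) * b x) -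
        K / √(N : ℝ) ≤ Av b := by
  obtain ⟨K₁, ε₀, hK₁, hε₀, hV⟩ := hV
  obtain ⟨K₂, η₀, hK₂, hη₀, hS⟩ := hS
  have h1 := hG.sum
  have h4 := hG.one_lt
  obtain ⟨δ, hδ⟩ : ∃ δ : ℝ, δ = min ε₀ η₀ := ⟨_, rfl⟩
  have hδ0 : 0 < δ := by rw [hδ]; exact lt_min hε₀ hη₀
  refine ⟨K₁ + K₂ + m + 3 / δ, by positivity, fun N hN b hb hr => ?_⟩
  have hN1 : (1 : ℝ) ≤ N := by exact_mod_cast hN
  have hs1 : 1 ≤ √(N : ℝ) := Real.one_le_sqrt.2 hN1
  have hs0 : 0 < √(N : ℝ) := by linarith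
  have hsq : √(N : ℝ) ^ 2 = N := Real.sq_sqrt (by linarith)
  have hD1 : Av (fun x => ind (c < lev x ∧ lev x < 2 * c - 1) * b x) ≤ 1 := by
    rw [← Av_const (m := m) hN 1]
    exact Av_mono fun x => (ModL3.ind_mul_mem (hb x)).2
  have hb0 : 0 ≤ Av b := Av_nonneg fun x => (hb x).1
  rcases le_or_gt (1 / √(N : ℝ)) δ with hsm | hsm
  · have hη : 0 < 1 / √(N : ℝ) := by positivity
    have hη2 : 1 / (N : ℝ) ≤ (1 / √(N : ℝ)) ^ 2 := by rw [div_pow, hsq, one_pow]
    have hv := hV N hN b hb hr _ hη (hsm.trans (by rw [hδ]; exact min_le_left _ _)) hη2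
    have hsl := hS N hN b hb hr _ hη (hsm.trans (by rw [hδ]; exact min_le_right _ _)) hη2
    have hc1 := clamp_lower (m := m) hN c
    have hc2 := clamp_high (m := m) hN u
    rw [show (m : ℝ) - u = 2 * c - 1 by linarith] at hc2
    have hid : Av b =
        Av (fun x : Fin m → Fin N => ind (c - 1 ≤ lev x ∧ lev x ≤ c) * (b x - (c - lev x))) +
        Av (fun x : Fin m → Fin N => ind (2 * c - 1 ≤ lev x ∧ lev x ≤ 2 * c) *
          (b x - (lev x - (2 * c - 1)))) +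
        Av (fun x : Fin m → Fin N => clamp (c - lev x)) +
        Av (fun x : Fin m → Fin N => clamp (lev x - (2 * c - 1))) -
        Av (fun x : Fin m → Fin N => ind (lev x < c - 1) * (1 - b x)) -
        Av (fun x : Fin m → Fin N => ind (2 * c < lev x) * (1 - b x)) +
        Av (fun x : Fin m → Fin N => ind (c < lev x ∧ lev x < 2 * c - 1) * b x) := by
      rw [← Av_add, ← Av_add, ← Av_add, ← Av_sub, ← Av_sub, ← Av_add]
      congr 1
      funext x
      exact modN_point h4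
    have hmN : (m : ℝ) / N ≤ m * (1 / √(N : ℝ)) := by
      rw [mul_one_div]
      refine div_le_div_of_nonneg_left (Nat.cast_nonneg m) hs0 ?_
      nlinarith
    have hK : (K₁ + K₂ + m + 3 / δ) / √(N : ℝ) =
        K₁ * (1 / √(N : ℝ)) + K₂ * (1 / √(N : ℝ)) + m * (1 / √(N : ℝ)) + 3 / δ / √(N : ℝ) := by
      ring
    have h3 : 0 ≤ 3 / δ / √(N : ℝ) := by positivity
    rw [hK, hid]
    linarith
  · have h5 : 3 ≤ (K₁ + K₂ + m + 3 / δ) / √(N : ℝ) := by
      have h6 : 3 / δ * (1 / √(N : ℝ)) ≤ (K₁ + K₂ + m + 3 / δ) / √(N : ℝ) := by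
        rw [mul_one_div]
        refine div_le_div_of_nonneg_right ?_ hs0.le
        have : (0 : ℝ) ≤ m := Nat.cast_nonneg m
        linarith
      have h7 : 3 / δ * δ = 3 := div_mul_cancel₀ _ hδ0.ne'
      have h8 : 3 / δ * δ ≤ 3 / δ * (1 / √(N : ℝ)) :=
        mul_le_mul_of_nonneg_left hsm.le (by positivity)
      linarith
    have h6 := F_le_one (m + 1) c
    have h7 := F_le_one (m + 1) u
    linarith

end Pool.Agent.Work.MP_0cd883_co.Cube
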