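import Pool.Agent.Work.MP_0cd883_co.Cube.ModM
import Pool.Agent.Work.MP_0cd883_co.Cube.DefsR

/-! Module R, second part: comparison of the refined grid with the original one. -/

namespace Pool.Agent.Work.MP_0cd883_co.Cube

open Finset

/-- one coordinate: the number of points over a cell is at most `M` -/
theorem cell_one_le {N M : ℕ} (hM : 1 ≤ M) (o c : ℕ) :
    (Finset.univ.filter fun k : Fin (N * M) => ((k : ℕ) + o) / M = c).card ≤ M := by
  classical
  have h : (Finset.univ.filter fun k : Fin (N * M) => ((k : ℕ) + o) / M = c).card ≤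
      (Finset.range M).card := by
    refine Finset.card_le_card_of_injOn (fun k => ((k : ℕ) + o) % M) ?_ ?_
    · intro k _
      simp only [Finset.coe_range, Set.mem_Iio]
      exact Nat.mod_lt _ hM
    · intro k hk l hl hkl
      have hk' := (Finset.mem_filter.mp hk).2
      have hl' := (Finset.mem_filter.mp hl).2
      simp only at hkl
      have e1 := Nat.div_add_mod ((k : ℕ) + o) M
      have e2 := Nat.div_add_mod ((l : ℕ) + o) M
      rw [hk'] at e1
      rw [hl'] at e2
      ext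
      omega
  rwa [Finset.card_range] at h

/-- one coordinate: the number of points over an inner cell is at least `M` -/
theorem cell_one_ge {N M : ℕ} (hM : 1 ≤ M) {o c : ℕ} (ho : o ≤ 3 * M) (hc : 3 ≤ c) (hcN : c < N) :
    M ≤ (Finset.univ.filter fun k : Fin (N * M) => ((k : ℕ) + o) / M = c).card := by
  classical
  have hMc : 3 * M ≤ M * c := by nlinarith
  have hMN : M * c + M ≤ N * M := by nlinarith
  have hlt : ∀ s : Fin M, M * c + s - o < N * M := by
    intro s
    have := s.isLt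
    omega
  have h : (Finset.univ : Finset (Fin M)).card ≤
      (Finset.univ.filter fun k : Fin (N * M) => ((k : ℕ) + o) / M = c).card := by
    refine Finset.card_le_card_of_injOn (fun s => ⟨M * c + s - o, hlt s⟩) ?_ ?_
    · intro s _
      simp only [Finset.coe_filter, Finset.mem_univ, true_and, Set.mem_ofPred_eq]
      have h1 : M * c + (s : ℕ) - o + o = s + M * c := by omega
      rw [h1, Nat.add_mul_div_left _ _ hM, Nat.div_eq_of_lt s.isLt, zero_add]
    · intro s _ t _ hst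
      have h2 : M * c + (s : ℕ) - o = M * c + t - o := by
        have := congrArg (fun k : Fin (N * M) => (k : ℕ)) hst
        exact this
      ext
      omega
  rwa [Finset.card_univ, Fintype.card_fin] at h

theorem cell_filter {m N M : ℕ} (o : Fin m → ℕ) (ξ : Fin m → Fin N) :
    (Finset.univ.filter fun x : Fin m → Fin (N * M) => ∀ j, ((x j : ℕ) + o j) / M = ξ j) =
      Fintype.piFinset fun j => Finset.univ.filter fun k : Fin (N * M) =>
        ((k : ℕ) + o j) / M = ξ j := by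
  ext x
  simp [Fintype.mem_piFinset]

/-- number of points over a cell -/
theorem cell_le {m N M : ℕ} (hM : 1 ≤ M) (o : Fin m → ℕ) (ξ : Fin m → Fin N) :
    ∑ x : Fin m → Fin (N * M), ind (∀ j, ((x j : ℕ) + o j) / M = ξ j) ≤ (M : ℝ) ^ m := by
  classical
  rw [sum_ind_card, cell_filter, Fintype.card_piFinset]
  have h : ∏ j : Fin m, (Finset.univ.filter fun k : Fin (N * M) =>
      ((k : ℕ) + o j) / M = ξ j).card ≤ ∏ _j : Fin m, M :=
    Finset.prod_le_prod' fun j _ => cell_one_le hM (o j) (ξ j)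
  rw [Finset.prod_const, Finset.card_univ, Fintype.card_fin] at h
  exact_mod_cast h

theorem cell_ge {m N M : ℕ} (hM : 1 ≤ M) {o : Fin m → ℕ} (ho : ∀ j, o j ≤ 3 * M)
    {ξ : Fin m → Fin N} (hξ : ∀ j, 3 ≤ (ξ j : ℕ)) :
    (M : ℝ) ^ m ≤ ∑ x : Fin m → Fin (N * M), ind (∀ j, ((x j : ℕ) + o j) / M = ξ j) := by
  classical
  rw [sum_ind_card, cell_filter, Fintype.card_piFinset]
  have h : ∏ _j : Fin m, M ≤ ∏ j : Fin m, (Finset.univ.filter fun k : Fin (N * M) =>
      ((k : ℕ) + o j) / M = ξ j).card :=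
    Finset.prod_le_prod' fun j _ => cell_one_ge hM (ho j) (hξ j) (ξ j).isLt
  rw [Finset.prod_const, Finset.card_univ, Fintype.card_fin] at h
  exact_mod_cast h

/-- the level of a point over a cell -/
theorem cell_lev {m N M : ℕ} (hN : 1 ≤ N) (hM : 1 ≤ M) {o : Fin m → ℕ} (ho : ∀ j, o j ≤ 3 * M)
    {ξ : Fin m → Fin N} {x : Fin m → Fin (N * M)} (h : ∀ j, ((x j : ℕ) + o j) / M = ξ j) :
    lev ξ - 3 * (m / N) ≤ lev x ∧ lev x ≤ lev ξ + m / N := by
  have hN' : (0 : ℝ) < N := by exact_mod_cast hN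
  have hM' : (0 : ℝ) < M := by exact_mod_cast hM
  have h1 : ∀ j, (M : ℝ) * ((ξ j : ℕ) : ℝ) ≤ ((x j : ℕ) : ℝ) + 3 * M := by
    intro j
    have e1 := Nat.div_mul_le_self ((x j : ℕ) + o j) M
    rw [h j] at e1
    have e2 : M * (ξ j : ℕ) ≤ (x j : ℕ) + 3 * M := by
      have := ho j
      have e3 : M * (ξ j : ℕ) = ξ j * M := mul_comm _ _
      omega
    exact_mod_cast e2
  have h2 : ∀ j, ((x j : ℕ) : ℝ) ≤ (M : ℝ) * ((ξ j : ℕ) : ℝ) + M := by
    intro j
    have e1 := Nat.lt_div_mul_add (a := (x j : ℕ) + o j) (b := M) hM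
    rw [h j] at e1
    have e2 : (x j : ℕ) ≤ M * (ξ j : ℕ) + M := by
      have e3 : M * (ξ j : ℕ) = ξ j * M := mul_comm _ _
      omega
    exact_mod_cast e2
  have s1 : (M : ℝ) * ∑ j, ((ξ j : ℕ) : ℝ) ≤ (∑ j, ((x j : ℕ) : ℝ)) + m * (3 * M) := by
    rw [Finset.mul_sum]
    refine (Finset.sum_le_sum fun j _ => h1 j).trans (le_of_eq ?_)
    rw [Finset.sum_add_distrib, Finset.sum_const, Finset.card_univ, Fintype.card_fin,
      nsmul_eq_mul]
  have s2 : (∑ j, ((x j : ℕ) : ℝ)) ≤ (M : ℝ) * (∑ j, ((ξ j : ℕ) : ℝ)) + m * M := by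
    rw [Finset.mul_sum]
    refine (Finset.sum_le_sum fun j _ => h2 j).trans (le_of_eq ?_)
    rw [Finset.sum_add_distrib, Finset.sum_const, Finset.card_univ, Fintype.card_fin,
      nsmul_eq_mul]
  unfold lev
  push_cast
  have hNM : (0 : ℝ) < N * M := mul_pos hN' hM'
  constructor
  · rw [le_div_iff₀ hNM]
    have : ((∑ j, ((ξ j : ℕ) : ℝ)) / N - 3 * (m / N)) * (N * M) =
        M * (∑ j, ((ξ j : ℕ) : ℝ)) - m * (3 * M) := by
      field_simp
    rw [this]
    linarith
  · rw [div_le_iff₀ hNM]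
    have : ((∑ j, ((ξ j : ℕ) : ℝ)) / N + m / N) * (N * M) =
        M * (∑ j, ((ξ j : ℕ) : ℝ)) + m * M := by
      field_simp
    rw [this]
    linarith

/-- fraction of the grid where some coordinate lies in a set of at most `k` values -/
theorem Av_some {m N : ℕ} (hN : 1 ≤ N) (p : Fin m → Fin N → Prop) {k : ℕ}
    (hp : ∀ j, ∃ s : Finset (Fin N), s.card ≤ k ∧ ∀ v, p j v → v ∈ s) :
    Av (fun x : Fin m → Fin N => ind (∃ j, p j (x j))) ≤ k * (m / N) := by
  classical
  have hN' : (0 : ℝ) < N := by exact_mod_cast hN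
  choose s hs1 hs2 using hp
  unfold Av
  rw [sum_ind_card]
  have hsub : (Finset.univ.filter fun x : Fin m → Fin N => ∃ j, p j (x j)) ⊆
      Finset.univ.biUnion fun j : Fin m => Fintype.piFinset fun i : Fin m =>
        if i = j then s j else Finset.univ := by
    intro x hx
    obtain ⟨j, hj⟩ := (Finset.mem_filter.mp hx).2
    refine Finset.mem_biUnion.mpr ⟨j, Finset.mem_univ _, ?_⟩
    rw [Fintype.mem_piFinset]
    intro i
    by_cases hi : i = j
    · rw [if_pos hi, hi]
      exact hs2 j _ hj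
    · rw [if_neg hi]
      exact Finset.mem_univ _
  have hcard : ∀ j : Fin m, (Fintype.piFinset fun i : Fin m =>
      if i = j then s j else Finset.univ).card ≤ k * N ^ (m - 1) := by
    intro j
    rw [Fintype.card_piFinset]
    have : ∀ i : Fin m, (if i = j then s j else Finset.univ).card =
        if i = j then (s j).card else N := by
      intro i
      split_ifs
      · rfl
      · rw [Finset.card_univ, Fintype.card_fin]
    simp only [this]
    rw [Finset.prod_ite, Finset.prod_const, Finset.prod_const]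
    have e1 : (Finset.univ.filter fun i : Fin m => i = j).card = 1 := by
      rw [Finset.filter_eq' Finset.univ j, if_pos (Finset.mem_univ _), Finset.card_singleton]
    have e2 : (Finset.univ.filter fun i : Fin m => ¬ i = j).card = m - 1 := by
      rw [Finset.filter_ne' Finset.univ j, Finset.card_erase_of_mem (Finset.mem_univ _),
        Finset.card_univ, Fintype.card_fin]
    rw [e1, e2, pow_one]
    exact Nat.mul_le_mul_right _ (hs1 j)
  have h1 := (Finset.card_le_card hsub).trans (Finset.card_biUnion_le.trans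
    (Finset.sum_le_sum fun j _ => hcard j))
  simp only [Finset.sum_const, Finset.card_univ, Fintype.card_fin, smul_eq_mul] at h1
  have h2 : ((Finset.univ.filter fun x : Fin m → Fin N => ∃ j, p j (x j)).card : ℝ) ≤
      m * (k * (N : ℝ) ^ (m - 1)) := by exact_mod_cast h1
  rcases Nat.eq_zero_or_pos m with hm | hm
  · subst hm
    simp only [Nat.cast_zero, zero_mul] at h2
    simp only [Nat.cast_zero, zero_div, mul_zero]
    exact div_nonpos_of_nonpos_of_nonneg h2 (by positivity)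
  · rw [← mul_div_assoc, div_le_div_iff₀ (by positivity) hN']
    obtain ⟨l, rfl⟩ : ∃ l, m = l + 1 := ⟨m - 1, by omega⟩
    rw [Nat.add_sub_cancel] at h2
    calc _ ≤ (((l + 1 : ℕ) : ℝ) * (k * (N : ℝ) ^ l)) * N := mul_le_mul_of_nonneg_right h2 hN'.le
      _ = _ := by rw [pow_succ]; ring

theorem hat_in {m N : ℕ} (b : (Fin m → Fin N) → ℝ) {x : Fin m → ℕ} (h : ∀ j, x j < N) :
    hat b x = b (fun j => ⟨x j, h j⟩) := by
  unfold hat
  rw [dif_pos h]

theorem hat_out {m N : ℕ} (b : (Fin m → Fin N) → ℝ) {x : Fin m → ℕ} (h : ¬ ∀ j, x j < N) :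
    hat b x = 1 := by
  unfold hat
  rw [dif_neg h]

theorem hat_bd {m N : ℕ} {b : (Fin m → Fin N) → ℝ} (hb : ∀ x, 0 ≤ b x ∧ b x ≤ 1)
    (x : Fin m → ℕ) : 0 ≤ hat b x ∧ hat b x ≤ 1 := by
  by_cases h : ∀ j, x j < N
  · rw [hat_in b h]; exact hb _
  · rw [hat_out b h]; exact ⟨zero_le_one, le_rfl⟩

/-- points whose cell lies outside the grid -/
theorem Av_out {m N M : ℕ} (hN : 1 ≤ N) (hM : 1 ≤ M) {o : Fin m → ℕ} (ho : ∀ j, o j ≤ 3 * M) :
    Av (fun x : Fin m → Fin (N * M) => ind (¬ ∀ j, ((x j : ℕ) + o j) / M < N)) ≤ 3 * (m / N) := by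
  classical
  have hN' : (0 : ℝ) < N := by exact_mod_cast hN
  have hM' : (0 : ℝ) < M := by exact_mod_cast hM
  have h1 := Av_some (m := m) (N := N * M) (Nat.mul_pos hN hM)
    (fun j (v : Fin (N * M)) => ¬ ((v : ℕ) + o j) / M < N) (k := 3 * M) (fun j => by
      refine ⟨Finset.univ.filter fun v : Fin (N * M) => N * M ≤ (v : ℕ) + 3 * M, ?_, ?_⟩
      · have h : (Finset.univ.filter fun v : Fin (N * M) => N * M ≤ (v : ℕ) + 3 * M).card ≤
            (Finset.range (3 * M)).card := by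
          refine Finset.card_le_card_of_injOn (fun v => N * M - 1 - (v : ℕ)) ?_ ?_
          · intro v hv
            have hv' := (Finset.mem_filter.mp hv).2
            have := v.isLt
            simp only [Finset.coe_range, Set.mem_Iio]
            omega
          · intro v hv w hw hvw
            have h1 := v.isLt
            have h2 := w.isLt
            simp only at hvw
            ext
            omega
        rwa [Finset.card_range] at h
      · intro v hv
        refine Finset.mem_filter.mpr ⟨Finset.mem_univ _, ?_⟩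
        rw [Nat.div_lt_iff_lt_mul hM, not_lt] at hv
        have := ho j
        omega)
  have e : (fun x : Fin m → Fin (N * M) => ind (¬ ∀ j, ((x j : ℕ) + o j) / M < N)) =
      fun x => ind (∃ j, ¬ ((x j : ℕ) + o j) / M < N) := by
    funext x
    congr 1
    rw [eq_iff_iff]
    exact not_forall
  rw [e]
  refine h1.trans (le_of_eq ?_)
  push_cast
  field_simp

/-- cells near the lower boundary -/
theorem Av_low {m N : ℕ} (hN : 1 ≤ N) :
    Av (fun x : Fin m → Fin N => ind (¬ ∀ j, 3 ≤ (x j : ℕ))) ≤ 3 * (m / N) := by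
  classical
  have h1 := Av_some (m := m) (N := N) hN (fun _ (v : Fin N) => ¬ 3 ≤ (v : ℕ)) (k := 3)
    (fun j => by
      refine ⟨Finset.univ.filter fun v : Fin N => (v : ℕ) < 3, ?_, ?_⟩
      · rw [Fin.card_filter_val_lt]
        exact min_le_right _ _
      · intro v hv
        refine Finset.mem_filter.mpr ⟨Finset.mem_univ _, ?_⟩
        omega)
  have e : (fun x : Fin m → Fin N => ind (¬ ∀ j, 3 ≤ (x j : ℕ))) =
      fun x => ind (∃ j, ¬ 3 ≤ (x j : ℕ)) := by
    funext x
    congr 1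
    rw [eq_iff_iff]
    exact not_forall
  rw [e]
  refine h1.trans (le_of_eq ?_)
  push_cast
  ring

/-- comparison, upper estimate, for one offset `o` -/
theorem off_upper {m N M : ℕ} (hm : 1 ≤ m) (hN : 1 ≤ N) (hM : 1 ≤ M) {b : (Fin m → Fin N) → ℝ}
    (hb : ∀ x, 0 ≤ b x ∧ b x ≤ 1) (o : Fin m → ℕ) (ho : ∀ j, o j ≤ 3 * M) (α β : ℝ) (hαβ : α ≤ β) :
    Av (fun x : Fin m → Fin (N * M) => ind (α ≤ lev x ∧ lev x ≤ β) *
      hat b (fun j => ((x j : ℕ) + o j) / M)) ≤
      Av (fun x => ind (α < lev x ∧ lev x < β) * b x) + 20 * m / N := by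
  classical
  have hN' : (0 : ℝ) < N := by exact_mod_cast hN
  have hM' : (0 : ℝ) < M := by exact_mod_cast hM
  -- the coarse function
  set g : (Fin m → Fin N) → ℝ :=
    fun ξ => ind (α - m / N ≤ lev ξ ∧ lev ξ ≤ β + 3 * (m / N)) * b ξ with hg
  have hg0 : ∀ ξ, 0 ≤ g ξ := fun ξ => mul_nonneg (ind_nonneg _) (hb ξ).1
  have step1 : Av (fun x : Fin m → Fin (N * M) => ind (α ≤ lev x ∧ lev x ≤ β) *
      hat b (fun j => ((x j : ℕ) + o j) / M)) ≤
      Av (fun x : Fin m → Fin (N * M) => ∑ ξ : Fin m → Fin N,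
        g ξ * ind (∀ j, ((x j : ℕ) + o j) / M = ξ j)) +
      Av (fun x : Fin m → Fin (N * M) => ind (¬ ∀ j, ((x j : ℕ) + o j) / M < N)) := by
    rw [← Av_add]
    refine Av_mono fun x => ?_
    by_cases hx : ∀ j, ((x j : ℕ) + o j) / M < N
    · rw [ind_false (not_not.mpr hx), add_zero, hat_in b hx]
      have hterm := Finset.single_le_sum (f := fun ξ : Fin m → Fin N =>
        g ξ * ind (∀ j, ((x j : ℕ) + o j) / M = ξ j))
        (fun ξ _ => mul_nonneg (hg0 ξ) (ind_nonneg _))
        (Finset.mem_univ (fun j => (⟨((x j : ℕ) + o j) / M, hx j⟩ : Fin N)))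
      have hi : ind (∀ j, ((x j : ℕ) + o j) / M =
        ((⟨((x j : ℕ) + o j) / M, hx j⟩ : Fin N) : ℕ)) = 1 := ind_true fun j => rfl
      rw [hi, mul_one] at hterm
      refine le_trans ?_ hterm
      simp only [hg]
      refine mul_le_mul_of_nonneg_right (ind_mono fun hlev => ?_) (hb _).1
      have := cell_lev hN hM ho (ξ := fun j => (⟨((x j : ℕ) + o j) / M, hx j⟩ : Fin N)) (x := x)
        (fun j => rfl)
      constructor
      · linarith [this.2, hlev.1]
      · linarith [this.1, hlev.2]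
    · rw [ind_true hx]
      have h1 : ind (α ≤ lev x ∧ lev x ≤ β) * hat b (fun j => ((x j : ℕ) + o j) / M) ≤ 1 :=
        mul_le_one₀ (ind_le_one _) (hat_bd hb _).1 (hat_bd hb _).2
      have h2 : 0 ≤ ∑ ξ : Fin m → Fin N, g ξ * ind (∀ j, ((x j : ℕ) + o j) / M = ξ j) :=
        Finset.sum_nonneg fun ξ _ => mul_nonneg (hg0 ξ) (ind_nonneg _)
      linarith
  have step2 : Av (fun x : Fin m → Fin (N * M) => ∑ ξ : Fin m → Fin N,
        g ξ * ind (∀ j, ((x j : ℕ) + o j) / M = ξ j)) ≤ Av g := by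
    unfold Av
    rw [Finset.sum_comm]
    simp only [← Finset.mul_sum]
    have h1 : ∑ ξ : Fin m → Fin N, g ξ * ∑ x : Fin m → Fin (N * M),
        ind (∀ j, ((x j : ℕ) + o j) / M = ξ j) ≤ ∑ ξ : Fin m → Fin N, g ξ * (M : ℝ) ^ m :=
      Finset.sum_le_sum fun ξ _ => mul_le_mul_of_nonneg_left (cell_le hM o ξ) (hg0 ξ)
    refine (div_le_div_of_nonneg_right h1 (by positivity)).trans (le_of_eq ?_)
    rw [← Finset.sum_mul]
    push_cast
    rw [mul_pow]
    field_simp
  have step3 : Av g ≤ Av (fun x => ind (α < lev x ∧ lev x < β) * b x) +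
      (Av (fun ξ : Fin m → Fin N => ind (α - m / N ≤ lev ξ ∧ lev ξ ≤ α - m / N + m / N)) +
       Av (fun ξ : Fin m → Fin N => ind (β ≤ lev ξ ∧ lev ξ ≤ β + 3 * (m / N)))) := by
    rw [← Av_add, ← Av_add]
    refine Av_mono fun ξ => ?_
    simp only [hg]
    have hb1 := hb ξ
    by_cases h1 : α - m / N ≤ lev ξ ∧ lev ξ ≤ β + 3 * (m / N)
    · rw [ind_true h1, one_mul]
      by_cases h2 : α < lev ξ ∧ lev ξ < β
      · rw [ind_true h2, one_mul]
        have := ind_nonneg (α - m / N ≤ lev ξ ∧ lev ξ ≤ α - m / N + m / N)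
        have := ind_nonneg (β ≤ lev ξ ∧ lev ξ ≤ β + 3 * (m / N))
        linarith
      · rw [ind_false h2, zero_mul, zero_add]
        by_cases h3 : lev ξ ≤ α
        · rw [ind_true (⟨h1.1, by linarith⟩ : α - m / N ≤ lev ξ ∧ lev ξ ≤ α - m / N + m / N)]
          have := ind_nonneg (β ≤ lev ξ ∧ lev ξ ≤ β + 3 * (m / N))
          linarith
        · have h4 : β ≤ lev ξ := by
            by_contra h5
            exact h2 ⟨not_le.mp h3, not_le.mp h5⟩
          rw [ind_true (⟨h4, h1.2⟩ : β ≤ lev ξ ∧ lev ξ ≤ β + 3 * (m / N))]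
          have := ind_nonneg (α - m / N ≤ lev ξ ∧ lev ξ ≤ α - m / N + m / N)
          linarith
    · rw [ind_false h1, zero_mul]
      have h2 := mul_nonneg (ind_nonneg (α < lev ξ ∧ lev ξ < β)) hb1.1
      have := ind_nonneg (α - m / N ≤ lev ξ ∧ lev ξ ≤ α - m / N + m / N)
      have := ind_nonneg (β ≤ lev ξ ∧ lev ξ ≤ β + 3 * (m / N))
      linarith
  have hmN : (0 : ℝ) ≤ m / N := by positivity
  have l1 := count_layer hm hN (r := α - m / N) (t := m / N) hmN
  have l2 := count_layer hm hN (r := β) (t := 3 * (m / N)) (by positivity)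
  have l3 := Av_out (m := m) hN hM ho
  have e : 20 * (m : ℝ) / N = 20 * (m / N) := by ring
  rw [e]
  linarith

/-- comparison, lower estimate, for one offset `o` -/
theorem off_lower {m N M : ℕ} (hm : 1 ≤ m) (hN : 1 ≤ N) (hM : 1 ≤ M) {b : (Fin m → Fin N) → ℝ}
    (hb : ∀ x, 0 ≤ b x ∧ b x ≤ 1) (o : Fin m → ℕ) (ho : ∀ j, o j ≤ 3 * M) (α β : ℝ) (hαβ : α ≤ β) :
    Av (fun x => ind (α ≤ lev x ∧ lev x ≤ β) * b x) ≤
      Av (fun x : Fin m → Fin (N * M) => ind (α < lev x ∧ lev x < β) *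
        hat b (fun j => ((x j : ℕ) + o j) / M)) + 20 * m / N := by
  classical
  have hN' : (0 : ℝ) < N := by exact_mod_cast hN
  have hM' : (0 : ℝ) < M := by exact_mod_cast hM
  -- the coarse function
  set g : (Fin m → Fin N) → ℝ :=
    fun ξ => ind ((α + 3 * (m / N) < lev ξ ∧ lev ξ < β - m / N) ∧ ∀ j, 3 ≤ (ξ j : ℕ)) * b ξ with hg
  have hg0 : ∀ ξ, 0 ≤ g ξ := fun ξ => mul_nonneg (ind_nonneg _) (hb ξ).1
  have step1 : Av (fun x : Fin m → Fin (N * M) => ∑ ξ : Fin m → Fin N,
        g ξ * ind (∀ j, ((x j : ℕ) + o j) / M = ξ j)) ≤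
      Av (fun x : Fin m → Fin (N * M) => ind (α < lev x ∧ lev x < β) *
        hat b (fun j => ((x j : ℕ) + o j) / M)) := by
    refine Av_mono fun x => ?_
    by_cases hx : ∀ j, ((x j : ℕ) + o j) / M < N
    · rw [hat_in b hx, Finset.sum_eq_single (fun j => (⟨((x j : ℕ) + o j) / M, hx j⟩ : Fin N))]
      · rw [ind_true (fun j => rfl : ∀ j, ((x j : ℕ) + o j) / M =
          ((⟨((x j : ℕ) + o j) / M, hx j⟩ : Fin N) : ℕ)), mul_one]
        simp only [hg]
        refine mul_le_mul_of_nonneg_right (ind_mono fun hlev => ?_) (hb _).1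
        have := cell_lev hN hM ho (ξ := fun j => (⟨((x j : ℕ) + o j) / M, hx j⟩ : Fin N)) (x := x)
          (fun j => rfl)
        constructor
        · linarith [this.1, hlev.1.1]
        · linarith [this.2, hlev.1.2]
      · intro ξ _ hξ
        rw [ind_false, mul_zero]
        intro h
        refine hξ ?_
        funext j
        ext
        exact (h j).symm
      · intro h
        exact absurd (Finset.mem_univ _) h
    · rw [Finset.sum_eq_zero]
      · exact mul_nonneg (ind_nonneg _) (hat_bd hb _).1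
      · intro ξ _
        rw [ind_false, mul_zero]
        intro h
        exact hx fun j => by rw [h j]; exact (ξ j).isLt
  have step2 : Av g ≤ Av (fun x : Fin m → Fin (N * M) => ∑ ξ : Fin m → Fin N,
        g ξ * ind (∀ j, ((x j : ℕ) + o j) / M = ξ j)) := by
    unfold Av
    rw [Finset.sum_comm]
    simp only [← Finset.mul_sum]
    have h1 : ∑ ξ : Fin m → Fin N, g ξ * (M : ℝ) ^ m ≤
        ∑ ξ : Fin m → Fin N, g ξ * ∑ x : Fin m → Fin (N * M),
        ind (∀ j, ((x j : ℕ) + o j) / M = ξ j) := by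
      refine Finset.sum_le_sum fun ξ _ => ?_
      by_cases hξ : ∀ j, 3 ≤ (ξ j : ℕ)
      · exact mul_le_mul_of_nonneg_left (cell_ge hM ho hξ) (hg0 ξ)
      · have : g ξ = 0 := by
          simp only [hg]
          rw [ind_false (fun h => hξ h.2), zero_mul]
        rw [this, zero_mul, zero_mul]
    refine le_trans (le_of_eq ?_) (div_le_div_of_nonneg_right h1 (by positivity))
    rw [← Finset.sum_mul]
    push_cast
    rw [mul_pow]
    field_simp
  have step3 : Av (fun x => ind (α ≤ lev x ∧ lev x ≤ β) * b x) ≤ Av g +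
      (Av (fun ξ : Fin m → Fin N => ind (α ≤ lev ξ ∧ lev ξ ≤ α + 3 * (m / N))) +
       (Av (fun ξ : Fin m → Fin N => ind (β - m / N ≤ lev ξ ∧ lev ξ ≤ β - m / N + m / N)) +
        Av (fun ξ : Fin m → Fin N => ind (¬ ∀ j, 3 ≤ (ξ j : ℕ))))) := by
    rw [← Av_add, ← Av_add, ← Av_add]
    refine Av_mono fun ξ => ?_
    have hb1 := hb ξ
    have n1 := ind_nonneg (α ≤ lev ξ ∧ lev ξ ≤ α + 3 * (m / N))
    have n2 := ind_nonneg (β - m / N ≤ lev ξ ∧ lev ξ ≤ β - m / N + m / N)
    have n3 := ind_nonneg (¬ ∀ j, 3 ≤ (ξ j : ℕ))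
    have n4 := hg0 ξ
    by_cases h1 : α ≤ lev ξ ∧ lev ξ ≤ β
    · rw [ind_true h1, one_mul]
      by_cases h2 : ∀ j, 3 ≤ (ξ j : ℕ)
      · by_cases h3 : lev ξ ≤ α + 3 * (m / N)
        · rw [ind_true (⟨h1.1, h3⟩ : α ≤ lev ξ ∧ lev ξ ≤ α + 3 * (m / N))]
          linarith
        · by_cases h4 : β - m / N ≤ lev ξ
          · rw [ind_true (⟨h4, by linarith [h1.2]⟩ :
              β - m / N ≤ lev ξ ∧ lev ξ ≤ β - m / N + m / N)]
            linarith
          · have : g ξ = b ξ := by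
              simp only [hg]
              rw [ind_true ⟨⟨not_le.mp h3, not_le.mp h4⟩, h2⟩, one_mul]
            linarith
      · rw [ind_true h2]
        linarith
    · rw [ind_false h1, zero_mul]
      linarith
  have hmN : (0 : ℝ) ≤ m / N := by positivity
  have l1 := count_layer hm hN (r := α) (t := 3 * (m / N)) (by positivity)
  have l2 := count_layer hm hN (r := β - m / N) (t := m / N) hmN
  have l3 := Av_low (m := m) hN
  have e : 20 * (m : ℝ) / N = 20 * (m / N) := by ring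
  rw [e]
  linarith

/-- exchange of averages -/
theorem Av_swap {m N M : ℕ} (φ : (Fin m → Fin N) → ℝ)
    (ψ : (Fin m → Fin N) → (Fin m → Fin M) → ℝ) :
    Av (fun x => φ x * Av (fun a => ψ x a)) = Av (fun a => Av (fun x => φ x * ψ x a)) := by
  unfold Av
  simp only [← mul_div_assoc, Finset.mul_sum]
  rw [← Finset.sum_div, ← Finset.sum_div, Finset.sum_comm, div_div, div_div, mul_comm]

/-- comparison for the three functions (`rB₃` after a reflection) -/
theorem rB₁_upper {m N M : ℕ} (hm : 1 ≤ m) (hN : 1 ≤ N) (hM : 1 ≤ M) {b : (Fin m → Fin N) → ℝ}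
    (hb : ∀ x, 0 ≤ b x ∧ b x ≤ 1) (α β : ℝ) (hαβ : α ≤ β) :
    Av (fun x => ind (α ≤ lev x ∧ lev x ≤ β) * rB₁ M b x) ≤
      Av (fun x => ind (α < lev x ∧ lev x < β) * b x) + 20 * m / N := by
  unfold rB₁
  rw [Av_swap]
  refine le_trans (Av_mono fun a => off_upper hm hN hM hb (fun j => (a j : ℕ))
    (fun j => by have := (a j).isLt; omega) α β hαβ) (le_of_eq ?_)
  exact Av_const hM _

theorem rB₂_upper {m N M : ℕ} (hm : 1 ≤ m) (hN : 1 ≤ N) (hM : 1 ≤ M) {b : (Fin m → Fin N) → ℝ}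
    (hb : ∀ x, 0 ≤ b x ∧ b x ≤ 1) (α β : ℝ) (hαβ : α ≤ β) :
    Av (fun x => ind (α ≤ lev x ∧ lev x ≤ β) * rB₂ M b x) ≤
      Av (fun x => ind (α < lev x ∧ lev x < β) * b x) + 20 * m / N := by
  unfold rB₂
  rw [Av_swap]
  refine le_trans (Av_mono fun a => ?_) (le_of_eq (Av_const hM _))
  rw [Av_swap]
  refine le_trans (Av_mono fun a' => off_upper hm hN hM hb (fun j => (a j : ℕ) + a' j)
    (fun j => by have := (a j).isLt; have := (a' j).isLt; omega) α β hαβ) (le_of_eq ?_)
  exact Av_const hM _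

theorem rB₁_lower {m N M : ℕ} (hm : 1 ≤ m) (hN : 1 ≤ N) (hM : 1 ≤ M) {b : (Fin m → Fin N) → ℝ}
    (hb : ∀ x, 0 ≤ b x ∧ b x ≤ 1) (α β : ℝ) (hαβ : α ≤ β) :
    Av (fun x => ind (α ≤ lev x ∧ lev x ≤ β) * b x) ≤
      Av (fun x => ind (α < lev x ∧ lev x < β) * rB₁ M b x) + 20 * m / N := by
  unfold rB₁
  rw [Av_swap, ← sub_le_iff_le_add]
  refine le_trans (le_of_eq (Av_const hM _).symm) (Av_mono fun a => ?_)
  rw [sub_le_iff_le_add]
  exact off_lower hm hN hM hb (fun j => (a j : ℕ))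
    (fun j => by have := (a j).isLt; omega) α β hαβ

/-- reversal of the refined grid -/
theorem Av_rev {m N : ℕ} (φ : (Fin m → Fin N) → ℝ) :
    Av (fun x => φ (fun j => Fin.rev (x j))) = Av φ := by
  unfold Av
  congr 1
  let e : (Fin m → Fin N) ≃ (Fin m → Fin N) :=
    ⟨fun x j => Fin.rev (x j), fun x j => Fin.rev (x j), fun x => by simp, fun x => by simp⟩
  exact Equiv.sum_comp e φ

theorem lev_rev {m N : ℕ} (hN : 1 ≤ N) (x : Fin m → Fin N) :
    lev (fun j => Fin.rev (x j)) = m - m / N - lev x := by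
  have hN' : (0 : ℝ) < N := by exact_mod_cast hN
  unfold lev
  have h1 : ∀ j, (((Fin.rev (x j) : Fin N) : ℕ) : ℝ) = N - 1 - ((x j : ℕ) : ℝ) := by
    intro j
    have := (x j).isLt
    rw [Fin.val_rev, Nat.cast_sub (by omega)]
    push_cast
    ring
  simp only [h1]
  rw [Finset.sum_sub_distrib, Finset.sum_const, Finset.card_univ, Fintype.card_fin, nsmul_eq_mul]
  field_simp

theorem rev_window {m N M : ℕ} (hN : 1 ≤ N) (hM : 1 ≤ M) (b : (Fin m → Fin N) → ℝ)
    (o : Fin m → ℕ) (p : ℝ → Prop) :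
    Av (fun w : Fin m → Fin (N * M) => ind (p (lev w)) *
      hat b (fun j => (N * M - 1 - (w j : ℕ) + o j) / M)) =
    Av (fun v : Fin m → Fin (N * M) => ind (p (m - m / ((N * M : ℕ) : ℝ) - lev v)) *
      hat b (fun j => ((v j : ℕ) + o j) / M)) := by
  rw [← Av_rev]
  congr 1
  funext v
  rw [lev_rev (Nat.mul_pos hN hM)]
  congr 2
  funext j
  have := (v j).isLt
  rw [Fin.val_rev]
  congr 2
  omega

theorem rB₃_upper {m N M : ℕ} (hm : 1 ≤ m) (hN : 1 ≤ N) (hM : 1 ≤ M) {b : (Fin m → Fin N) → ℝ}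
    (hb : ∀ x, 0 ≤ b x ∧ b x ≤ 1) (α β : ℝ) (hαβ : α ≤ β) :
    Av (fun x => ind (α ≤ lev x ∧ lev x ≤ β) * rB₃ M b x) ≤
      Av (fun x => ind (m - β < lev x ∧ lev x < m - α) * b x) + 25 * m / N := by
  have hN' : (0 : ℝ) < N := by exact_mod_cast hN
  have hM' : (1 : ℝ) ≤ M := by exact_mod_cast hM
  have hmN : (0 : ℝ) ≤ m / N := by positivity
  set q : ℝ := m / ((N * M : ℕ) : ℝ) with hq
  have hq0 : 0 ≤ q := by positivity
  have hq1 : q ≤ m / N := by
    rw [hq]
    push_cast
    exact div_le_div_of_nonneg_left (by positivity) hN' (by nlinarith)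
  unfold rB₃
  rw [Av_swap]
  refine le_trans (Av_mono fun a => ?_) (le_of_eq (Av_const hM _))
  rw [Av_swap]
  refine le_trans (Av_mono fun a' => ?_) (le_of_eq (Av_const hM _))
  rw [rev_window hN hM b (fun j => (a j : ℕ) + a' j + M) (fun t => α ≤ t ∧ t ≤ β)]
  have h1 := off_upper hm hN hM hb (fun j => (a j : ℕ) + a' j + M)
    (fun j => by have := (a j).isLt; have := (a' j).isLt; omega) (m - q - β) (m - q - α)
    (by linarith)
  have h2 : Av (fun v : Fin m → Fin (N * M) => ind (α ≤ m - q - lev v ∧ m - q - lev v ≤ β) *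
      hat b (fun j => ((v j : ℕ) + ((a j : ℕ) + a' j + M)) / M)) =
      Av (fun x : Fin m → Fin (N * M) => ind (m - q - β ≤ lev x ∧ lev x ≤ m - q - α) *
      hat b (fun j => ((x j : ℕ) + ((a j : ℕ) + a' j + M)) / M)) := by
    congr 1
    funext v
    congr 2
    rw [eq_iff_iff]
    constructor
    · intro h; constructor <;> linarith [h.1, h.2]
    · intro h; constructor <;> linarith [h.1, h.2]
  rw [h2]
  refine h1.trans ?_
  have h3 : Av (fun x => ind (m - q - β < lev x ∧ lev x < m - q - α) * b x) ≤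
      Av (fun x => ind (m - β < lev x ∧ lev x < m - α) * b x) +
      Av (fun x : Fin m → Fin N => ind (m - q - β ≤ lev x ∧ lev x ≤ m - q - β + q)) := by
    rw [← Av_add]
    refine Av_mono fun x => ?_
    have hb1 := hb x
    have n1 := ind_nonneg (m - q - β ≤ lev x ∧ lev x ≤ m - q - β + q)
    have n2 := mul_nonneg (ind_nonneg (m - β < lev x ∧ lev x < m - α)) hb1.1
    by_cases h4 : m - q - β < lev x ∧ lev x < m - q - α
    · rw [ind_true h4, one_mul]
      by_cases h5 : m - β < lev x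
      · rw [ind_true (⟨h5, by linarith [h4.2]⟩ : m - β < lev x ∧ lev x < m - α), one_mul]
        linarith
      · rw [ind_true (⟨h4.1.le, by linarith⟩ : m - q - β ≤ lev x ∧ lev x ≤ m - q - β + q)]
        linarith
    · rw [ind_false h4, zero_mul]
      linarith
  have h4 := count_layer hm hN (r := (m : ℝ) - q - β) (t := q) hq0
  have e1 : 20 * (m : ℝ) / N = 20 * (m / N) := by ring
  have e2 : 25 * (m : ℝ) / N = 25 * (m / N) := by ring
  rw [e1, e2]
  linarith

theorem rB₃_lower {m N M : ℕ} (hm : 1 ≤ m) (hN : 1 ≤ N) (hM : 1 ≤ M) {b : (Fin m → Fin N) → ℝ}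
    (hb : ∀ x, 0 ≤ b x ∧ b x ≤ 1) (α β : ℝ) (hαβ : α ≤ β) :
    Av (fun x => ind (m - β ≤ lev x ∧ lev x ≤ m - α) * b x) ≤
      Av (fun x => ind (α < lev x ∧ lev x < β) * rB₃ M b x) + 25 * m / N := by
  have hN' : (0 : ℝ) < N := by exact_mod_cast hN
  have hM' : (1 : ℝ) ≤ M := by exact_mod_cast hM
  have hmN : (0 : ℝ) ≤ m / N := by positivity
  set q : ℝ := m / ((N * M : ℕ) : ℝ) with hq
  have hq0 : 0 ≤ q := by positivity
  have hq1 : q ≤ m / N := by
    rw [hq]
    push_cast
    exact div_le_div_of_nonneg_left (by positivity) hN' (by nlinarith)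
  unfold rB₃
  rw [Av_swap, ← sub_le_iff_le_add]
  refine le_trans (le_of_eq (Av_const hM _).symm) (Av_mono fun a => ?_)
  rw [Av_swap]
  refine le_trans (le_of_eq (Av_const hM _).symm) (Av_mono fun a' => ?_)
  rw [rev_window hN hM b (fun j => (a j : ℕ) + a' j + M) (fun t => α < t ∧ t < β)]
  have h1 := off_lower hm hN hM hb (fun j => (a j : ℕ) + a' j + M)
    (fun j => by have := (a j).isLt; have := (a' j).isLt; omega) (m - q - β) (m - q - α)
    (by linarith)
  have h2 : Av (fun v : Fin m → Fin (N * M) => ind (α < m - q - lev v ∧ m - q - lev v < β) *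
      hat b (fun j => ((v j : ℕ) + ((a j : ℕ) + a' j + M)) / M)) =
      Av (fun x : Fin m → Fin (N * M) => ind (m - q - β < lev x ∧ lev x < m - q - α) *
      hat b (fun j => ((x j : ℕ) + ((a j : ℕ) + a' j + M)) / M)) := by
    congr 1
    funext v
    congr 2
    rw [eq_iff_iff]
    constructor
    · intro h; constructor <;> linarith [h.1, h.2]
    · intro h; constructor <;> linarith [h.1, h.2]
  rw [h2, sub_le_iff_le_add]
  have h3 : Av (fun x => ind (m - β ≤ lev x ∧ lev x ≤ m - α) * b x) ≤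
      Av (fun x => ind (m - q - β ≤ lev x ∧ lev x ≤ m - q - α) * b x) +
      Av (fun x : Fin m → Fin N => ind (m - q - α ≤ lev x ∧ lev x ≤ m - q - α + q)) := by
    rw [← Av_add]
    refine Av_mono fun x => ?_
    have hb1 := hb x
    have n1 := ind_nonneg (m - q - α ≤ lev x ∧ lev x ≤ m - q - α + q)
    have n2 := mul_nonneg (ind_nonneg (m - q - β ≤ lev x ∧ lev x ≤ m - q - α)) hb1.1
    by_cases h4 : m - β ≤ lev x ∧ lev x ≤ m - α
    · rw [ind_true h4, one_mul]
      by_cases h5 : lev x ≤ m - q - α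
      · rw [ind_true (⟨by linarith [h4.1], h5⟩ : m - q - β ≤ lev x ∧ lev x ≤ m - q - α), one_mul]
        linarith
      · rw [ind_true (⟨(not_le.mp h5).le, by linarith [h4.2]⟩ :
          m - q - α ≤ lev x ∧ lev x ≤ m - q - α + q)]
        linarith
    · rw [ind_false h4, zero_mul]
      linarith
  have h4 := count_layer hm hN (r := (m : ℝ) - q - α) (t := q) hq0
  have e1 : 20 * (m : ℝ) / N = 20 * (m / N) := by ring
  have e2 : 25 * (m : ℝ) / N = 25 * (m / N) := by ring
  rw [e1] at h1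
  rw [e2]
  linarith

end Pool.Agent.Work.MP_0cd883_co.Cube
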