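import Pool.Agent.Work.MP_0cd883_co.Cube.ModK3
import Pool.Agent.Work.MP_0cd883_co.Cube.ModL1
import Pool.Agent.Work.MP_0cd883_co.Cube.ModL4
import Pool.Agent.Work.MP_0cd883_co.Cube.ModR

/-! Module N3: accounting with the sharp rate. -/

namespace Pool.Agent.Work.MP_0cd883_co.Cube

theorem modN3_limit {X K ε₀ : ℝ} (hε₀ : 0 < ε₀) (h : ∀ ε : ℝ, 0 < ε → ε ≤ ε₀ → -(K * ε) ≤ X) :
    0 ≤ X := by
  by_contra hX
  push Not at hX
  rcases le_or_gt K 0 with hK | hK
  · have := h ε₀ hε₀ le_rfl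
    nlinarith
  · have h1 : 0 < min ε₀ (-X / (2 * K)) := lt_min hε₀ (div_pos (by linarith) (by linarith))
    have h2 := h _ h1 (min_le_left _ _)
    have h3 : K * min ε₀ (-X / (2 * K)) ≤ K * (-X / (2 * K)) :=
      mul_le_mul_of_nonneg_left (min_le_right _ _) hK.le
    have h4 : K * (-X / (2 * K)) = -X / 2 := by field_simp
    linarith

/-- the corrected functions on the refined grid -/
noncomputable def cap (δ t : ℝ) : ℝ := min 1 (t + δ)

theorem cap_mem {δ t : ℝ} (hδ : 0 ≤ δ) (ht : 0 ≤ t) : 0 ≤ cap δ t ∧ cap δ t ≤ 1 :=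
  ⟨le_min zero_le_one (by linarith), min_le_left _ _⟩

theorem cap_le {δ t : ℝ} : cap δ t ≤ t + δ := min_le_right _ _

theorem cap_rel {m n : ℕ} {δ : ℝ} (hδ : 0 ≤ δ) {B₁ B₂ B₃ : (Fin m → Fin n) → ℝ}
    (h₁ : ∀ x, 0 ≤ B₁ x) (h₂ : ∀ x, 0 ≤ B₂ x) (h₃ : ∀ x, 0 ≤ B₃ x)
    (h : ∀ x y w : Fin m → Fin n, (∀ j, (x j : ℕ) + y j + w j + 1 = n) →
      1 - δ ≤ B₁ x + B₂ y + B₃ w) :
    Rel3 (fun x => cap δ (B₁ x)) (fun x => cap δ (B₂ x)) (fun x => cap δ (B₃ x)) := by
  intro x y w hxy
  have h0 := h x y w hxy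
  have c1 := cap_mem hδ (h₁ x)
  have c2 := cap_mem hδ (h₂ y)
  have c3 := cap_mem hδ (h₃ w)
  show 1 ≤ cap δ (B₁ x) + cap δ (B₂ y) + cap δ (B₃ w)
  rcases le_or_gt 1 (B₁ x + δ) with a | a
  · have e : cap δ (B₁ x) = 1 := min_eq_left a
    linarith
  rcases le_or_gt 1 (B₂ y + δ) with a' | a'
  · have e : cap δ (B₂ y) = 1 := min_eq_left a'
    linarith
  rcases le_or_gt 1 (B₃ w + δ) with a'' | a''
  · have e : cap δ (B₃ w) = 1 := min_eq_left a''
    linarith
  have e1 : cap δ (B₁ x) = B₁ x + δ := min_eq_right a.le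
  have e2 : cap δ (B₂ y) = B₂ y + δ := min_eq_right a'.le
  have e3 : cap δ (B₃ w) = B₃ w + δ := min_eq_right a''.le
  linarith

theorem Av_ind_cap {m n : ℕ} (hn : 1 ≤ n) {δ : ℝ} (hδ : 0 ≤ δ) (p : (Fin m → Fin n) → Prop)
    (B : (Fin m → Fin n) → ℝ) :
    Av (fun x => ind (p x) * cap δ (B x)) ≤ Av (fun x => ind (p x) * B x) + δ := by
  have h : Av (fun x => ind (p x) * cap δ (B x)) ≤ Av (fun x => ind (p x) * B x + δ) := by
    refine Av_mono fun x => ?_
    have h1 := ind_nonneg (p x)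
    have h2 := ind_le_one (p x)
    have h3 : cap δ (B x) ≤ B x + δ := cap_le
    nlinarith [mul_le_mul_of_nonneg_left h3 h1]
  refine h.trans ?_
  rw [Av_add, Av_const hn]

/-- average of the linear part on a window of length one -/
theorem modN3_lin {m n : ℕ} (hm : 1 ≤ m) (hn : 1 ≤ n) (c : ℝ) :
    F (m + 1) c - F m (c - 1) - m / n ≤
      Av (fun x : Fin m → Fin n => ind (c - 1 ≤ lev x ∧ lev x ≤ c) * (c - lev x)) := by
  have h1 := clamp_lower (m := m) (N := n) hn c
  have h2 := count_upper (m := m) (N := n) hm hn (c - 1)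
  have h3 : F m (c - 1 + m / n) ≤ F m (c - 1) + m / n := by
    have := F_lip hm (c - 1 + m / n) (c - 1)
    have h4 : 0 ≤ (m : ℝ) / n := by positivity
    rw [show c - 1 + (m : ℝ) / n - (c - 1) = m / n by ring, abs_of_nonneg h4] at this
    linarith [le_abs_self (F m (c - 1 + m / n) - F m (c - 1))]
  have h5 : Av (fun x : Fin m → Fin n => clamp (c - lev x)) ≤
      Av (fun x : Fin m → Fin n => ind (c - 1 ≤ lev x ∧ lev x ≤ c) * (c - lev x) +
        ind (lev x ≤ c - 1)) := by
    refine Av_mono fun x => ?_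
    unfold clamp ind
    split_ifs with g1 g2 g2
    · rw [min_eq_left (by linarith [g1.1]), max_eq_right (by linarith [g1.2])]
      linarith
    · rw [min_eq_left (by linarith [g1.1]), max_eq_right (by linarith [g1.2])]
      linarith
    · have : max (0 : ℝ) (min (c - lev x) 1) ≤ 1 := max_le zero_le_one (min_le_right _ _)
      linarith
    · have : c < lev x := by
        by_contra hcon
        push Not at hcon g2
        exact g1 ⟨g2.le, hcon⟩
      rw [max_eq_left ((min_le_left _ _).trans (by linarith))]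
      linarith
  rw [Av_add] at h5
  linarith

/-- the window term of a capped function -/
theorem modN3_win {m n : ℕ} (hm : 1 ≤ m) (hn : 1 ≤ n) {δ : ℝ} (hδ : 0 ≤ δ) (c : ℝ)
    (B : (Fin m → Fin n) → ℝ) :
    Av (fun x => ind (c - 1 ≤ lev x ∧ lev x ≤ c) * (cap δ (B x) - (c - lev x))) ≤
      Av (fun x => ind (c - 1 ≤ lev x ∧ lev x ≤ c) * B x) + δ -
        (F (m + 1) c - F m (c - 1) - m / n) := by
  have h1 : Av (fun x => ind (c - 1 ≤ lev x ∧ lev x ≤ c) * (cap δ (B x) - (c - lev x))) =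
      Av (fun x => ind (c - 1 ≤ lev x ∧ lev x ≤ c) * cap δ (B x)) -
        Av (fun x : Fin m → Fin n => ind (c - 1 ≤ lev x ∧ lev x ≤ c) * (c - lev x)) := by
    rw [← Av_sub]
    congr 1
    funext x
    ring
  rw [h1]
  have h2 := Av_ind_cap hn hδ (fun x => c - 1 ≤ lev x ∧ lev x ≤ c) B
  have h3 := modN3_lin (m := m) hm hn c
  linarith

/-- the missing fraction, sharp rate, with a gain from the deep region -/
theorem lower_c (hL : ∀ n, 1 ≤ n → LCore n) {m : ℕ} (hm : 2 ≤ m) {c u κ₁ κ₂ : ℝ}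
    (hG : Good m c u κ₁ κ₂) {N : ℕ} (hN : 1 ≤ N) (b : (Fin m → Fin N) → ℝ)
    (hb : ∀ x, 0 ≤ b x ∧ b x ≤ 1) (hr : Rel b) :
    F (m + 1) c + F (m + 1) u + 1 / 50 * Av (fun x => ind (c < lev x ∧ lev x < 2 * c - 1) * b x) -
      200 * m / N ≤ Av b := by
  have hm1 : 1 ≤ m := by omega
  have hN0 : (1 : ℝ) ≤ N := by exact_mod_cast hN
  have hm0 : (2 : ℝ) ≤ m := by exact_mod_cast hm
  have hcu := hG.sum
  have hc1 := hG.one_lt
  have hu0 := hG.u_pos
  have huc := hG.u_lt
  have hδ : (0 : ℝ) ≤ 1 / N := by positivity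
  set D₁ : ℝ := Av (fun x => ind (c < lev x ∧ lev x < (3 * c - 1) / 2) * b x) with hD₁
  set D₂ : ℝ := Av (fun x => ind ((3 * c - 1) / 2 < lev x ∧ lev x < 2 * c - 1) * b x) with hD₂
  set Lo : ℝ := Av (fun x => ind (c - 1 < lev x ∧ lev x < c) * b x) with hLo
  set Hi : ℝ := Av (fun x => ind (2 * c - 1 < lev x ∧ lev x < 2 * c) * b x) with hHi
  set Be : ℝ := Av (fun x => ind (lev x < c - 1) * b x) with hBe
  set Ab : ℝ := Av (fun x => ind (2 * c < lev x) * b x) with hAb
  have hrange : ∀ x : Fin m → Fin N, 0 ≤ lev x ∧ lev x < m := by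
    intro x
    refine ⟨lev_nonneg x, ?_⟩
    unfold lev
    rw [div_lt_iff₀ (by linarith)]
    have : ∑ j, ((x j : ℕ) : ℝ) < ∑ _j : Fin m, (N : ℝ) := by
      refine Finset.sum_lt_sum_of_nonempty ?_ fun j _ => by exact_mod_cast (x j).isLt
      exact ⟨⟨0, by omega⟩, Finset.mem_univ _⟩
    simpa using this
  -- the choice of the refinement for a given small parameter
  have hM : ∀ ε : ℝ, 0 < ε → ∃ M : ℕ, 1 ≤ M ∧ 1 / ((N * M : ℕ) : ℝ) ≤ ε ^ 2 ∧
      (m : ℝ) / ((N * M : ℕ) : ℝ) ≤ m / N := by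
    intro ε hε
    obtain ⟨M, hM⟩ := exists_nat_ge (1 / ε ^ 2)
    have hM1 : 0 < M := by
      rcases Nat.eq_zero_or_pos M with h | h
      · exfalso
        rw [h] at hM
        have : 0 < 1 / ε ^ 2 := by positivity
        push_cast at hM
        linarith
      · exact h
    have hM0 : (1 : ℝ) ≤ M := by exact_mod_cast hM1
    refine ⟨M, hM1, ?_, ?_⟩
    · push_cast
      rw [div_le_iff₀ (by positivity)]
      have h1 : 1 ≤ ε ^ 2 * M := by
        rw [div_le_iff₀ (by positivity)] at hM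
        linarith
      nlinarith [mul_le_mul_of_nonneg_left hN0 (show (0 : ℝ) ≤ ε ^ 2 * M by positivity)]
    · push_cast
      refine div_le_div_of_nonneg_left (by positivity) (by linarith) ?_
      nlinarith
  have hB : ∀ M : ℕ, 1 ≤ M → Rel3 (fun x => cap (1 / N) (rB₁ M b x))
      (fun x => cap (1 / N) (rB₂ M b x)) (fun x => cap (1 / N) (rB₃ M b x)) := by
    intro M hM
    exact cap_rel hδ (fun x => (rB₁_mem hM hb x).1) (fun x => (rB₂_mem hM hb x).1)
      (fun x => (rB₃_mem hM hb x).1) (rB_rel hN hM hb hr)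
  -- the visible inequality
  have hV : F (m + 1) c - F m (c - 1) + (F (m + 1) u - F m (u - 1)) ≤
      Lo + Hi + 50 * m / N := by
    obtain ⟨K, ε₀, hK, hε₀, hvis⟩ := visible3 hL hm hcu (by linarith) hu0 hG.crit
    have key : 0 ≤ 2 * (Lo + Hi + 50 * m / N -
        (F (m + 1) c - F m (c - 1) + (F (m + 1) u - F m (u - 1)))) := by
      refine modN3_limit (K := K) hε₀ fun ε hε hεε => ?_
      obtain ⟨M, hM1, hM2, hM3⟩ := hM ε hε
      have hNM : 1 ≤ N * M := Nat.mul_pos hN hM1
      have v := hvis (N * M) hNM _ _ _ (fun x => cap_mem hδ (rB₁_mem hM1 hb x).1)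
        (fun x => cap_mem hδ (rB₂_mem hM1 hb x).1) (fun x => cap_mem hδ (rB₃_mem hM1 hb x).1)
        (hB M hM1) ε hε hεε hM2
      have w1 := modN3_win hm1 hNM hδ c (rB₁ M b)
      have w2 := modN3_win hm1 hNM hδ c (rB₂ M b)
      have w3 := modN3_win hm1 hNM hδ u (rB₃ M b)
      have r1 := rB₁_upper hm1 hN hM1 hb (c - 1) c (by linarith)
      have r2 := rB₂_upper hm1 hN hM1 hb (c - 1) c (by linarith)
      have r3 := rB₃_upper hm1 hN hM1 hb (u - 1) u (by linarith)
      have e3 : Av (fun x => ind ((m : ℝ) - u < lev x ∧ lev x < m - (u - 1)) * b x) = Hi := by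
        rw [hHi]
        congr 1
        funext x
        rw [show (m : ℝ) - u = 2 * c - 1 by linarith, show (m : ℝ) - (u - 1) = 2 * c by linarith]
      rw [e3] at r3
      have e4 : (50 : ℝ) * m / N = 50 * (m / N) := by ring
      have e5 : (20 : ℝ) * m / N = 20 * (m / N) := by ring
      have e6 : (25 : ℝ) * m / N = 25 * (m / N) := by ring
      have e7 : (1 : ℝ) / N ≤ m / N * (1 / 2) := by
        rw [div_mul_div_comm, mul_one, div_le_div_iff₀ (by linarith) (by linarith)]
        nlinarith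
      rw [e4]
      rw [e5] at r1 r2
      rw [e6] at r3
      linarith
    linarith
  -- below
  have hbel : F m (c - 1) ≤ Be + 2 * κ₁ * D₁ + 49 / 50 * D₂ + 80 * m / N := by
    obtain ⟨K, η₀, hK, hη₀, hs⟩ := below3 hm (fun g hg => slice_pt hL hm hg) hG
    have hk1 := hG.k1_nonneg
    have hk2 := hG.k2_nonneg
    have hload := hG.load
    have key : 0 ≤ Be + 2 * κ₁ * D₁ + 49 / 50 * D₂ + 80 * m / N - F m (c - 1) := by
      refine modN3_limit (K := K) hη₀ fun ε hε hεε => ?_
      obtain ⟨M, hM1, hM2, hM3⟩ := hM ε hε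
      have hNM : 1 ≤ N * M := Nat.mul_pos hN hM1
      have v := hs (N * M) hNM _ _ _ (fun x => cap_mem hδ (rB₁_mem hM1 hb x).1)
        (fun x => cap_mem hδ (rB₂_mem hM1 hb x).1) (fun x => cap_mem hδ (rB₃_mem hM1 hb x).1)
        (hB M hM1) ε hε hεε hM2
      have c1 := count_lower (m := m) (N := N * M) hm1 hNM (c - 1)
      have l1 : Av (fun x : Fin m → Fin (N * M) => ind (lev x < c - 1)) ≤
          Av (fun x => ind (lev x < c - 1) * (1 - cap (1 / N) (rB₁ M b x))) +
            (Av (fun x => ind (-1 ≤ lev x ∧ lev x ≤ c - 1) * rB₁ M b x) + 1 / N) := by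
        have k1 := Av_ind_cap hNM hδ (fun x : Fin m → Fin (N * M) => -1 ≤ lev x ∧ lev x ≤ c - 1)
          (rB₁ M b)
        refine le_trans ?_ (add_le_add_right k1 _)
        rw [← Av_add]
        refine Av_mono fun x => ?_
        have k2 := cap_mem hδ (rB₁_mem hM1 hb x).1
        have k3 : ind (lev x < c - 1) ≤ ind (-1 ≤ lev x ∧ lev x ≤ c - 1) :=
          ind_mono fun h => ⟨by linarith [lev_nonneg x], h.le⟩
        nlinarith [mul_le_mul_of_nonneg_right k3 k2.1]
      have r1 := rB₁_upper hm1 hN hM1 hb (-1) (c - 1) (by linarith)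
      have e1 : Av (fun x => ind (-1 < lev x ∧ lev x < c - 1) * b x) ≤ Be := by
        refine Av_mono fun x => mul_le_mul_of_nonneg_right (ind_mono fun h => h.2) (hb x).1
      have k2 := Av_ind_cap hNM hδ
        (fun x : Fin m → Fin (N * M) => c < lev x ∧ lev x < (3 * c - 1) / 2) (rB₂ M b)
      have k2' : Av (fun x => ind (c < lev x ∧ lev x < (3 * c - 1) / 2) * rB₂ M b x) ≤
          Av (fun x => ind (c ≤ lev x ∧ lev x ≤ (3 * c - 1) / 2) * rB₂ M b x) :=
        Av_mono fun x => mul_le_mul_of_nonneg_right (ind_mono fun h => ⟨h.1.le, h.2.le⟩)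
          (rB₂_mem hM1 hb x).1
      have r2 := rB₂_upper hm1 hN hM1 hb c ((3 * c - 1) / 2) (by linarith)
      have k3 := Av_ind_cap hNM hδ
        (fun x : Fin m → Fin (N * M) => u < lev x ∧ lev x < u + (c - 1) / 2) (rB₃ M b)
      have k3' : Av (fun x => ind (u < lev x ∧ lev x < u + (c - 1) / 2) * rB₃ M b x) ≤
          Av (fun x => ind (u ≤ lev x ∧ lev x ≤ u + (c - 1) / 2) * rB₃ M b x) :=
        Av_mono fun x => mul_le_mul_of_nonneg_right (ind_mono fun h => ⟨h.1.le, h.2.le⟩)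
          (rB₃_mem hM1 hb x).1
      have r3 := rB₃_upper hm1 hN hM1 hb u (u + (c - 1) / 2) (by linarith)
      have e3 : Av (fun x => ind ((m : ℝ) - (u + (c - 1) / 2) < lev x ∧ lev x < m - u) * b x) =
          D₂ := by
        rw [hD₂]
        congr 1
        funext x
        rw [show (m : ℝ) - (u + (c - 1) / 2) = (3 * c - 1) / 2 by linarith,
          show (m : ℝ) - u = 2 * c - 1 by linarith]
      rw [e3] at r3
      have e4 : (80 : ℝ) * m / N = 80 * (m / N) := by ring
      have e5 : (20 : ℝ) * m / N = 20 * (m / N) := by ring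
      have e6 : (25 : ℝ) * m / N = 25 * (m / N) := by ring
      have e7 : (1 : ℝ) / N ≤ m / N * (1 / 2) := by
        rw [div_mul_div_comm, mul_one, div_le_div_iff₀ (by linarith) (by linarith)]
        nlinarith
      have e8 : (0 : ℝ) ≤ m / N := by positivity
      rw [e5] at r1 r2
      rw [e6] at r3
      have s2 : 2 * κ₁ * Av (fun x => ind (c < lev x ∧ lev x < (3 * c - 1) / 2) *
          cap (1 / N) (rB₂ M b x)) ≤ 2 * κ₁ * (D₁ + 21 * (m / N)) :=
        mul_le_mul_of_nonneg_left (by linarith) (by linarith)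
      have s3 : 2 * κ₁ * (21 * ((m : ℝ) / N)) ≤ 1 * (21 * (m / N)) :=
        mul_le_mul_of_nonneg_right (by linarith) (by linarith)
      rw [e4]
      linarith
    linarith
  -- above
  have habv : F m (u - 1) ≤ Ab + 4 * κ₂ * D₁ + 60 * m / N := by
    obtain ⟨K, η₀, hK, hη₀, hs⟩ := above3 hm (fun g hg => slice_pt hL hm hg) hG
    have hk1 := hG.k1_nonneg
    have hk2 := hG.k2_nonneg
    have hload := hG.load
    have key : 0 ≤ Ab + 4 * κ₂ * D₁ + 60 * m / N - F m (u - 1) := by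
      refine modN3_limit (K := K) hη₀ fun ε hε hεε => ?_
      obtain ⟨M, hM1, hM2, hM3⟩ := hM ε hε
      have hNM : 1 ≤ N * M := Nat.mul_pos hN hM1
      have v := hs (N * M) hNM _ _ _ (fun x => cap_mem hδ (rB₁_mem hM1 hb x).1)
        (fun x => cap_mem hδ (rB₂_mem hM1 hb x).1) (fun x => cap_mem hδ (rB₃_mem hM1 hb x).1)
        (hB M hM1) ε hε hεε hM2
      have c1 := count_lower (m := m) (N := N * M) hm1 hNM (u - 1)
      have l1 : Av (fun x : Fin m → Fin (N * M) => ind (lev x < u - 1)) ≤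
          Av (fun x => ind (lev x < u - 1) * (1 - cap (1 / N) (rB₃ M b x))) +
            (Av (fun x => ind (-1 ≤ lev x ∧ lev x ≤ u - 1) * rB₃ M b x) + 1 / N) := by
        have k1 := Av_ind_cap hNM hδ (fun x : Fin m → Fin (N * M) => -1 ≤ lev x ∧ lev x ≤ u - 1)
          (rB₃ M b)
        refine le_trans ?_ (add_le_add_right k1 _)
        rw [← Av_add]
        refine Av_mono fun x => ?_
        have k2 := cap_mem hδ (rB₃_mem hM1 hb x).1
        have k3 : ind (lev x < u - 1) ≤ ind (-1 ≤ lev x ∧ lev x ≤ u - 1) :=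
          ind_mono fun h => ⟨by linarith [lev_nonneg x], h.le⟩
        nlinarith [mul_le_mul_of_nonneg_right k3 k2.1]
      have r1 := rB₃_upper hm1 hN hM1 hb (-1) (u - 1) (by linarith)
      have e1 : Av (fun x => ind ((m : ℝ) - (u - 1) < lev x ∧ lev x < m - (-1)) * b x) ≤ Ab := by
        refine Av_mono fun x => mul_le_mul_of_nonneg_right (ind_mono fun h => ?_) (hb x).1
        have := h.1
        linarith
      have k1 := Av_ind_cap hNM hδ
        (fun x : Fin m → Fin (N * M) => c < lev x ∧ lev x < (3 * c - 1) / 2) (rB₁ M b)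
      have k1' : Av (fun x => ind (c < lev x ∧ lev x < (3 * c - 1) / 2) * rB₁ M b x) ≤
          Av (fun x => ind (c ≤ lev x ∧ lev x ≤ (3 * c - 1) / 2) * rB₁ M b x) :=
        Av_mono fun x => mul_le_mul_of_nonneg_right (ind_mono fun h => ⟨h.1.le, h.2.le⟩)
          (rB₁_mem hM1 hb x).1
      have r1' := rB₁_upper hm1 hN hM1 hb c ((3 * c - 1) / 2) (by linarith)
      have k2 := Av_ind_cap hNM hδ
        (fun x : Fin m → Fin (N * M) => c < lev x ∧ lev x < (3 * c - 1) / 2) (rB₂ M b)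
      have k2' : Av (fun x => ind (c < lev x ∧ lev x < (3 * c - 1) / 2) * rB₂ M b x) ≤
          Av (fun x => ind (c ≤ lev x ∧ lev x ≤ (3 * c - 1) / 2) * rB₂ M b x) :=
        Av_mono fun x => mul_le_mul_of_nonneg_right (ind_mono fun h => ⟨h.1.le, h.2.le⟩)
          (rB₂_mem hM1 hb x).1
      have r2 := rB₂_upper hm1 hN hM1 hb c ((3 * c - 1) / 2) (by linarith)
      have e4 : (60 : ℝ) * m / N = 60 * (m / N) := by ring
      have e5 : (20 : ℝ) * m / N = 20 * (m / N) := by ring
      have e6 : (25 : ℝ) * m / N = 25 * (m / N) := by ring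
      have e7 : (1 : ℝ) / N ≤ m / N * (1 / 2) := by
        rw [div_mul_div_comm, mul_one, div_le_div_iff₀ (by linarith) (by linarith)]
        nlinarith
      have e8 : (0 : ℝ) ≤ m / N := by positivity
      rw [e5] at r1' r2
      rw [e6] at r1
      have s2 : 2 * κ₂ * (Av (fun x => ind (c < lev x ∧ lev x < (3 * c - 1) / 2) *
          cap (1 / N) (rB₁ M b x)) + Av (fun x => ind (c < lev x ∧ lev x < (3 * c - 1) / 2) *
          cap (1 / N) (rB₂ M b x))) ≤ 2 * κ₂ * (2 * D₁ + 42 * (m / N)) :=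
        mul_le_mul_of_nonneg_left (by linarith) (by linarith)
      have s3 : 2 * κ₂ * (42 * ((m : ℝ) / N)) ≤ 1 / 2 * (42 * (m / N)) :=
        mul_le_mul_of_nonneg_right (by linarith) (by linarith)
      rw [e4]
      linarith
    linarith
  -- the regions are disjoint
  set De : ℝ := Av (fun x => ind (c < lev x ∧ lev x < 2 * c - 1) * b x) with hDe
  have hD : D₁ + D₂ ≤ De := by
    rw [hD₁, hD₂, hDe, ← Av_add]
    refine Av_mono fun x => ?_
    have h0 := (hb x).1
    by_cases g1 : c < lev x ∧ lev x < (3 * c - 1) / 2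
    · rw [ind_true g1, ind_false (p := (3 * c - 1) / 2 < lev x ∧ _)
        (by rintro ⟨h, _⟩; linarith [g1.2]), ind_true (p := c < lev x ∧ lev x < 2 * c - 1)
        ⟨g1.1, by linarith [g1.2]⟩]
      linarith
    by_cases g2 : (3 * c - 1) / 2 < lev x ∧ lev x < 2 * c - 1
    · rw [ind_false g1, ind_true g2, ind_true (p := c < lev x ∧ lev x < 2 * c - 1)
        ⟨by linarith [g2.1], g2.2⟩]
      linarith
    rw [ind_false g1, ind_false g2]
    have := mul_nonneg (ind_nonneg (c < lev x ∧ lev x < 2 * c - 1)) h0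
    linarith
  have htot : Be + Lo + De + Hi + Ab ≤ Av b := by
    rw [hBe, hLo, hDe, hHi, hAb, ← Av_add, ← Av_add, ← Av_add, ← Av_add]
    refine Av_mono fun x => ?_
    have h0 := (hb x).1
    rcases lt_or_ge (lev x) (c - 1) with a1 | a1
    · rw [ind_true a1, ind_false (by rintro ⟨h, _⟩; linarith),
        ind_false (by rintro ⟨h, _⟩; linarith), ind_false (by rintro ⟨h, _⟩; linarith),
        ind_false (by linarith)]
      linarith
    rcases lt_or_ge (lev x) c with a2 | a2
    · rw [ind_false (by linarith), ind_false (p := c < lev x ∧ _) (by rintro ⟨h, _⟩; linarith),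
        ind_false (p := 2 * c - 1 < lev x ∧ _) (by rintro ⟨h, _⟩; linarith),
        ind_false (p := 2 * c < lev x) (by linarith)]
      have := ind_le_one (c - 1 < lev x ∧ lev x < c)
      nlinarith
    rcases lt_or_ge (lev x) (2 * c - 1) with a3 | a3
    · rw [ind_false (by linarith), ind_false (p := c - 1 < lev x ∧ _) (by rintro ⟨_, h⟩; linarith),
        ind_false (p := 2 * c - 1 < lev x ∧ _) (by rintro ⟨h, _⟩; linarith),
        ind_false (p := 2 * c < lev x) (by linarith)]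
      have := ind_le_one (c < lev x ∧ lev x < 2 * c - 1)
      nlinarith
    rcases le_or_gt (lev x) (2 * c) with a4 | a4
    · rw [ind_false (by linarith), ind_false (p := c - 1 < lev x ∧ _) (by rintro ⟨_, h⟩; linarith),
        ind_false (p := c < lev x ∧ _) (by rintro ⟨_, h⟩; linarith),
        ind_false (p := 2 * c < lev x) (by linarith)]
      have := ind_le_one (2 * c - 1 < lev x ∧ lev x < 2 * c)
      nlinarith
    · rw [ind_false (by linarith), ind_false (p := c - 1 < lev x ∧ _) (by rintro ⟨_, h⟩; linarith),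
        ind_false (p := c < lev x ∧ _) (by rintro ⟨_, h⟩; linarith),
        ind_false (p := 2 * c - 1 < lev x ∧ _) (by rintro ⟨_, h⟩; linarith),
        ind_true a4]
      linarith
  have hD1 : 0 ≤ D₁ := Av_nonneg fun x => mul_nonneg (ind_nonneg _) (hb x).1
  have hload := hG.load
  have s1 : (2 * κ₁ + 4 * κ₂) * D₁ ≤ 49 / 50 * D₁ := mul_le_mul_of_nonneg_right hload hD1
  have e4 : (80 : ℝ) * m / N = 80 * (m / N) := by ring
  have e5 : (60 : ℝ) * m / N = 60 * (m / N) := by ring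
  have e6 : (50 : ℝ) * m / N = 50 * (m / N) := by ring
  have e7 : (200 : ℝ) * m / N = 200 * (m / N) := by ring
  have e8 : (0 : ℝ) ≤ m / N := by positivity
  rw [e4] at hbel
  rw [e5] at habv
  rw [e6] at hV
  rw [e7]
  linarith

end Pool.Agent.Work.MP_0cd883_co.Cube
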