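import Pool.Agent.Work.MP_0cd883_co.Cube.ModM
import Pool.Agent.Work.MP_0cd883_co.Cube.DefsR

/-! Module R, first part: the three functions on the refined grid and their relation. -/

namespace Pool.Agent.Work.MP_0cd883_co.Cube

theorem modR1_hat_mem {m N : ℕ} {b : (Fin m → Fin N) → ℝ} (hb : ∀ x, 0 ≤ b x ∧ b x ≤ 1)
    (x : Fin m → ℕ) : 0 ≤ hat b x ∧ hat b x ≤ 1 := by
  unfold hat
  split_ifs with h
  · exact hb _
  · exact ⟨zero_le_one, le_rfl⟩

theorem modR1_hat_in {m N : ℕ} {b : (Fin m → Fin N) → ℝ} {x : Fin m → ℕ} (h : ∀ j, x j < N) :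
    hat b x = b (fun j => ⟨x j, h j⟩) := by
  unfold hat
  rw [dif_pos h]

theorem modR1_hat_out {m N : ℕ} {b : (Fin m → Fin N) → ℝ} {x : Fin m → ℕ} (h : ¬ ∀ j, x j < N) :
    hat b x = 1 := by
  unfold hat
  rw [dif_neg h]

/-- the relation for the extension -/
theorem modR1_hat_rel {m N : ℕ} {b : (Fin m → Fin N) → ℝ} (hb : ∀ x, 0 ≤ b x ∧ b x ≤ 1)
    (hr : Rel b) (X Y Z : Fin m → ℕ) (h : ∀ j, X j + Y j + 1 = Z j) :
    1 - 1 / (N : ℝ) ≤ hat b X + hat b Y + hat b Z := by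
  have hN : 0 ≤ 1 / (N : ℝ) := by positivity
  have mX := modR1_hat_mem hb X
  have mY := modR1_hat_mem hb Y
  have mZ := modR1_hat_mem hb Z
  by_cases hX : ∀ j, X j < N
  · by_cases hY : ∀ j, Y j < N
    · by_cases hZ : ∀ j, Z j < N
      · rw [modR1_hat_in hX, modR1_hat_in hY, modR1_hat_in hZ]
        exact hr _ _ _ h
      · rw [modR1_hat_out hZ]
        linarith
    · rw [modR1_hat_out hY]
      linarith
  · rw [modR1_hat_out hX]
    linarith

theorem modR1_Av_mem {m M : ℕ} (hM : 1 ≤ M) {φ : (Fin m → Fin M) → ℝ}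
    (h : ∀ a, 0 ≤ φ a ∧ φ a ≤ 1) : 0 ≤ Av φ ∧ Av φ ≤ 1 := by
  refine ⟨Av_nonneg fun a => (h a).1, ?_⟩
  have h1 : Av φ ≤ Av (fun _ : Fin m → Fin M => (1 : ℝ)) := Av_mono fun a => (h a).2
  rwa [Av_const hM] at h1

theorem rB₁_mem {m N M : ℕ} (hM : 1 ≤ M) {b : (Fin m → Fin N) → ℝ}
    (hb : ∀ x, 0 ≤ b x ∧ b x ≤ 1) (x : Fin m → Fin (N * M)) : 0 ≤ rB₁ M b x ∧ rB₁ M b x ≤ 1 :=
  modR1_Av_mem hM fun _ => modR1_hat_mem hb _

theorem rB₂_mem {m N M : ℕ} (hM : 1 ≤ M) {b : (Fin m → Fin N) → ℝ}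
    (hb : ∀ x, 0 ≤ b x ∧ b x ≤ 1) (x : Fin m → Fin (N * M)) : 0 ≤ rB₂ M b x ∧ rB₂ M b x ≤ 1 :=
  modR1_Av_mem hM fun _ => modR1_Av_mem hM fun _ => modR1_hat_mem hb _

theorem rB₃_mem {m N M : ℕ} (hM : 1 ≤ M) {b : (Fin m → Fin N) → ℝ}
    (hb : ∀ x, 0 ≤ b x ∧ b x ≤ 1) (x : Fin m → Fin (N * M)) : 0 ≤ rB₃ M b x ∧ rB₃ M b x ≤ 1 :=
  modR1_Av_mem hM fun _ => modR1_Av_mem hM fun _ => modR1_hat_mem hb _

/-- averages are invariant under a shift modulo `M` -/
theorem modR1_shift {m M : ℕ} (hM : 0 < M) (x : Fin m → ℕ) (φ : (Fin m → Fin M) → ℝ) :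
    Av (fun a : Fin m → Fin M => φ (fun j => ⟨(x j + a j) % M, Nat.mod_lt _ hM⟩)) = Av φ := by
  unfold Av
  congr 1
  have hinj : Function.Injective
      (fun (a : Fin m → Fin M) => (fun j => (⟨(x j + a j) % M, Nat.mod_lt _ hM⟩ : Fin M))) := by
    intro a a' haa
    funext j
    have h1 := congrFun haa j
    have h2 : (x j + (a j : ℕ)) % M = (x j + (a' j : ℕ)) % M := congrArg Fin.val h1
    have h3 : (a j : ℕ) ≡ (a' j : ℕ) [MOD M] := Nat.ModEq.add_left_cancel' (x j) h2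
    have h4 : (a j : ℕ) = (a' j : ℕ) := by
      have h5 : (a j : ℕ) % M = (a' j : ℕ) % M := h3
      rwa [Nat.mod_eq_of_lt (a j).2, Nat.mod_eq_of_lt (a' j).2] at h5
    exact Fin.ext h4
  exact (Finite.injective_iff_bijective.mp hinj).sum_comp φ

/-- the relation on the refined grid -/
theorem rB_rel {m N M : ℕ} (hN : 1 ≤ N) (hM : 1 ≤ M) {b : (Fin m → Fin N) → ℝ}
    (hb : ∀ x, 0 ≤ b x ∧ b x ≤ 1) (hr : Rel b) (x y w : Fin m → Fin (N * M))
    (h : ∀ j, (x j : ℕ) + y j + w j + 1 = N * M) :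
    1 - 1 / (N : ℝ) ≤ rB₁ M b x + rB₂ M b y + rB₃ M b w := by
  have hM0 : 0 < M := hM
  -- rewrite the second function
  have e2 : rB₂ M b y = Av (fun a : Fin m → Fin M => Av (fun a' : Fin m → Fin M =>
      hat b (fun j => ((y j : ℕ) + (((x j : ℕ) + a j) % M + a' j)) / M))) := by
    unfold rB₂
    exact (modR1_shift hM0 (fun j => (x j : ℕ)) (fun a => Av (fun a' : Fin m → Fin M =>
      hat b (fun j => ((y j : ℕ) + (a j + a' j)) / M)))).symm
  have e1 : rB₁ M b x = Av (fun a : Fin m → Fin M => Av (fun _ : Fin m → Fin M =>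
      hat b (fun j => ((x j : ℕ) + a j) / M))) := by
    unfold rB₁
    congr 1
    funext a
    rw [Av_const hM]
  rw [e1, e2]
  unfold rB₃
  rw [← Av_add, ← Av_add]
  have key : ∀ a : Fin m → Fin M, 1 - 1 / (N : ℝ) ≤
      Av (fun _ : Fin m → Fin M => hat b (fun j => ((x j : ℕ) + a j) / M))
      + Av (fun a' : Fin m → Fin M =>
          hat b (fun j => ((y j : ℕ) + (((x j : ℕ) + a j) % M + a' j)) / M))
      + Av (fun a' : Fin m → Fin M =>
          hat b (fun j => (N * M - 1 - (w j : ℕ) + (a j + a' j + M)) / M)) := by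
    intro a
    rw [← Av_add, ← Av_add]
    have h1 : Av (fun _ : Fin m → Fin M => (1 - 1 / (N : ℝ))) ≤
        Av (fun a' : Fin m → Fin M => hat b (fun j => ((x j : ℕ) + a j) / M)
          + hat b (fun j => ((y j : ℕ) + (((x j : ℕ) + a j) % M + a' j)) / M)
          + hat b (fun j => (N * M - 1 - (w j : ℕ) + (a j + a' j + M)) / M)) := by
      refine Av_mono fun a' => ?_
      refine modR1_hat_rel hb hr _ _ _ fun j => ?_
      have hj := h j
      have e3 : N * M - 1 - (w j : ℕ) = x j + y j := by omega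
      rw [e3]
      have hdm := Nat.div_add_mod ((x j : ℕ) + a j) M
      set q := ((x j : ℕ) + a j) / M with hq
      set r := ((x j : ℕ) + a j) % M with hr'
      have e4 : (x j : ℕ) + y j + (a j + a' j + M) = (y j + (r + a' j)) + M * (q + 1) := by
        rw [mul_add, mul_one]
        omega
      rw [e4, Nat.add_mul_div_left _ _ hM0]
      omega
    rwa [Av_const hM] at h1
  have h2 := Av_mono (φ := fun _ : Fin m → Fin M => (1 - 1 / (N : ℝ))) key
  rwa [Av_const hM] at h2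

end Pool.Agent.Work.MP_0cd883_co.Cube
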