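import Pool.Agent.Work.MP_0cd883_co.Cube.DefsS
import Pool.Agent.Work.MP_0cd883_co.Cube.ModM

/-! Module S4, first part: counting in the grid and the stability statement from the exclusion of
low and high points. -/

namespace Pool.Agent.Work.MP_0cd883_co.Cube

open Finset

theorem grid_filter_card {d N : ℕ} (P : (Fin d → ℕ) → Prop) [DecidablePred P] :
    ((grid d N).filter P).card =
      (univ.filter fun x : Fin d → Fin N => P (fun i => (x i : ℕ) + 1)).card := by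
  symm
  refine Finset.card_bij (fun x _ => fun i => (x i : ℕ) + 1) ?_ ?_ ?_
  · intro x hx
    rw [mem_filter] at hx ⊢
    refine ⟨?_, hx.2⟩
    rw [grid, Fintype.mem_piFinset]
    intro i
    rw [mem_Icc]
    have := (x i).isLt
    omega
  · intro x _ y _ h
    funext i
    have h' : (x i : ℕ) + 1 = (y i : ℕ) + 1 := congrFun h i
    exact Fin.ext (by omega)
  · intro y hy
    rw [mem_filter, grid, Fintype.mem_piFinset] at hy
    refine ⟨fun i => ⟨y i - 1, ?_⟩, ?_, ?_⟩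
    · have := mem_Icc.1 (hy.1 i)
      omega
    · rw [mem_filter]
      refine ⟨mem_univ _, ?_⟩
      have : (fun i => y i - 1 + 1) = y := by
        funext i
        have := mem_Icc.1 (hy.1 i)
        omega
      simpa only [this] using hy.2
    · funext i
      have := mem_Icc.1 (hy.1 i)
      show y i - 1 + 1 = y i
      omega

theorem modS4_sum_succ {d N : ℕ} (hN : 1 ≤ N) (x : Fin d → Fin N) :
    ∑ i, (((x i : ℕ) + 1 : ℕ) : ℝ) = N * lev x + d := by
  have hN' : (0 : ℝ) < N := by exact_mod_cast hN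
  unfold lev
  push_cast
  rw [sum_add_distrib]
  simp only [sum_const, card_univ, Fintype.card_fin, nsmul_eq_mul, mul_one]
  field_simp

open Classical in
theorem cnt_le_eq {d N : ℕ} (hN : 1 ≤ N) (t : ℝ) :
    (((grid d N).filter fun x => ∑ i, (x i : ℝ) ≤ t * N).card : ℝ) =
      Av (fun x : Fin d → Fin N => ind (lev x ≤ t - d / N)) * (N : ℝ) ^ d := by
  have hN' : (0 : ℝ) < N := by exact_mod_cast hN
  rw [grid_filter_card]
  unfold Av
  rw [sum_ind_card, div_mul_cancel₀ _ (by positivity)]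
  congr 2
  refine filter_congr fun x _ => ?_
  rw [modS4_sum_succ hN x]
  have e : (t - (d : ℝ) / N) * N = t * N - d := by
    rw [sub_mul, div_mul_cancel₀ _ hN'.ne']
  constructor
  · intro h
    refine le_of_mul_le_mul_right ?_ hN'
    rw [e, mul_comm]
    linarith
  · intro h
    have := mul_le_mul_of_nonneg_right h hN'.le
    rw [e, mul_comm] at this
    linarith

open Classical in
theorem cnt_upper {d N : ℕ} (hd : 1 ≤ d) (hN : 1 ≤ N) (t : ℝ) :
    (((grid d N).filter fun x => ∑ i, (x i : ℝ) ≤ t * N).card : ℝ) ≤ F d t * (N : ℝ) ^ d := by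
  rw [cnt_le_eq hN]
  refine mul_le_mul_of_nonneg_right ?_ (by positivity)
  refine (count_upper hd hN (t - d / N)).trans (le_of_eq ?_)
  congr 1
  ring

open Classical in
theorem cnt_lower {d N : ℕ} (hd : 1 ≤ d) (hN : 1 ≤ N) (t : ℝ) :
    (F d t - d / N) * (N : ℝ) ^ d ≤
      (((grid d N).filter fun x => ∑ i, (x i : ℝ) ≤ t * N).card : ℝ) := by
  rw [cnt_le_eq hN]
  refine mul_le_mul_of_nonneg_right ?_ (by positivity)
  have h1 := count_lower hd hN (t - d / N)
  have h2 : Av (fun x : Fin d → Fin N => ind (lev x < t - d / N)) ≤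
      Av (fun x : Fin d → Fin N => ind (lev x ≤ t - d / N)) :=
    Av_mono fun x => ind_mono fun h => h.le
  have h3 := F_lip hd t (t - d / N)
  have h4 : |t - (t - (d : ℝ) / N)| = d / N := by
    rw [show t - (t - (d : ℝ) / N) = d / N by ring, abs_of_nonneg (by positivity)]
  rw [h4] at h3
  have h5 := (abs_le.1 h3).2
  linarith

open Classical in
/-- a layer between two levels -/
theorem cnt_layer {d N : ℕ} (hd : 1 ≤ d) (hN : 1 ≤ N) {s t : ℝ} (hst : s ≤ t) :
    (((grid d N).filter fun x => s * N < ∑ i, (x i : ℝ) ∧ ∑ i, (x i : ℝ) ≤ t * N).card : ℝ) ≤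
      (F d t - F d s + d / N) * (N : ℝ) ^ d := by
  have hN' : (0 : ℝ) < N := by exact_mod_cast hN
  have h1 := cnt_upper hd hN t
  have h2 := cnt_lower hd hN s
  have h3 : ((grid d N).filter fun x => s * N < ∑ i, (x i : ℝ) ∧ ∑ i, (x i : ℝ) ≤ t * N) =
      ((grid d N).filter fun x => ∑ i, (x i : ℝ) ≤ t * N) \
        ((grid d N).filter fun x => ∑ i, (x i : ℝ) ≤ s * N) := by
    ext x
    simp only [mem_filter, mem_sdiff, not_and, not_le]
    constructor
    · rintro ⟨hx, h, h'⟩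
      exact ⟨⟨hx, h'⟩, fun _ => h⟩
    · rintro ⟨⟨hx, h'⟩, h⟩
      exact ⟨hx, h hx, h'⟩
  have h4 : ((grid d N).filter fun x => ∑ i, (x i : ℝ) ≤ s * N) ⊆
      ((grid d N).filter fun x => ∑ i, (x i : ℝ) ≤ t * N) := by
    intro x hx
    rw [mem_filter] at hx ⊢
    exact ⟨hx.1, hx.2.trans (by nlinarith)⟩
  rw [h3, card_sdiff_of_subset h4, Nat.cast_sub (card_le_card h4)]
  nlinarith

open Classical in
/-- points with one coordinate in a given set -/
theorem cnt_coord {d N : ℕ} (k : Fin d) (p : ℕ → Prop) :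
    ((grid d N).filter fun x => p (x k)).card = ((Icc 1 N).filter p).card * N ^ (d - 1) := by
  have h1 : ((grid d N).filter fun x => p (x k)) =
      Fintype.piFinset (Function.update (fun _ : Fin d => Icc 1 N) k ((Icc 1 N).filter p)) := by
    ext x
    rw [mem_filter, grid, Fintype.mem_piFinset, Fintype.mem_piFinset]
    constructor
    · rintro ⟨h, h'⟩ i
      by_cases hi : i = k
      · subst hi
        rw [Function.update_self, mem_filter]
        exact ⟨h i, h'⟩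
      · rw [Function.update_of_ne hi]
        exact h i
    · intro h
      have hk := h k
      rw [Function.update_self, mem_filter] at hk
      refine ⟨fun i => ?_, hk.2⟩
      by_cases hi : i = k
      · subst hi
        exact hk.1
      · have := h i
        rwa [Function.update_of_ne hi] at this
  rw [h1, Fintype.card_piFinset]
  have h2 : (fun i => (Function.update (fun _ : Fin d => Icc 1 N) k ((Icc 1 N).filter p) i).card) =
      Function.update (fun _ : Fin d => N) k ((Icc 1 N).filter p).card := by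
    funext i
    by_cases hi : i = k
    · subst hi
      simp
    · simp [Function.update_of_ne hi]
  rw [h2, prod_update_of_mem (mem_univ k)]
  simp [card_sdiff_of_subset]

open Classical in
theorem cnt_hi {d N : ℕ} (hd : 1 ≤ d) (hN : 1 ≤ N) (k : Fin d) {δ : ℝ} (h0 : 0 < δ) (h1 : δ ≤ 1) :
    (((grid d N).filter fun x => (1 - δ) * N < (x k : ℝ)).card : ℝ) ≤
      (δ + 1 / N) * (N : ℝ) ^ d := by
  have hN' : (0 : ℝ) < N := by exact_mod_cast hN
  have h2 := cnt_coord (N := N) k (fun v => (1 - δ) * N < (v : ℝ))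
  rw [h2]
  have h3 : ((Icc 1 N).filter fun v : ℕ => (1 - δ) * N < (v : ℝ)) ⊆ Ioc ⌊(1 - δ) * (N : ℝ)⌋₊ N := by
    intro v hv
    rw [mem_filter, mem_Icc] at hv
    rw [mem_Ioc]
    refine ⟨?_, hv.1.2⟩
    rw [Nat.floor_lt (mul_nonneg (by linarith) hN'.le)]
    exact hv.2
  have h4 := card_le_card h3
  rw [Nat.card_Ioc] at h4
  have h5 : ⌊(1 - δ) * (N : ℝ)⌋₊ ≤ N := by
    refine Nat.floor_le_of_le ?_
    nlinarith
  have h6 : (((Icc 1 N).filter fun v : ℕ => (1 - δ) * N < (v : ℝ)).card : ℝ) ≤ δ * N + 1 := by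
    have h7 : (((Icc 1 N).filter fun v : ℕ => (1 - δ) * N < (v : ℝ)).card : ℝ) ≤
        ((N - ⌊(1 - δ) * (N : ℝ)⌋₊ : ℕ) : ℝ) := by exact_mod_cast h4
    rw [Nat.cast_sub h5] at h7
    have h8 := Nat.lt_floor_add_one ((1 - δ) * (N : ℝ))
    linarith
  push_cast
  have h9 : (N : ℝ) ^ d = N * N ^ (d - 1) := by
    rw [← pow_succ']
    congr 1
    omega
  rw [h9]
  have h10 : (δ + 1 / N) * (N * (N : ℝ) ^ (d - 1)) = (δ * N + 1) * (N : ℝ) ^ (d - 1) := by
    field_simp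
  rw [h10]
  exact mul_le_mul_of_nonneg_right h6 (by positivity)

open Classical in
theorem cnt_lo {d N : ℕ} (hd : 1 ≤ d) (hN : 1 ≤ N) (k : Fin d) {δ : ℝ} (h0 : 0 < δ) :
    (((grid d N).filter fun x => (x k : ℝ) < δ * N).card : ℝ) ≤ δ * (N : ℝ) ^ d := by
  have hN' : (0 : ℝ) < N := by exact_mod_cast hN
  have h2 := cnt_coord (N := N) k (fun v => (v : ℝ) < δ * N)
  rw [h2]
  have h3 : ((Icc 1 N).filter fun v : ℕ => (v : ℝ) < δ * N) ⊆ Icc 1 ⌊δ * (N : ℝ)⌋₊ := by
    intro v hv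
    rw [mem_filter, mem_Icc] at hv
    rw [mem_Icc]
    exact ⟨hv.1.1, Nat.le_floor hv.2.le⟩
  have h4 := card_le_card h3
  rw [Nat.card_Icc] at h4
  have h6 : (((Icc 1 N).filter fun v : ℕ => (v : ℝ) < δ * N).card : ℝ) ≤ δ * N := by
    have h7 : (((Icc 1 N).filter fun v : ℕ => (v : ℝ) < δ * N).card : ℝ) ≤
        ((⌊δ * (N : ℝ)⌋₊ + 1 - 1 : ℕ) : ℝ) := by exact_mod_cast h4
    rw [Nat.add_sub_cancel] at h7
    exact h7.trans (Nat.floor_le (by positivity))
  push_cast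
  have h9 : (N : ℝ) ^ d = N * N ^ (d - 1) := by
    rw [← pow_succ']
    congr 1
    omega
  rw [h9, ← mul_assoc]
  exact mul_le_mul_of_nonneg_right h6 (by positivity)

open Classical in
/-- the slab has at most the expected number of points -/
theorem slab_card_le {m N : ℕ} (hN : 1 ≤ N) {c u : ℝ} (hc : 0 ≤ c) (hs : 2 * c + u = m + 1) :
    ((slab (m + 1) N c).card : ℝ) ≤
      (1 - F (m + 1) c - F (m + 1) u + ((m + 1 : ℕ) : ℝ) / N) * (N : ℝ) ^ (m + 1) := by
  have h := cnt_layer (d := m + 1) (N := N) (by omega) hN (s := c) (t := 2 * c) (by linarith)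
  have h2 : F (m + 1) (2 * c) = 1 - F (m + 1) u := by
    rw [← F_symm (by omega)]
    congr 1
    push_cast
    linarith
  rw [h2] at h
  unfold slab
  refine h.trans (le_of_eq ?_)
  ring

open Classical in
/-- the points of `A` outside the slab -/
theorem out_card_le {d N : ℕ} (hd : 1 ≤ d) (hN : 1 ≤ N) {c δ : ℝ} (h0 : 0 < δ) (h1 : δ ≤ 1)
    {A : Finset (Fin d → ℕ)} (hA : A ⊆ grid d N)
    (hlow : ∀ p ∈ A, p ∈ grid d N → (∀ k, (p k : ℝ) ≤ (1 - δ) * N) → (c - δ) * N < ∑ k, (p k : ℝ))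
    (hhigh : ∀ p ∈ A, p ∈ grid d N → (∀ k, δ * N ≤ (p k : ℝ)) → ∑ k, (p k : ℝ) < (2 * c + δ) * N) :
    ((A \ slab d N c).card : ℝ) ≤ (2 * (d + 1) * δ + 3 * d / N) * (N : ℝ) ^ d := by
  have hN' : (0 : ℝ) < N := by exact_mod_cast hN
  set H : Finset (Fin d → ℕ) :=
    univ.biUnion fun k : Fin d => (grid d N).filter fun x => (1 - δ) * N < (x k : ℝ) with hH
  set L : Finset (Fin d → ℕ) :=
    univ.biUnion fun k : Fin d => (grid d N).filter fun x => (x k : ℝ) < δ * N with hL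
  set B₁ : Finset (Fin d → ℕ) :=
    (grid d N).filter fun x => (c - δ) * N < ∑ i, (x i : ℝ) ∧ ∑ i, (x i : ℝ) ≤ c * N with hB₁
  set B₂ : Finset (Fin d → ℕ) :=
    (grid d N).filter fun x => (2 * c) * N < ∑ i, (x i : ℝ) ∧ ∑ i, (x i : ℝ) ≤ (2 * c + δ) * N
    with hB₂
  have hsub : A \ slab d N c ⊆ H ∪ L ∪ B₁ ∪ B₂ := by
    intro x hx
    rw [mem_sdiff] at hx
    have hxg := hA hx.1
    have hns := hx.2
    unfold slab at hns
    rw [mem_filter] at hns
    rw [mem_union, mem_union, mem_union]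
    by_cases c1 : ∃ k, (1 - δ) * N < (x k : ℝ)
    · left; left; left
      obtain ⟨k, hk⟩ := c1
      rw [hH, mem_biUnion]
      exact ⟨k, mem_univ k, mem_filter.2 ⟨hxg, hk⟩⟩
    by_cases c2 : ∃ k, (x k : ℝ) < δ * N
    · left; left; right
      obtain ⟨k, hk⟩ := c2
      rw [hL, mem_biUnion]
      exact ⟨k, mem_univ k, mem_filter.2 ⟨hxg, hk⟩⟩
    push Not at c1 c2
    have a1 := hlow x hx.1 hxg c1
    have a2 := hhigh x hx.1 hxg c2
    by_cases c3 : ∑ i, (x i : ℝ) ≤ c * N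
    · left; right
      rw [hB₁, mem_filter]
      exact ⟨hxg, a1, c3⟩
    · right
      rw [hB₂, mem_filter]
      refine ⟨hxg, ?_, a2.le⟩
      by_contra h
      exact hns ⟨hxg, not_le.1 c3, not_lt.1 h⟩
  have e1 : (H.card : ℝ) ≤ d * ((δ + 1 / N) * (N : ℝ) ^ d) := by
    have h2 : (H.card : ℝ) ≤
        ∑ k : Fin d, (((grid d N).filter fun x => (1 - δ) * N < (x k : ℝ)).card : ℝ) := by
      exact_mod_cast card_biUnion_le
    refine h2.trans ((sum_le_sum fun k _ => cnt_hi hd hN k h0 h1).trans ?_)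
    rw [sum_const, card_univ, Fintype.card_fin, nsmul_eq_mul]
  have e2 : (L.card : ℝ) ≤ d * (δ * (N : ℝ) ^ d) := by
    have h2 : (L.card : ℝ) ≤
        ∑ k : Fin d, (((grid d N).filter fun x => (x k : ℝ) < δ * N).card : ℝ) := by
      exact_mod_cast card_biUnion_le
    refine h2.trans ((sum_le_sum fun k _ => cnt_lo hd hN k h0).trans ?_)
    rw [sum_const, card_univ, Fintype.card_fin, nsmul_eq_mul]
  have e3 : (B₁.card : ℝ) ≤ (δ + d / N) * (N : ℝ) ^ d := by
    refine (cnt_layer hd hN (s := c - δ) (t := c) (by linarith)).trans ?_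
    refine mul_le_mul_of_nonneg_right ?_ (by positivity)
    have h3 := F_lip hd c (c - δ)
    rw [show c - (c - δ) = δ by ring, abs_of_pos h0] at h3
    have h5 := (abs_le.1 h3).2
    linarith
  have e4 : (B₂.card : ℝ) ≤ (δ + d / N) * (N : ℝ) ^ d := by
    refine (cnt_layer hd hN (s := 2 * c) (t := 2 * c + δ) (by linarith)).trans ?_
    refine mul_le_mul_of_nonneg_right ?_ (by positivity)
    have h3 := F_lip hd (2 * c + δ) (2 * c)
    rw [show 2 * c + δ - 2 * c = δ by ring, abs_of_pos h0] at h3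
    have h5 := (abs_le.1 h3).2
    linarith
  have e5 : ((A \ slab d N c).card : ℝ) ≤ H.card + L.card + B₁.card + B₂.card := by
    have h2 := (card_le_card hsub).trans (card_union_le _ _)
    have h3 := card_union_le (H ∪ L) B₁
    have h4 := card_union_le H L
    have : (A \ slab d N c).card ≤ H.card + L.card + B₁.card + B₂.card := by omega
    exact_mod_cast this
  refine e5.trans ?_
  have e6 : (2 * (d + 1) * δ + 3 * d / N) * (N : ℝ) ^ d =
      d * ((δ + 1 / N) * (N : ℝ) ^ d) + d * (δ * (N : ℝ) ^ d) + (δ + d / N) * (N : ℝ) ^ d +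
        (δ + d / N) * (N : ℝ) ^ d := by ring
  rw [e6]
  linarith

/-- stability from the deep estimate and the exclusion of low and high points -/
theorem stability_of {m : ℕ} {c u : ℝ} (hc : 0 ≤ c) (hs : 2 * c + u = m + 1)
    (hdeep : ∃ K : ℝ, 0 < K ∧ ∀ N : ℕ, 1 ≤ N → ∀ A : Finset (Fin (m + 1) → ℕ),
      A ⊆ grid (m + 1) N → SumFree A → ∀ η : ℝ,
      (1 - F (m + 1) c - F (m + 1) u - η) * (N : ℝ) ^ (m + 1) ≤ A.card → ∀ i : Fin (m + 1),
      ((deepMiss N c i A).card : ℝ) ≤ 50 * (η + K / √(N : ℝ)) * (N : ℝ) ^ (m + 1))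
    (hlow : ∀ δ : ℝ, 0 < δ → ∃ κ : ℝ, 0 < κ ∧ ∃ N₀ : ℕ, ∀ N : ℕ, N₀ ≤ N →
      ∀ A : Finset (Fin (m + 1) → ℕ), SumFree A →
      (∀ i, ((deepMiss N c i A).card : ℝ) ≤ κ * (N : ℝ) ^ (m + 1)) →
      ∀ p ∈ A, p ∈ grid (m + 1) N → (∀ k, (p k : ℝ) ≤ (1 - δ) * N) →
        (c - δ) * N < ∑ k, (p k : ℝ))
    (hhigh : ∀ δ : ℝ, 0 < δ → ∃ κ : ℝ, 0 < κ ∧ ∃ N₀ : ℕ, ∀ N : ℕ, N₀ ≤ N →
      ∀ A : Finset (Fin (m + 1) → ℕ), SumFree A →
      (∀ i, ((deepMiss N c i A).card : ℝ) ≤ κ * (N : ℝ) ^ (m + 1)) →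
      ∀ p ∈ A, p ∈ grid (m + 1) N → (∀ k, δ * N ≤ (p k : ℝ)) →
        ∑ k, (p k : ℝ) < (2 * c + δ) * N)
    {δ : ℝ} (hδ : 0 < δ) :
    ∃ η : ℝ, 0 < η ∧ ∃ N₀ : ℕ, ∀ N : ℕ, N₀ ≤ N → ∀ A : Finset (Fin (m + 1) → ℕ),
      A ⊆ grid (m + 1) N → SumFree A →
      (1 - F (m + 1) c - F (m + 1) u - η) * (N : ℝ) ^ (m + 1) ≤ A.card →
      (((A \ slab (m + 1) N c) ∪ (slab (m + 1) N c \ A)).card : ℝ) ≤ δ * (N : ℝ) ^ (m + 1) := by
  classical
  obtain ⟨K, hK, hdeep⟩ := hdeep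
  obtain ⟨D, hD⟩ : ∃ D : ℝ, D = ((m + 1 : ℕ) : ℝ) := ⟨_, rfl⟩
  have hD1 : 1 ≤ D := by rw [hD]; push_cast; linarith [(Nat.cast_nonneg m : (0 : ℝ) ≤ m)]
  obtain ⟨δ', hδ'⟩ : ∃ δ' : ℝ, δ' = min 1 (δ / (16 * (D + 1))) := ⟨_, rfl⟩
  have hδ'0 : 0 < δ' := by rw [hδ']; exact lt_min one_pos (by positivity)
  have hδ'1 : δ' ≤ 1 := by rw [hδ']; exact min_le_left _ _
  have hδ'2 : 4 * (D + 1) * δ' ≤ δ / 4 := by
    have : δ' ≤ δ / (16 * (D + 1)) := by rw [hδ']; exact min_le_right _ _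
    calc 4 * (D + 1) * δ' ≤ 4 * (D + 1) * (δ / (16 * (D + 1))) :=
          mul_le_mul_of_nonneg_left this (by positivity)
      _ = δ / 4 := by field_simp; ring
  obtain ⟨κ₁, hκ₁, N₁, h₁⟩ := hlow δ' hδ'0
  obtain ⟨κ₂, hκ₂, N₂, h₂⟩ := hhigh δ' hδ'0
  obtain ⟨κ, hκ⟩ : ∃ κ : ℝ, κ = min κ₁ κ₂ := ⟨_, rfl⟩
  have hκ0 : 0 < κ := by rw [hκ]; exact lt_min hκ₁ hκ₂
  obtain ⟨N₃, hN₃⟩ := exists_nat_ge ((100 * K / κ) ^ 2)
  obtain ⟨N₄, hN₄⟩ := exists_nat_ge (28 * D / δ)
  refine ⟨min (δ / 4) (κ / 100), lt_min (by positivity) (by positivity),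
    max (max N₁ N₂) (max (max N₃ N₄) 1), ?_⟩
  intro N hN A hA hsf hcard
  have n1 : N₁ ≤ N := (le_max_left _ _).trans ((le_max_left _ _).trans hN)
  have n2 : N₂ ≤ N := (le_max_right _ _).trans ((le_max_left _ _).trans hN)
  have n3 : N₃ ≤ N := (le_max_left _ _).trans ((le_max_left _ _).trans
    ((le_max_right _ _).trans hN))
  have n4 : N₄ ≤ N := (le_max_right _ _).trans ((le_max_left _ _).trans
    ((le_max_right _ _).trans hN))
  have n5 : 1 ≤ N := (le_max_right _ _).trans ((le_max_right _ _).trans hN)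
  have hN' : (0 : ℝ) < N := by exact_mod_cast n5
  have hs0 : 0 < √(N : ℝ) := Real.sqrt_pos.2 hN'
  obtain ⟨η, hη⟩ : ∃ η : ℝ, η = min (δ / 4) (κ / 100) := ⟨_, rfl⟩
  rw [← hη] at hcard
  have hη1 : η ≤ δ / 4 := by rw [hη]; exact min_le_left _ _
  have hη2 : η ≤ κ / 100 := by rw [hη]; exact min_le_right _ _
  have hKN : K / √(N : ℝ) ≤ κ / 100 := by
    rw [div_le_iff₀ hs0]
    have h5 : 100 * K / κ ≤ √(N : ℝ) := by
      refine Real.le_sqrt_of_sq_le ?_
      refine hN₃.trans ?_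
      exact_mod_cast n3
    have h6 : 100 * K / κ * κ = 100 * K := div_mul_cancel₀ _ hκ0.ne'
    nlinarith [mul_le_mul_of_nonneg_right h5 hκ0.le]
  have hdm : ∀ i, ((deepMiss N c i A).card : ℝ) ≤ κ * (N : ℝ) ^ (m + 1) := by
    intro i
    refine (hdeep N n5 A hA hsf η hcard i).trans ?_
    refine mul_le_mul_of_nonneg_right ?_ (by positivity)
    linarith
  have hlo := h₁ N n1 A hsf fun i => (hdm i).trans
    (mul_le_mul_of_nonneg_right (by rw [hκ]; exact min_le_left _ _) (by positivity))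
  have hhi := h₂ N n2 A hsf fun i => (hdm i).trans
    (mul_le_mul_of_nonneg_right (by rw [hκ]; exact min_le_right _ _) (by positivity))
  have hout := out_card_le (d := m + 1) (N := N) (c := c) (by omega) n5 hδ'0 hδ'1 hA hlo hhi
  have hsl := slab_card_le (m := m) n5 hc hs
  rw [← hD] at hout hsl
  have hDN : D / N ≤ δ / 28 := by
    rw [div_le_iff₀ hN']
    have h5 : 28 * D / δ ≤ N := hN₄.trans (by exact_mod_cast n4)
    rw [div_le_iff₀ hδ] at h5
    linarith
  have hP : (0 : ℝ) < (N : ℝ) ^ (m + 1) := by positivity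
  have e1 : (A.card : ℝ) = (A ∩ slab (m + 1) N c).card + (A \ slab (m + 1) N c).card := by
    exact_mod_cast (card_inter_add_card_sdiff A (slab (m + 1) N c)).symm
  have e2 : ((slab (m + 1) N c).card : ℝ) =
      (A ∩ slab (m + 1) N c).card + (slab (m + 1) N c \ A).card := by
    have := card_inter_add_card_sdiff (slab (m + 1) N c) A
    rw [inter_comm] at this
    exact_mod_cast this.symm
  have e3 : (((A \ slab (m + 1) N c) ∪ (slab (m + 1) N c \ A)).card : ℝ) ≤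
      (A \ slab (m + 1) N c).card + (slab (m + 1) N c \ A).card := by
    exact_mod_cast card_union_le _ _
  have e4 : (2 * (D + 1) * δ' + 3 * D / N) * (N : ℝ) ^ (m + 1) ≤
      (δ / 8 + 3 * δ / 28) * (N : ℝ) ^ (m + 1) := by
    refine mul_le_mul_of_nonneg_right ?_ hP.le
    have : 3 * D / N = 3 * (D / N) := by ring
    rw [this]
    linarith
  have e5 : (1 - F (m + 1) c - F (m + 1) u + D / N) * (N : ℝ) ^ (m + 1) -
      (1 - F (m + 1) c - F (m + 1) u - η) * (N : ℝ) ^ (m + 1) ≤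
      (δ / 4 + δ / 28) * (N : ℝ) ^ (m + 1) := by
    rw [← sub_mul]
    refine mul_le_mul_of_nonneg_right ?_ hP.le
    linarith
  have e6 : δ * (N : ℝ) ^ (m + 1) =
      2 * ((δ / 8 + 3 * δ / 28) * (N : ℝ) ^ (m + 1)) + (δ / 4 + δ / 28) * (N : ℝ) ^ (m + 1) +
      δ / 4 * (N : ℝ) ^ (m + 1) := by ring
  have e7 : 0 ≤ δ / 4 * (N : ℝ) ^ (m + 1) := by positivity
  rw [e6]
  linarith

end Pool.Agent.Work.MP_0cd883_co.Cube
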