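import Pool.Agent.Work.MP_0cd883_co.Cube.ModH

/-! Module T, part 1: the critical level is the unique minimiser. -/

namespace Pool.Agent.Work.MP_0cd883_co.Cube

open Set

/-- the density is strictly increasing up to the middle -/
theorem f_strictMonoOn {n : ℕ} (hn : 2 ≤ n) : StrictMonoOn (f n) (Icc 0 ((n : ℝ) / 2)) := by
  induction n, hn using Nat.le_induction with
  | base =>
    intro x hx y hy hxy
    have hy1 : y ≤ 1 := by
      have h := hy.2
      push_cast at h
      linarith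
    unfold f
    show F 1 x - F 1 (x - 1) < F 1 y - F 1 (y - 1)
    rw [F_eq_zero le_rfl (show x - 1 ≤ 0 by linarith),
      F_eq_zero le_rfl (show y - 1 ≤ 0 by linarith)]
    have h := F_strictMonoOn (n := 1) le_rfl (a := x) (b := y)
      ⟨hx.1, by push_cast; linarith⟩ ⟨by linarith [hx.1], by push_cast; linarith⟩ hxy
    linarith
  | succ n hn ih =>
    have hn2 : (2 : ℝ) ≤ n := by exact_mod_cast hn
    refine strictMonoOn_of_deriv_pos (convex_Icc _ _) (f_continuous (by omega)).continuousOn ?_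
    intro x hx
    rw [interior_Icc] at hx
    have hx0 : 0 < x := hx.1
    have hx' : x < ((n + 1 : ℕ) : ℝ) / 2 := hx.2
    push_cast at hx'
    rw [(hasDerivAt_f hn x).deriv, sub_pos]
    rcases le_total (x - 1) 0 with h1 | h1
    · rw [f_eq_zero_left hn h1]
      exact f_pos hn hx0 (by linarith)
    rcases le_total x (n / 2) with h | h
    · exact ih ⟨h1, by linarith⟩ ⟨hx0.le, h⟩ (by linarith)
    · have h2 := ih (a := x - 1) (b := (n : ℝ) - x) ⟨h1, by linarith⟩ ⟨by linarith, by linarith⟩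
        (by linarith)
      rw [f_symm hn] at h2
      exact h2

/-- the volume missed by the slab of level `t` in the cube of dimension `d` -/
noncomputable def Ph (d : ℕ) (t : ℝ) : ℝ := F d t + F d (d - 2 * t)

theorem Ph_hasDerivAt {d : ℕ} (hd : 2 ≤ d) (t : ℝ) :
    HasDerivAt (Ph d) (f d t - 2 * f d (d - 2 * t)) t := by
  have h1 := hasDerivAt_F hd t
  have h3 : HasDerivAt (fun s : ℝ => (d : ℝ) - 2 * s) (-2) t := by
    have := ((hasDerivAt_id t).const_mul (2 : ℝ)).const_sub (d : ℝ)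
    simpa using this
  have h2 := (hasDerivAt_F hd (d - 2 * t)).comp t h3
  have h4 := h1.add h2
  refine h4.congr_deriv ?_
  ring

theorem Ph_continuous {d : ℕ} (hd : 2 ≤ d) : Continuous (Ph d) :=
  continuous_iff_continuousAt.2 fun s => (Ph_hasDerivAt hd s).continuousAt

theorem Ph_strictAntiOn {d : ℕ} (hd : 2 ≤ d) {c : ℝ} (hc2 : c < (d : ℝ) / 2)
    (hcrit : f d c = 2 * f d (d - 2 * c)) :
    StrictAntiOn (Ph d) (Icc 0 c) := by
  have hd0 : (2 : ℝ) ≤ d := by exact_mod_cast hd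
  refine strictAntiOn_of_deriv_neg (convex_Icc _ _) (Ph_continuous hd).continuousOn ?_
  intro t ht
  rw [interior_Icc] at ht
  have ht0 : 0 < t := ht.1
  have htc : t < c := ht.2
  rw [(Ph_hasDerivAt hd t).deriv]
  rcases le_total t (d / 4) with h | h
  · have h1 := f_symm hd (2 * t)
    have h2 := f_monoOn hd (a := t) (b := 2 * t) (show t ≤ (d : ℝ) / 2 by linarith)
      (show 2 * t ≤ (d : ℝ) / 2 by linarith) (by linarith)
    have h3 := f_pos hd (x := 2 * t) (by linarith) (by linarith)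
    rw [h1]
    linarith
  · have h1 := f_monoOn hd (a := t) (b := c) (show t ≤ (d : ℝ) / 2 by linarith)
      (show c ≤ (d : ℝ) / 2 by linarith) htc.le
    have h2 := f_strictMonoOn hd (a := (d : ℝ) - 2 * c) (b := (d : ℝ) - 2 * t)
      ⟨by linarith, by linarith⟩ ⟨by linarith, by linarith⟩ (by linarith)
    linarith

theorem Ph_strictMonoOn {d : ℕ} (hd : 2 ≤ d) {c : ℝ} (hc1 : (d : ℝ) / 4 < c)
    (hcrit : f d c = 2 * f d (d - 2 * c)) :
    StrictMonoOn (Ph d) (Icc c ((d : ℝ) / 2)) := by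
  refine strictMonoOn_of_deriv_pos (convex_Icc _ _) (Ph_continuous hd).continuousOn ?_
  intro t ht
  rw [interior_Icc] at ht
  have htc : c < t := ht.1
  have htd : t < (d : ℝ) / 2 := ht.2
  rw [(Ph_hasDerivAt hd t).deriv]
  have h1 := f_monoOn hd (a := c) (b := t) (show c ≤ (d : ℝ) / 2 by linarith)
    (show t ≤ (d : ℝ) / 2 by linarith) htc.le
  have h2 := f_strictMonoOn hd (a := (d : ℝ) - 2 * t) (b := (d : ℝ) - 2 * c)
    ⟨by linarith, by linarith⟩ ⟨by linarith, by linarith⟩ (by linarith)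
  linarith

theorem Ph_of_nonpos {d : ℕ} (hd : 1 ≤ d) {t : ℝ} (ht : t ≤ 0) : Ph d t = 1 := by
  unfold Ph
  rw [F_eq_zero hd ht, F_eq_one (by linarith), zero_add]

theorem Ph_mono_right {d : ℕ} (hd : 1 ≤ d) {t : ℝ} (ht : (d : ℝ) / 2 ≤ t) :
    Ph d (d / 2) ≤ Ph d t := by
  unfold Ph
  rw [F_eq_zero hd (show (d : ℝ) - 2 * (d / 2) ≤ 0 by linarith),
    F_eq_zero hd (show (d : ℝ) - 2 * t ≤ 0 by linarith)]
  have := F_mono d ht
  linarith

/-- off a neighbourhood of the critical level the missed volume is larger by a constant -/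
theorem Ph_gap {d : ℕ} (hd : 2 ≤ d) {c : ℝ} (hc1 : (d : ℝ) / 4 < c)
    (hc2 : c < (d : ℝ) / 2) (hcrit : f d c = 2 * f d (d - 2 * c)) {ε : ℝ} (hε : 0 < ε) :
    ∃ η : ℝ, 0 < η ∧ ∀ t : ℝ, ε ≤ |t - c| → Ph d c + η ≤ Ph d t := by
  have hd0 : (2 : ℝ) ≤ d := by exact_mod_cast hd
  have hA := Ph_strictAntiOn hd hc2 hcrit
  have hM := Ph_strictMonoOn hd hc1 hcrit
  set e : ℝ := min ε (min c (d / 2 - c)) with he
  have he0 : 0 < e := lt_min hε (lt_min (by linarith) (by linarith))
  have he1 : e ≤ ε := min_le_left _ _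
  have he2 : e ≤ c := (min_le_right _ _).trans (min_le_left _ _)
  have he3 : e ≤ d / 2 - c := (min_le_right _ _).trans (min_le_right _ _)
  have h1 : Ph d c < Ph d (c - e) := hA ⟨by linarith, by linarith⟩ ⟨by linarith, le_rfl⟩ (by linarith)
  have h2 : Ph d c < Ph d (c + e) := hM ⟨le_rfl, by linarith⟩ ⟨by linarith, by linarith⟩ (by linarith)
  refine ⟨min (Ph d (c - e) - Ph d c) (Ph d (c + e) - Ph d c),
    lt_min (by linarith) (by linarith), ?_⟩
  intro t ht
  have m1 := min_le_left (Ph d (c - e) - Ph d c) (Ph d (c + e) - Ph d c)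
  have m2 := min_le_right (Ph d (c - e) - Ph d c) (Ph d (c + e) - Ph d c)
  rcases le_total t c with h | h
  · rw [abs_of_nonpos (by linarith)] at ht
    have h3 : Ph d (c - e) ≤ Ph d t := by
      rcases le_total t 0 with h0 | h0
      · have h4 : Ph d (c - e) ≤ Ph d 0 :=
          hA.antitoneOn ⟨le_rfl, by linarith⟩ ⟨by linarith, by linarith⟩ (by linarith)
        rw [Ph_of_nonpos (by omega) le_rfl] at h4
        rw [Ph_of_nonpos (by omega) h0]
        exact h4
      · exact hA.antitoneOn ⟨h0, h⟩ ⟨by linarith, by linarith⟩ (by linarith)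
    linarith
  · rw [abs_of_nonneg (by linarith)] at ht
    have h3 : Ph d (c + e) ≤ Ph d t := by
      rcases le_total t (d / 2) with h0 | h0
      · exact hM.monotoneOn ⟨by linarith, by linarith⟩ ⟨h, h0⟩ (by linarith)
      · exact (hM.monotoneOn ⟨by linarith, by linarith⟩ ⟨by linarith, le_rfl⟩
          (by linarith)).trans (Ph_mono_right (by omega) h0)
    linarith

/-- `F d t + F d (d - 2t)` has a unique minimiser, the critical level -/
theorem unique_min {m : ℕ} (hm : 1 ≤ m) {c : ℝ} (hc1 : ((m : ℝ) + 1) / 3 < c)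
    (hc2 : c < ((m : ℝ) + 1) / 2) (hcrit : f (m + 1) c = 2 * f (m + 1) (m + 1 - 2 * c)) (t : ℝ)
    (ht : t ≠ c) :
    F (m + 1) c + F (m + 1) (m + 1 - 2 * c) < F (m + 1) t + F (m + 1) (m + 1 - 2 * t) := by
  have hm0 : (0 : ℝ) ≤ m := Nat.cast_nonneg m
  have hcast : ((m + 1 : ℕ) : ℝ) = m + 1 := by push_cast; ring
  have hc1' : ((m + 1 : ℕ) : ℝ) / 4 < c := by rw [hcast]; linarith
  have hc2' : c < ((m + 1 : ℕ) : ℝ) / 2 := by rw [hcast]; linarith
  have hcrit' : f (m + 1) c = 2 * f (m + 1) (((m + 1 : ℕ) : ℝ) - 2 * c) := by rw [hcast]; exact hcrit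
  obtain ⟨η, hη, h⟩ := Ph_gap (d := m + 1) (by omega) hc1' hc2' hcrit' (ε := |t - c|)
    (abs_pos.2 (sub_ne_zero.2 ht))
  have h1 := h t le_rfl
  unfold Ph at h1
  rw [hcast] at h1
  linarith

end Pool.Agent.Work.MP_0cd883_co.Cube
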